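import Pool.Agent.Helper65.GG.Thm

/-!
Kobayashi hyperbolicity of closed subsets of projective sets.
-/

set_option autoImplicit false

open Filter Topology Metric MvPolynomial Set LinearAlgebra.Projectivization

namespace Pool.Agent.Helper65.NC

open Pool.Agent.W602.GT Pool.Agent.N155.BB Pool.Agent.Y190.OP Pool.Agent.N155
  Pool.Agent.N155.GD Pool.Agent.Helper65.BF Pool.Agent.Helper65.GG

variable {n : ℕ} {ι : Type} {F : ι → MvPolynomial (Fin (n + 1)) ℂ} {V : Set (Fin (n + 1) → ℂ)}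

/-- The map `f` is holomorphic on the unit disc, with values in the projective set with the cone
`V`. -/
def DiscIn (V : Set (Fin (n + 1) → ℂ)) (f : ℂ → ℙ ℂ (Fin (n + 1) → ℂ)) : Prop :=
  ∀ z : ℂ, ‖z‖ < 1 → (f z).rep ∈ V ∧ ∃ (W : Set ℂ) (g : ℂ → Fin (n + 1) → ℂ), IsOpen W ∧ z ∈ W ∧
    DifferentiableOn ℂ g W ∧ ∀ w ∈ W, ∃ h : g w ≠ 0, f w = Projectivization.mk ℂ (g w) h

/-- The projective set with the cone `V` is Kobayashi hyperbolic: there is a number `C` such that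
for all holomorphic maps `f` from the unit disc to the set the length of the derivative of `f`, with
respect to the Poincaré metric of the disc and the Fubini-Study metric, is at most `C`. In local
homogeneous coordinates `g` of `f` the length of the derivative with respect to the Fubini-Study
metric is `|g ∧ g'| / |g| ^ 2`. -/
def KobayashiHyperbolic (V : Set (Fin (n + 1) → ℂ)) : Prop :=
  ∃ C : ℝ, ∀ f, DiscIn V f → ∀ (W : Set ℂ) (g : ℂ → Fin (n + 1) → ℂ), IsOpen W →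
    DifferentiableOn ℂ g W → (∀ w ∈ W, ∃ h : g w ≠ 0, f w = Projectivization.mk ℂ (g w) h) →
    ∀ z ∈ W, ‖z‖ < 1 → (1 - ‖z‖ ^ 2) * wedge (g z) (deriv g z) ≤ C * ∑ k, ‖g z k‖ ^ 2

namespace EQV

theorem brody_bound {T : Set (Mat (n + 1))} (hT : IsCompact T) (hTP : T ⊆ PM)
    (hB : ∀ φ, BD T φ → ∀ z, fderiv ℝ φ z = 0) :
    ∃ M : ℝ, 0 < M ∧ ∀ Ψ, CvOn T (ball 0 1) Ψ → ‖fderiv ℝ Ψ 0‖ ≤ M := by
  by_contra hcon
  push Not at hcon
  have h1 : ∀ m : ℕ, ∃ Ψ, CvOn T (ball 0 1) Ψ ∧ 2 * (m + 1 : ℝ) < ‖fderiv ℝ Ψ 0‖ := fun m =>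
    hcon _ (by positivity)
  choose Ψ hΨ hbig using h1
  have h2 := fun m : ℕ => rescale' (M := (m + 1 : ℝ)) (by positivity) (hΨ m) (hbig m)
  choose a ρ hρ hρ' hmaps hd h0 using h2
  obtain ⟨H, hH, -, -, hlim⟩ := limit_growing hT hTP (h := fun m z => Ψ m (aff (a m) (ρ m) z))
    (fun m => (hΨ m).comp isOpen_ball (by
      unfold aff
      fun_prop) (hmaps m)) hd
  have h3 := (hlim 0).norm
  have h4 : Tendsto (fun m : ℕ => ‖fderiv ℝ (fun z => Ψ m (aff (a m) (ρ m) z)) 0‖)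
      ((hyperfilter ℕ : Ultrafilter ℕ) : Filter ℕ) (𝓝 1) := by
    simp only [h0]
    exact tendsto_const_nhds
  have h5 := tendsto_nhds_unique h3 h4
  rw [hB H hH 0, norm_zero] at h5
  exact zero_ne_one h5

/-- Brody's lemma. -/
theorem kobayashi_of (hV : ClosedCone V) (hVX : V ⊆ Cone F)
    (hB : ∀ f, CurveIn V f → ∀ z w, f z = f w) : KobayashiHyperbolic V := by
  have hTP : Phi '' V ⊆ PM := (V_sub hVX).trans TF_PM
  obtain ⟨M, hM, hb⟩ := brody_bound (compact_V hV hVX) hTP fun φ hφ z =>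
    const_of_toProj hVX hφ.mem (hB _ (curve_of hV hVX hφ).1) z
  obtain ⟨A, hA, hw⟩ := wedge_fderivOn n
  refine ⟨2 * A * M, fun f hf W g hW hg hfg z hz hz1 => ?_⟩
  set φ : ℂ → Mat (n + 1) := fun z => Phi (f z).rep with hφ
  have hcv : CvOn (Phi '' V) (ball 0 1) φ :=
    ⟨holP_of_mapOn fun w hw => (hf w (mem_ball_zero_iff.1 hw)).2,
      fun w hw => ⟨_, (hf w (mem_ball_zero_iff.1 hw)).1, rfl⟩⟩
  have hz0 : 0 < 1 - ‖z‖ := by linarith
  have hm : MapsTo (aff z (1 - ‖z‖)) (ball 0 1) (ball 0 1) := by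
    intro w hw
    rw [mem_ball_zero_iff] at hw ⊢
    unfold aff
    refine lt_of_le_of_lt (norm_add_le _ _) ?_
    rw [norm_mul, Complex.norm_real, Real.norm_of_nonneg hz0.le]
    nlinarith [norm_nonneg w]
  have h1 := hb _ (hcv.comp isOpen_ball (ψ := aff z (1 - ‖z‖)) (by
      unfold aff
      fun_prop) hm)
  have h2 : aff z (1 - ‖z‖) 0 = z := by simp [aff]
  have h3 := norm_fderiv_aff (Ψ := φ) (a := z) (ρ := 1 - ‖z‖) hz0.le (z := 0) (by
    rw [h2]; exact hcv.1.differentiableAt (mem_ball_zero_iff.2 hz1))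
  rw [h2] at h3
  rw [h3] at h1
  obtain ⟨-, h4⟩ := hw f W g hW hg hfg z hz
  have hS := (BB.sum_pos (hfg z hz).1).le
  have h5 : (1 - ‖z‖ ^ 2) ≤ 2 * (1 - ‖z‖) := by nlinarith [norm_nonneg z]
  calc (1 - ‖z‖ ^ 2) * wedge (g z) (deriv g z)
      ≤ 2 * (1 - ‖z‖) * wedge (g z) (deriv g z) :=
        mul_le_mul_of_nonneg_right h5 (wedge_nonneg _ _)
    _ ≤ 2 * (1 - ‖z‖) * (A * ‖fderiv ℝ φ z‖ * ∑ k, ‖g z k‖ ^ 2) :=
        mul_le_mul_of_nonneg_left h4 (by linarith)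
    _ = 2 * A * ((1 - ‖z‖) * ‖fderiv ℝ φ z‖) * ∑ k, ‖g z k‖ ^ 2 := by ring
    _ ≤ 2 * A * M * ∑ k, ‖g z k‖ ^ 2 :=
        mul_le_mul_of_nonneg_right (mul_le_mul_of_nonneg_left h1 (by positivity)) hS

/-- Kobayashi hyperbolic sets contain no entire curves. -/
theorem brody_of (hK : KobayashiHyperbolic V) {f : ℂ → ℙ ℂ (Fin (n + 1) → ℂ)} (hf : CurveIn V f) :
    ∀ z w, f z = f w := by
  by_contra hne
  obtain ⟨z, hz⟩ := nonconst_of hf.1 hne
  obtain ⟨C, hC⟩ := hK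
  obtain ⟨A, hA, hw⟩ := wedge_fderivOn n
  obtain ⟨W, g, hW, hzW, hg, hfg⟩ := hf.1 z
  obtain ⟨h1, -⟩ := hw f W g hW hg hfg z hzW
  have hS := BB.sum_pos (hfg z hzW).1
  have h2 : 0 < wedge (g z) (deriv g z) := by
    have h3 : 0 < ‖fderiv ℝ (fun z => Phi (f z).rep) z‖ * ∑ k, ‖g z k‖ ^ 2 :=
      mul_pos (norm_pos_iff.2 hz) hS
    have h4 := h3.trans_le h1
    exact pos_of_mul_pos_right h4 hA.le
  -- the curves `f (z + R w)`
  obtain ⟨R, hR⟩ : ∃ R : ℝ, 0 < R ∧ C * ∑ k, ‖g z k‖ ^ 2 < R * wedge (g z) (deriv g z) := by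
    refine ⟨max 1 ((C * ∑ k, ‖g z k‖ ^ 2) / wedge (g z) (deriv g z) + 1), by positivity, ?_⟩
    have h3 : (C * ∑ k, ‖g z k‖ ^ 2) / wedge (g z) (deriv g z) <
        max 1 ((C * ∑ k, ‖g z k‖ ^ 2) / wedge (g z) (deriv g z) + 1) :=
      lt_of_lt_of_le (lt_add_one _) (le_max_right _ _)
    exact (div_lt_iff₀ h2).1 h3
  obtain ⟨hR0, hR1⟩ := hR
  have haff : ∀ w : ℂ, HasDerivAt (fun w : ℂ => z + (R : ℂ) * w) (R : ℂ) w := fun w => by
    simpa using ((hasDerivAt_id w).const_mul (R : ℂ)).const_add z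
  have hcont : Continuous fun w : ℂ => z + (R : ℂ) * w := by fun_prop
  have hdisc : DiscIn V fun w => f (z + R * w) := by
    intro w _
    refine ⟨hf.2 _, ?_⟩
    obtain ⟨U, G, hU, hwU, hG, hfG⟩ := hf.1 (z + R * w)
    exact ⟨(fun w : ℂ => z + (R : ℂ) * w) ⁻¹' U, fun w => G (z + R * w), hU.preimage hcont, hwU,
      hG.comp (fun w _ => (haff w).differentiableAt.differentiableWithinAt) fun w hw => hw,
      fun w hw => hfG _ hw⟩
  have h5 := hC _ hdisc ((fun w : ℂ => z + (R : ℂ) * w) ⁻¹' W) (fun w => g (z + R * w))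
    (hW.preimage hcont)
    (hg.comp (fun w _ => (haff w).differentiableAt.differentiableWithinAt) fun w hw => hw)
    (fun w hw => hfg _ hw) 0 (by simpa using hzW) (by simp)
  have h6 : deriv (fun w : ℂ => g (z + R * w)) 0 = (R : ℂ) • deriv g z := by
    have h7 : HasDerivAt g (deriv g z) (z + R * 0) := by
      rw [mul_zero, add_zero]
      exact (hg.differentiableAt (hW.mem_nhds hzW)).hasDerivAt
    exact (h7.scomp (0 : ℂ) (haff 0)).deriv
  rw [h6, wedge_smul, Complex.norm_real, Real.norm_of_nonneg hR0.le] at h5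
  simp only [norm_zero, mul_zero, add_zero] at h5
  linarith

end EQV

end Pool.Agent.Helper65.NC
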