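import Pool.Agent.Helper65.GG.Thm

/-!
Compositions of nonconstant entire functions and curves, with values in closed sets.
-/

set_option autoImplicit false

open Filter Topology Metric MvPolynomial Set LinearAlgebra.Projectivization

namespace Pool.Agent.Helper65.NC.SPE

open Pool.Agent.W602.GT Pool.Agent.N155.BB Pool.Agent.Y190.OP Pool.Agent.N155
  Pool.Agent.N155.GD Pool.Agent.Helper65.BF Pool.Agent.Helper65.GG

variable {n : ℕ} {ι : Type} {F : ι → MvPolynomial (Fin (n + 1)) ℂ} {V : Set (Fin (n + 1) → ℂ)}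

/-- The range of a nonconstant entire function is dense. -/
theorem dense_range {h : ℂ → ℂ} (hh : Differentiable ℂ h) (hne : ¬ ∀ z w, h z = h w) :
    Dense (range h) := by
  rw [dense_iff_closure_eq, eq_univ_iff_forall]
  by_contra hcon
  push Not at hcon
  obtain ⟨a, ha⟩ := hcon
  rw [Metric.mem_closure_iff] at ha
  push Not at ha
  obtain ⟨ε, hε, ha⟩ := ha
  have hd : ∀ z, ε ≤ ‖h z - a‖ := fun z => by
    have := ha (h z) (mem_range_self z)
    rwa [dist_comm, dist_eq_norm] at this
  have h0 : ∀ z, h z - a ≠ 0 := fun z hz => by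
    have := hd z
    rw [hz, norm_zero] at this
    linarith
  have hdiff : Differentiable ℂ fun z => (h z - a)⁻¹ := (hh.sub_const a).inv h0
  have hb : Bornology.IsBounded (range fun z => (h z - a)⁻¹) := by
    rw [isBounded_iff_forall_norm_le]
    refine ⟨ε⁻¹, ?_⟩
    rintro _ ⟨z, rfl⟩
    rw [norm_inv]
    exact inv_anti₀ hε (hd z)
  apply hne
  intro z w
  have h1 := hdiff.apply_eq_apply_of_bounded hb z w
  have h2 := inv_injective h1
  exact sub_left_injective h2

/-- If `g ∘ h` has its values in the closed set, so has `g`. -/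
theorem curve_closed (hV : ClosedCone V) (hVX : V ⊆ Cone F) {f g : ℂ → ℙ ℂ (Fin (n + 1) → ℂ)}
    {h : ℂ → ℂ} (hg : HolMap g) (hf : CurveIn V f) (hne : ¬ ∀ z w, f z = f w)
    (hh : Differentiable ℂ h) (hfg : ∀ z, f z = g (h z)) : CurveIn V g := by
  refine ⟨hg, ?_⟩
  have hhne : ¬ ∀ z w, h z = h w := fun hc => hne fun z w => by rw [hfg, hfg, hc z w]
  have hd := dense_range hh hhne
  have hcont : Continuous fun z => Phi (g z).rep := by
    rw [continuous_iff_continuousAt]
    intro z
    exact ((holP_of_map hg).differentiableAt (mem_univ z)).continuousAt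
  have hcl : IsClosed {z | Phi (g z).rep ∈ Phi '' V} :=
    (compact_V hV hVX).isClosed.preimage hcont
  have hsub : range h ⊆ {z | Phi (g z).rep ∈ Phi '' V} := by
    rintro _ ⟨z, rfl⟩
    refine ⟨(f z).rep, hf.2 z, ?_⟩
    rw [hfg z]
  have hall := hcl.closure_subset_iff.2 hsub
  rw [hd.closure_eq] at hall
  intro z
  exact (Phi_mem_V hV hVX (Projectivization.rep_nonzero _)).1 (hall (mem_univ z))

end Pool.Agent.Helper65.NC.SPE
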