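import Pool.Agent.Helper65.NC.Stm2

set_option autoImplicit false

open Filter Topology Metric MvPolynomial Set

namespace Pool.Agent.Helper65.NC.CST

open Pool.Agent.W602.GT Pool.Agent.N155.BB Pool.Agent.Y190.OP Pool.Agent.N155
  Pool.Agent.N155.GD Pool.Agent.Helper65.BF Pool.Agent.Helper65.GG Pool.Agent.Helper65.NC

theorem main : S_LIOU → S_CST := by
  intro hL n T ρ hρ φ hφ
  have hcv : CvOn T univ φ := ⟨hφ.hol, fun w _ => hφ.mem w⟩
  obtain ⟨C, α, hC, hα, hsm⟩ := hρ.small
  have hbd : ∀ z, ρ φ z ≤ C * 2 ^ α := by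
    intro z
    refine (hsm φ z (hcv.mono (subset_univ _)) (fun w _ => hφ.bd w)).trans ?_
    exact mul_le_mul_of_nonneg_left
      (Real.rpow_le_rpow (norm_nonneg _) (hφ.bd z) hα.le) hC
  have hmax : ∀ (N : ℝ) (z w : ℂ), max (ρ φ z) (Real.exp (-N)) = max (ρ φ w) (Real.exp (-N)) := by
    intro N z w
    have h1 : lg N (ρ φ) z = lg N (ρ φ) w := by
      refine hL _ (hρ.sub φ univ isOpen_univ hcv N) ⟨Real.log (max (C * 2 ^ α) (Real.exp (-N))), ?_⟩
        z w
      intro z
      exact Real.log_le_log (lt_max_of_lt_right (Real.exp_pos _)) (max_le_max_right _ (hbd z))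
    exact Real.log_injOn_pos (mem_Ioi.2 (lt_max_of_lt_right (Real.exp_pos _)))
      (mem_Ioi.2 (lt_max_of_lt_right (Real.exp_pos _))) h1
  have hle : ∀ z w, ρ φ z ≤ ρ φ w := by
    intro z w
    by_contra hcon
    push Not at hcon
    have hz : 0 < ρ φ z := lt_of_le_of_lt (hρ.nonneg φ w) hcon
    have h1 := hmax (1 - Real.log (ρ φ z)) z w
    have h2 : Real.exp (-(1 - Real.log (ρ φ z))) < ρ φ z := by
      have : Real.exp (-(1 - Real.log (ρ φ z))) < Real.exp (Real.log (ρ φ z)) :=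
        Real.exp_lt_exp.2 (by linarith)
      rwa [Real.exp_log hz] at this
    rw [max_eq_left h2.le] at h1
    exact absurd h1 (max_lt hcon h2).ne'
  exact fun z w => le_antisymm (hle z w) (hle w z)

end Pool.Agent.Helper65.NC.CST
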