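import Pool.Agent.Helper65.NC.Stm2

/-!
Module INI of project NC (the initial scale), by helper99.
-/

set_option autoImplicit false

open Filter Topology Metric MvPolynomial Set

namespace Pool.Agent.Helper65.NC.INI

open Pool.Agent.W602.GT Pool.Agent.N155.BB Pool.Agent.Y190.OP Pool.Agent.N155
  Pool.Agent.N155.GD Pool.Agent.Helper65.BF Pool.Agent.Helper65.GG Pool.Agent.Helper65.NC

variable {n : ℕ}

/-- some point of the circle has at least the mean value -/
theorem exists_ge_mean {u : ℂ → ℝ} {y : ℂ} {s : ℝ} (hs : 0 < s)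
    (hu : ContinuousOn u (sphere y s)) : ∃ w ∈ sphere y s, Real.circleAverage u y s ≤ u w := by
  have hc : IsCompact (sphere y s) := isCompact_sphere y s
  have hne : (sphere y s).Nonempty := NormedSpace.sphere_nonempty.2 hs.le
  obtain ⟨w, hw, hmax⟩ := hc.exists_isMaxOn hne hu
  refine ⟨w, hw, ?_⟩
  have hci : CircleIntegrable u y s := hu.circleIntegrable hs.le
  refine Real.circleAverage_mono_on_of_le_circle hci ?_
  intro x hx
  rw [abs_of_pos hs] at hx
  exact hmax hx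

theorem lg_le {N ε : ℝ} {f : ℂ → ℝ} {z : ℂ} (h : f z ≤ Real.exp ε) (hN : -N ≤ ε) :
    lg N f z ≤ ε := by
  unfold lg
  have h1 : max (f z) (Real.exp (-N)) ≤ Real.exp ε := max_le h (Real.exp_le_exp.2 hN)
  have h0 : 0 < max (f z) (Real.exp (-N)) := lt_max_of_lt_right (Real.exp_pos _)
  calc Real.log (max (f z) (Real.exp (-N))) ≤ Real.log (Real.exp ε) := Real.log_le_log h0 h1
    _ = ε := Real.log_exp _

theorem exp_lg (N : ℝ) (f : ℂ → ℝ) (z : ℂ) :
    Real.exp (lg N f z) = max (f z) (Real.exp (-N)) := by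
  unfold lg
  exact Real.exp_log (lt_max_of_lt_right (Real.exp_pos _))

theorem le_exp_lg (N : ℝ) (f : ℂ → ℝ) (z : ℂ) : f z ≤ Real.exp (lg N f z) := by
  rw [exp_lg]
  exact le_max_left _ _

theorem eq_exp_lg {N : ℝ} {f : ℂ → ℝ} {z : ℂ} (h : -N < lg N f z) :
    f z = Real.exp (lg N f z) := by
  have h1 := exp_lg N f z
  have h2 : Real.exp (-N) < Real.exp (lg N f z) := Real.exp_lt_exp.2 h
  rw [h1] at h2 ⊢
  rcases le_total (f z) (Real.exp (-N)) with h3 | h3
  · rw [max_eq_right h3] at h2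
    exact absurd h2 (lt_irrefl _)
  · rw [max_eq_left h3]

/-- iterated doubling of the radius -/
theorem dbl {M : ℝ → ℝ} {r s ε : ℝ} (hs : 0 < s)
    (hD : ∀ t, 0 < t → t ≤ r / 4 → M (2 * t) ≤ M t + 3 * ε) :
    ∀ k : ℕ, 2 ^ k * s ≤ r / 2 → M (2 ^ k * s) ≤ M s + 3 * k * ε := by
  intro k
  induction k with
  | zero => intro _; simp
  | succ k ih =>
      intro h
      have h1 : (2 : ℝ) ^ (k + 1) * s = 2 * (2 ^ k * s) := by ring
      have h2 : 0 < (2 : ℝ) ^ k * s := by positivity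
      rw [h1] at h ⊢
      have h3 := ih (by linarith)
      have h4 := hD (2 ^ k * s) h2 (by linarith)
      push_cast
      linarith

variable {T : Set (Mat (n + 1))} {ρ : (ℂ → Mat (n + 1)) → ℂ → ℝ}

theorem two_pow_ge (m : ℕ) : (m : ℝ) + 1 ≤ 2 ^ m := by
  have h : m + 1 ≤ 2 ^ m := Nat.lt_two_pow_self
  exact_mod_cast h

/-- one step of the compactness argument -/
theorem step (hRM : S_RM) (hJ : JR T ρ) {R1 C0 : ℝ} (hR1 : 1 ≤ R1) (hC0 : 1 ≤ C0)
    (hS : ∀ (φ : ℂ → Mat (n + 1)) (z : ℂ) (s : ℝ), 0 < s → CvOn T (ball z s) φ →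
      (∀ w ∈ ball z s, s * ρ φ w ≤ 1) → ‖fderiv ℝ φ z‖ ≤ C0 / s) (m : ℕ) :
    ∃ ε1 R5 : ℝ, 0 < ε1 ∧ 0 < R5 ∧
    ∀ (φ : ℂ → Mat (n + 1)) (r N ε : ℝ) (y : ℂ) (s : ℝ), R5 ≤ r → Real.log r + 20 ≤ N →
      0 ≤ ε → ε ≤ ε1 → CvOn T (ball 0 r) φ → (∀ z ∈ ball (0 : ℂ) r, ρ φ z ≤ Real.exp ε) →
      0 ≤ Real.circleAverage (lg N (ρ φ)) 0 (r / 32) → ‖y‖ ≤ r / 64 → 0 < s → s ≤ r / 8 →
      s * Real.exp (Real.circleAverage (lg N (ρ φ)) y s) = R1 →
        ∃ χ : ℂ → Mat (n + 1), CvOn T (ball 0 ((m : ℝ) + 1)) χ ∧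
          (∀ z ∈ ball (0 : ℂ) (((m : ℝ) + 1) / 2), ‖fderiv ℝ χ z‖ ≤ 2) ∧
          (1 ≤ m → 1 / C0 ≤ ρ χ ((R1 * C0 : ℝ) : ℂ)) ∧
          ρ χ 0 ≤ Real.exp (lg N (ρ φ) y - Real.circleAverage (lg N (ρ φ)) y s) / C0 := by
  have hR1p : 0 < R1 := by linarith
  have hC0p : 0 < C0 := by linarith
  have he1 : (1 : ℝ) ≤ Real.exp 1 := by
    have := Real.add_one_le_exp (1 : ℝ)
    linarith
  have h2m : (1 : ℝ) ≤ 2 ^ (m + 1) := one_le_pow₀ (by norm_num)
  refine ⟨1 / (6 * m + 206), 4 * 2 ^ (m + 1) * R1 * Real.exp 1, by positivity, by positivity, ?_⟩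
  intro φ r N ε y s hr hN hε0 hε1 hφ hρ hmean hy hs hsr hsM
  have hR5 : (4 : ℝ) ≤ 4 * 2 ^ (m + 1) * R1 * Real.exp 1 := by
    calc (4 : ℝ) = 4 * 1 * 1 * 1 := by norm_num
      _ ≤ 4 * 2 ^ (m + 1) * R1 * Real.exp 1 := by gcongr
  have hr4 : 4 ≤ r := hR5.trans hr
  have hrp : 0 < r := by linarith
  have hlogr : 0 ≤ Real.log r := Real.log_nonneg (by linarith)
  have hNε : -N ≤ ε := by linarith
  have hεm : (3 * m + 103) * ε ≤ 1 / 2 := by
    have h1 : (0 : ℝ) < 6 * m + 206 := by positivity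
    have h2 : (3 * (m : ℝ) + 103) * ε ≤ (3 * m + 103) * (1 / (6 * m + 206)) :=
      mul_le_mul_of_nonneg_left hε1 (by positivity)
    have h3 : (3 * (m : ℝ) + 103) * (1 / (6 * m + 206)) = 1 / 2 := by
      field_simp
      ring
    linarith
  set u : ℂ → ℝ := lg N (ρ φ) with hu
  have hSub : SubM u (ball 0 r) := hJ.sub φ (ball 0 r) isOpen_ball hφ N
  have hule : ∀ z ∈ ball (0 : ℂ) r, u z ≤ ε := fun z hz => lg_le (hρ z hz) hNε
  have hRM' := hRM u 0 r ε hrp hε0 hSub hule hmean y (mem_closedBall_zero_iff.2 hy)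
  obtain ⟨hA, hB⟩ := hRM'
  set M : ℝ → ℝ := fun t => Real.circleAverage u y t with hM
  have hD := dbl (M := M) (r := r) (ε := ε) hs (fun t ht ht' => (hA t ht ht').1)
  have hMs : s * Real.exp (M s) = R1 := hsM
  -- the scale is small
  have hscale : 2 ^ (m + 1) * s ≤ r / 4 := by
    by_contra hcon
    push Not at hcon
    have hex : ∃ j : ℕ, r / 8 ≤ 2 ^ j * s := ⟨m + 1, by linarith⟩
    classical
    set j := Nat.find hex with hj
    have hj1 : r / 8 ≤ 2 ^ j * s := Nat.find_spec hex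
    have hj2 : j ≤ m + 1 := Nat.find_min' hex (by linarith)
    have hj3 : 2 ^ j * s ≤ r / 4 := by
      rcases Nat.eq_zero_or_pos j with h0 | h0
      · rw [h0, pow_zero, one_mul]
        linarith
      · obtain ⟨k, hk⟩ := Nat.exists_eq_succ_of_ne_zero h0.ne'
        have h1 : ¬ r / 8 ≤ 2 ^ k * s := Nat.find_min hex (by rw [← hj, hk]; exact Nat.lt_succ_self k)
        push Not at h1
        rw [hk, pow_succ]
        linarith
    have h1 := hD j (by linarith)
    have h2 := hB (2 ^ j * s) hj1 hj3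
    have h3 : (j : ℝ) ≤ m + 1 := by exact_mod_cast hj2
    have h4 : (j : ℝ) * ε ≤ (m + 1) * ε := mul_le_mul_of_nonneg_right h3 hε0
    have h5 : -1 ≤ M s := by
      have h6 : M (2 ^ j * s) ≤ M s + 3 * j * ε := h1
      have h7 : -(2 * ε) ≤ M (2 ^ j * s) := h2
      have h8 : (0 : ℝ) ≤ m * ε := by positivity
      nlinarith
    have h6 : s * Real.exp (-1) ≤ R1 := by
      rw [← hMs]
      exact mul_le_mul_of_nonneg_left (Real.exp_le_exp.2 h5) hs.le
    have h7 : Real.exp (-1) * Real.exp 1 = 1 := by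
      rw [← Real.exp_add]
      simp
    have h8 : s ≤ R1 * Real.exp 1 := by
      calc s = s * (Real.exp (-1) * Real.exp 1) := by rw [h7, mul_one]
        _ = s * Real.exp (-1) * Real.exp 1 := by ring
        _ ≤ R1 * Real.exp 1 := mul_le_mul_of_nonneg_right h6 (Real.exp_pos _).le
    have h9 : 2 ^ (m + 1) * s ≤ 2 ^ (m + 1) * (R1 * Real.exp 1) :=
      mul_le_mul_of_nonneg_left h8 (by positivity)
    linarith
  have hm2 : (2 : ℝ) ^ (m + 1) = 2 * 2 ^ m := by ring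
  have hpm : (0 : ℝ) < 2 ^ m := by positivity
  -- the bound on the large disc
  have hup : ∀ w ∈ closedBall y (2 ^ m * s), u w ≤ M s + (3 * m + 103) * ε := by
    intro w hw
    have h1 := (hA (2 ^ (m + 1) * s) (by positivity) hscale).2 w (by
      rw [hm2]
      have : 2 * 2 ^ m * s / 2 = 2 ^ m * s := by ring
      rw [this]
      exact hw)
    have h2 := hD (m + 1) (by linarith)
    have h3 : M (2 ^ (m + 1) * s) ≤ M s + 3 * ((m + 1 : ℕ) : ℝ) * ε := h2
    push_cast at h3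
    have h4 : u w ≤ M (2 ^ (m + 1) * s) + 100 * ε := h1
    linarith
  -- a point of the circle
  have hsph : sphere y s ⊆ ball (0 : ℂ) r := by
    intro w hw
    rw [mem_sphere, dist_eq_norm] at hw
    rw [mem_ball_zero_iff]
    have h1 : ‖w‖ ≤ ‖w - y‖ + ‖y‖ := by
      have := norm_add_le (w - y) y
      simpa using this
    linarith
  obtain ⟨w0, hw0, hw0u⟩ := exists_ge_mean hs (hSub.cont.mono hsph)
  rw [mem_sphere, dist_eq_norm] at hw0
  set c : ℂ := (w0 - y) / ((R1 * C0 : ℝ) : ℂ) with hc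
  have hRC : 0 < R1 * C0 := by positivity
  have hRCne : ((R1 * C0 : ℝ) : ℂ) ≠ 0 := by exact_mod_cast hRC.ne'
  have hcn : ‖c‖ = s / (R1 * C0) := by
    rw [hc, norm_div, hw0, Complex.norm_real, Real.norm_of_nonneg hRC.le]
  have hcw : y + c * ((R1 * C0 : ℝ) : ℂ) = w0 := by
    rw [hc, div_mul_cancel₀ _ hRCne]
    ring
  set D : ℝ := 2 ^ m * (R1 * C0) with hDdef
  have hcz : ∀ z ∈ ball (0 : ℂ) D, ‖c * z‖ ≤ 2 ^ m * s := by
    intro z hz
    rw [mem_ball_zero_iff] at hz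
    rw [norm_mul, hcn]
    calc s / (R1 * C0) * ‖z‖ ≤ s / (R1 * C0) * D :=
          mul_le_mul_of_nonneg_left hz.le (by positivity)
      _ = 2 ^ m * s := by
          rw [hDdef]
          field_simp
  have hmaps : MapsTo (fun z : ℂ => y + c * z) (ball 0 D) (ball 0 r) := by
    intro z hz
    have h1 := hcz z hz
    rw [mem_ball_zero_iff]
    have h2 := norm_add_le y (c * z)
    have h3 : 2 ^ m * s ≤ r / 8 := by
      rw [hm2] at hscale
      linarith
    show ‖y + c * z‖ < r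
    linarith
  have hdiff : Differentiable ℂ (fun z : ℂ => y + c * z) := by fun_prop
  have hder : ∀ z : ℂ, deriv (fun z : ℂ => y + c * z) z = c := by
    intro z
    have h1 : HasDerivAt (fun z : ℂ => y + c * z) (c * 1) z :=
      ((hasDerivAt_id z).const_mul c).const_add y
    rw [h1.deriv, mul_one]
  set χ : ℂ → Mat (n + 1) := fun z => φ (y + c * z) with hχ
  have hχD : CvOn T (ball 0 D) χ := hφ.comp isOpen_ball hdiff.differentiableOn hmaps
  have hρχ : ∀ z ∈ ball (0 : ℂ) D, ρ χ z = s / (R1 * C0) * ρ φ (y + c * z) := by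
    intro z hz
    have h1 := hJ.comp φ (ball 0 r) isOpen_ball hφ (ball 0 D) (fun z : ℂ => y + c * z) isOpen_ball
      hdiff.differentiableOn hmaps z hz
    rw [hder z, hcn] at h1
    exact h1
  have hlam : s / (R1 * C0) * Real.exp (M s) = 1 / C0 := by
    rw [← hMs]
    have := Real.exp_pos (M s)
    field_simp
  have hχle : ∀ z ∈ ball (0 : ℂ) D, ρ χ z ≤ 2 / C0 := by
    intro z hz
    rw [hρχ z hz]
    have h1 : y + c * z ∈ closedBall y (2 ^ m * s) := by
      rw [mem_closedBall, dist_eq_norm, add_sub_cancel_left]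
      exact hcz z hz
    have h2 : ρ φ (y + c * z) ≤ Real.exp (M s + (3 * m + 103) * ε) :=
      (le_exp_lg N (ρ φ) _).trans (Real.exp_le_exp.2 (hup _ h1))
    have h3 : Real.exp ((3 * m + 103) * ε) ≤ 2 := by
      have h4 : Real.exp ((3 * m + 103) * ε) ≤ Real.exp (1 / 2) := Real.exp_le_exp.2 hεm
      have h5 : Real.exp (1 / 2) ≤ 2 := by
        have h6 : (1 / 2 : ℝ) ≤ Real.log 2 := by
          have := Real.log_two_gt_d9
          linarith
        calc Real.exp (1 / 2) ≤ Real.exp (Real.log 2) := Real.exp_le_exp.2 h6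
          _ = 2 := Real.exp_log (by norm_num)
      linarith
    calc s / (R1 * C0) * ρ φ (y + c * z)
        ≤ s / (R1 * C0) * Real.exp (M s + (3 * m + 103) * ε) :=
          mul_le_mul_of_nonneg_left h2 (by positivity)
      _ = 1 / C0 * Real.exp ((3 * m + 103) * ε) := by
          rw [Real.exp_add, ← mul_assoc, hlam]
      _ ≤ 1 / C0 * 2 := mul_le_mul_of_nonneg_left h3 (by positivity)
      _ = 2 / C0 := by ring
  have hmD : (m : ℝ) + 1 ≤ D := by
    have h1 := two_pow_ge m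
    have h2 : (1 : ℝ) ≤ R1 * C0 := by nlinarith
    calc (m : ℝ) + 1 ≤ 2 ^ m := h1
      _ = 2 ^ m * 1 := by ring
      _ ≤ 2 ^ m * (R1 * C0) := mul_le_mul_of_nonneg_left h2 hpm.le
  refine ⟨χ, hχD.mono (ball_subset_ball hmD), ?_, ?_, ?_⟩
  · intro z hz
    rw [mem_ball_zero_iff] at hz
    have hsub : ball z (C0 / 2) ⊆ ball (0 : ℂ) D := by
      intro w hw
      rw [mem_ball, dist_eq_norm] at hw
      rw [mem_ball_zero_iff]
      have h1 : ‖w‖ ≤ ‖w - z‖ + ‖z‖ := by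
        have := norm_add_le (w - z) z
        simpa using this
      have h2 := two_pow_ge m
      have h3 : (2 : ℝ) ^ m * C0 ≤ D := by
        rw [hDdef]
        have : (2 : ℝ) ^ m * C0 * 1 ≤ 2 ^ m * C0 * R1 :=
          mul_le_mul_of_nonneg_left hR1 (by positivity)
        nlinarith
      have h4 : ((m : ℝ) + 1) * C0 ≤ 2 ^ m * C0 := mul_le_mul_of_nonneg_right h2 hC0p.le
      have h5 : (0 : ℝ) ≤ (m : ℝ) * (C0 - 1) := mul_nonneg (Nat.cast_nonneg m) (by linarith)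
      have h6 : (0 : ℝ) ≤ (m : ℝ) * C0 := by positivity
      nlinarith
    have h1 := hS χ z (C0 / 2) (by positivity) (hχD.mono hsub) (fun w hw => by
      have h2 := hχle w (hsub hw)
      calc C0 / 2 * ρ χ w ≤ C0 / 2 * (2 / C0) := mul_le_mul_of_nonneg_left h2 (by positivity)
        _ = 1 := by field_simp)
    have h2 : C0 / (C0 / 2) = 2 := by field_simp
    rw [h2] at h1
    exact h1
  · intro hm1
    have hmem : ((R1 * C0 : ℝ) : ℂ) ∈ ball (0 : ℂ) D := by
      rw [mem_ball_zero_iff, Complex.norm_real, Real.norm_of_nonneg hRC.le, hDdef]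
      have h1 := two_pow_ge m
      have h2 : (1 : ℝ) ≤ m := by exact_mod_cast hm1
      nlinarith
    rw [hρχ _ hmem, hcw]
    have hMN : -N < M s := by
      have h1 : Real.exp (-N) < Real.exp (M s) := by
        have h2 : Real.exp (M s) = R1 / s := by
          rw [← hMs]
          field_simp
        have h3 : Real.exp (-N) ≤ Real.exp (-(Real.log r)) := Real.exp_le_exp.2 (by linarith)
        rw [Real.exp_neg (Real.log r), Real.exp_log hrp] at h3
        rw [h2]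
        refine lt_of_le_of_lt h3 ?_
        rw [lt_div_iff₀ hs, inv_mul_lt_iff₀ hrp]
        nlinarith
      exact Real.exp_lt_exp.1 h1
    have h1 : M s ≤ u w0 := hw0u
    have h2 : ρ φ w0 = Real.exp (u w0) := eq_exp_lg (lt_of_lt_of_le hMN h1)
    rw [h2, ← hlam]
    exact mul_le_mul_of_nonneg_left (Real.exp_le_exp.2 h1) (by positivity)
  · have hmem : (0 : ℂ) ∈ ball (0 : ℂ) D := mem_ball_self (by positivity)
    rw [hρχ 0 hmem, mul_zero, add_zero]
    have h1 : ρ φ y ≤ Real.exp (u y) := le_exp_lg N (ρ φ) y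
    have h2 : Real.exp (u y) = Real.exp (u y - M s) * Real.exp (M s) := by
      rw [← Real.exp_add]
      congr 1
      ring
    calc s / (R1 * C0) * ρ φ y ≤ s / (R1 * C0) * Real.exp (u y) :=
          mul_le_mul_of_nonneg_left h1 (by positivity)
      _ = Real.exp (u y - M s) * (s / (R1 * C0) * Real.exp (M s)) := by
          rw [h2]
          ring
      _ = Real.exp (u y - M s) / C0 := by
          rw [hlam]
          ring

theorem main : S_MONO → S_RM → S_LIM → S_CST → S_SCH → S_INI := by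
  intro _ hRM hLIM hCST hSCH n T ρ hJ hT hTP hnd R1 hR1
  obtain ⟨C0, hC0, hS⟩ := hSCH n T ρ hJ hT hTP hnd
  have hC0p : 0 < C0 := by linarith
  have hR1p : 0 < R1 := by linarith
  by_contra hcon
  push Not at hcon
  have hex : ∀ m : ℕ, ∃ χ : ℂ → Mat (n + 1), CvOn T (ball 0 ((m : ℝ) + 1)) χ ∧
      (∀ z ∈ ball (0 : ℂ) (((m : ℝ) + 1) / 2), ‖fderiv ℝ χ z‖ ≤ 2) ∧
      (1 ≤ m → 1 / C0 ≤ ρ χ ((R1 * C0 : ℝ) : ℂ)) ∧
      ρ χ 0 ≤ Real.exp (-(1 / 40)) / C0 := by
    intro m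
    obtain ⟨ε1, R5, hε1, hR5, h⟩ := step hRM hJ hR1 hC0 hS m
    obtain ⟨φ, r, N, ε, y, s, h1, h2, h3, h4, h5, h6, h7, h8, h9, h10, h11, h12⟩ :=
      hcon ε1 R5 hε1 hR5
    obtain ⟨χ, hχ1, hχ2, hχ3, hχ4⟩ := h φ r N ε y s h1 h2 h3 h4 h5 h6 h7 h8 h9 h10 h11
    refine ⟨χ, hχ1, hχ2, hχ3, hχ4.trans ?_⟩
    refine div_le_div_of_nonneg_right (Real.exp_le_exp.2 ?_) hC0p.le
    linarith
  choose χ hχ1 hχ2 hχ3 hχ4 using hex
  obtain ⟨H, hHB, hCC, hcof, -⟩ := limit_growing hT hTP hχ1 hχ2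
  set r0 : ℝ := R1 * C0 + 1 with hr0
  have hr0p : 0 < r0 := by positivity
  have hlim := hLIM n T ρ hJ hTP (hyperfilter ℕ) χ H r0 hr0p (by
    filter_upwards [hcof (2 * r0)] with m hm
    refine ⟨(hχ1 m).mono (ball_subset_ball (by linarith)), fun w hw => hχ2 m w ?_⟩
    exact ball_subset_ball (by linarith) hw) (hCC r0 hr0p)
    ⟨hHB.hol.mono (subset_univ _), fun w _ => hHB.mem w⟩
  have h0 := hlim 0 (mem_ball_self hr0p)
  have h1 := hlim ((R1 * C0 : ℝ) : ℂ) (by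
    rw [mem_ball_zero_iff, Complex.norm_real, Real.norm_of_nonneg (by positivity)]
    linarith)
  have h2 : ρ H 0 ≤ Real.exp (-(1 / 40)) / C0 := le_of_tendsto h0 (Eventually.of_forall hχ4)
  have h3 : 1 / C0 ≤ ρ H ((R1 * C0 : ℝ) : ℂ) := by
    refine ge_of_tendsto h1 ?_
    filter_upwards [hcof 1] with m hm
    exact hχ3 m (by exact_mod_cast hm)
  have h4 := hCST n T ρ hJ H hHB 0 ((R1 * C0 : ℝ) : ℂ)
  rw [← h4] at h3
  have h5 : 1 / C0 ≤ Real.exp (-(1 / 40)) / C0 := h3.trans h2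
  have h6 : (1 : ℝ) ≤ Real.exp (-(1 / 40)) := by
    rw [div_le_div_iff_of_pos_right hC0p] at h5
    exact h5
  have h7 : Real.exp (-(1 / 40)) < 1 := by rw [Real.exp_lt_one_iff]; norm_num
  linarith

end Pool.Agent.Helper65.NC.INI
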