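import Pool.Agent.Helper65.NC.Stm2

/-!
# Project NC, module INV (helper66): a quantitative inverse function theorem
-/

set_option autoImplicit false

open Filter Topology Metric Set

namespace Pool.Agent.Helper65.NC.INV

theorem main : Pool.Agent.Helper65.NC.S_INV := by
  intro M c hM hc
  -- the radius
  set r : ℝ := min (1 / 4) (c / (16 * M)) with hr
  have hr0 : 0 < r := lt_min (by norm_num) (by positivity)
  have hr1 : r ≤ 1 / 4 := min_le_left _ _
  have hr2 : 8 * M * r ≤ c / 2 := by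
    have h1 : r ≤ c / (16 * M) := min_le_right _ _
    have h2 : 8 * M * r ≤ 8 * M * (c / (16 * M)) := mul_le_mul_of_nonneg_left h1 (by positivity)
    have h3 : 8 * M * (c / (16 * M)) = c / 2 := by field_simp; ring
    linarith
  refine ⟨r, c * r / 8, hr0, by linarith, by positivity, ?_⟩
  intro f hf hfM hfc
  have hfd : ∀ z ∈ ball (0 : ℂ) 1, DifferentiableAt ℂ f z := fun z hz =>
    hf.differentiableAt (isOpen_ball.mem_nhds hz)
  -- the derivative is bounded
  have hd1 : ∀ z ∈ ball (0 : ℂ) (1 / 2), ‖deriv f z‖ ≤ 2 * M := by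
    intro z hz
    rw [mem_ball_zero_iff] at hz
    have h1 : ‖deriv f z‖ ≤ M / (1 / 2 - 0) := by
      refine le_of_forall_gt_imp_ge_of_dense ?_
      intro b hb
      -- radius slightly smaller than 1/2
      have hb' : M / b < 1 / 2 := by
        rw [sub_zero, div_lt_iff₀ (by norm_num)] at hb
        have hbp : 0 < b := by nlinarith
        rw [div_lt_iff₀ hbp]
        linarith
      have hbp : 0 < b := lt_trans (by positivity) hb
      have h2 : closedBall z (M / b) ⊆ ball (0 : ℂ) 1 := by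
        intro w hw
        rw [mem_closedBall, dist_eq_norm] at hw
        rw [mem_ball_zero_iff]
        calc ‖w‖ = ‖(w - z) + z‖ := by rw [sub_add_cancel]
          _ ≤ ‖w - z‖ + ‖z‖ := norm_add_le _ _
          _ < 1 := by linarith
      have h3 := Complex.norm_deriv_le_of_forall_mem_sphere_norm_le (c := z) (R := M / b)
        (by positivity) (f := f) (C := M)
        ((hf.mono h2).diffContOnCl_ball subset_rfl)
        (fun w hw => hfM w (h2 (sphere_subset_closedBall hw)))
      have h4 : M / (M / b) = b := by field_simp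
      rwa [h4] at h3
    have h5 : M / (1 / 2 - 0) = 2 * M := by ring
    rwa [h5] at h1
  have hfa : AnalyticOnNhd ℂ f (ball 0 1) := hf.analyticOnNhd isOpen_ball
  have hdd : DifferentiableOn ℂ (deriv f) (ball 0 (1 / 2)) := by
    intro z hz
    have h1 : z ∈ ball (0 : ℂ) 1 := ball_subset_ball (by norm_num) hz
    exact ((hfa z h1).deriv.differentiableAt).differentiableWithinAt
  have hd2 : ∀ z ∈ ball (0 : ℂ) r, ‖deriv f z - deriv f 0‖ ≤ c / 2 := by
    intro z hz
    have hz' : z ∈ ball (0 : ℂ) (1 / 2) := ball_subset_ball (by linarith) hz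
    have h0 : (0 : ℂ) ∈ ball (0 : ℂ) (1 / 2) := by simp
    have h1 : ∀ b, 4 * M < b → dist (deriv f z) (deriv f 0) ≤ b / (1 / 2) * dist z 0 := by
      intro b hb
      refine Complex.dist_le_div_mul_dist_of_mapsTo_ball hdd ?_ hz'
      intro w hw
      rw [mem_closedBall]
      calc dist (deriv f w) (deriv f 0) ≤ ‖deriv f w‖ + ‖deriv f 0‖ := by
            rw [dist_eq_norm]; exact norm_sub_le _ _
        _ ≤ 2 * M + 2 * M := add_le_add (hd1 w hw) (hd1 0 h0)
        _ ≤ b := by linarith
    have h2 : dist (deriv f z) (deriv f 0) ≤ 8 * M * dist z 0 := by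
      have h3 : Tendsto (fun b : ℝ => b / (1 / 2) * dist z 0) (𝓝[>] (4 * M))
          (𝓝 (4 * M / (1 / 2) * dist z 0)) := by
        refine Tendsto.mono_left ?_ nhdsWithin_le_nhds
        exact Continuous.tendsto (by fun_prop) _
      have h4 := ge_of_tendsto h3 (eventually_nhdsWithin_of_forall fun b hb => h1 b hb)
      have h5 : 4 * M / (1 / 2) * dist z 0 = 8 * M * dist z 0 := by ring
      rwa [h5] at h4
    rw [dist_eq_norm, dist_zero_right] at h2
    rw [mem_ball_zero_iff] at hz
    calc ‖deriv f z - deriv f 0‖ ≤ 8 * M * ‖z‖ := h2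
      _ ≤ 8 * M * r := mul_le_mul_of_nonneg_left hz.le (by positivity)
      _ ≤ c / 2 := hr2
  -- lower bound
  have hlow : ∀ t ∈ ball (0 : ℂ) r, ∀ t' ∈ ball (0 : ℂ) r, c / 2 * ‖t - t'‖ ≤ ‖f t - f t'‖ := by
    intro t ht t' ht'
    have h1 : ∀ z ∈ ball (0 : ℂ) r,
        HasDerivWithinAt (fun z => f z - deriv f 0 * z) (deriv f z - deriv f 0) (ball 0 r) z := by
      intro z hz
      have hz1 : z ∈ ball (0 : ℂ) 1 := ball_subset_ball (by linarith) hz
      have h2 := (hfd z hz1).hasDerivAt.sub ((hasDerivAt_id z).const_mul (deriv f 0))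
      rw [mul_one] at h2
      exact h2.hasDerivWithinAt
    have h3 := (convex_ball (0 : ℂ) r).norm_image_sub_le_of_norm_hasDerivWithin_le h1 hd2 ht' ht
    have h4 : f t - deriv f 0 * t - (f t' - deriv f 0 * t') =
        (f t - f t') - deriv f 0 * (t - t') := by ring
    rw [h4] at h3
    have h5 : ‖deriv f 0 * (t - t')‖ ≤ ‖f t - f t'‖ + ‖(f t - f t') - deriv f 0 * (t - t')‖ := by
      have h6 : deriv f 0 * (t - t') = (f t - f t') - ((f t - f t') - deriv f 0 * (t - t')) := by
        ring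
      calc ‖deriv f 0 * (t - t')‖
          = ‖(f t - f t') - ((f t - f t') - deriv f 0 * (t - t'))‖ := by rw [← h6]
        _ ≤ _ := norm_sub_le _ _
    rw [norm_mul] at h5
    have h7 : c * ‖t - t'‖ ≤ ‖deriv f 0‖ * ‖t - t'‖ :=
      mul_le_mul_of_nonneg_right hfc (norm_nonneg _)
    linarith
  have hne : ∀ z ∈ ball (0 : ℂ) r, deriv f z ≠ 0 := by
    intro z hz h0
    have h1 := hd2 z hz
    rw [h0, zero_sub, norm_neg] at h1
    linarith
  -- surjectivity
  have h0r : (0 : ℂ) ∈ ball (0 : ℂ) r := by simpa using hr0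
  have hsurj : ball (f 0) (c * r / 8) ⊆ f '' closedBall 0 (r / 2) := by
    have h1 : c * r / 8 = (c * r / 4) / 2 := by ring
    rw [h1]
    refine DiffContOnCl.ball_subset_image_closedBall ?_ (by positivity) ?_ ?_
    · refine (hf.mono ?_).diffContOnCl_ball subset_rfl
      exact closedBall_subset_ball (by linarith)
    · intro z hz
      rw [mem_sphere_zero_iff_norm] at hz
      have hzr : z ∈ ball (0 : ℂ) r := by rw [mem_ball_zero_iff, hz]; linarith
      have h2 := hlow z hzr 0 h0r
      rw [sub_zero, hz] at h2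
      linarith
    · have h2 : ∀ᶠ z in 𝓝[≠] (0 : ℂ), f z ≠ f 0 := by
        have h3 : ∀ᶠ z in 𝓝[≠] (0 : ℂ), z ∈ ball (0 : ℂ) r :=
          mem_nhdsWithin_of_mem_nhds (isOpen_ball.mem_nhds h0r)
        filter_upwards [h3, self_mem_nhdsWithin] with z hz hz0 he
        have h4 := hlow z hz 0 h0r
        rw [he, sub_self, norm_zero, sub_zero] at h4
        have h5 : 0 < ‖z‖ := norm_pos_iff.2 hz0
        nlinarith
      exact h2.frequently.filter_mono nhdsWithin_le_nhds
  have hex : ∀ w : ℂ, ∃ t : ℂ, w ∈ ball (f 0) (c * r / 8) → t ∈ closedBall (0 : ℂ) (r / 2) ∧ f t = w := by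
    intro w
    by_cases hw : w ∈ ball (f 0) (c * r / 8)
    · obtain ⟨t, ht, h⟩ := hsurj hw
      exact ⟨t, fun _ => ⟨ht, h⟩⟩
    · exact ⟨0, fun h => absurd h hw⟩
  choose g hg using hex
  have hgr : ∀ w ∈ ball (f 0) (c * r / 8), g w ∈ ball (0 : ℂ) r := fun w hw =>
    closedBall_subset_ball (by linarith) (hg w hw).1
  refine ⟨g, ?_, fun w hw => ⟨hgr w hw, (hg w hw).2⟩, hlow⟩
  intro w hw
  have hnh : ball (f 0) (c * r / 8) ∈ 𝓝 w := isOpen_ball.mem_nhds hw
  have hcont : ContinuousAt g w := by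
    rw [ContinuousAt, tendsto_iff_norm_sub_tendsto_zero]
    have h1 : ∀ᶠ y in 𝓝 w, ‖g y - g w‖ ≤ 2 / c * ‖y - w‖ := by
      filter_upwards [hnh] with y hy
      have h2 := hlow (g y) (hgr y hy) (g w) (hgr w hw)
      rw [(hg y hy).2, (hg w hw).2] at h2
      have h3 : ‖g y - g w‖ = 2 / c * (c / 2 * ‖g y - g w‖) := by field_simp
      rw [h3]
      exact mul_le_mul_of_nonneg_left h2 (by positivity)
    refine squeeze_zero' (Eventually.of_forall fun _ => norm_nonneg _) h1 ?_
    have h4 : Tendsto (fun y : ℂ => 2 / c * ‖y - w‖) (𝓝 w) (𝓝 (2 / c * ‖w - w‖)) :=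
      Continuous.tendsto (by fun_prop) _
    simpa using h4
  have hfg : ∀ᶠ y in 𝓝 w, f (g y) = y := by
    filter_upwards [hnh] with y hy
    exact (hg y hy).2
  have hgw1 : g w ∈ ball (0 : ℂ) 1 := ball_subset_ball (by linarith) (hgr w hw)
  exact ((hfd _ hgw1).hasDerivAt.of_local_left_inverse hcont
    (hne _ (hgr w hw)) hfg).differentiableAt.differentiableWithinAt

end Pool.Agent.Helper65.NC.INV
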