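import Pool.Agent.Helper65.NC.Stm2

/-!
**LIFT**: holomorphic projections of curves to nearby immersed curves (helper57).
-/

set_option autoImplicit false

open Filter Topology Metric MvPolynomial Set

namespace Pool.Agent.Helper65.NC.LIFT

open Pool.Agent.W602.GT Pool.Agent.N155.BB Pool.Agent.Y190.OP Pool.Agent.N155
  Pool.Agent.N155.GD Pool.Agent.Helper65.BF Pool.Agent.Helper65.GG

variable {N : ℕ}

/-- the real sum of squares -/
noncomputable def rsq (u : Fin N → ℂ) : ℝ := ∑ l, ‖u l‖ ^ 2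

theorem rsq_pos {u : Fin N → ℂ} (hu : u ≠ 0) : 0 < rsq u := by
  have h0 : 0 ≤ rsq u := Finset.sum_nonneg fun i _ => by positivity
  rcases h0.lt_or_eq with h | h
  · exact h
  · exfalso
    have := nsq_ne hu
    rw [nsq_eq] at this
    apply this
    have h' : (∑ l, ‖u l‖ ^ 2 : ℝ) = 0 := h.symm
    rw [h']; simp

theorem norm_nsq (u : Fin N → ℂ) : ‖nsq u‖ = rsq u := by
  rw [nsq_eq, Complex.norm_real, Real.norm_of_nonneg]
  · rfl
  · exact Finset.sum_nonneg fun i _ => by positivity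

theorem norm_Phi_apply (u : Fin N → ℂ) (j k : Fin N) :
    ‖Phi u j k‖ = ‖u j‖ * ‖u k‖ / rsq u := by
  unfold Phi
  rw [norm_div, norm_mul, norm_nsq, RCLike.norm_conj]

theorem sq_le_rsq (u : Fin N → ℂ) (j : Fin N) : ‖u j‖ ^ 2 ≤ rsq u :=
  Finset.single_le_sum (f := fun l => ‖u l‖ ^ 2) (fun i _ => by positivity) (Finset.mem_univ j)

theorem mul_le_rsq (u : Fin N → ℂ) (j k : Fin N) : ‖u j‖ * ‖u k‖ ≤ rsq u := by
  have h1 := sq_le_rsq u j
  have h2 := sq_le_rsq u k
  nlinarith [sq_nonneg (‖u j‖ - ‖u k‖)]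

theorem PM.norm_le {M : Mat N} (hM : M ∈ PM) (j k : Fin N) : ‖M j k‖ ≤ 1 := by
  obtain ⟨u, hu, rfl⟩ := hM
  rw [norm_Phi_apply, div_le_one (rsq_pos hu)]
  exact mul_le_rsq u j k

theorem PM.exists_ge {n : ℕ} {M : Mat (n + 1)} (hM : M ∈ PM) : ∃ i, 1 / (n + 1 : ℝ) ≤ ‖M i i‖ := by
  obtain ⟨u, hu, rfl⟩ := hM
  by_contra hcon
  push Not at hcon
  have h1 : ∑ i, ‖Phi u i i‖ = 1 := by
    simp only [norm_Phi_apply]
    rw [← Finset.sum_div]
    have : ∑ i, ‖u i‖ * ‖u i‖ = rsq u := Finset.sum_congr rfl fun i _ => by ring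
    rw [this]
    exact div_self (rsq_pos hu).ne'
  have h2 : ∑ i, ‖Phi u i i‖ < ∑ _i : Fin (n + 1), 1 / (n + 1 : ℝ) :=
    Finset.sum_lt_sum_of_nonempty Finset.univ_nonempty fun i _ => hcon i
  rw [h1, Finset.sum_const, Finset.card_univ, Fintype.card_fin, nsmul_eq_mul] at h2
  push_cast at h2
  have h3 : ((n : ℝ) + 1) * (1 / (n + 1)) = 1 := by field_simp
  rw [h3] at h2
  exact lt_irrefl _ h2

/-- the charts are uniformly Lipschitz -/
theorem chart_lip {a : ℝ} (ha : 0 < a) {i : Fin N} {M M' : Mat N} (h : a ≤ ‖M i i‖)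
    (h' : a ≤ ‖M' i i‖) (hM' : M' ∈ PM) (j : Fin N) :
    ‖chart i M j - chart i M' j‖ ≤ (1 / a + 1 / a ^ 2) * ‖M - M'‖ := by
  have e1 : ∀ j k, ‖M j k - M' j k‖ ≤ ‖M - M'‖ := fun j k => by
    have h1 := norm_le_pi_norm (M - M') j
    have h2 := norm_le_pi_norm ((M - M') j) k
    exact h2.trans h1
  have n1 : M i i ≠ 0 := fun h0 => by rw [h0, norm_zero] at h; linarith
  have n2 : M' i i ≠ 0 := fun h0 => by rw [h0, norm_zero] at h'; linarith
  unfold chart
  have e2 : M j i / M i i - M' j i / M' i i =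
      (M j i - M' j i) / M i i + M' j i * (M' i i - M i i) / (M i i * M' i i) := by
    field_simp
    ring
  rw [e2]
  refine (norm_add_le _ _).trans ?_
  rw [norm_div, norm_div, norm_mul, norm_mul, add_mul]
  have p1 : 0 < ‖M i i‖ := norm_pos_iff.2 n1
  have p2 : 0 < ‖M' i i‖ := norm_pos_iff.2 n2
  apply add_le_add
  · rw [one_div, inv_mul_eq_div]
    exact div_le_div₀ (norm_nonneg _) (e1 j i) ha h
  · rw [one_div, inv_mul_eq_div]
    apply div_le_div₀ (norm_nonneg _) _ (by positivity) _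
    · calc ‖M' j i‖ * ‖M' i i - M i i‖ ≤ 1 * ‖M - M'‖ := by
            apply mul_le_mul (PM.norm_le hM' j i) _ (norm_nonneg _) zero_le_one
            rw [norm_sub_rev]; exact e1 i i
        _ = ‖M - M'‖ := one_mul _
    · rw [sq]
      exact mul_le_mul h h' ha.le p1.le

theorem norm_chart_le {a : ℝ} (ha : 0 < a) {i : Fin N} {M : Mat N} (h : a ≤ ‖M i i‖)
    (hM : M ∈ PM) (j : Fin N) : ‖chart i M j‖ ≤ 1 / a := by
  unfold chart
  rw [norm_div]
  exact div_le_div₀ zero_le_one (PM.norm_le hM j i) ha h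

/-- `Phi` is Lipschitz on the affine hyperplanes -/
theorem Phi_lip {B : ℝ} {i : Fin N} {u v : Fin N → ℂ} (hu : u i = 1) (hv : v i = 1)
    (hB : ∀ j, ‖u j‖ ≤ B) (hB' : ∀ j, ‖v j‖ ≤ B) :
    ‖Phi u - Phi v‖ ≤ (2 * B + N * (2 * B)) * ‖u - v‖ := by
  have hB0 : 0 ≤ B := (norm_nonneg _).trans (hB i)
  have hu0 : u ≠ 0 := fun h => by rw [h] at hu; simp at hu
  have hv0 : v ≠ 0 := fun h => by rw [h] at hv; simp at hv
  have d : ∀ l, ‖u l - v l‖ ≤ ‖u - v‖ := fun l => norm_le_pi_norm (u - v) l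
  have hru : 1 ≤ rsq u := by
    have := sq_le_rsq u i
    rw [hu] at this; simpa using this
  have hrv : 1 ≤ rsq v := by
    have := sq_le_rsq v i
    rw [hv] at this; simpa using this
  have hn : ‖nsq v - nsq u‖ ≤ N * (2 * B) * ‖u - v‖ := by
    unfold nsq
    rw [← Finset.sum_sub_distrib]
    refine (norm_sum_le _ _).trans ?_
    have : ∀ l ∈ (Finset.univ : Finset (Fin N)),
        ‖v l * (starRingEnd ℂ) (v l) - u l * (starRingEnd ℂ) (u l)‖ ≤ 2 * B * ‖u - v‖ := by
      intro l _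
      have e : v l * (starRingEnd ℂ) (v l) - u l * (starRingEnd ℂ) (u l) =
          (v l - u l) * (starRingEnd ℂ) (v l) + u l * (starRingEnd ℂ) (v l - u l) := by
        rw [map_sub]; ring
      rw [e]
      refine (norm_add_le _ _).trans ?_
      rw [norm_mul, norm_mul, RCLike.norm_conj, RCLike.norm_conj, norm_sub_rev]
      nlinarith [d l, hB l, hB' l, norm_nonneg (u l - v l), norm_nonneg (u l), norm_nonneg (v l),
        mul_le_mul (d l) (hB' l) (norm_nonneg _) (norm_nonneg (u - v)),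
        mul_le_mul (hB l) (d l) (norm_nonneg _) hB0]
    refine (Finset.sum_le_sum this).trans ?_
    rw [Finset.sum_const, Finset.card_univ, Fintype.card_fin, nsmul_eq_mul]
    apply le_of_eq; ring
  have hnn : 0 ≤ (2 * B + N * (2 * B)) * ‖u - v‖ := by positivity
  rw [pi_norm_le_iff_of_nonneg hnn]
  intro j
  rw [pi_norm_le_iff_of_nonneg hnn]
  intro k
  have nu := nsq_ne hu0
  have nv := nsq_ne hv0
  have e : (Phi u - Phi v) j k =
      ((u j - v j) * (starRingEnd ℂ) (u k) + v j * (starRingEnd ℂ) (u k - v k)) / nsq u +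
        Phi v j k * ((nsq v - nsq u) / nsq u) := by
    simp only [Pi.sub_apply, Phi, map_sub]
    field_simp
    ring
  rw [e]
  refine (norm_add_le _ _).trans ?_
  rw [norm_div, norm_mul, norm_div, norm_nsq, add_mul]
  apply add_le_add
  · rw [div_le_iff₀ (by linarith)]
    calc ‖(u j - v j) * (starRingEnd ℂ) (u k) + v j * (starRingEnd ℂ) (u k - v k)‖
        ≤ ‖u j - v j‖ * ‖u k‖ + ‖v j‖ * ‖u k - v k‖ := by
          refine (norm_add_le _ _).trans ?_
          rw [norm_mul, norm_mul, RCLike.norm_conj, RCLike.norm_conj]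
      _ ≤ ‖u - v‖ * B + B * ‖u - v‖ := add_le_add
          (mul_le_mul (d j) (hB k) (norm_nonneg _) (norm_nonneg _))
          (mul_le_mul (hB' j) (d k) (norm_nonneg _) hB0)
      _ = 2 * B * ‖u - v‖ * 1 := by ring
      _ ≤ 2 * B * ‖u - v‖ * rsq u := mul_le_mul_of_nonneg_left hru (by positivity)
  · calc ‖Phi v j k‖ * (‖nsq v - nsq u‖ / rsq u) ≤ 1 * (N * (2 * B) * ‖u - v‖ / 1) := by
          apply mul_le_mul (PM.norm_le ⟨v, hv0, rfl⟩ j k) _ (by positivity) zero_le_one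
          exact div_le_div₀ (by positivity) hn one_pos hru
      _ = N * (2 * B) * ‖u - v‖ := by ring

/-- holomorphic curves with bounded derivative are Lipschitz on balls -/
theorem curve_lip {φ : ℂ → Mat N} {z0 : ℂ} {r : ℝ} (h : HolP (ball z0 r) φ)
    (hd : ∀ w ∈ ball z0 r, ‖fderiv ℝ φ w‖ ≤ 2) {z w : ℂ} (hz : z ∈ ball z0 r)
    (hw : w ∈ ball z0 r) : ‖φ z - φ w‖ ≤ 2 * ‖z - w‖ :=
  (convex_ball z0 r).norm_image_sub_le_of_norm_fderiv_le (𝕜 := ℝ)
    (fun _ hx => h.differentiableAt hx) hd hw hz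

theorem main (hinv : S_INV) : S_LIFT := by
  intro n T c0 L δ hT hTP hc0 hL hδ
  -- the constants
  obtain ⟨a, ha⟩ : ∃ a : ℝ, a = 1 / (2 * (n + 1 : ℝ)) := ⟨_, rfl⟩
  have hn1 : (0 : ℝ) < n + 1 := by positivity
  have ha0 : 0 < a := by rw [ha]; positivity
  have ha2 : 1 / (n + 1 : ℝ) = 2 * a := by rw [ha]; field_simp
  obtain ⟨Lc, hLc⟩ : ∃ Lc : ℝ, Lc = 1 / a + 1 / a ^ 2 := ⟨_, rfl⟩
  have hLc0 : 0 < Lc := by rw [hLc]; positivity
  obtain ⟨K, hK⟩ : ∃ K : ℝ, K = 2 * (1 / a) + ((n + 1 : ℕ) : ℝ) * (2 * (1 / a)) := ⟨_, rfl⟩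
  have hK0 : 0 < K := by rw [hK]; positivity
  -- radius in the parameter of `Q`
  obtain ⟨r0, hr0⟩ : ∃ r0 : ℝ, r0 = min 1 (a / 2) := ⟨_, rfl⟩
  have hr00 : 0 < r0 := by rw [hr0]; exact lt_min one_pos (by positivity)
  have hr01 : r0 ≤ 1 := by rw [hr0]; exact min_le_left _ _
  have hr0a : r0 ≤ a / 2 := by rw [hr0]; exact min_le_right _ _
  obtain ⟨c, hc⟩ : ∃ c : ℝ, c = r0 * (c0 / K) := ⟨_, rfl⟩
  have hcp : 0 < c := by rw [hc]; positivity
  obtain ⟨r, δ1, hr, hr1, hδ1, hg⟩ := hinv (1 / a) c (by positivity) hcp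
  obtain ⟨c3, hc3⟩ : ∃ c3 : ℝ, c3 = min (min 1 (a / 4)) (min δ (min (δ1 / (6 * Lc))
    (r0 * r / (4 * L)))) := ⟨_, rfl⟩
  have hc30 : 0 < c3 := by
    rw [hc3]
    refine lt_min (lt_min one_pos (by positivity)) (lt_min hδ (lt_min (by positivity)
      (by positivity)))
  have hc31 : c3 ≤ 1 := by rw [hc3]; exact (min_le_left _ _).trans (min_le_left _ _)
  have hc3a : c3 ≤ a / 4 := by rw [hc3]; exact (min_le_left _ _).trans (min_le_right _ _)
  have hc3d : c3 ≤ δ := by rw [hc3]; exact (min_le_right _ _).trans (min_le_left _ _)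
  have hc3e : c3 ≤ δ1 / (6 * Lc) := by
    rw [hc3]; exact (min_le_right _ _).trans ((min_le_right _ _).trans (min_le_left _ _))
  have hc3f : c3 ≤ r0 * r / (4 * L) := by
    rw [hc3]; exact (min_le_right _ _).trans ((min_le_right _ _).trans (min_le_right _ _))
  obtain ⟨e0, he0⟩ : ∃ e0 : ℝ, e0 = min (a / 2) (min (δ1 / (6 * Lc)) (r0 * r / (4 * L))) :=
    ⟨_, rfl⟩
  have he00 : 0 < e0 := by
    rw [he0]
    exact lt_min (by positivity) (lt_min (by positivity) (by positivity))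
  have he0a : e0 ≤ a / 2 := by rw [he0]; exact min_le_left _ _
  have he0e : e0 ≤ δ1 / (6 * Lc) := by
    rw [he0]; exact (min_le_right _ _).trans (min_le_left _ _)
  have he0f : e0 ≤ r0 * r / (4 * L) := by
    rw [he0]; exact (min_le_right _ _).trans (min_le_right _ _)
  refine ⟨1 + 2 * (r0 * (2 * Lc / c)), c3, e0, by positivity, hc30, hc31, he00, ?_⟩
  intro P Q h z0 e hP hPd hQ he hee hPQ hh
  have hz0 : z0 ∈ ball z0 1 := mem_ball_self one_pos
  have hPM : ∀ z ∈ ball z0 1, P z ∈ PM := fun z hz => hTP (hP.2 z hz)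
  have hQM : ∀ t, Q t ∈ PM := fun t => hTP (hQ.mem t)
  have hQl : ∀ t t', ‖Q t - Q t'‖ ≤ 2 * ‖t - t'‖ := fun t t' => by
    have h1 : t ∈ ball (0 : ℂ) (‖t‖ + ‖t'‖ + 1) := by
      rw [mem_ball_zero_iff]; linarith [norm_nonneg t']
    have h2 : t' ∈ ball (0 : ℂ) (‖t‖ + ‖t'‖ + 1) := by
      rw [mem_ball_zero_iff]; linarith [norm_nonneg t]
    exact curve_lip (hQ.hol.mono (subset_univ _)) (fun w _ => hQ.bd w) h1 h2
  have ent : ∀ (M M' : Mat (n + 1)) (i : Fin (n + 1)), ‖M i i‖ - ‖M - M'‖ ≤ ‖M' i i‖ := by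
    intro M M' i
    have h1 := norm_le_pi_norm (M - M') i
    have h2 := norm_le_pi_norm ((M - M') i) i
    have h3 : ‖M i i - M' i i‖ ≤ ‖M - M'‖ := h2.trans h1
    have h4 := norm_sub_norm_le (M i i) (M' i i)
    linarith
  obtain ⟨t0, ht0⟩ : ∃ t0 : ℂ, t0 = h z0 := ⟨_, rfl⟩
  obtain ⟨i, hi⟩ := PM.exists_ge (hQM t0)
  rw [ha2] at hi
  -- the chart along `Q`
  have hQi : ∀ t, ‖t - t0‖ ≤ r0 → a ≤ ‖Q t i i‖ := by
    intro t ht
    have h1 := ent (Q t0) (Q t) i
    have h2 := hQl t0 t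
    rw [norm_sub_rev t0 t] at h2
    linarith
  have hQne : ∀ t, ‖t - t0‖ ≤ r0 → Q t i i ≠ 0 := fun t ht h0 => by
    have := hQi t ht
    rw [h0, norm_zero] at this
    linarith
  have hPi : ∀ z ∈ ball z0 c3, a ≤ ‖P z i i‖ := by
    intro z hz
    have hz1 : z ∈ ball z0 1 := ball_subset_ball hc31 hz
    have h1 := ent (Q t0) (P z0) i
    have h2 := ent (P z0) (P z) i
    have h3 := curve_lip hP.1 hPd hz0 hz1
    have h4 := hPQ z0 hz0
    rw [← ht0, norm_sub_rev] at h4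
    rw [mem_ball, dist_eq_norm, norm_sub_rev] at hz
    linarith
  have hPne : ∀ z ∈ ball z0 c3, P z i i ≠ 0 := fun z hz h0 => by
    have := hPi z hz
    rw [h0, norm_zero] at this
    linarith
  -- a coordinate with large derivative
  have hFd : ∀ t, ‖t - t0‖ ≤ r0 → DifferentiableAt ℂ (fun t => chart i (Q t)) t := fun t ht =>
    hQ.hol.diff_chart (mem_univ t) (hQne t ht)
  have hF0 := hFd t0 (by rw [sub_self, norm_zero]; exact hr00.le)
  have hder : c0 ≤ K * ‖deriv (fun t => chart i (Q t)) t0‖ := by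
    refine (hQ.low t0).trans ?_
    have hfd : HasFDerivAt Q (fderiv ℝ Q t0) t0 :=
      (hQ.hol.differentiableAt (mem_univ t0)).hasFDerivAt
    have hF1 : HasFDerivAt (fun t => chart i (Q t))
        ((fderiv ℂ (fun t => chart i (Q t)) t0).restrictScalars ℝ) t0 :=
      hF0.hasFDerivAt.restrictScalars ℝ
    apply le_of_forall_pos_le_add
    intro ε hε
    have hev : ∀ᶠ t in 𝓝 t0, ‖Q t - Q t0‖ ≤
        (K * ‖deriv (fun t => chart i (Q t)) t0‖ + ε) * ‖t - t0‖ := by
      have h1 := hF1.isLittleO.def (show 0 < ε / K by positivity)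
      have h2 : ∀ᶠ t in 𝓝 t0, ‖t - t0‖ < r0 := by
        have := ball_mem_nhds t0 hr00
        filter_upwards [this] with t ht
        rwa [mem_ball, dist_eq_norm] at ht
      filter_upwards [h1, h2] with t h1 h2
      have q1 := PM.Phi_chart (hQM t) (hQne t h2.le)
      have q2 := PM.Phi_chart (hQM t0) (hQne t0 (by rw [sub_self, norm_zero]; exact hr00.le))
      have q3 := Phi_lip (i := i) (PM.chart_self (hQne t h2.le))
        (PM.chart_self (hQne t0 (by rw [sub_self, norm_zero]; exact hr00.le)))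
        (fun j => norm_chart_le ha0 (hQi t h2.le) (hQM t) j)
        (fun j => norm_chart_le ha0 (hQi t0 (by rw [sub_self, norm_zero]; exact hr00.le))
          (hQM t0) j)
      rw [q1, q2, ← hK] at q3
      refine q3.trans ?_
      have q4 : ‖chart i (Q t) - chart i (Q t0)‖ ≤
          (‖deriv (fun t => chart i (Q t)) t0‖ + ε / K) * ‖t - t0‖ := by
        have q5 := norm_add_le (chart i (Q t) - chart i (Q t0) -
          ((fderiv ℂ (fun t => chart i (Q t)) t0).restrictScalars ℝ) (t - t0))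
          (((fderiv ℂ (fun t => chart i (Q t)) t0).restrictScalars ℝ) (t - t0))
        rw [sub_add_cancel] at q5
        have q6 : ‖((fderiv ℂ (fun t => chart i (Q t)) t0).restrictScalars ℝ) (t - t0)‖ ≤
            ‖deriv (fun t => chart i (Q t)) t0‖ * ‖t - t0‖ := by
          rw [norm_deriv_eq_norm_fderiv]
          exact (fderiv ℂ (fun t => chart i (Q t)) t0).le_opNorm _
        rw [add_mul]
        linarith
      calc K * ‖chart i (Q t) - chart i (Q t0)‖ ≤
          K * ((‖deriv (fun t => chart i (Q t)) t0‖ + ε / K) * ‖t - t0‖) :=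
            mul_le_mul_of_nonneg_left q4 hK0.le
        _ = (K * ‖deriv (fun t => chart i (Q t)) t0‖ + ε) * ‖t - t0‖ := by
            field_simp
    exact hfd.le_of_lip' (by positivity) hev
  obtain ⟨j, hj⟩ : ∃ j, c0 / K ≤ ‖deriv (fun t => chart i (Q t) j) t0‖ := by
    by_contra hcon
    push Not at hcon
    have h1 : ‖deriv (fun t => chart i (Q t)) t0‖ < c0 / K := by
      rw [pi_norm_lt_iff (by positivity)]
      intro j
      have h2 : deriv (fun t => chart i (Q t)) t0 j = deriv (fun t => chart i (Q t) j) t0 := by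
        have h3 := hasDerivAt_pi.1 hF0.hasDerivAt j
        exact h3.deriv.symm
      rw [h2]
      exact hcon j
    have h2 : K * ‖deriv (fun t => chart i (Q t)) t0‖ < c0 := by
      rwa [lt_div_iff₀ hK0, mul_comm] at h1
    linarith
  -- the coordinate of `Q`, rescaled
  obtain ⟨f, hf⟩ : ∃ f : ℂ → ℂ, f = fun s => chart i (Q (t0 + r0 * s)) j := ⟨_, rfl⟩
  have hball : ∀ s ∈ ball (0 : ℂ) 1, ‖t0 + r0 * s - t0‖ ≤ r0 := by
    intro s hs
    rw [mem_ball_zero_iff] at hs
    rw [add_sub_cancel_left, norm_mul, Complex.norm_real, Real.norm_of_nonneg hr00.le]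
    nlinarith
  have hfd : DifferentiableOn ℂ f (ball 0 1) := by
    intro s hs
    rw [hf]
    have h1 := differentiableAt_pi.1 (hFd _ (hball s hs)) j
    have h2 : DifferentiableAt ℂ (fun s : ℂ => t0 + r0 * s) s := by fun_prop
    exact (h1.comp s h2).differentiableWithinAt
  have hfb : ∀ s ∈ ball (0 : ℂ) 1, ‖f s‖ ≤ 1 / a := by
    intro s hs
    rw [hf]
    exact norm_chart_le ha0 (hQi _ (hball s hs)) (hQM _) j
  have hf0 : c ≤ ‖deriv f 0‖ := by
    have h1 : HasDerivAt (fun t => chart i (Q t) j) (deriv (fun t => chart i (Q t) j) t0)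
        (t0 + r0 * 0) := by
      rw [mul_zero, add_zero]
      exact (differentiableAt_pi.1 hF0 j).hasDerivAt
    have h2 : HasDerivAt (fun s : ℂ => t0 + r0 * s) r0 0 := by
      simpa using ((hasDerivAt_id (0 : ℂ)).const_mul (r0 : ℂ)).const_add t0
    have h3 := h1.comp (0 : ℂ) h2
    have h4 : deriv f 0 = deriv (fun t => chart i (Q t) j) t0 * r0 := by
      rw [hf]
      exact h3.deriv
    rw [h4, norm_mul, Complex.norm_real, Real.norm_of_nonneg hr00.le, hc, mul_comm]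
    exact mul_le_mul_of_nonneg_right hj hr00.le
  obtain ⟨g, hgd, hgf, hinj⟩ := hg f hfd hfb hf0
  have hf00 : f 0 = chart i (Q t0) j := by rw [hf]; simp
  -- the coordinate of `P`
  obtain ⟨p, hp⟩ : ∃ p : ℂ → ℂ, p = fun z => chart i (P z) j := ⟨_, rfl⟩
  have hpd : DifferentiableOn ℂ p (ball z0 c3) := by
    intro z hz
    rw [hp]
    exact (differentiableAt_pi.1 (hP.1.diff_chart (ball_subset_ball hc31 hz) (hPne z hz))
      j).differentiableWithinAt
  have hz03 : z0 ∈ ball z0 c3 := mem_ball_self hc30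
  have hpm : ∀ z ∈ ball z0 c3, p z ∈ ball (f 0) δ1 := by
    intro z hz
    have hz1 : z ∈ ball z0 1 := ball_subset_ball hc31 hz
    have h1 := chart_lip ha0 (hPi z hz) (hPi z0 hz03) (hPM z0 hz0) j
    have h2 := chart_lip ha0 (hPi z0 hz03) (hQi t0 (by rw [sub_self, norm_zero]; exact hr00.le))
      (hQM t0) j
    rw [← hLc] at h1 h2
    have h3 := curve_lip hP.1 hPd hz1 hz0
    have h4 := hPQ z0 hz0
    rw [← ht0] at h4
    have hz' := hz
    rw [mem_ball, dist_eq_norm] at hz'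
    rw [mem_ball, dist_eq_norm, hf00, hp]
    have h5 : ‖chart i (P z) j - chart i (Q t0) j‖ ≤ ‖chart i (P z) j - chart i (P z0) j‖ +
        ‖chart i (P z0) j - chart i (Q t0) j‖ := by
      refine le_trans (le_of_eq ?_) (norm_add_le _ _)
      rw [sub_add_sub_cancel]
    have h6 : Lc * ‖P z - P z0‖ ≤ Lc * (2 * c3) :=
      mul_le_mul_of_nonneg_left (h3.trans (by linarith)) hLc0.le
    have h7 : Lc * ‖P z0 - Q t0‖ ≤ Lc * e0 := mul_le_mul_of_nonneg_left (h4.trans hee) hLc0.le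
    have h8 : Lc * c3 ≤ δ1 / 6 := by
      have := mul_le_mul_of_nonneg_left hc3e hLc0.le
      refine this.trans (le_of_eq ?_)
      field_simp
    have h9 : Lc * e0 ≤ δ1 / 6 := by
      have := mul_le_mul_of_nonneg_left he0e hLc0.le
      refine this.trans (le_of_eq ?_)
      field_simp
    have h10 : Lc * (2 * c3) = 2 * (Lc * c3) := by ring
    calc ‖chart i (P z) j - chart i (Q t0) j‖ ≤ Lc * (2 * c3) + Lc * e0 := by linarith
      _ ≤ 2 * (δ1 / 6) + δ1 / 6 := by rw [h10]; linarith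
      _ < δ1 := by linarith
  refine ⟨fun z => t0 + r0 * g (p z), ?_, ?_⟩
  · exact ((hgd.comp hpd fun z hz => hpm z hz).const_mul _).const_add _
  · intro z hz
    have hz1 : z ∈ ball z0 1 := ball_subset_ball hc31 hz
    have hz' := hz
    rw [mem_ball, dist_eq_norm] at hz'
    obtain ⟨hk1, hk2⟩ := hgf (p z) (hpm z hz)
    have hk1' := hk1
    rw [mem_ball_zero_iff] at hk1'
    have hkn : ‖t0 + r0 * g (p z) - h z0‖ ≤ 1 := by
      rw [← ht0, add_sub_cancel_left, norm_mul, Complex.norm_real, Real.norm_of_nonneg hr00.le]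
      nlinarith [norm_nonneg (g (p z))]
    refine ⟨?_, hkn⟩
    -- the point `h z`
    have hhz : ‖h z - t0‖ < r0 * r := by
      have h1 := hh z hz1 (hz'.le.trans hc3d)
      rw [← ht0] at h1
      have h2 : L * (‖z - z0‖ + e) ≤ L * (c3 + e0) :=
        mul_le_mul_of_nonneg_left (by linarith) hL.le
      have h3 : L * (c3 + e0) ≤ L * (r0 * r / (4 * L) + r0 * r / (4 * L)) :=
        mul_le_mul_of_nonneg_left (by linarith) hL.le
      have h4 : L * (r0 * r / (4 * L) + r0 * r / (4 * L)) = r0 * r / 2 := by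
        field_simp; ring
      have h5 : 0 < r0 * r := by positivity
      linarith
    have hhr : ‖h z - t0‖ ≤ r0 := by nlinarith
    obtain ⟨s, hs⟩ : ∃ s : ℂ, s = (h z - t0) / r0 := ⟨_, rfl⟩
    have hr0c : (r0 : ℂ) ≠ 0 := by exact_mod_cast hr00.ne'
    have hs1 : t0 + r0 * s = h z := by rw [hs]; field_simp; ring
    have hs2 : s ∈ ball (0 : ℂ) r := by
      rw [mem_ball_zero_iff, hs, norm_div, Complex.norm_real, Real.norm_of_nonneg hr00.le,
        div_lt_iff₀ hr00, mul_comm]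
      exact hhz
    have h1 := hinj (g (p z)) hk1 s hs2
    rw [hk2] at h1
    have h2 : f s = chart i (Q (h z)) j := by rw [hf]; simp only [hs1]
    have h3 := chart_lip ha0 (hPi z hz) (hQi (h z) hhr) (hQM (h z)) j
    rw [← hLc] at h3
    have h4 := hPQ z hz1
    rw [h2, hp] at h1
    have h5 : c / 2 * ‖g (p z) - s‖ ≤ Lc * e := by
      rw [hp]
      exact h1.trans (h3.trans (mul_le_mul_of_nonneg_left h4 hLc0.le))
    have h6 : ‖g (p z) - s‖ ≤ 2 * Lc / c * e := by
      rw [div_mul_eq_mul_div, le_div_iff₀ hcp]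
      linarith
    have h7 : ‖h z - (t0 + r0 * g (p z))‖ ≤ r0 * (2 * Lc / c * e) := by
      have : h z - (t0 + r0 * g (p z)) = -(r0 * (g (p z) - s)) := by rw [← hs1]; ring
      rw [this, norm_neg, norm_mul, Complex.norm_real, Real.norm_of_nonneg hr00.le]
      exact mul_le_mul_of_nonneg_left h6 hr00.le
    have h8 := hQl (h z) (t0 + r0 * g (p z))
    have h9 : ‖P z - Q (t0 + r0 * g (p z))‖ ≤ ‖P z - Q (h z)‖ +
        ‖Q (h z) - Q (t0 + r0 * g (p z))‖ := by
      refine le_trans (le_of_eq ?_) (norm_add_le _ _)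
      rw [sub_add_sub_cancel]
    calc ‖P z - Q (t0 + r0 * g (p z))‖ ≤ e + 2 * (r0 * (2 * Lc / c * e)) := by linarith
      _ = (1 + 2 * (r0 * (2 * Lc / c))) * e := by ring

end Pool.Agent.Helper65.NC.LIFT
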