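import Pool.Agent.Helper65.NC.Stm2

/-!
Module LIM (helper37 for helper65): the length function is continuous along limits of curves.
-/

set_option autoImplicit false

open Filter Topology Metric MvPolynomial Set

namespace Pool.Agent.Helper65.NC.LIM

open Pool.Agent.W602.GT Pool.Agent.N155.BB Pool.Agent.Y190.OP Pool.Agent.N155
  Pool.Agent.N155.GD Pool.Agent.Helper65.BF Pool.Agent.Helper65.GG Pool.Agent.Helper65.NC

theorem mapsTo_aff {z : ℂ} {d : ℝ} (hd : 0 < d) : MapsTo (aff z d) (ball 0 1) (ball z d) := by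
  intro w hw
  rw [mem_ball_zero_iff] at hw
  rw [mem_ball, dist_eq_norm]
  unfold aff
  rw [add_sub_cancel_left, norm_mul, Complex.norm_real, Real.norm_of_nonneg hd.le]
  nlinarith

theorem main : S_LIM := by
  intro n T ρ hJ hTP 𝓤 P H r hr hev hCC hH z hz
  obtain ⟨C, α, hC, hα, hh⟩ := hJ.hold
  have hzr : ‖z‖ < r := mem_ball_zero_iff.1 hz
  set d : ℝ := min 1 ((r - ‖z‖) / 2) with hd
  have hd0 : 0 < d := lt_min one_pos (by linarith)
  have hd1 : d ≤ 1 := min_le_left _ _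
  have hd2 : d ≤ (r - ‖z‖) / 2 := min_le_right _ _
  have hsubc : closedBall z d ⊆ ball (0 : ℂ) r := by
    intro w hw
    rw [mem_closedBall, dist_eq_norm] at hw
    rw [mem_ball_zero_iff]
    have := norm_sub_norm_le w z
    linarith
  have hsub : ball z d ⊆ ball (0 : ℂ) r := ball_subset_closedBall.trans hsubc
  have hmaps : MapsTo (aff z d) (ball 0 1) (ball z d) := mapsTo_aff hd0
  have hmapsr : MapsTo (aff z d) (ball 0 1) (ball 0 r) := fun w hw => hsub (hmaps hw)
  have h0 : aff z d 0 = z := by simp [aff]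
  have hl := holP_limit isOpen_ball hCC (hev.mono fun m hm => hm.1.1) (fun w hw => hTP (hH.2 w hw))
  have hHd : ∀ w ∈ ball (0 : ℂ) r, ‖fderiv ℝ H w‖ ≤ 2 := fun w hw =>
    le_of_tendsto (hl.2 w hw).norm (hev.mono fun m hm => hm.2 w hw)
  have hcomp : ∀ φ : ℂ → Mat (n + 1), CvOn T (ball 0 r) φ →
      ρ (fun w => φ (aff z d w)) 0 = d * ρ φ z := by
    intro φ hφ
    have h1 := hJ.comp φ (ball 0 r) isOpen_ball hφ (ball 0 1) (aff z d) isOpen_ball
      (aff_diff _ _).differentiableOn hmapsr 0 (mem_ball_self one_pos)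
    rw [deriv_aff, Complex.norm_real, Real.norm_of_nonneg hd0.le, h0] at h1
    exact h1
  have hbd : ∀ φ : ℂ → Mat (n + 1), CvOn T (ball 0 r) φ → (∀ w ∈ ball (0 : ℂ) r, ‖fderiv ℝ φ w‖ ≤ 2) →
      ∀ w ∈ ball (0 : ℂ) 1, ‖fderiv ℝ (fun w => φ (aff z d w)) w‖ ≤ 2 := by
    intro φ hφ hφd w hw
    rw [norm_fderiv_aff hd0.le (hφ.1.differentiableAt (hmapsr hw))]
    have h1 := hφd _ (hmapsr hw)
    have h2 := norm_nonneg (fderiv ℝ φ (aff z d w))
    nlinarith
  have hcl : ∀ φ : ℂ → Mat (n + 1), CvOn T (ball 0 r) φ → CvOn T (ball 0 1) (fun w => φ (aff z d w)) :=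
    fun φ hφ => hφ.comp isOpen_ball (aff_diff _ _).differentiableOn hmapsr
  have hunif := (tendstoLocallyUniformlyOn_iff_forall_isCompact isOpen_ball).1
    (CConv.locUnif isOpen_ball hCC) (closedBall z d) hsubc (isCompact_closedBall z d)
  rw [Metric.tendstoUniformlyOn_iff] at hunif
  rw [Metric.tendsto_nhds]
  intro ε' hε'
  set ε : ℝ := (d * ε' / (2 * (C + 1))) ^ (1 / α) with hε
  have hbase : 0 < d * ε' / (2 * (C + 1)) := by positivity
  have hεpos : 0 < ε := Real.rpow_pos_of_pos hbase _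
  have hεα : ε ^ α = d * ε' / (2 * (C + 1)) := by
    rw [hε, ← Real.rpow_mul hbase.le, one_div_mul_cancel hα.ne', Real.rpow_one]
  filter_upwards [hunif ε hεpos, hev] with m hm hm2
  have h1 := hh (fun w => P m (aff z d w)) (fun w => H (aff z d w)) 0 ε (hcl _ hm2.1) (hcl _ hH)
    (hbd _ hm2.1 hm2.2) (hbd _ hH hHd) (fun w hw => by
      have h2 := hm (aff z d w) (ball_subset_closedBall (hmaps hw))
      rw [dist_comm, dist_eq_norm] at h2
      exact h2.le)
  rw [hcomp _ hm2.1, hcomp _ hH, hεα, ← mul_sub, abs_mul, abs_of_pos hd0] at h1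
  rw [Real.dist_eq]
  have h3 : C * (d * ε' / (2 * (C + 1))) < d * ε' := by
    rw [mul_div_assoc', div_lt_iff₀ (by positivity)]
    nlinarith [mul_pos hd0 hε']
  have h4 := h1.trans_lt h3
  exact lt_of_mul_lt_mul_left h4 hd0.le

end Pool.Agent.Helper65.NC.LIM
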