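import Pool.Agent.Helper65.NC.Stm

set_option autoImplicit false

open Filter Topology Metric Set Real

namespace Pool.Agent.Helper65.NC.LIOU

open Pool.Agent.Helper65.NC

lemma strict {h : ℂ → ℝ} {c : ℂ} {s M : ℝ} (hs : 0 < s) (hc : ContinuousOn h (sphere c s))
    (hM : ∀ ζ ∈ sphere c s, h ζ ≤ M) {ζ₀ : ℂ} (hζ : ζ₀ ∈ sphere c s) (hlt : h ζ₀ < M) :
    circleAverage h c s < M := by
  have hcc : Continuous fun θ : ℝ => h (circleMap c s θ) :=
    hc.comp_continuous (continuous_circleMap c s) (fun θ => circleMap_mem_sphere c hs.le θ)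
  obtain ⟨θ₀, hθ₀, hθ₁⟩ : ∃ θ ∈ Ioc 0 (2 * π), circleMap c s θ = ζ₀ := by
    have := image_circleMap_Ioc c s
    rw [abs_of_pos hs] at this
    rw [← this] at hζ
    exact hζ
  have hpos : 0 < ∫ θ in 0..2 * π, (M - h (circleMap c s θ)) := by
    apply intervalIntegral.integral_pos two_pi_pos (continuous_const.sub hcc).continuousOn
    · intro x _
      have := hM _ (circleMap_mem_sphere c hs.le x)
      change 0 ≤ M - h (circleMap c s x)
      linarith
    · refine ⟨θ₀, Ioc_subset_Icc_self hθ₀, ?_⟩
      change 0 < M - h (circleMap c s θ₀)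
      rw [hθ₁]
      linarith
  have h1 : circleAverage (fun z => M - h z) c s = M - circleAverage h c s := by
    have := circleAverage_fun_sub (f₁ := fun _ => M) (f₂ := h) (c := c) (R := s)
      (circleIntegrable_const M c s) (hc.circleIntegrable hs.le)
    rw [this, circleAverage_const]
  have h2 : 0 < circleAverage (fun z => M - h z) c s := by
    rw [circleAverage_def, smul_eq_mul]
    exact mul_pos (inv_pos.2 two_pi_pos) hpos
  linarith

lemma annulus {u : ℂ → ℝ} (hu : SubM u univ) {B M₁ δ R : ℝ} (hB : ∀ z, u z ≤ B)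
    (hM₁ : ∀ z, ‖z‖ = 1 → u z ≤ M₁) (hR : 1 < R) :
    ∀ z : ℂ, 1 ≤ ‖z‖ → ‖z‖ ≤ R → u z - δ * Real.log ‖z‖ ≤ max M₁ (B - δ * Real.log R) := by
  have huc : Continuous u := continuousOn_univ.1 hu.cont
  set A : Set ℂ := {z | 1 ≤ ‖z‖ ∧ ‖z‖ ≤ R} with hA
  have hAc : IsCompact A := by
    have : A = closedBall 0 R ∩ {z | 1 ≤ ‖z‖} := by
      ext z
      simp only [hA, mem_ofPred_eq, mem_inter_iff, mem_closedBall, dist_zero_right]
      exact and_comm
    rw [this]
    exact (isCompact_closedBall 0 R).inter_right (isClosed_le continuous_const continuous_norm)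
  set h : ℂ → ℝ := fun z => u z - δ * Real.log ‖z‖ with hh
  have hcA : ContinuousOn h A := by
    apply huc.continuousOn.sub
    apply continuousOn_const.mul
    apply ContinuousOn.log continuous_norm.continuousOn
    intro z hz
    have : (1 : ℝ) ≤ ‖z‖ := hz.1
    positivity
  have hne : A.Nonempty := ⟨1, by simp [hA, hR.le]⟩
  obtain ⟨z₁, hz₁, hmax⟩ := hAc.exists_isMaxOn hne hcA
  set M := h z₁ with hM
  have hE : IsCompact (A ∩ h ⁻¹' {M}) := by
    have hcl : IsClosed (A ∩ h ⁻¹' {M}) :=
      hcA.preimage_isClosed_of_isClosed hAc.isClosed isClosed_singleton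
    exact hAc.of_isClosed_subset hcl inter_subset_left
  obtain ⟨z₂, hz₂, hmax₂⟩ := hE.exists_isMaxOn ⟨z₁, hz₁, rfl⟩
    (continuous_norm.continuousOn (s := A ∩ h ⁻¹' {M}))
  have hz₂M : h z₂ = M := hz₂.2
  have hle : M ≤ max M₁ (B - δ * Real.log R) := by
    rcases hz₂.1.1.eq_or_lt with h1 | h1
    · refine le_trans ?_ (le_max_left _ _)
      rw [← hz₂M]
      change u z₂ - δ * Real.log ‖z₂‖ ≤ M₁
      rw [← h1, Real.log_one, mul_zero, sub_zero]
      exact hM₁ z₂ h1.symm
    · rcases hz₂.1.2.eq_or_lt with h2 | h2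
      · refine le_trans ?_ (le_max_right _ _)
        rw [← hz₂M]
        change u z₂ - δ * Real.log ‖z₂‖ ≤ _
        rw [h2]
        linarith [hB z₂]
      · exfalso
        set s : ℝ := min (‖z₂‖ - 1) (R - ‖z₂‖) / 2 with hs
        have hs0 : 0 < s := by
          have : 0 < min (‖z₂‖ - 1) (R - ‖z₂‖) := lt_min (by linarith) (by linarith)
          linarith
        have hs1 : s < ‖z₂‖ - 1 := by
          have := min_le_left (‖z₂‖ - 1) (R - ‖z₂‖)
          have : 0 < min (‖z₂‖ - 1) (R - ‖z₂‖) := lt_min (by linarith) (by linarith)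
          linarith
        have hs2 : s < R - ‖z₂‖ := by
          have := min_le_right (‖z₂‖ - 1) (R - ‖z₂‖)
          have : 0 < min (‖z₂‖ - 1) (R - ‖z₂‖) := lt_min (by linarith) (by linarith)
          linarith
        have hball : closedBall z₂ s ⊆ A := by
          intro w hw
          rw [mem_closedBall, dist_eq_norm] at hw
          have e1 := norm_sub_norm_le z₂ w
          have e2 := norm_sub_norm_le w z₂
          rw [norm_sub_rev] at e1
          exact ⟨by linarith, by linarith⟩
        have hz₂0 : 0 < ‖z₂‖ := by linarith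
        have hlog : circleAverage (fun z : ℂ => Real.log ‖z‖) z₂ s = Real.log ‖z₂‖ := by
          have := AnalyticOnNhd.circleAverage_log_norm_of_ne_zero (R := s) (c := z₂)
            (g := fun z => z) analyticOnNhd_id (by
              intro w hw
              rw [abs_of_pos hs0] at hw
              have := (hball hw).1
              rw [← norm_pos_iff]
              linarith)
          exact this
        have hcs : ContinuousOn h (sphere z₂ s) := hcA.mono (sphere_subset_closedBall.trans hball)
        have hlc : ContinuousOn (fun z : ℂ => Real.log ‖z‖) (sphere z₂ s) := by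
          apply ContinuousOn.log continuous_norm.continuousOn
          intro w hw
          have := (hball (sphere_subset_closedBall hw)).1
          positivity
        have hmean : circleAverage h z₂ s = circleAverage u z₂ s - δ * Real.log ‖z₂‖ := by
          have e1 := circleAverage_fun_sub (f₁ := u) (f₂ := fun z => δ * Real.log ‖z‖)
            (c := z₂) (R := s) (huc.continuousOn.circleIntegrable hs0.le)
            ((continuousOn_const.mul hlc).circleIntegrable hs0.le)
          have e2 := circleAverage_fun_smul (a := δ) (f := fun z : ℂ => Real.log ‖z‖) (c := z₂)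
            (R := s)
          simp only [smul_eq_mul] at e2
          rw [hlog] at e2
          rw [e2] at e1
          exact e1
        have hsub := hu.sub z₂ s hs0 (subset_univ _)
        -- the point ζ₀
        set ζ₀ : ℂ := z₂ + (s / ‖z₂‖ : ℝ) • z₂ with hζ₀
        have hζs : ζ₀ ∈ sphere z₂ s := by
          rw [mem_sphere_iff_norm, hζ₀, add_sub_cancel_left, norm_smul, Real.norm_eq_abs,
            abs_of_pos (by positivity)]
          field_simp
        have hζn : ‖ζ₀‖ = ‖z₂‖ + s := by
          have : ζ₀ = (1 + s / ‖z₂‖ : ℝ) • z₂ := by rw [hζ₀, add_smul, one_smul]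
          rw [this, norm_smul, Real.norm_eq_abs, abs_of_pos (by positivity)]
          field_simp
        have hζA : ζ₀ ∈ A := hball (sphere_subset_closedBall hζs)
        have hζlt : h ζ₀ < M := by
          refine lt_of_le_of_ne (hmax hζA) ?_
          intro heq
          have := hmax₂ (show ζ₀ ∈ A ∩ h ⁻¹' {M} from ⟨hζA, heq⟩)
          have h3 : ‖ζ₀‖ ≤ ‖z₂‖ := this
          linarith
        have hst := strict hs0 hcs (fun ζ hζ => hmax (hball (sphere_subset_closedBall hζ))) hζs
          hζlt
        have hst2 : circleAverage h z₂ s < h z₂ := lt_of_lt_of_eq hst hz₂M.symm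
        rw [hmean] at hst2
        change _ < u z₂ - δ * Real.log ‖z₂‖ at hst2
        linarith
  intro z h1 h2
  exact (hmax (show z ∈ A from ⟨h1, h2⟩)).trans hle

theorem main : S_LIOU := by
  rintro u hu ⟨B, hB⟩
  have huc : Continuous u := continuousOn_univ.1 hu.cont
  obtain ⟨z₀, hz₀, hmax⟩ := (isCompact_closedBall (0 : ℂ) 1).exists_isMaxOn
    ⟨0, mem_closedBall_self zero_le_one⟩ huc.continuousOn
  have hglob : ∀ z, u z ≤ u z₀ := by
    intro z
    by_cases hz : ‖z‖ ≤ 1
    · exact hmax (show z ∈ closedBall (0 : ℂ) 1 by simpa using hz)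
    · push Not at hz
      apply le_of_forall_pos_le_add
      intro ε hε
      have hl : 0 < Real.log ‖z‖ := Real.log_pos hz
      set δ : ℝ := ε / Real.log ‖z‖ with hδ
      have hδ0 : 0 < δ := by positivity
      set R : ℝ := max ‖z‖ (Real.exp ((B - u z₀) / δ)) with hR
      have h1 := annulus (δ := δ) (R := R) (M₁ := u z₀) hu hB
        (fun w hw => hmax (show w ∈ closedBall (0 : ℂ) 1 by simp [hw]))
        (lt_of_lt_of_le hz (le_max_left _ _)) z hz.le (le_max_left _ _)
      have h2 : B - δ * Real.log R ≤ u z₀ := by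
        have h3 : (B - u z₀) / δ ≤ Real.log R := by
          rw [← Real.log_exp ((B - u z₀) / δ)]
          exact Real.log_le_log (Real.exp_pos _) (le_max_right _ _)
        rw [div_le_iff₀ hδ0] at h3
        linarith
      rw [max_eq_left h2] at h1
      have h4 : δ * Real.log ‖z‖ = ε := by
        rw [hδ]
        field_simp
      linarith
  have hconst : ∀ w, u w = u z₀ := by
    intro w
    by_contra hne
    have hlt : u w < u z₀ := lt_of_le_of_ne (hglob w) hne
    have hwz : w ≠ z₀ := by
      rintro rfl
      exact hne rfl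
    have hs : 0 < ‖w - z₀‖ := norm_pos_iff.2 (sub_ne_zero.2 hwz)
    have h1 := strict (h := u) (c := z₀) (s := ‖w - z₀‖) (M := u z₀) hs huc.continuousOn
      (fun ζ _ => hglob ζ) (ζ₀ := w) (by rw [mem_sphere_iff_norm]) hlt
    have h2 := hu.sub z₀ ‖w - z₀‖ hs (subset_univ _)
    linarith
  intro z w
  rw [hconst z, hconst w]

end Pool.Agent.Helper65.NC.LIOU
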