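import Pool.Agent.Helper65.GG.JDefs

/-!
Jet pseudometrics of nonpositive curvature on projective varieties.
-/

set_option autoImplicit false

open Filter Topology LinearAlgebra.Projectivization Pool.Agent.W602.GT Pool.Agent.N155
  Pool.Agent.Helper65.GG

namespace Pool.Agent.Helper65.NC

variable {n : ℕ}

/-- `j` is the jet of order `r` of a holomorphic curve in `X`. -/
def IsJet (X : Set (Fin (n + 1) → ℂ)) (r : ℕ) (j : Fin (r + 1) → Fin (n + 1) → ℂ) : Prop :=
  ∃ (γ : ℂ → Fin (n + 1) → ℂ) (z : ℂ), AnalyticAt ℂ γ z ∧ (∀ᶠ w in 𝓝 z, γ w ∈ X) ∧ j = jet r γ z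

/-- `ρ` is a pseudometric of nonpositive curvature on the jets of order `r` of the holomorphic
curves in the projective set with the cone `X`: `ρ (jet r γ z)` is the length of the curve `γ` at
`z`, and

* `ρ` is locally Hölder continuous on the jets of the curves in `X`;
* it does not change when the curve is multiplied by a function without zeros: it only depends on the
  jet of the curve in projective space;
* under a change of the variable `ψ` it is multiplied by `|ψ'|`, as the length of a tangent vector;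
* it is zero when the derivative of the curve in projective space is zero;
* along each holomorphic curve `log ρ` is subharmonic, that is, the metric `ρ |dz|` on the curve has
  curvature at most `0`. (As `ρ` may have zeros, this is required of `log (max ρ (exp (-N)))` for all
  `N`: its value at a point is at most its mean over each small circle around this point.)

For example, for `r = 1`, the length of tangent vectors for a Hermitian or complex Finsler metric
(possibly degenerate) of holomorphic sectional curvature at most `0`; or, for any `r`, the maximum of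
`|s_i| ^ (1 / k_i)` for finitely many invariant jet differentials `s_i` of weights `k_i`. -/
structure JetMetric (X : Set (Fin (n + 1) → ℂ)) (r : ℕ)
    (ρ : (Fin (r + 1) → Fin (n + 1) → ℂ) → ℝ) : Prop where
  nonneg : ∀ j, 0 ≤ ρ j
  holder : ∀ K : Set (Fin (r + 1) → Fin (n + 1) → ℂ), IsCompact K → (∀ j ∈ K, j 0 ≠ 0) →
    ∃ C α : ℝ, 0 < α ∧ ∀ j ∈ K, ∀ j' ∈ K, IsJet X r j → IsJet X r j' →
      |ρ j - ρ j'| ≤ C * ‖j - j'‖ ^ α
  twist : ∀ (γ : ℂ → Fin (n + 1) → ℂ) (h : ℂ → ℂ) (z : ℂ), AnalyticAt ℂ γ z → AnalyticAt ℂ h z →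
    h z ≠ 0 → (∀ᶠ w in 𝓝 z, γ w ∈ X) → ρ (jet r (fun w => h w • γ w) z) = ρ (jet r γ z)
  param : ∀ (γ : ℂ → Fin (n + 1) → ℂ) (ψ : ℂ → ℂ) (z : ℂ), AnalyticAt ℂ ψ z →
    AnalyticAt ℂ γ (ψ z) → (∀ᶠ w in 𝓝 (ψ z), γ w ∈ X) →
    ρ (jet r (fun w => γ (ψ w)) z) = ‖deriv ψ z‖ * ρ (jet r γ (ψ z))
  sing : ∀ (γ : ℂ → Fin (n + 1) → ℂ) (z : ℂ), AnalyticAt ℂ γ z → (∀ᶠ w in 𝓝 z, γ w ∈ X) →
    (∃ c : ℂ, deriv γ z = c • γ z) → ρ (jet r γ z) = 0
  curv : ∀ (γ : ℂ → Fin (n + 1) → ℂ) (z : ℂ) (N : ℝ), AnalyticAt ℂ γ z →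
    (∀ᶠ w in 𝓝 z, γ w ∈ X) → ∀ᶠ s in 𝓝[>] (0 : ℝ),
      Real.log (max (ρ (jet r γ z)) (Real.exp (-N))) ≤
        Real.circleAverage (fun w => Real.log (max (ρ (jet r γ w)) (Real.exp (-N)))) z s

end Pool.Agent.Helper65.NC
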