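import Mathlib

/-!
Statements about continuous functions with the sub-mean value property in the plane.
-/

set_option autoImplicit false

open Filter Topology Metric Set

namespace Pool.Agent.Helper65.NC

/-- continuous functions with the sub-mean value property on `U` -/
structure SubM (u : ℂ → ℝ) (U : Set ℂ) : Prop where
  cont : ContinuousOn u U
  sub : ∀ (z : ℂ) (s : ℝ), 0 < s → closedBall z s ⊆ U → u z ≤ Real.circleAverage u z s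

/-- the Poisson integral of `f` on the circle with centre `c` and radius `t`, at the point `w` -/
noncomputable def PI (f : ℂ → ℝ) (c : ℂ) (t : ℝ) (w : ℂ) : ℝ :=
  Real.circleAverage (fun ζ => (‖ζ - c‖ ^ 2 - ‖w - c‖ ^ 2) / ‖ζ - w‖ ^ 2 * f ζ) c t

/-- **POI** (Poisson inequality, consistency, kernel bounds). -/
def S_POI : Prop :=
  (∀ (u : ℂ → ℝ) (c : ℂ) (t R : ℝ), 0 < t → t < R → SubM u (ball c R) → ∀ w ∈ ball c t,
    u w ≤ PI u c t w) ∧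
  (∀ (f : ℂ → ℝ) (c : ℂ) (s t : ℝ), 0 < s → s < t → ContinuousOn f (sphere c t) →
    ContinuousOn (PI f c t) (ball c t) ∧ ∀ w ∈ ball c s, PI (PI f c t) c s w = PI f c t w) ∧
  (∀ (f : ℂ → ℝ) (c : ℂ) (t κ : ℝ), 0 < t → 0 ≤ κ → κ ≤ 1 / 2 → ContinuousOn f (sphere c t) →
    (∀ ζ ∈ sphere c t, 0 ≤ f ζ) → ∀ w, ‖w - c‖ ≤ κ * t →
      |PI f c t w - Real.circleAverage f c t| ≤ 4 * κ * Real.circleAverage f c t ∧
      1 / 3 * Real.circleAverage f c t ≤ PI f c t w)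

/-- **MONO** (circle means increase with the radius). -/
def S_MONO : Prop := ∀ (u : ℂ → ℝ) (z : ℂ) (s t R : ℝ), 0 < s → s ≤ t → t < R →
  SubM u (ball z R) → Real.circleAverage u z s ≤ Real.circleAverage u z t

/-- **CONV** (circle means are convex functions of the logarithm of the radius). -/
def S_CONV : Prop := ∀ (u : ℂ → ℝ) (z : ℂ) (s R : ℝ), 0 < s → 4 * s < R → SubM u (ball z R) →
  Real.circleAverage u z (2 * s) - Real.circleAverage u z s ≤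
    Real.circleAverage u z (4 * s) - Real.circleAverage u z (2 * s)

/-- **LIOU** (Liouville). -/
def S_LIOU : Prop := ∀ u : ℂ → ℝ, SubM u univ → (∃ B, ∀ z, u z ≤ B) → ∀ z w, u z = u w

/-- **RM** (functions whose deficit is small have small oscillation in the mean). -/
def S_RM : Prop := ∀ (u : ℂ → ℝ) (c : ℂ) (r ε : ℝ), 0 < r → 0 ≤ ε → SubM u (ball c r) →
  (∀ z ∈ ball c r, u z ≤ ε) → 0 ≤ Real.circleAverage u c (r / 32) →
  ∀ z ∈ closedBall c (r / 64),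
    (∀ s, 0 < s → s ≤ r / 4 →
      Real.circleAverage u z (2 * s) ≤ Real.circleAverage u z s + 3 * ε ∧
      ∀ w ∈ closedBall z (s / 2), u w ≤ Real.circleAverage u z s + 100 * ε) ∧
    ∀ s, r / 8 ≤ s → s ≤ r / 4 → -(2 * ε) ≤ Real.circleAverage u z s

/-- **TAU** -/
def S_TAU : Prop := ∀ (u : ℂ → ℝ) (Δ ε : ℝ), 0 < Δ → 0 ≤ ε → SubM u (ball 0 Δ) →
  (∀ z ∈ ball (0 : ℂ) Δ, u z ≤ ε) → 0 ≤ u 0 → ∀ z ∈ closedBall (0 : ℂ) (Δ / 16),
    ∀ (m : ℕ) (s : ℝ), 0 < s → s ≤ Δ / 4 → Δ / 8 ≤ 2 ^ m * s →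
      -((3 * m + 2) * ε) ≤ Real.circleAverage u z s

/-- **NEARH** (functions which are nearly harmonic at a fixed scale). -/
def S_NEARH : Prop := ∀ (u : ℂ → ℝ) (R c ε : ℝ), 0 < R → 0 < c → 0 ≤ ε →
  SubM u (ball 0 (R + 2 * c)) → (∀ z ∈ closedBall (0 : ℂ) R, Real.circleAverage u z c ≤ u z + ε) →
  Real.circleAverage u 0 R ≤ u 0 + ε * ((R + c) ^ 2 / c ^ 2)

/-- **GROW** (growth lemma; compare `Pool.Agent.Helper65.GG.growth` for entire functions). -/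
def S_GROW : Prop := ∀ g : ℂ → ℝ, Continuous g → (∀ z, 0 ≤ g z) →
  ((∃ B, ∀ z, g z ≤ B) → ∀ z w, g z = g w) → (∃ z, g z ≠ 0) →
    ∃ c : ℝ, 0 < c ∧ ∀ q : ℝ, 1 ≤ q → ∀ R : ℝ, ∃ (a : ℂ) (ν : ℝ), R ≤ ‖a‖ ∧ 1 ≤ ‖a‖ ∧ 0 ≤ ν ∧
      c * Real.exp (q * ν ^ 2) ≤ g a ∧ (∀ w, ‖w‖ ≤ ‖a‖ → g w ≤ g a) ∧
      ∀ (w : ℂ) (t : ℝ), ‖w‖ = ‖a‖ * Real.exp t → |t| * ν ≤ q →
        g w ≤ g a * Real.exp (ν ^ 3 * t + 4 * ν ^ 4 * t ^ 2 / q)

end Pool.Agent.Helper65.NC
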