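import Pool.Agent.Helper65.GG.Flat
import Pool.Agent.Helper65.NC.Stm

/-!
Statements about pseudometrics of nonpositive curvature on the curves in a compact set of
projective space (in the model of rank one projections).
-/

set_option autoImplicit false

open Filter Topology Metric MvPolynomial Set

namespace Pool.Agent.Helper65.NC

open Pool.Agent.W602.GT Pool.Agent.N155.BB Pool.Agent.Y190.OP Pool.Agent.N155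
  Pool.Agent.N155.GD Pool.Agent.Helper65.BF Pool.Agent.Helper65.GG

variable {n : ℕ}

/-- the logarithm of `f`, cut off at `-N` -/
noncomputable def lg (N : ℝ) (f : ℂ → ℝ) (z : ℂ) : ℝ := Real.log (max (f z) (Real.exp (-N)))

/-- `ρ φ z` is the length of the curve `φ` at `z` for a pseudometric of nonpositive curvature -/
structure JR (T : Set (Mat (n + 1))) (ρ : (ℂ → Mat (n + 1)) → ℂ → ℝ) : Prop where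
  nonneg : ∀ φ z, 0 ≤ ρ φ z
  cont : ∀ (φ : ℂ → Mat (n + 1)) (U : Set ℂ), IsOpen U → CvOn T U φ → ContinuousOn (ρ φ) U
  comp : ∀ (φ : ℂ → Mat (n + 1)) (U : Set ℂ), IsOpen U → CvOn T U φ → ∀ (V : Set ℂ) (ψ : ℂ → ℂ),
    IsOpen V → DifferentiableOn ℂ ψ V → MapsTo ψ V U → ∀ z ∈ V,
      ρ (fun w => φ (ψ w)) z = ‖deriv ψ z‖ * ρ φ (ψ z)
  sub : ∀ (φ : ℂ → Mat (n + 1)) (U : Set ℂ), IsOpen U → CvOn T U φ → ∀ N : ℝ, SubM (lg N (ρ φ)) U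
  small : ∃ C α : ℝ, 0 ≤ C ∧ 0 < α ∧ ∀ (φ : ℂ → Mat (n + 1)) (z : ℂ), CvOn T (ball z 1) φ →
    (∀ w ∈ ball z 1, ‖fderiv ℝ φ w‖ ≤ 2) → ρ φ z ≤ C * ‖fderiv ℝ φ z‖ ^ α
  hold : ∃ C α : ℝ, 0 ≤ C ∧ 0 < α ∧ ∀ (φ ψ : ℂ → Mat (n + 1)) (z : ℂ) (ε : ℝ),
    CvOn T (ball z 1) φ → CvOn T (ball z 1) ψ → (∀ w ∈ ball z 1, ‖fderiv ℝ φ w‖ ≤ 2) →
    (∀ w ∈ ball z 1, ‖fderiv ℝ ψ w‖ ≤ 2) → (∀ w ∈ ball z 1, ‖φ w - ψ w‖ ≤ ε) →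
      |ρ φ z - ρ ψ z| ≤ C * ε ^ α

/-- curves of bounded derivative and length zero are constant -/
def NDr (T : Set (Mat (n + 1))) (ρ : (ℂ → Mat (n + 1)) → ℂ → ℝ) : Prop :=
  ∀ φ, BD T φ → (∀ z, ρ φ z = 0) → ∀ z, fderiv ℝ φ z = 0

/-- **LIM** -/
def S_LIM : Prop := ∀ (n : ℕ) (T : Set (Mat (n + 1))) (ρ : (ℂ → Mat (n + 1)) → ℂ → ℝ),
  JR T ρ → T ⊆ PM → ∀ (𝓤 : Ultrafilter ℕ) (P : ℕ → ℂ → Mat (n + 1)) (H : ℂ → Mat (n + 1)) (r : ℝ),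
    0 < r → (∀ᶠ m in (𝓤 : Filter ℕ), CvOn T (ball 0 r) (P m) ∧
      ∀ w ∈ ball (0 : ℂ) r, ‖fderiv ℝ (P m) w‖ ≤ 2) →
    CConv (𝓤 : Filter ℕ) (ball 0 r) P H → CvOn T (ball 0 r) H → ∀ z ∈ ball (0 : ℂ) r,
      Tendsto (fun m => ρ (P m) z) 𝓤 (𝓝 (ρ H z))

/-- **CST** -/
def S_CST : Prop := ∀ (n : ℕ) (T : Set (Mat (n + 1))) (ρ : (ℂ → Mat (n + 1)) → ℂ → ℝ),
  JR T ρ → ∀ φ, BD T φ → ∀ z w, ρ φ z = ρ φ w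

/-- **SCH** (Schwarz lemma) -/
def S_SCH : Prop := ∀ (n : ℕ) (T : Set (Mat (n + 1))) (ρ : (ℂ → Mat (n + 1)) → ℂ → ℝ),
  JR T ρ → IsCompact T → T ⊆ PM → NDr T ρ → ∃ C0 : ℝ, 1 ≤ C0 ∧
    ∀ (φ : ℂ → Mat (n + 1)) (z : ℂ) (s : ℝ), 0 < s → CvOn T (ball z s) φ →
      (∀ w ∈ ball z s, s * ρ φ w ≤ 1) → ‖fderiv ℝ φ z‖ ≤ C0 / s

/-- **TWO** (two-sided bounds) -/
def S_TWO : Prop := ∀ (n : ℕ) (T : Set (Mat (n + 1))) (ρ : (ℂ → Mat (n + 1)) → ℂ → ℝ),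
  JR T ρ → IsCompact T → T ⊆ PM → NDr T ρ → ∃ c1 C1 : ℝ, 0 < c1 ∧ 0 < C1 ∧
    ∀ (φ : ℂ → Mat (n + 1)) (z : ℂ), CvOn T (ball z 2) φ →
      (∀ w ∈ ball z 2, 1 / 4 ≤ ρ φ w ∧ ρ φ w ≤ 4) → c1 ≤ ‖fderiv ℝ φ z‖ ∧ ‖fderiv ℝ φ z‖ ≤ C1

/-- **TRK** (curves on discs are very close to entire curves, with a parameter) -/
def S_TRK : Prop := ∀ (N : ℕ) (T Z : Set (Mat N)) (c0 : ℝ) (𝒞 : (ℂ → Mat N) → Prop)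
  (𝒟 : ℝ → (ℂ → Mat N) → Prop) (κ' : Type)
  (ω : κ' → (Fin N → ℂ) → (Fin N → ℂ) → (Fin N → ℂ) → ℂ), GW T Z ω →
  (∀ φ, 𝒞 φ → ∃ z, φ z ∉ Z) → Dcl T c0 𝒞 𝒟 →
    ∃ R0 κ L δ : ℝ, 0 < R0 ∧ 0 < κ ∧ 0 < L ∧ 0 < δ ∧ ∀ (R : ℝ) (P : ℂ → Mat N), R0 ≤ R → 𝒟 R P →
      ∃ (Q : ℂ → Mat N) (h : ℂ → ℂ), 𝒞 Q ∧
        (∀ z, ‖z‖ ≤ R / 2 + 1 → ‖P z - Q (h z)‖ ≤ Real.exp (-κ * R ^ 2)) ∧
        ∀ z z', ‖z‖ ≤ R / 2 + 1 → ‖z'‖ ≤ R / 2 + 1 → ‖z - z'‖ ≤ δ →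
          ‖h z - h z'‖ ≤ L * (‖z - z'‖ + Real.exp (-κ * R ^ 2))

/-- **INV** (a quantitative inverse function theorem) -/
def S_INV : Prop := ∀ M c : ℝ, 0 < M → 0 < c → ∃ r δ : ℝ, 0 < r ∧ r < 1 ∧ 0 < δ ∧
  ∀ f : ℂ → ℂ, DifferentiableOn ℂ f (ball 0 1) → (∀ z ∈ ball (0 : ℂ) 1, ‖f z‖ ≤ M) →
    c ≤ ‖deriv f 0‖ → ∃ g : ℂ → ℂ, DifferentiableOn ℂ g (ball (f 0) δ) ∧
      (∀ w ∈ ball (f 0) δ, g w ∈ ball (0 : ℂ) r ∧ f (g w) = w) ∧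
      ∀ t ∈ ball (0 : ℂ) r, ∀ t' ∈ ball (0 : ℂ) r, c / 2 * ‖t - t'‖ ≤ ‖f t - f t'‖

/-- **LIFT** (holomorphic projections to immersed curves) -/
def S_LIFT : Prop := ∀ (n : ℕ) (T : Set (Mat (n + 1))) (c0 L δ : ℝ), IsCompact T → T ⊆ PM →
  0 < c0 → 0 < L → 0 < δ → ∃ C c3 e0 : ℝ, 0 < C ∧ 0 < c3 ∧ c3 ≤ 1 ∧ 0 < e0 ∧
    ∀ (P Q : ℂ → Mat (n + 1)) (h : ℂ → ℂ) (z0 : ℂ) (e : ℝ), CvOn T (ball z0 1) P →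
      (∀ w ∈ ball z0 1, ‖fderiv ℝ P w‖ ≤ 2) → BCw T c0 Q → 0 < e → e ≤ e0 →
      (∀ z ∈ ball z0 1, ‖P z - Q (h z)‖ ≤ e) →
      (∀ z ∈ ball z0 1, ‖z - z0‖ ≤ δ → ‖h z - h z0‖ ≤ L * (‖z - z0‖ + e)) →
        ∃ k : ℂ → ℂ, DifferentiableOn ℂ k (ball z0 c3) ∧
          (∀ z ∈ ball z0 c3, ‖P z - Q (k z)‖ ≤ C * e ∧ ‖k z - h z0‖ ≤ 1)

/-- the hypotheses which give the finiteness of the curves with bounds -/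
def Rgd (T Z : Set (Mat (n + 1))) {κ' : Type}
    (η : κ' → (Fin (n + 1) → ℂ) → (Fin (n + 1) → ℂ) → (Fin (n + 1) → ℂ) → ℂ) : Prop :=
  GW T Z η ∧ ∀ c : ℝ, 0 < c → ∀ φ, BCw T c φ → ∃ z, φ z ∉ Z

/-- **NHL** (the logarithm of the length is nearly harmonic) -/
def S_NHL : Prop := ∀ (n : ℕ) (T Z : Set (Mat (n + 1))) (ρ : (ℂ → Mat (n + 1)) → ℂ → ℝ)
  (κ' : Type) (η : κ' → (Fin (n + 1) → ℂ) → (Fin (n + 1) → ℂ) → (Fin (n + 1) → ℂ) → ℂ),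
  JR T ρ → IsCompact T → T ⊆ PM → NDr T ρ → Rgd T Z η → ∃ c4 : ℝ, 0 < c4 ∧ c4 ≤ 1 ∧
    ∀ e : ℝ, 0 < e → ∃ R3 : ℝ, 0 < R3 ∧ ∀ (φ : ℂ → Mat (n + 1)) (R : ℝ), R3 ≤ R →
      CvOn T (ball 0 R) φ → (∀ w ∈ ball (0 : ℂ) R, 1 / 4 ≤ ρ φ w ∧ ρ φ w ≤ 4) →
      ∀ z, ‖z‖ ≤ R / 4 → Real.circleAverage (lg 2 (ρ φ)) z c4 ≤ lg 2 (ρ φ) z + e / R ^ 2

/-- **NH** -/
def S_NH : Prop := ∀ (n : ℕ) (T Z : Set (Mat (n + 1))) (ρ : (ℂ → Mat (n + 1)) → ℂ → ℝ)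
  (κ' : Type) (η : κ' → (Fin (n + 1) → ℂ) → (Fin (n + 1) → ℂ) → (Fin (n + 1) → ℂ) → ℂ),
  JR T ρ → IsCompact T → T ⊆ PM → NDr T ρ → Rgd T Z η → ∃ R4 : ℝ, 0 < R4 ∧
    ∀ (φ : ℂ → Mat (n + 1)) (R : ℝ), R4 ≤ R → CvOn T (ball 0 R) φ →
      (∀ w ∈ ball (0 : ℂ) R, 1 / 4 ≤ ρ φ w ∧ ρ φ w ≤ 4) →
      Real.circleAverage (lg 2 (ρ φ)) 0 (R / 8) ≤ lg 2 (ρ φ) 0 + 1 / 40

/-- **INI** (initial scale) -/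
def S_INI : Prop := ∀ (n : ℕ) (T : Set (Mat (n + 1))) (ρ : (ℂ → Mat (n + 1)) → ℂ → ℝ),
  JR T ρ → IsCompact T → T ⊆ PM → NDr T ρ → ∀ R1 : ℝ, 1 ≤ R1 → ∃ ε1 R5 : ℝ, 0 < ε1 ∧ 0 < R5 ∧
    ∀ (φ : ℂ → Mat (n + 1)) (r N ε : ℝ) (y : ℂ) (s : ℝ), R5 ≤ r → Real.log r + 20 ≤ N →
      0 ≤ ε → ε ≤ ε1 → CvOn T (ball 0 r) φ → (∀ z ∈ ball (0 : ℂ) r, ρ φ z ≤ Real.exp ε) →
      0 ≤ Real.circleAverage (lg N (ρ φ)) 0 (r / 32) → ‖y‖ ≤ r / 64 → 0 < s → s ≤ r / 8 →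
      s * Real.exp (Real.circleAverage (lg N (ρ φ)) y s) = R1 →
        Real.circleAverage (lg N (ρ φ)) y s ≤ lg N (ρ φ) y + 1 / 40

/-- the conclusion of **RIG** for the constants `ε0`, `R` -/
def RigP (T : Set (Mat (n + 1))) (ρ : (ℂ → Mat (n + 1)) → ℂ → ℝ) (ε0 R : ℝ) : Prop :=
  ∀ (φ : ℂ → Mat (n + 1)) (r N : ℝ), R ≤ r → Real.log r + 20 ≤ N → CvOn T (ball 0 r) φ →
    (∀ z ∈ ball (0 : ℂ) r, ρ φ z ≤ Real.exp ε0) →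
    0 ≤ Real.circleAverage (lg N (ρ φ)) 0 (r / 32) → 1 / 2 ≤ ρ φ 0

/-- **RIG** -/
def S_RIG : Prop := ∀ (n : ℕ) (T Z : Set (Mat (n + 1))) (ρ : (ℂ → Mat (n + 1)) → ℂ → ℝ)
  (κ' : Type) (η : κ' → (Fin (n + 1) → ℂ) → (Fin (n + 1) → ℂ) → (Fin (n + 1) → ℂ) → ℂ),
  JR T ρ → IsCompact T → T ⊆ PM → NDr T ρ → Rgd T Z η → ∃ ε0 R : ℝ, 0 < ε0 ∧ 0 < R ∧
    RigP T ρ ε0 R

/-- **REG** (the flat region of an entire curve) -/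
def S_REG : Prop := ∀ (n : ℕ) (T : Set (Mat (n + 1))) (ρ : (ℂ → Mat (n + 1)) → ℂ → ℝ),
  JR T ρ → ∀ ε0 R : ℝ, 0 < ε0 → ε0 ≤ 1 → 0 < R → RigP T ρ ε0 R →
    ∀ (φ : ℂ → Mat (n + 1)) (a : ℂ) (ν q K A B : ℝ), CvOn T univ φ → a ≠ 0 → 0 ≤ ν → 0 < q →
      1 ≤ K → 0 < B → ρ φ a = B → A = ‖a‖ * B / (ν ^ 3 + 1) → 16 * R ≤ A →
      16 * (K + 6) * ν ≤ q * (ν ^ 3 + 1) →
      10 ^ 6 * ((K + 11) ^ 3 * ν ^ 4) ≤ ε0 * (q * (ν ^ 3 + 1) ^ 2) →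
      (∀ (w : ℂ) (t : ℝ), ‖w‖ = ‖a‖ * Real.exp t → |t| * ν ≤ q →
        ρ φ w ≤ ρ φ a * Real.exp (ν ^ 3 * t + 4 * ν ^ 4 * t ^ 2 / q)) →
      CvOn T (ball ((A * Real.exp K : ℝ) : ℂ) (A * Real.exp K - A / 4))
        (fun ζ => φ (fc 1 a ν A ζ)) ∧
      ∀ ζ ∈ ball ((A * Real.exp K : ℝ) : ℂ) (A * Real.exp K - A / 4),
        1 / 4 ≤ ρ (fun ζ => φ (fc 1 a ν A ζ)) ζ ∧ ρ (fun ζ => φ (fc 1 a ν A ζ)) ζ ≤ 4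

end Pool.Agent.Helper65.NC
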