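import Pool.Agent.Helper65.GG.Jet1
import Pool.Agent.Helper65.NC.Stm2
import Pool.Agent.Helper65.NC.MDefs

/-!
Statements: jet pseudometrics give pseudometrics on the curves of projection matrices.
-/

set_option autoImplicit false

open Filter Topology Metric MvPolynomial Set

namespace Pool.Agent.Helper65.NC

open Pool.Agent.W602.GT Pool.Agent.N155.BB Pool.Agent.Y190.OP Pool.Agent.N155
  Pool.Agent.N155.GD Pool.Agent.Helper65.BF Pool.Agent.Helper65.GG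

variable {n : ℕ}

/-- **LOC**: the local sub-mean value property implies the global one -/
def S_LOC : Prop := ∀ (u : ℂ → ℝ) (U : Set ℂ), IsOpen U → ContinuousOn u U →
  (∀ z ∈ U, ∀ᶠ s in 𝓝[>] (0 : ℝ), u z ≤ Real.circleAverage u z s) → SubM u U

/-- the length of a curve of matrices (compare `GJ`) -/
noncomputable def GR {r : ℕ} (ρ : (Fin (r + 1) → Fin (n + 1) → ℂ) → ℝ) (φ : ℂ → Mat (n + 1))
    (z : ℂ) : ℝ := ρ (jet r (cu φ (ix (φ z))) z)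

/-- **META** (compare `GJ_lift`, `GJ_comp`, and `hol` of `ji_of`) -/
def S_META : Prop := ∀ (n d r : ℕ) (ι : Type) (F : ι → MvPolynomial (Fin (n + 1)) ℂ)
  (ρ : (Fin (r + 1) → Fin (n + 1) → ℂ) → ℝ), ProjManifold F d → JetMetric (Cone F) r ρ →
  (∀ (φ : ℂ → Mat (n + 1)) (U : Set ℂ), IsOpen U → CvOn (TF F) U φ → ∀ z ∈ U,
    ∀ γ : ℂ → Fin (n + 1) → ℂ, AnalyticAt ℂ γ z → (∀ᶠ w in 𝓝 z, γ w ≠ 0 ∧ φ w = Phi (γ w)) →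
      GR ρ φ z = ρ (jet r γ z)) ∧
  (∀ (φ : ℂ → Mat (n + 1)) (U : Set ℂ), IsOpen U → CvOn (TF F) U φ →
    ContinuousOn (GR ρ φ) U) ∧
  (∀ (φ : ℂ → Mat (n + 1)) (U : Set ℂ), IsOpen U → CvOn (TF F) U φ → ∀ (V : Set ℂ) (ψ : ℂ → ℂ),
    IsOpen V → DifferentiableOn ℂ ψ V → MapsTo ψ V U → ∀ z ∈ V,
      GR ρ (fun w => φ (ψ w)) z = ‖deriv ψ z‖ * GR ρ φ (ψ z)) ∧
  (∀ (φ : ℂ → Mat (n + 1)) (U : Set ℂ), IsOpen U → CvOn (TF F) U φ → ∀ N : ℝ,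
    SubM (lg N (GR ρ φ)) U)

/-- **METB** (compare `GJ_bd_loc`, `GJ_bd`) -/
def S_METB : Prop := ∀ (n d r : ℕ) (ι : Type) (F : ι → MvPolynomial (Fin (n + 1)) ℂ)
  (ρ : (Fin (r + 1) → Fin (n + 1) → ℂ) → ℝ), ProjManifold F d → JetMetric (Cone F) r ρ → 0 < r →
  (∃ C α : ℝ, 0 ≤ C ∧ 0 < α ∧ ∀ (φ : ℂ → Mat (n + 1)) (z : ℂ), CvOn (TF F) (ball z 1) φ →
    (∀ w ∈ ball z 1, ‖fderiv ℝ φ w‖ ≤ 2) → GR ρ φ z ≤ C * ‖fderiv ℝ φ z‖ ^ α) ∧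
  ∃ C α : ℝ, 0 ≤ C ∧ 0 < α ∧ ∀ (φ ψ : ℂ → Mat (n + 1)) (z : ℂ) (ε : ℝ),
    CvOn (TF F) (ball z 1) φ → CvOn (TF F) (ball z 1) ψ → (∀ w ∈ ball z 1, ‖fderiv ℝ φ w‖ ≤ 2) →
    (∀ w ∈ ball z 1, ‖fderiv ℝ ψ w‖ ≤ 2) → (∀ w ∈ ball z 1, ‖φ w - ψ w‖ ≤ ε) →
      |GR ρ φ z - GR ρ ψ z| ≤ C * ε ^ α

end Pool.Agent.Helper65.NC
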