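import Pool.Agent.Helper65.NC.POI
import Pool.Agent.Helper65.NC.Stm3

/-!
The local sub-mean value property implies the global one (helper97; adapted from helper95's POI).
-/

set_option autoImplicit false

open Filter Topology Metric Set InnerProductSpace

namespace Pool.Agent.Helper65.NC.LOC

open Pool.Agent.Helper65.NC Pool.Agent.Helper65.NC.POI

/-- the Poisson inequality from the local property -/
theorem part1 (u : ℂ → ℝ) (c : ℂ) (t : ℝ) (ht : 0 < t) (huc : ContinuousOn u (closedBall c t))
    (hloc : ∀ z ∈ ball c t, ∀ᶠ s in 𝓝[>] (0 : ℝ), u z ≤ Real.circleAverage u z s)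
    (w : ℂ) (hw : w ∈ ball c t) : u w ≤ PI u c t w := by
  have hus : ContinuousOn u (sphere c t) := huc.mono sphere_subset_closedBall
  have hwt : ‖w - c‖ < t := by simpa [dist_eq_norm] using hw
  have hw0 : 0 ≤ ‖w - c‖ := norm_nonneg _
  have hharm := harm u c t ht hus
  -- bound
  obtain ⟨M0, hM0⟩ := (isCompact_closedBall c t).exists_bound_of_continuousOn huc
  have hM00 : 0 ≤ M0 := (norm_nonneg _).trans (hM0 c (mem_closedBall_self ht.le))
  have hM : ∀ ζ ∈ sphere c t, ∀ ξ ∈ sphere c t, |u ζ - u ξ| ≤ 2 * M0 := by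
    intro ζ hζ ξ hξ
    have h1 := hM0 ζ (sphere_subset_closedBall hζ)
    have h2 := hM0 ξ (sphere_subset_closedBall hξ)
    rw [Real.norm_eq_abs] at h1 h2
    rw [abs_le] at h1 h2 ⊢
    constructor <;> linarith [h1.1, h1.2, h2.1, h2.2]
  have huni := (isCompact_closedBall c t).uniformContinuousOn_of_continuous huc
  rw [Metric.uniformContinuousOn_iff_le] at huni
  apply le_of_forall_pos_le_add
  intro ε' hε'
  set ε := ε' / 3 with hεd
  have hε : 0 < ε := by positivity
  obtain ⟨η, hη, hun⟩ := huni ε hε
  set δ : ℝ := min ((t - ‖w - c‖) / 2) (min (η / 4) (ε * η ^ 2 / (16 * (M0 + 1) * t))) with hδ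
  have hδ0 : 0 < δ := by
    rw [hδ]
    apply lt_min
    · linarith
    · apply lt_min
      · linarith
      · positivity
  have hδ1 : δ ≤ (t - ‖w - c‖) / 2 := min_le_left _ _
  have hδ2 : δ ≤ η / 4 := (min_le_right _ _).trans (min_le_left _ _)
  have hδ3 : δ ≤ ε * η ^ 2 / (16 * (M0 + 1) * t) := (min_le_right _ _).trans (min_le_right _ _)
  set t' := t - δ with ht'
  have ht'0 : 0 < t' := by linarith
  have ht't : t' < t := by linarith
  have hwt' : ‖w - c‖ ≤ t' := by linarith
  have hC : 4 * (2 * M0) / η ^ 2 * (t ^ 2 - t' ^ 2) ≤ ε := by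
    have h1 : t ^ 2 - t' ^ 2 ≤ 2 * t * δ := by
      rw [ht']
      nlinarith
    have h2 : 0 ≤ 4 * (2 * M0) / η ^ 2 := by positivity
    have h3 : 16 * (M0 + 1) * t * δ ≤ ε * η ^ 2 := by
      rw [le_div_iff₀ (by positivity)] at hδ3
      linarith
    calc 4 * (2 * M0) / η ^ 2 * (t ^ 2 - t' ^ 2) ≤ 4 * (2 * M0) / η ^ 2 * (2 * t * δ) :=
          mul_le_mul_of_nonneg_left h1 h2
      _ = (16 * M0 * t * δ) / η ^ 2 := by ring
      _ ≤ (ε * η ^ 2) / η ^ 2 := by
          apply div_le_div_of_nonneg_right _ (by positivity)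
          have : 0 ≤ 16 * t * δ := by positivity
          nlinarith
      _ = ε := by field_simp
  have hgc : ContinuousOn (fun z => u z - PI u c t z) (closedBall c t') := by
    apply ContinuousOn.sub
    · exact huc.mono (closedBall_subset_closedBall ht't.le)
    · exact hharm.continuousOn.mono (closedBall_subset_ball ht't)
  have key := mp (F := sphere c t') (isCompact_closedBall c t') hgc (B := 3 * ε) ?_ ?_ w
    (by rw [mem_closedBall, dist_eq_norm]; exact hwt')
  · have : 3 * ε = ε' := by rw [hεd]; ring
    linarith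
  · intro z _ hz
    have hzt : ‖z - c‖ = t' := by simpa [dist_eq_norm] using hz
    set a : ℂ := c + ((t / t' : ℝ) : ℂ) * (z - c) with ha
    have hac : ‖a - c‖ = t := by
      rw [ha, add_sub_cancel_left, norm_mul, Complex.norm_real, Real.norm_eq_abs, abs_of_pos (by positivity), hzt]
      field_simp
    have has : a ∈ sphere c t := by simpa [dist_eq_norm] using hac
    have hza : ‖z - a‖ = δ := by
      have h1 : z - a = ((1 - t / t' : ℝ) : ℂ) * (z - c) := by
        rw [ha]
        push_cast
        ring
      have h2 : 1 - t / t' ≤ 0 := by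
        rw [sub_nonpos, one_le_div ht'0]
        exact ht't.le
      rw [h1, norm_mul, Complex.norm_real, Real.norm_eq_abs, abs_of_nonpos h2, hzt, ht']
      have h3 : t - δ ≠ 0 := by linarith
      field_simp
      ring
    have hzb : z ∈ ball c t := by
      rw [mem_ball, dist_eq_norm, hzt]
      exact ht't
    have h1 := bdry (u := u) (c := c) (t := t) (η := η) (ε := ε) (M := 2 * M0) ht hη hε.le hus hM hzb has
      (by rw [hza]; linarith) (by
        intro ζ hζ hζa
        have := hun ζ (sphere_subset_closedBall hζ) a (sphere_subset_closedBall has)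
          (by rw [dist_eq_norm]; exact hζa.le)
        rwa [Real.dist_eq] at this)
    rw [hzt] at h1
    have h2 : |u z - u a| ≤ ε := by
      have := hun z (ball_subset_closedBall hzb) a (sphere_subset_closedBall has)
        (by rw [dist_eq_norm, hza]; linarith)
      rwa [Real.dist_eq] at this
    rw [abs_le] at h2
    show u z - PI u c t z ≤ 3 * ε
    linarith [h2.2]
  · intro z hz hzF
    have hzt : ‖z - c‖ < t' := by
      have h1 : ‖z - c‖ ≤ t' := by simpa [dist_eq_norm] using hz
      have h2 : ‖z - c‖ ≠ t' := by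
        intro h
        exact hzF (by simpa [dist_eq_norm] using h)
      exact lt_of_le_of_ne h1 h2
    have hs0 : 0 < t' - ‖z - c‖ := by linarith
    have hzb : z ∈ ball c t := by
      rw [mem_ball, dist_eq_norm]
      linarith
    obtain ⟨s, hs1, hs2⟩ := ((hloc z hzb).and (Ioo_mem_nhdsGT hs0)).exists
    have hs : 0 < s := hs2.1
    have hcb : closedBall z s ⊆ closedBall c t' := by
      apply closedBall_subset_closedBall'
      rw [dist_eq_norm]
      linarith [hs2.2]
    have hcb' : closedBall z s ⊆ ball c t := hcb.trans (closedBall_subset_ball ht't)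
    refine ⟨s, hs, sphere_subset_closedBall.trans hcb, ?_⟩
    have h2 : Real.circleAverage (PI u c t) z s = PI u c t z := by
      apply InnerProductSpace.HarmonicOnNhd.circleAverage_eq
      rw [abs_of_pos hs]
      exact hharm.mono hcb'
    rw [avg_sub hs]
    · rw [h2]
      linarith
    · exact huc.mono (sphere_subset_closedBall.trans (hcb.trans (closedBall_subset_closedBall ht't.le)))
    · exact hharm.continuousOn.mono (sphere_subset_closedBall.trans hcb')

theorem PI_centre (f : ℂ → ℝ) (c : ℂ) (t : ℝ) (ht : 0 < t) :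
    PI f c t c = Real.circleAverage f c t := by
  unfold PI
  refine Real.circleAverage_congr_sphere fun ζ hζ => ?_
  rw [abs_of_pos ht] at hζ
  have h1 : ‖ζ - c‖ = t := by simpa [dist_eq_norm] using hζ
  have h2 : (t : ℝ) ≠ 0 := ht.ne'
  simp only [sub_self, norm_zero, h1]
  field_simp
  ring

/-- **LOC** -/
theorem loc : S_LOC := by
  intro u U hU hu hloc
  refine ⟨hu, fun z s hs hzs => ?_⟩
  have h1 := part1 u z s hs (hu.mono hzs)
    (fun w hw => hloc w (hzs (ball_subset_closedBall hw))) z (mem_ball_self hs)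
  rwa [PI_centre u z s hs] at h1

theorem main : S_POI → S_LOC := fun _ => loc

end Pool.Agent.Helper65.NC.LOC
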