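import Pool.Agent.Helper65.NC.Stm3

set_option autoImplicit false

open Filter Topology Metric MvPolynomial Set

namespace Pool.Agent.Helper65.NC.META

open Pool.Agent.W602.GT Pool.Agent.N155.BB Pool.Agent.Y190.OP Pool.Agent.N155
  Pool.Agent.N155.GD Pool.Agent.Helper65.BF Pool.Agent.Helper65.GG Pool.Agent.Helper65.NC

variable {n d r : ℕ} {ι : Type} {F : ι → MvPolynomial (Fin (n + 1)) ℂ}
  {ρ : (Fin (r + 1) → Fin (n + 1) → ℂ) → ℝ} {U : Set ℂ} {φ : ℂ → Mat (n + 1)}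

/-- a lift lies in the cone -/
theorem lift_cone (hF : ∀ i, IsForm (F i)) (hU : IsOpen U) (hφ : CvOn (TF F) U φ) {z : ℂ}
    (hz : z ∈ U) {γ : ℂ → Fin (n + 1) → ℂ} (hφγ : ∀ᶠ w in 𝓝 z, γ w ≠ 0 ∧ φ w = Phi (γ w)) :
    ∀ᶠ w in 𝓝 z, γ w ∈ Cone F := by
  filter_upwards [hφγ, hU.mem_nhds hz] with w hw hwU
  have h3 := hφ.2 w hwU
  rw [hw.2] at h3
  exact (Phi_mem hF hw.1).1 h3

/-- the value computed with any local lift -/
theorem GR_lift (hF : ∀ i, IsForm (F i)) (hρ : JetMetric (Cone F) r ρ) (hU : IsOpen U)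
    (hφ : CvOn (TF F) U φ) {z : ℂ} (hz : z ∈ U) {γ : ℂ → Fin (n + 1) → ℂ} (hγ : AnalyticAt ℂ γ z)
    (hφγ : ∀ᶠ w in 𝓝 z, γ w ≠ 0 ∧ φ w = Phi (γ w)) : GR ρ φ z = ρ (jet r γ z) := by
  unfold GR
  set i := ix (φ z) with hi
  have hii : φ z i i ≠ 0 := ix_ne (TF_PM (hφ.2 z hz))
  obtain ⟨h0, h1⟩ := hφγ.self_of_nhds
  have hγi : γ z i ≠ 0 := by
    rw [h1] at hii
    exact (Phi_diag_ne h0).1 hii
  have hγia : AnalyticAt ℂ (fun w => γ w i) z := (analyticAt_pi_iff.1 hγ) i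
  have h2 : cu φ i =ᶠ[𝓝 z] fun w => (γ w i)⁻¹ • γ w := by
    filter_upwards [hφγ, hγia.continuousAt.eventually_ne hγi] with w hw hwi
    unfold cu
    rw [hw.2]
    exact chart_Phi hw.1 hwi
  rw [jet_ev h2]
  exact hρ.twist γ (fun w => (γ w i)⁻¹) z hγ (hγia.inv hγi) (inv_ne_zero hγi)
    (lift_cone hF hU hφ hz hφγ)

/-- the value computed with a chart -/
theorem GR_chart (hF : ∀ i, IsForm (F i)) (hρ : JetMetric (Cone F) r ρ) (hU : IsOpen U)
    (hφ : CvOn (TF F) U φ) {z : ℂ} (hz : z ∈ U) {i : Fin (n + 1)} (hi : φ z i i ≠ 0) :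
    ∀ᶠ w in 𝓝 z, GR ρ φ w = ρ (jet r (cu φ i) w) ∧ IsJet (Cone F) r (jet r (cu φ i) w) := by
  filter_upwards [ev_diag' hφ.1 hz hi, hU.mem_nhds hz] with w hw hwU
  have h1 := cu_an' hU hφ.1 hwU hw
  have h2 := cu_lift hU hφ.1 hwU hw
  exact ⟨GR_lift hF hρ hU hφ hwU h1 h2, cu φ i, w, h1, lift_cone hF hU hφ hwU h2, rfl⟩

theorem GR_cont (hF : ∀ i, IsForm (F i)) (hρ : JetMetric (Cone F) r ρ) (hU : IsOpen U)
    (hφ : CvOn (TF F) U φ) {z : ℂ} (hz : z ∈ U) : ContinuousAt (GR ρ φ) z := by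
  obtain ⟨i, hi⟩ := PM.exists_diag (TF_PM (hφ.2 _ hz))
  have han := cu_an' hU hφ.1 hz hi
  have hev := GR_chart hF hρ hU hφ hz hi
  have hjc : ContinuousAt (fun w => jet r (cu φ i) w) z := by
    rw [continuousAt_pi]
    intro j
    exact (iter_analytic han (j : ℕ)).continuousAt
  have hj0 : jet r (cu φ i) z 0 ≠ 0 := by
    have h1 := (cu_lift hU hφ.1 hz hi).self_of_nhds.1
    show iteratedDeriv ((0 : Fin (r + 1)) : ℕ) (cu φ i) z ≠ 0
    rw [Fin.val_zero, iteratedDeriv_zero]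
    exact h1
  have hop : IsOpen {j : Fin (r + 1) → Fin (n + 1) → ℂ | j 0 ≠ 0} :=
    isOpen_ne.preimage (continuous_apply 0)
  obtain ⟨K, hK, hjK, hKs⟩ := exists_compact_subset hop hj0
  obtain ⟨C, α, hα, hC⟩ := hρ.holder K hK (fun j hj => hKs hj)
  have hz1 := hev.self_of_nhds
  have hb : ∀ᶠ w in 𝓝 z, |GR ρ φ w - GR ρ φ z| ≤
      C * ‖jet r (cu φ i) w - jet r (cu φ i) z‖ ^ α := by
    filter_upwards [hev, hjc.eventually (mem_interior_iff_mem_nhds.1 hjK)] with w hw hwK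
    rw [hw.1, hz1.1]
    exact hC _ hwK _ (interior_subset hjK) hw.2 hz1.2
  have hlim : Tendsto (fun w => C * ‖jet r (cu φ i) w - jet r (cu φ i) z‖ ^ α) (𝓝 z) (𝓝 0) := by
    have h1 : Tendsto (fun w => ‖jet r (cu φ i) w - jet r (cu φ i) z‖) (𝓝 z) (𝓝 0) := by
      have := (hjc.tendsto.sub_const (jet r (cu φ i) z)).norm
      rwa [sub_self, norm_zero] at this
    have h2 : Tendsto (fun w => ‖jet r (cu φ i) w - jet r (cu φ i) z‖ ^ α) (𝓝 z) (𝓝 (0 ^ α)) :=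
      h1.rpow_const (Or.inr hα.le)
    rw [Real.zero_rpow hα.ne'] at h2
    simpa using h2.const_mul C
  have h3 : Tendsto (fun w => GR ρ φ w - GR ρ φ z) (𝓝 z) (𝓝 0) :=
    squeeze_zero_norm' (by simpa only [Real.norm_eq_abs] using hb) hlim
  have h4 := h3.add_const (GR ρ φ z)
  simp only [sub_add_cancel, zero_add] at h4
  exact h4

theorem GR_comp (hF : ∀ i, IsForm (F i)) (hρ : JetMetric (Cone F) r ρ) (hU : IsOpen U)
    (hφ : CvOn (TF F) U φ) {V : Set ℂ} {ψ : ℂ → ℂ} (hV : IsOpen V)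
    (hψ : DifferentiableOn ℂ ψ V) (hm : MapsTo ψ V U) {z : ℂ} (hz : z ∈ V) :
    GR ρ (fun w => φ (ψ w)) z = ‖deriv ψ z‖ * GR ρ φ (ψ z) := by
  obtain ⟨i, hi⟩ := PM.exists_diag (TF_PM (hφ.2 _ (hm hz)))
  have hψa : AnalyticAt ℂ ψ z := (hψ.analyticOnNhd hV) z hz
  have h1 := cu_lift hU hφ.1 (hm hz) hi
  have h2 := cu_an' hU hφ.1 (hm hz) hi
  rw [GR_lift hF hρ hU hφ (hm hz) h2 h1, GR_lift hF hρ hV (hφ.comp hV hψ hm) hz
    (γ := fun w => cu φ i (ψ w)) (h2.comp hψa) (hψa.continuousAt.eventually h1)]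
  exact hρ.param _ ψ z hψa h2 (lift_cone hF hU hφ (hm hz) h1)

theorem main : S_LOC → S_META := by
  intro hL n d r ι F ρ hX hρ
  have hF := hX.form
  refine ⟨?_, ?_, ?_, ?_⟩
  · intro φ U hU hφ z hz γ hγ hφγ
    exact GR_lift hF hρ hU hφ hz hγ hφγ
  · intro φ U hU hφ z hz
    exact (GR_cont hF hρ hU hφ hz).continuousWithinAt
  · intro φ U hU hφ V ψ hV hψ hm z hz
    exact GR_comp hF hρ hU hφ hV hψ hm hz
  · intro φ U hU hφ N
    have hpos : ∀ x : ℝ, 0 < max x (Real.exp (-N)) := fun x =>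
      lt_max_of_lt_right (Real.exp_pos _)
    refine hL _ U hU ?_ ?_
    · intro z hz
      have h1 := GR_cont hF hρ hU hφ hz
      have h2 : ContinuousAt (fun z => max (GR ρ φ z) (Real.exp (-N))) z :=
        h1.max continuousAt_const
      exact (h2.log (hpos _).ne').continuousWithinAt
    · intro z hz
      obtain ⟨i, hi⟩ := PM.exists_diag (TF_PM (hφ.2 _ hz))
      have han := cu_an' hU hφ.1 hz hi
      have hev := GR_chart hF hρ hU hφ hz hi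
      have hc := hρ.curv (cu φ i) z N han (lift_cone hF hU hφ hz (cu_lift hU hφ.1 hz hi))
      obtain ⟨δ, hδ, hball⟩ := Metric.eventually_nhds_iff_ball.1 hev
      have hs : ∀ᶠ s in 𝓝[>] (0 : ℝ), s ∈ Ioo (0 : ℝ) δ := Ioo_mem_nhdsGT hδ
      filter_upwards [hc, hs] with s h1 h2
      have e1 : lg N (GR ρ φ) z = Real.log (max (ρ (jet r (cu φ i) z)) (Real.exp (-N))) := by
        unfold lg
        rw [(hball z (mem_ball_self hδ)).1]
      rw [e1]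
      refine h1.trans_eq ?_
      apply Real.circleAverage_congr_sphere
      intro w hw
      rw [abs_of_pos h2.1] at hw
      have hwb : w ∈ ball z δ := sphere_subset_ball h2.2 hw
      unfold lg
      rw [(hball w hwb).1]

end Pool.Agent.Helper65.NC.META
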