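import Pool.Agent.Helper65.GG.Jet2
import Pool.Agent.Helper65.NC.Stm3

/-!
Bounds for the pseudometric on curves given by a jet pseudometric.
-/

set_option autoImplicit false

open Filter Topology Metric MvPolynomial Set

namespace Pool.Agent.Helper65.NC.METB

open Pool.Agent.W602.GT Pool.Agent.N155.BB Pool.Agent.Y190.OP Pool.Agent.N155
  Pool.Agent.N155.GD Pool.Agent.Helper65.BF Pool.Agent.Helper65.GG Pool.Agent.Helper65.NC

variable {n d r : ℕ} {ι : Type} {F : ι → MvPolynomial (Fin (n + 1)) ℂ}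
  {σ : (Fin (r + 1) → Fin (n + 1) → ℂ) → ℝ} {U : Set ℂ} {φ : ℂ → Mat (n + 1)}

/-- iterated derivatives in the last variable of a jointly analytic function -/
theorem iter_joint {E G : Type*} [NormedAddCommGroup E] [NormedSpace ℂ E]
    [NormedAddCommGroup G] [NormedSpace ℂ G] [CompleteSpace G] {Ω : Set (E × ℂ)} (hΩ : IsOpen Ω)
    {f : E × ℂ → G} (hf : AnalyticOnNhd ℂ f Ω) (j : ℕ) :
    ∃ g : E × ℂ → G, AnalyticOnNhd ℂ g Ω ∧
      ∀ q : E × ℂ, q ∈ Ω → iteratedDeriv j (fun s => f (q.1, s)) q.2 = g q := by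
  induction j with
  | zero => exact ⟨f, hf, fun q _ => by rw [iteratedDeriv_zero]⟩
  | succ j ih =>
    obtain ⟨g, hg, hgq⟩ := ih
    refine ⟨fun q => fderiv ℂ g q (0, 1), ?_, ?_⟩
    · intro q hq
      have h1 := (hg q hq).fderiv
      exact (ContinuousLinearMap.apply ℂ G ((0, 1) : E × ℂ)).analyticAt _ |>.comp h1
    · intro q hq
      rw [iteratedDeriv_succ]
      have h1 : (iteratedDeriv j fun s => f (q.1, s)) =ᶠ[𝓝 q.2] fun s => g (q.1, s) := by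
        have h2 : ContinuousAt (fun s : ℂ => (q.1, s)) q.2 := by fun_prop
        have h3 : ∀ᶠ s in 𝓝 q.2, (q.1, s) ∈ Ω := h2.eventually_mem (hΩ.mem_nhds hq)
        filter_upwards [h3] with s hs
        exact hgq (q.1, s) hs
      rw [h1.deriv_eq]
      have h4 : HasDerivAt (fun s : ℂ => (q.1, s)) ((0 : E), (1 : ℂ)) q.2 :=
        (hasDerivAt_const q.2 q.1).prodMk (hasDerivAt_id q.2)
      exact ((hg q hq).differentiableAt.hasFDerivAt.comp_hasDerivAt q.2 h4).deriv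

/-- the jet of the image of a polynomial curve -/
noncomputable def JJ (r : ℕ) (Ψ : (Fin d → ℂ) → Fin (n + 1) → ℂ)
    (q : (Fin d → ℂ) × (Fin r → Fin d → ℂ)) : Fin (r + 1) → Fin (n + 1) → ℂ :=
  jet r (fun s => Ψ (pc q.1 q.2 s)) 0

variable {W : Set (Fin d → ℂ)} {Ψ : (Fin d → ℂ) → Fin (n + 1) → ℂ} {X : Set (Fin (n + 1) → ℂ)}

theorem JJ_an (hW : IsOpen W) (hΨ : AnalyticOnNhd ℂ Ψ W)
    {q : (Fin d → ℂ) × (Fin r → Fin d → ℂ)} (hq : q.1 ∈ W) : AnalyticAt ℂ (JJ r Ψ) q := by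
  set f : ((Fin d → ℂ) × (Fin r → Fin d → ℂ)) × ℂ → Fin (n + 1) → ℂ :=
    fun q => Ψ (pc q.1.1 q.1.2 q.2) with hf
  set Ω : Set (((Fin d → ℂ) × (Fin r → Fin d → ℂ)) × ℂ) := {q | pc q.1.1 q.1.2 q.2 ∈ W} with hΩ
  have hpc : ∀ q : ((Fin d → ℂ) × (Fin r → Fin d → ℂ)) × ℂ, AnalyticAt ℂ
      (fun q : ((Fin d → ℂ) × (Fin r → Fin d → ℂ)) × ℂ => pc q.1.1 q.1.2 q.2) q :=
    fun q => pc_joint q.1 q.2
  have hcont : Continuous (fun q : ((Fin d → ℂ) × (Fin r → Fin d → ℂ)) × ℂ => pc q.1.1 q.1.2 q.2) :=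
    continuous_iff_continuousAt.2 fun q => (hpc q).continuousAt
  have hΩo : IsOpen Ω := hW.preimage hcont
  have hfa : AnalyticOnNhd ℂ f Ω := by
    intro q hq
    have h1 : AnalyticAt ℂ Ψ (pc q.1.1 q.1.2 q.2) := hΨ _ hq
    exact AnalyticAt.comp (g := Ψ)
      (f := fun q : ((Fin d → ℂ) × (Fin r → Fin d → ℂ)) × ℂ => pc q.1.1 q.1.2 q.2) h1 (hpc q)
  refine analyticAt_pi_iff.2 fun j => ?_
  obtain ⟨g, hg, hgq⟩ := iter_joint hΩo hfa (j : ℕ)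
  have hmem : ∀ q : (Fin d → ℂ) × (Fin r → Fin d → ℂ), q.1 ∈ W → (q, (0 : ℂ)) ∈ Ω := by
    intro q hq
    show pc q.1 q.2 0 ∈ W
    rwa [pc_zero]
  have h1 : AnalyticAt ℂ (fun q : (Fin d → ℂ) × (Fin r → Fin d → ℂ) => g (q, 0)) q := by
    have h2 : AnalyticAt ℂ (fun q : (Fin d → ℂ) × (Fin r → Fin d → ℂ) => (q, (0 : ℂ))) q :=
      analyticAt_id.prod analyticAt_const
    exact AnalyticAt.comp (g := g) (hg _ (hmem q hq)) h2
  refine h1.congr ?_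
  have h3 : ∀ᶠ q' : (Fin d → ℂ) × (Fin r → Fin d → ℂ) in 𝓝 q, q'.1 ∈ W :=
    continuousAt_fst.eventually_mem (hW.mem_nhds hq)
  filter_upwards [h3] with q' hq'
  exact (hgq (q', 0) (hmem q' hq')).symm

theorem JJ_curve (hW : IsOpen W) (hΨ : AnalyticOnNhd ℂ Ψ W) (hΨX : ∀ x ∈ W, Ψ x ∈ X)
    {q : (Fin d → ℂ) × (Fin r → Fin d → ℂ)} (hq : q.1 ∈ W) :
    AnalyticAt ℂ (fun s => Ψ (pc q.1 q.2 s)) 0 ∧ ∀ᶠ s in 𝓝 (0 : ℂ), Ψ (pc q.1 q.2 s) ∈ X := by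
  have e0 : pc q.1 q.2 0 = q.1 := pc_zero _ _
  have hΨ0 : AnalyticAt ℂ Ψ (pc q.1 q.2 0) := by
    rw [e0]
    exact hΨ _ hq
  refine ⟨AnalyticAt.comp (g := Ψ) (f := pc q.1 q.2) hΨ0 (pc_analytic _ _ _), ?_⟩
  have h1 := (pc_analytic q.1 q.2 0).continuousAt.eventually_mem
    (hW.mem_nhds (show pc q.1 q.2 0 ∈ W by rwa [e0]))
  exact h1.mono fun q' hq' => hΨX _ hq'

theorem JJ_jet (hW : IsOpen W) (hΨ : AnalyticOnNhd ℂ Ψ W) (hΨX : ∀ x ∈ W, Ψ x ∈ X)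
    {q : (Fin d → ℂ) × (Fin r → Fin d → ℂ)} (hq : q.1 ∈ W) : IsJet X r (JJ r Ψ q) := by
  obtain ⟨h1, h2⟩ := JJ_curve (r := r) (q := q) hW hΨ hΨX hq
  exact ⟨_, 0, h1, h2, rfl⟩

theorem JJ_head (q : (Fin d → ℂ) × (Fin r → Fin d → ℂ)) : JJ r Ψ q 0 = Ψ q.1 := by
  unfold JJ jet
  simp [pc_zero]

theorem JJ_sing (hσ : JetMetric X r σ) (hr : 0 < r) (hW : IsOpen W) (hΨ : AnalyticOnNhd ℂ Ψ W)
    (hΨX : ∀ x ∈ W, Ψ x ∈ X) {q : (Fin d → ℂ) × (Fin r → Fin d → ℂ)} (hq : q.1 ∈ W)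
    (h0 : q.2 ⟨0, hr⟩ = 0) : σ (JJ r Ψ q) = 0 := by
  have e0 : pc q.1 q.2 0 = q.1 := pc_zero _ _
  have hΨ0 : AnalyticAt ℂ Ψ (pc q.1 q.2 0) := by
    rw [e0]
    exact hΨ _ hq
  obtain ⟨e1, e2⟩ := JJ_curve (r := r) (q := q) hW hΨ hΨX hq
  apply hσ.sing _ _ e1 e2
  refine ⟨0, ?_⟩
  rw [zero_smul]
  have h1 := pc_deriv hr q.1 q.2
  rw [h0] at h1
  have h2 := (hΨ0.differentiableAt.hasFDerivAt).comp_hasDerivAt (0 : ℂ) h1
  have h3 := h2.deriv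
  rw [map_zero] at h3
  exact h3

/-- the value computed with any local lift -/
theorem GR_lift (hF : ∀ i, IsForm (F i)) (hσ : JetMetric (Cone F) r σ) (hU : IsOpen U)
    (hφ : CvOn (TF F) U φ) {z : ℂ} (hz : z ∈ U) {γ : ℂ → Fin (n + 1) → ℂ} (hγ : AnalyticAt ℂ γ z)
    (hφγ : ∀ᶠ w in 𝓝 z, γ w ≠ 0 ∧ φ w = Phi (γ w)) : GR σ φ z = σ (jet r γ z) := by
  unfold GR
  set i := ix (φ z) with hi
  have hii : φ z i i ≠ 0 := ix_ne (TF_PM (hφ.2 z hz))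
  obtain ⟨h0, h1⟩ := hφγ.self_of_nhds
  have hγi : γ z i ≠ 0 := by
    rw [h1] at hii
    exact (Phi_diag_ne h0).1 hii
  have hγia : AnalyticAt ℂ (fun w => γ w i) z := (analyticAt_pi_iff.1 hγ) i
  have h2 : cu φ i =ᶠ[𝓝 z] fun w => (γ w i)⁻¹ • γ w := by
    filter_upwards [hφγ, hγia.continuousAt.eventually_ne hγi] with w hw hwi
    unfold cu
    rw [hw.2]
    exact chart_Phi hw.1 hwi
  rw [jet_ev h2]
  refine hσ.twist γ (fun w => (γ w i)⁻¹) z hγ (hγia.inv hγi) (inv_ne_zero hγi) ?_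
  filter_upwards [hφγ, hU.mem_nhds hz] with w hw hwU
  have h3 := hφ.2 w hwU
  rw [hw.2] at h3
  exact (Phi_mem hF hw.1).1 h3

/-- the value in a local parametrization -/
theorem GR_loc (hF : ∀ i, IsForm (F i)) (hσ : JetMetric (Cone F) r σ) (hU : IsOpen U)
    (hφ : CvOn (TF F) U φ) {i : Fin (n + 1)} {J : Fin d → Fin (n + 1)} {O : Set (Mat (n + 1))}
    (hO : IsOpen O) (hΨ : AnalyticOnNhd ℂ Ψ W)
    (hOM : ∀ M ∈ O, M i i ≠ 0 ∧ (fun k => chart i M (J k)) ∈ W ∧ (M ∈ TF F →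
        chart i M = Ψ (fun k => chart i M (J k)))) {z : ℂ} (hz : z ∈ U) (hzO : φ z ∈ O) :
    GR σ φ z = σ (JJ r Ψ (fun k => cu φ i z (J k), co r (fun w k => cu φ i w (J k)) z)) ∧
      (fun k => cu φ i z (J k)) ∈ W ∧ AnalyticAt ℂ (fun w k => cu φ i w (J k)) z := by
  obtain ⟨hi, hW, -⟩ := hOM _ hzO
  have han := cu_an' hU hφ.1 hz hi
  set ξ : ℂ → Fin d → ℂ := fun w k => cu φ i w (J k) with hξ
  have hξa : AnalyticAt ℂ ξ z := analyticAt_pi_iff.2 fun k => (analyticAt_pi_iff.1 han) (J k)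
  refine ⟨?_, hW, hξa⟩
  rw [GR_lift hF hσ hU hφ hz han (cu_lift hU hφ.1 hz hi)]
  have h1 : cu φ i =ᶠ[𝓝 z] fun w => Ψ (ξ w) := by
    have h2 := (hφ.1.continuousAt hz).eventually_mem (hO.mem_nhds hzO)
    filter_upwards [h2, hU.mem_nhds hz] with w hw hwU
    exact (hOM _ hw).2.2 (hφ.2 w hwU)
  rw [jet_ev h1]
  exact congrArg σ (jet_comp (hΨ _ hW) hξa)

/-- coefficients of a bounded curve -/
theorem co_bd {ξ : ℂ → Fin d → ℂ} {z : ℂ} {ρ' B : ℝ} (hρ' : 0 < ρ') (hB : 0 ≤ B)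
    (hd : ∀ w ∈ ball z ρ', DifferentiableAt ℂ ξ w) (hb : ∀ w ∈ ball z ρ', ‖ξ w‖ ≤ B) (j : Fin r) :
    ‖co r ξ z j‖ ≤ B * ∑ j : Fin r, 1 / (ρ' / 2) ^ ((j : ℕ) + 1) := by
  have h4 := Complex.norm_iteratedDeriv_le_of_forall_mem_sphere_norm_le (f := ξ) (c := z)
    (R := ρ' / 2) (C := B) ((j : ℕ) + 1) (by positivity) (by
      apply DifferentiableOn.diffContOnCl
      intro w hw
      refine (hd w ?_).differentiableWithinAt
      have h5 := mem_closedBall.1 (closure_ball_subset_closedBall hw)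
      rw [mem_ball]
      linarith) (fun w hw => hb w (by
      rw [mem_sphere] at hw
      rw [mem_ball, hw]
      linarith))
  have h5 : ‖co r ξ z j‖ ≤ B / (ρ' / 2) ^ ((j : ℕ) + 1) := by
    unfold co
    rw [norm_smul, norm_inv, Complex.norm_natCast]
    have h6 : (0 : ℝ) < (((j : ℕ) + 1).factorial : ℝ) := by
      exact_mod_cast Nat.factorial_pos _
    rw [inv_mul_le_iff₀ h6]
    refine h4.trans (le_of_eq ?_)
    ring
  refine h5.trans ?_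
  rw [div_eq_mul_one_div]
  apply mul_le_mul_of_nonneg_left _ hB
  exact Finset.single_le_sum (f := fun j : Fin r => 1 / (ρ' / 2) ^ ((j : ℕ) + 1))
    (fun j _ => by positivity) (Finset.mem_univ j)

theorem co_sub {ξ η : ℂ → Fin d → ℂ} {z : ℂ} (h1 : AnalyticAt ℂ ξ z) (h2 : AnalyticAt ℂ η z)
    (j : Fin r) : co r ξ z j - co r η z j = co r (fun w => ξ w - η w) z j := by
  unfold co
  rw [iteratedDeriv_fun_sub h1.contDiffAt h2.contDiffAt, smul_sub]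

/-- the local bounds -/
theorem loc (hX : ProjManifold F d) (hσ : JetMetric (Cone F) r σ) (hr : 0 < r)
    {M0 : Mat (n + 1)} (hM0 : M0 ∈ TF F) :
    ∃ (R C α : ℝ), 0 < R ∧ 0 ≤ C ∧ 0 < α ∧
      (∀ (φ : ℂ → Mat (n + 1)) (z : ℂ), CvOn (TF F) (ball z 1) φ →
        (∀ w ∈ ball z 1, ‖fderiv ℝ φ w‖ ≤ 2) → φ z ∈ ball M0 R →
          GR σ φ z ≤ C * ‖fderiv ℝ φ z‖ ^ α) ∧
      (∀ (φ ψ : ℂ → Mat (n + 1)) (z : ℂ) (ε : ℝ), CvOn (TF F) (ball z 1) φ →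
        CvOn (TF F) (ball z 1) ψ → (∀ w ∈ ball z 1, ‖fderiv ℝ φ w‖ ≤ 2) →
        (∀ w ∈ ball z 1, ‖fderiv ℝ ψ w‖ ≤ 2) → (∀ w ∈ ball z 1, ‖φ w - ψ w‖ ≤ ε) →
        φ z ∈ ball M0 R → ψ z ∈ ball M0 R → |GR σ φ z - GR σ ψ z| ≤ C * ε ^ α) := by
  obtain ⟨i, J, O, W, Ψ, hO, hMO, hW, hΨ, hΨX, hOM⟩ := loc_graph hX hM0
  have hi : M0 i i ≠ 0 := (hOM M0 hMO).1
  obtain ⟨L, O1, hL, hO1, hMO1, hO1i, hO1l, hO1f⟩ := lip_chart hi
  set x0 : Fin d → ℂ := fun k => chart i M0 (J k) with hx0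
  have hx0W : x0 ∈ W := (hOM M0 hMO).2.1
  obtain ⟨ρ0, hρ0, hρ0W⟩ := Metric.nhds_basis_closedBall.mem_iff.1 (hW.mem_nhds hx0W)
  have hcξ : ContinuousAt (fun (M : Mat (n + 1)) k => chart i M (J k)) M0 := by
    rw [continuousAt_pi]
    intro k
    exact (continuous_apply (J k)).continuousAt.comp (continuousAt_chart hi)
  have hev : ∀ᶠ M in 𝓝 M0, (fun k => chart i M (J k)) ∈ closedBall x0 ρ0 :=
    hcξ.eventually_mem (closedBall_mem_nhds x0 hρ0)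
  obtain ⟨ρ, hρ, hsub⟩ := Metric.mem_nhds_iff.1
    ((hO.eventually_mem hMO).and ((hO1.eventually_mem hMO1).and hev))
  have hsub' : ∀ M ∈ ball M0 ρ, M ∈ O ∧ M ∈ O1 ∧ (fun k => chart i M (J k)) ∈ closedBall x0 ρ0 :=
    fun M hM => hsub hM
  set ρ' : ℝ := min (ρ / 4) 1 with hρ'
  have hρ'0 : 0 < ρ' := by positivity
  set B : ℝ := ‖x0‖ + ρ0 with hB
  have hB0 : 0 ≤ B := by positivity
  set S : ℝ := ∑ j : Fin r, 1 / (ρ' / 2) ^ ((j : ℕ) + 1) with hS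
  have hS0 : 0 ≤ S := Finset.sum_nonneg fun j _ => by positivity
  set K : ℝ := B * S with hK
  have hK0 : 0 ≤ K := mul_nonneg hB0 hS0
  have hLS : 0 ≤ L * (1 + S) := mul_nonneg hL (by linarith)
  set Kc : Set ((Fin d → ℂ) × (Fin r → Fin d → ℂ)) := closedBall x0 ρ0 ×ˢ closedBall 0 K with hKc
  have hKcc : IsCompact Kc := (isCompact_closedBall _ _).prod (isCompact_closedBall _ _)
  have hKcv : Convex ℝ Kc := (convex_closedBall _ _).prod (convex_closedBall _ _)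
  have hKW : ∀ q ∈ Kc, q.1 ∈ W := fun q hq => hρ0W hq.1
  have hSa : ∀ q ∈ Kc, AnalyticAt ℂ (JJ r Ψ) q := fun q hq => JJ_an hW hΨ (hKW q hq)
  obtain ⟨CJ, hCJ⟩ := hKcc.exists_bound_of_continuousOn (f := fderiv ℂ (JJ r Ψ))
    fun q hq => (hSa q hq).fderiv.continuousAt.continuousWithinAt
  have hJK : IsCompact (JJ r Ψ '' Kc) :=
    hKcc.image_of_continuousOn fun q hq => (hSa q hq).continuousAt.continuousWithinAt
  have hJ0 : ∀ j ∈ JJ r Ψ '' Kc, j 0 ≠ 0 := by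
    rintro j ⟨q, hq, rfl⟩
    rw [JJ_head]
    exact (hΨX _ (hKW q hq)).1
  obtain ⟨C0, α, hα, hC0⟩ := hσ.holder _ hJK hJ0
  have hkey : ∀ q ∈ Kc, ∀ q' ∈ Kc, ∀ x : ℝ, ‖q - q'‖ ≤ (L * (1 + S)) * x →
      |σ (JJ r Ψ q) - σ (JJ r Ψ q')| ≤ (|C0| * (|CJ| * (L * (1 + S))) ^ α) * x ^ α := by
    intro q hq q' hq' x hx
    by_cases hx0' : 0 ≤ x
    · have h1 := hC0 _ ⟨q, hq, rfl⟩ _ ⟨q', hq', rfl⟩ (JJ_jet hW hΨ hΨX (hKW q hq))
        (JJ_jet hW hΨ hΨX (hKW q' hq'))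
      have h2 := Convex.norm_image_sub_le_of_norm_fderiv_le (𝕜 := ℂ)
        (fun q hq => (hSa q hq).differentiableAt) (fun q hq => hCJ q hq) hKcv hq' hq
      have h3 : ‖JJ r Ψ q - JJ r Ψ q'‖ ≤ |CJ| * ((L * (1 + S)) * x) := by
        calc ‖JJ r Ψ q - JJ r Ψ q'‖ ≤ CJ * ‖q - q'‖ := h2
          _ ≤ |CJ| * ‖q - q'‖ := mul_le_mul_of_nonneg_right (le_abs_self _) (norm_nonneg _)
          _ ≤ _ := mul_le_mul_of_nonneg_left hx (abs_nonneg _)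
      have h4 : ‖JJ r Ψ q - JJ r Ψ q'‖ ^ α ≤ (|CJ| * (L * (1 + S))) ^ α * x ^ α := by
        rw [← Real.mul_rpow (mul_nonneg (abs_nonneg _) hLS) hx0', mul_assoc]
        exact Real.rpow_le_rpow (norm_nonneg _) h3 hα.le
      calc |σ (JJ r Ψ q) - σ (JJ r Ψ q')| ≤ C0 * ‖JJ r Ψ q - JJ r Ψ q'‖ ^ α := h1
        _ ≤ |C0| * ‖JJ r Ψ q - JJ r Ψ q'‖ ^ α :=
          mul_le_mul_of_nonneg_right (le_abs_self _) (by positivity)
        _ ≤ |C0| * ((|CJ| * (L * (1 + S))) ^ α * x ^ α) := mul_le_mul_of_nonneg_left h4 (abs_nonneg _)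
        _ = _ := by ring
    · push Not at hx0'
      have h1 : (L * (1 + S)) * x ≤ 0 := mul_nonpos_of_nonneg_of_nonpos hLS hx0'.le
      have h2 : ‖q - q'‖ = 0 := le_antisymm (hx.trans h1) (norm_nonneg _)
      have h3 : q = q' := sub_eq_zero.1 (norm_eq_zero.1 h2)
      rw [h3, sub_self, abs_zero]
      have h4 : (L * (1 + S)) * x = 0 := le_antisymm h1 (by rw [← h2]; exact hx)
      have h5 : L * (1 + S) = 0 := by
        rcases mul_eq_zero.1 h4 with h | h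
        · exact h
        · exact absurd h hx0'.ne
      rw [h5, mul_zero, Real.zero_rpow hα.ne', mul_zero, zero_mul]
  -- facts on curves
  have hcur : ∀ (φ : ℂ → Mat (n + 1)) (z : ℂ), CvOn (TF F) (ball z 1) φ →
      (∀ w ∈ ball z 1, ‖fderiv ℝ φ w‖ ≤ 2) → φ z ∈ ball M0 (ρ / 2) →
      (∀ w ∈ ball z ρ', φ w ∈ ball M0 ρ) ∧
      (∀ w ∈ ball z ρ', DifferentiableAt ℂ (fun w k => cu φ i w (J k)) w) ∧
      (∀ j, ‖co r (fun w k => cu φ i w (J k)) z j‖ ≤ K) ∧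
      ((fun k => cu φ i z (J k), co r (fun w k => cu φ i w (J k)) z) :
        (Fin d → ℂ) × (Fin r → Fin d → ℂ)) ∈ Kc ∧
      GR σ φ z = σ (JJ r Ψ (fun k => cu φ i z (J k), co r (fun w k => cu φ i w (J k)) z)) ∧
      AnalyticAt ℂ (fun w k => cu φ i w (J k)) z := by
    intro φ z hφ hφd hz
    have hzz : z ∈ ball z (1 : ℝ) := mem_ball_self one_pos
    have hzρ : φ z ∈ ball M0 ρ := ball_subset_ball (by linarith) hz
    obtain ⟨hzO, hzO1, -⟩ := hsub' _ hzρ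
    obtain ⟨h1, h2, h3⟩ := GR_loc hX.form hσ isOpen_ball hφ hO hΨ hOM hzz hzO
    set ξ : ℂ → Fin d → ℂ := fun w k => cu φ i w (J k) with hξ
    have hnear : ∀ w ∈ ball z ρ', φ w ∈ ball M0 ρ := by
      intro w hw
      have hw1 : w ∈ ball z (1 : ℝ) := ball_subset_ball (min_le_right _ _) hw
      have hlip : ‖φ w - φ z‖ ≤ 2 * ‖w - z‖ :=
        (convex_ball z 1).norm_image_sub_le_of_norm_fderiv_le
          (fun x hx => hφ.1.differentiableAt hx) (fun x hx => hφd x hx) hzz hw1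
      have hw4 : ‖w - z‖ < ρ / 4 := by
        rw [mem_ball, dist_eq_norm] at hw
        exact hw.trans_le (min_le_left _ _)
      rw [mem_ball, dist_eq_norm] at hz ⊢
      have e1 : φ w - M0 = (φ w - φ z) + (φ z - M0) := by abel
      rw [e1]
      have e2 := norm_add_le (φ w - φ z) (φ z - M0)
      linarith
    have hξd : ∀ w ∈ ball z ρ', DifferentiableAt ℂ ξ w := by
      intro w hw
      have hw1 : w ∈ ball z (1 : ℝ) := ball_subset_ball (min_le_right _ _) hw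
      have h4 := hφ.1.diff_chart hw1 (hO1i _ (hsub' _ (hnear w hw)).2.1)
      exact differentiableAt_pi.2 fun k => (differentiableAt_pi.1 h4) (J k)
    have hξb : ∀ w ∈ ball z ρ', ‖ξ w‖ ≤ B := by
      intro w hw
      have h4 := (hsub' _ (hnear w hw)).2.2
      rw [mem_closedBall, dist_eq_norm] at h4
      have h5 := norm_add_le (ξ w - x0) x0
      rw [sub_add_cancel] at h5
      have h6 : ‖ξ w - x0‖ ≤ ρ0 := h4
      linarith
    have hco : ∀ j, ‖co r ξ z j‖ ≤ K := fun j => co_bd hρ'0 hB0 hξd hξb j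
    have hξz : ξ z ∈ closedBall x0 ρ0 := (hsub' _ hzρ).2.2
    exact ⟨hnear, hξd, hco,
      ⟨hξz, mem_closedBall_zero_iff.2 ((pi_norm_le_iff_of_nonneg hK0).2 hco)⟩, h1, h3⟩
  refine ⟨ρ / 2, |C0| * (|CJ| * (L * (1 + S))) ^ α, α, by positivity,
    mul_nonneg (abs_nonneg _) (Real.rpow_nonneg (mul_nonneg (abs_nonneg _) hLS) _), hα, ?_, ?_⟩
  · intro φ z hφ hφd hz
    obtain ⟨hnear, hξd, hco, hq1, h1, h3⟩ := hcur φ z hφ hφd hz
    have hzz : z ∈ ball z (1 : ℝ) := mem_ball_self one_pos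
    have hzρ : φ z ∈ ball M0 ρ := ball_subset_ball (by linarith) hz
    obtain ⟨hzO, hzO1, hzb⟩ := hsub' _ hzρ
    set ξ : ℂ → Fin d → ℂ := fun w k => cu φ i w (J k) with hξ
    set a' : Fin r → Fin d → ℂ := Function.update (co r ξ z) ⟨0, hr⟩ 0 with ha'
    have ha'K : ∀ j, ‖a' j‖ ≤ K := by
      intro j
      by_cases hj : j = ⟨0, hr⟩
      · rw [hj, ha', Function.update_self, norm_zero]
        exact hK0
      · rw [ha', Function.update_of_ne hj]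
        exact hco j
    have hq2 : (ξ z, a') ∈ Kc :=
      ⟨hzb, mem_closedBall_zero_iff.2 ((pi_norm_le_iff_of_nonneg hK0).2 ha'K)⟩
    have h5 : σ (JJ r Ψ (ξ z, a')) = 0 := JJ_sing hσ hr hW hΨ hΨX (hKW _ hq2) (by
      change a' ⟨0, hr⟩ = 0
      rw [ha', Function.update_self])
    have h6 : ‖(ξ z, co r ξ z) - (ξ z, a')‖ ≤ L * ‖fderiv ℝ φ z‖ := by
      rw [Prod.mk_sub_mk, sub_self, Prod.norm_mk, norm_zero]
      refine max_le (by positivity) ?_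
      rw [pi_norm_le_iff_of_nonneg (by positivity)]
      intro j
      by_cases hj : j = ⟨0, hr⟩
      · rw [hj]
        simp only [Pi.sub_apply, ha', Function.update_self, sub_zero]
        have h7 : co r ξ z ⟨0, hr⟩ = deriv ξ z := by
          unfold co
          simp [iteratedDeriv_one]
        rw [h7]
        have h8 := deriv_chart_le' (U := ball z (1 : ℝ)) hφ.1 hzz (hO1i _ hzO1) (hO1f _ hzO1)
        refine le_trans ?_ h8
        rw [pi_norm_le_iff_of_nonneg (norm_nonneg _)]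
        intro k'
        have h9 := (hφ.1.diff_chart hzz (hO1i _ hzO1)).hasDerivAt
        have h10 : deriv ξ z k' = deriv (cu φ i) z (J k') := by
          have e1 := (hasDerivAt_pi.1 h3.differentiableAt.hasDerivAt) k'
          have e2 := (hasDerivAt_pi.1 h9) (J k')
          exact e1.unique e2
        rw [h10]
        exact norm_le_pi_norm _ _
      · simp only [Pi.sub_apply, ha', Function.update_of_ne hj, sub_self, norm_zero]
        positivity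
    have h7 : ‖(ξ z, co r ξ z) - (ξ z, a')‖ ≤ (L * (1 + S)) * ‖fderiv ℝ φ z‖ := by
      refine h6.trans (mul_le_mul_of_nonneg_right ?_ (norm_nonneg _))
      nlinarith
    have h8 := hkey _ hq1 _ hq2 _ h7
    rw [h5, sub_zero] at h8
    rw [h1]
    exact (le_abs_self _).trans h8
  · intro φ ψ z ε hφ hψ hφd hψd hε hz1 hz2
    obtain ⟨hnear1, hξd1, hco1, hq1, h1, h3⟩ := hcur φ z hφ hφd hz1
    obtain ⟨hnear2, hξd2, hco2, hq2, h1', h3'⟩ := hcur ψ z hψ hψd hz2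
    set ξ : ℂ → Fin d → ℂ := fun w k => cu φ i w (J k) with hξ
    set η : ℂ → Fin d → ℂ := fun w k => cu ψ i w (J k) with hη
    have hε0 : 0 ≤ ε := (norm_nonneg _).trans (hε z (mem_ball_self one_pos))
    have hdiff : ∀ w ∈ ball z ρ', ‖ξ w - η w‖ ≤ L * ε := by
      intro w hw
      have hw1 : w ∈ ball z (1 : ℝ) := ball_subset_ball (min_le_right _ _) hw
      have h4 := hO1l _ (hsub' _ (hnear1 w hw)).2.1 _ (hsub' _ (hnear2 w hw)).2.1
      rw [pi_norm_le_iff_of_nonneg (by positivity)]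
      intro k
      have h5 : ‖(chart i (φ w) - chart i (ψ w)) (J k)‖ ≤ ‖chart i (φ w) - chart i (ψ w)‖ :=
        norm_le_pi_norm _ _
      have h6 : L * ‖φ w - ψ w‖ ≤ L * ε := mul_le_mul_of_nonneg_left (hε w hw1) hL
      exact (h5.trans h4).trans h6
    have h6 : ‖(ξ z, co r ξ z) - (η z, co r η z)‖ ≤ (L * (1 + S)) * ε := by
      rw [Prod.mk_sub_mk, Prod.norm_mk]
      refine max_le ?_ ?_
      · refine (hdiff z (mem_ball_self hρ'0)).trans ?_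
        exact mul_le_mul_of_nonneg_right (by nlinarith) hε0
      · rw [pi_norm_le_iff_of_nonneg (mul_nonneg hLS hε0)]
        intro j
        rw [Pi.sub_apply, co_sub h3 h3']
        have h7 := co_bd (r := r) (ξ := fun w => ξ w - η w) hρ'0 (by positivity : 0 ≤ L * ε)
          (fun w hw => (hξd1 w hw).sub (hξd2 w hw)) hdiff j
        refine h7.trans ?_
        have h8 : 0 ≤ L * ε := by positivity
        rw [← hS]
        nlinarith
    have h8 := hkey _ hq1 _ hq2 _ h6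
    rw [h1, h1']
    exact h8

theorem pw {x B α β : ℝ} (hx : 0 ≤ x) (hxB : x ≤ B) (hB : 1 ≤ B) (hα : 0 < α) (hαβ : α ≤ β) :
    x ^ β ≤ B ^ β * x ^ α := by
  rcases hx.eq_or_lt with h | h
  · rw [← h, Real.zero_rpow (hα.trans_le hαβ).ne', Real.zero_rpow hα.ne', mul_zero]
  · have h1 : x ^ β = x ^ (β - α) * x ^ α := by
      rw [← Real.rpow_add h]
      congr 1
      ring
    rw [h1]
    apply mul_le_mul_of_nonneg_right _ (by positivity)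
    calc x ^ (β - α) ≤ B ^ (β - α) := Real.rpow_le_rpow hx hxB (by linarith)
      _ ≤ B ^ β := Real.rpow_le_rpow_of_exponent_le hB (by linarith)

theorem bd (hX : ProjManifold F d) (hσ : JetMetric (Cone F) r σ) (hr : 0 < r) :
    ∃ C α : ℝ, 0 ≤ C ∧ 0 < α ∧ ∀ (φ : ℂ → Mat (n + 1)) (z : ℂ), CvOn (TF F) (ball z 1) φ →
      (∀ w ∈ ball z 1, ‖fderiv ℝ φ w‖ ≤ 2) → GR σ φ z ≤ C * ‖fderiv ℝ φ z‖ ^ α := by
  have hbd : ∃ C α : ℝ, 0 ≤ C ∧ 0 < α ∧ ∀ M ∈ TF F, ∀ (φ : ℂ → Mat (n + 1)) (z : ℂ), φ z = M →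
      CvOn (TF F) (ball z 1) φ → (∀ w ∈ ball z 1, ‖fderiv ℝ φ w‖ ≤ 2) →
      GR σ φ z ≤ C * ‖fderiv ℝ φ z‖ ^ α := by
    refine (isCompact_TF hX.form).induction_on
      (p := fun s => ∃ C α : ℝ, 0 ≤ C ∧ 0 < α ∧ ∀ M ∈ s, ∀ (φ : ℂ → Mat (n + 1)) (z : ℂ), φ z = M →
      CvOn (TF F) (ball z 1) φ → (∀ w ∈ ball z 1, ‖fderiv ℝ φ w‖ ≤ 2) →
      GR σ φ z ≤ C * ‖fderiv ℝ φ z‖ ^ α) ?_ ?_ ?_ ?_
    · exact ⟨0, 1, le_rfl, one_pos, fun M hM => absurd hM (notMem_empty _)⟩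
    · rintro s s' hss ⟨C, α, h1, h2, hC⟩
      exact ⟨C, α, h1, h2, fun M hM => hC M (hss hM)⟩
    · rintro s s' ⟨C, α, h1, h2, hC⟩ ⟨C', α', h1', h2', hC'⟩
      refine ⟨C * 2 ^ α + C' * 2 ^ α', min α α', by positivity, lt_min h2 h2', fun M hM φ z hz e1 e2 => ?_⟩
      have hx2 : ‖fderiv ℝ φ z‖ ≤ 2 := e2 z (mem_ball_self one_pos)
      have hx0 : 0 ≤ ‖fderiv ℝ φ z‖ := norm_nonneg _
      have hp : 0 ≤ ‖fderiv ℝ φ z‖ ^ (min α α') := by positivity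
      have hq1 : 0 ≤ C * 2 ^ α := by positivity
      have hq2 : 0 ≤ C' * 2 ^ α' := by positivity
      rcases hM with hM | hM
      · have e3 := hC M hM φ z hz e1 e2
        have e4 := pw hx0 hx2 (by norm_num) (lt_min h2 h2') (min_le_left α α')
        calc GR σ φ z ≤ C * ‖fderiv ℝ φ z‖ ^ α := e3
          _ ≤ C * (2 ^ α * ‖fderiv ℝ φ z‖ ^ (min α α')) := mul_le_mul_of_nonneg_left e4 h1
          _ ≤ _ := by nlinarith [mul_nonneg hq2 hp]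
      · have e3 := hC' M hM φ z hz e1 e2
        have e4 := pw hx0 hx2 (by norm_num) (lt_min h2 h2') (min_le_right α α')
        calc GR σ φ z ≤ C' * ‖fderiv ℝ φ z‖ ^ α' := e3
          _ ≤ C' * (2 ^ α' * ‖fderiv ℝ φ z‖ ^ (min α α')) := mul_le_mul_of_nonneg_left e4 h1'
          _ ≤ _ := by nlinarith [mul_nonneg hq1 hp]
    · intro M hM
      obtain ⟨R, C, α, hR, hC, hα, h1, -⟩ := loc hX hσ hr hM
      exact ⟨ball M R, mem_nhdsWithin_of_mem_nhds (ball_mem_nhds M hR), C, α, hC, hα,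
        fun M' hM' φ z hz h2 h3 => h1 φ z h2 h3 (by rwa [hz])⟩
  obtain ⟨C, α, hC0, hα, hC⟩ := hbd
  exact ⟨C, α, hC0, hα, fun φ z h1 h2 =>
    hC _ (h1.2 z (mem_ball_self one_pos)) φ z rfl h1 h2⟩

theorem main : S_METB := by
  intro n d r ι F σ hX hσ hr
  obtain ⟨C1, α1, hC1, hα1, hbd⟩ := bd hX hσ hr
  refine ⟨⟨C1, α1, hC1, hα1, hbd⟩, ?_⟩
  set B0 : ℝ := C1 * 2 ^ α1 with hB0
  have hB00 : 0 ≤ B0 := by positivity
  have hb : ∀ (φ : ℂ → Mat (n + 1)) (z : ℂ), CvOn (TF F) (ball z 1) φ →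
      (∀ w ∈ ball z 1, ‖fderiv ℝ φ w‖ ≤ 2) → GR σ φ z ≤ B0 := by
    intro φ z h1 h2
    refine (hbd φ z h1 h2).trans ?_
    exact mul_le_mul_of_nonneg_left
      (Real.rpow_le_rpow (norm_nonneg _) (h2 z (mem_ball_self one_pos)) hα1.le) hC1
  have hb2 : ∀ (φ ψ : ℂ → Mat (n + 1)) (z : ℂ), CvOn (TF F) (ball z 1) φ →
      CvOn (TF F) (ball z 1) ψ → (∀ w ∈ ball z 1, ‖fderiv ℝ φ w‖ ≤ 2) →
      (∀ w ∈ ball z 1, ‖fderiv ℝ ψ w‖ ≤ 2) → |GR σ φ z - GR σ ψ z| ≤ B0 := by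
    intro φ ψ z h1 h2 h3 h4
    have e1 := hb φ z h1 h3
    have e2 := hb ψ z h2 h4
    have e3 : 0 ≤ GR σ φ z := hσ.nonneg _
    have e4 : 0 ≤ GR σ ψ z := hσ.nonneg _
    rw [abs_le]
    constructor <;> linarith
  have key : ∃ C α : ℝ, 0 ≤ C ∧ 0 < α ∧ ∀ M ∈ TF F, ∀ (φ ψ : ℂ → Mat (n + 1)) (z : ℂ) (ε : ℝ),
      φ z = M → CvOn (TF F) (ball z 1) φ → CvOn (TF F) (ball z 1) ψ →
      (∀ w ∈ ball z 1, ‖fderiv ℝ φ w‖ ≤ 2) → (∀ w ∈ ball z 1, ‖fderiv ℝ ψ w‖ ≤ 2) →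
      (∀ w ∈ ball z 1, ‖φ w - ψ w‖ ≤ ε) → ε ≤ 1 → |GR σ φ z - GR σ ψ z| ≤ C * ε ^ α := by
    refine (isCompact_TF hX.form).induction_on
      (p := fun s => ∃ C α : ℝ, 0 ≤ C ∧ 0 < α ∧ ∀ M ∈ s, ∀ (φ ψ : ℂ → Mat (n + 1)) (z : ℂ) (ε : ℝ),
      φ z = M → CvOn (TF F) (ball z 1) φ → CvOn (TF F) (ball z 1) ψ →
      (∀ w ∈ ball z 1, ‖fderiv ℝ φ w‖ ≤ 2) → (∀ w ∈ ball z 1, ‖fderiv ℝ ψ w‖ ≤ 2) →
      (∀ w ∈ ball z 1, ‖φ w - ψ w‖ ≤ ε) → ε ≤ 1 → |GR σ φ z - GR σ ψ z| ≤ C * ε ^ α) ?_ ?_ ?_ ?_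
    · exact ⟨0, 1, le_rfl, one_pos, fun M hM => absurd hM (notMem_empty _)⟩
    · rintro s s' hss ⟨C, α, h1, h2, hC⟩
      exact ⟨C, α, h1, h2, fun M hM => hC M (hss hM)⟩
    · rintro s s' ⟨C, α, h1, h2, hC⟩ ⟨C', α', h1', h2', hC'⟩
      refine ⟨C + C', min α α', by positivity, lt_min h2 h2',
        fun M hM φ ψ z ε hz e1 e2 e3 e4 e5 e6 => ?_⟩
      have hx0 : 0 ≤ ε := (norm_nonneg _).trans (e5 z (mem_ball_self one_pos))
      have hp : 0 ≤ ε ^ (min α α') := by positivity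
      rcases hM with hM | hM
      · have e7 := hC M hM φ ψ z ε hz e1 e2 e3 e4 e5 e6
        have e8 := pw hx0 e6 le_rfl (lt_min h2 h2') (min_le_left α α')
        rw [Real.one_rpow, one_mul] at e8
        have e9 := mul_le_mul_of_nonneg_left e8 h1
        nlinarith [mul_nonneg h1' hp]
      · have e7 := hC' M hM φ ψ z ε hz e1 e2 e3 e4 e5 e6
        have e8 := pw hx0 e6 le_rfl (lt_min h2 h2') (min_le_right α α')
        rw [Real.one_rpow, one_mul] at e8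
        have e9 := mul_le_mul_of_nonneg_left e8 h1'
        nlinarith [mul_nonneg h1 hp]
    · intro M hM
      obtain ⟨R, C, α, hR, hC, hα, -, h1⟩ := loc hX hσ hr hM
      refine ⟨ball M (R / 2), mem_nhdsWithin_of_mem_nhds (ball_mem_nhds M (by positivity)),
        C + B0 / (R / 2) ^ α, α, by positivity, hα, fun M' hM' φ ψ z ε hz e1 e2 e3 e4 e5 e6 => ?_⟩
      have hx0 : 0 ≤ ε := (norm_nonneg _).trans (e5 z (mem_ball_self one_pos))
      have hp : 0 ≤ ε ^ α := by positivity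
      have hφM : φ z ∈ ball M (R / 2) := by rwa [hz]
      by_cases hε : ε < R / 2
      · have hψM : ψ z ∈ ball M R := by
          have e7 := e5 z (mem_ball_self one_pos)
          rw [mem_ball, dist_eq_norm] at hφM ⊢
          have e8 : ψ z - M = (φ z - M) - (φ z - ψ z) := by abel
          rw [e8]
          have e9 := norm_sub_le (φ z - M) (φ z - ψ z)
          linarith
        have e7 := h1 φ ψ z ε e1 e2 e3 e4 e5 (ball_subset_ball (by linarith) hφM) hψM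
        have e8 : 0 ≤ B0 / (R / 2) ^ α * ε ^ α := by positivity
        linarith
      · push Not at hε
        have e7 := hb2 φ ψ z e1 e2 e3 e4
        have e8 : B0 ≤ B0 / (R / 2) ^ α * ε ^ α := by
          have e9 : (R / 2) ^ α ≤ ε ^ α := Real.rpow_le_rpow (by positivity) hε hα.le
          have e10 : 0 < (R / 2) ^ α := by positivity
          rw [div_mul_eq_mul_div, le_div_iff₀ e10]
          exact mul_le_mul_of_nonneg_left e9 hB00
        have e9 : 0 ≤ C * ε ^ α := by positivity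
        linarith
  obtain ⟨C, α, hC0, hα, hC⟩ := key
  refine ⟨C + B0, α, by positivity, hα, fun φ ψ z ε e1 e2 e3 e4 e5 => ?_⟩
  have hx0 : 0 ≤ ε := (norm_nonneg _).trans (e5 z (mem_ball_self one_pos))
  have hp : 0 ≤ ε ^ α := by positivity
  by_cases hε : ε ≤ 1
  · have e6 := hC _ (e1.2 z (mem_ball_self one_pos)) φ ψ z ε rfl e1 e2 e3 e4 e5 hε
    nlinarith [mul_nonneg hB00 hp]
  · push Not at hε
    have e6 := hb2 φ ψ z e1 e2 e3 e4
    have e7 : 1 ≤ ε ^ α := Real.one_le_rpow hε.le hα.le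
    nlinarith [mul_nonneg hC0 hp, mul_le_mul_of_nonneg_left e7 hB00]

end Pool.Agent.Helper65.NC.METB
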