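import Mathlib

/-!
The maximum principle for continuous functions with a local sub-mean property, and the mean of the square of the
distance.
-/

set_option autoImplicit false

open Filter Topology Metric Set

namespace Pool.Agent.Helper65.NC

theorem mp_circ {f : ℂ → ℝ} {z : ℂ} {s : ℝ} (hs : 0 < s) (hf : ContinuousOn f (sphere z s)) :
    CircleIntegrable f z s := hf.circleIntegrable hs.le

theorem mp_sq (z c : ℂ) (s : ℝ) :
    Real.circleAverage (fun ζ => ‖ζ - c‖ ^ 2) z s = ‖z - c‖ ^ 2 + s ^ 2 := by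
  have h1 : ∀ ζ ∈ sphere z |s|, ‖ζ - c‖ ^ 2 =
      (‖z - c‖ ^ 2 + s ^ 2) + 2 * ((ζ - z) * (starRingEnd ℂ) (z - c)).re := by
    intro ζ hζ
    have h2 : ‖ζ - z‖ ^ 2 = s ^ 2 := by
      have : ‖ζ - z‖ = |s| := by simpa [dist_eq_norm] using hζ
      rw [this, sq_abs]
    have h3 : ζ - c = (ζ - z) + (z - c) := by ring
    rw [h3, ← h2, ← Complex.normSq_eq_norm_sq, ← Complex.normSq_eq_norm_sq, ← Complex.normSq_eq_norm_sq,
      Complex.normSq_add]
    ring
  have h4 : Real.circleAverage (fun ζ : ℂ => (ζ - z) * (starRingEnd ℂ) (z - c)) z s = 0 := by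
    have h5 : DiffContOnCl ℂ (fun ζ : ℂ => (ζ - z) * (starRingEnd ℂ) (z - c)) (ball z |s|) := by
      apply Differentiable.diffContOnCl
      fun_prop
    rw [h5.circleAverage]
    simp
  have h6 : Real.circleAverage (fun ζ : ℂ => ((ζ - z) * (starRingEnd ℂ) (z - c)).re) z s = 0 := by
    have h7 : CircleIntegrable (fun ζ : ℂ => (ζ - z) * (starRingEnd ℂ) (z - c)) z s := by
      apply ContinuousOn.circleIntegrable'
      fun_prop
    have h8 := Complex.reCLM.circleAverage_comp_comm h7
    rw [h4] at h8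
    simpa [Function.comp_def] using h8
  rw [Real.circleAverage_congr_sphere h1, Real.circleAverage_fun_add, Real.circleAverage_const]
  · have h9 : Real.circleAverage (fun ζ : ℂ => 2 * ((ζ - z) * (starRingEnd ℂ) (z - c)).re) z s =
        2 * Real.circleAverage (fun ζ : ℂ => ((ζ - z) * (starRingEnd ℂ) (z - c)).re) z s := by
      have := Real.circleAverage_fun_smul (a := (2 : ℝ)) (f := fun ζ : ℂ => ((ζ - z) * (starRingEnd ℂ) (z - c)).re)
        (c := z) (R := s)
      simpa using this
    rw [h9, h6]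
    ring
  · apply ContinuousOn.circleIntegrable'
    fun_prop
  · apply ContinuousOn.circleIntegrable'
    fun_prop

/-- **Maximum principle.** -/
theorem mp {K F : Set ℂ} (hK : IsCompact K) {g : ℂ → ℝ} (hg : ContinuousOn g K) {B : ℝ}
    (hF : ∀ z ∈ K, z ∈ F → g z ≤ B)
    (hsub : ∀ z ∈ K, z ∉ F → ∃ s : ℝ, 0 < s ∧ sphere z s ⊆ K ∧ g z ≤ Real.circleAverage g z s) :
    ∀ z ∈ K, g z ≤ B := by
  intro z hz
  obtain ⟨D, hD⟩ := hK.isBounded.exists_norm_le
  have hD0 : 0 ≤ D := (norm_nonneg z).trans (hD z hz)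
  by_contra hcon
  push Not at hcon
  set ε : ℝ := (g z - B) / (2 * (D ^ 2 + 1)) with hε
  have hε0 : 0 < ε := by
    rw [hε]
    have : 0 < g z - B := by linarith
    positivity
  set G : ℂ → ℝ := fun w => g w + ε * ‖w - 0‖ ^ 2 with hG
  have hGc : ContinuousOn G K := by
    apply hg.add
    fun_prop
  obtain ⟨m, hm, hmax⟩ := hK.exists_isMaxOn ⟨z, hz⟩ hGc
  have hmax' : ∀ w ∈ K, G w ≤ G m := fun w hw => hmax hw
  have hmD : ‖m - 0‖ ^ 2 ≤ D ^ 2 := by
    rw [sub_zero]
    exact pow_le_pow_left₀ (norm_nonneg _) (hD m hm) 2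
  by_cases hmF : m ∈ F
  · have h1 := hmax' z hz
    have h2 := hF m hm hmF
    have h3 : g z ≤ B + ε * D ^ 2 := by
      have h4 : g z ≤ G z := by
        simp only [hG]
        have : 0 ≤ ε * ‖z - 0‖ ^ 2 := by positivity
        linarith
      have h5 : G m ≤ B + ε * D ^ 2 := by
        simp only [hG]
        have : ε * ‖m - 0‖ ^ 2 ≤ ε * D ^ 2 := mul_le_mul_of_nonneg_left hmD hε0.le
        linarith
      linarith
    have h6 : ε * D ^ 2 < g z - B := by
      have h7 : ε * (2 * (D ^ 2 + 1)) = g z - B := by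
        rw [hε]
        field_simp
      nlinarith [hε0, sq_nonneg D, mul_pos hε0 (by positivity : (0 : ℝ) < D ^ 2 + 1)]
    linarith
  · obtain ⟨s, hs, hsK, hle⟩ := hsub m hm hmF
    have h1 : Real.circleAverage G m s = Real.circleAverage g m s + ε * (‖m - 0‖ ^ 2 + s ^ 2) := by
      have h2 : Real.circleAverage G m s = Real.circleAverage g m s +
          Real.circleAverage (fun w : ℂ => ε * ‖w - 0‖ ^ 2) m s := by
        simp only [hG]
        apply Real.circleAverage_fun_add
        · exact (hg.mono hsK).circleIntegrable hs.le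
        · apply ContinuousOn.circleIntegrable hs.le
          fun_prop
      have h3 : Real.circleAverage (fun w : ℂ => ε * ‖w - 0‖ ^ 2) m s = ε * (‖m - 0‖ ^ 2 + s ^ 2) := by
        have := Real.circleAverage_fun_smul (a := ε) (f := fun w : ℂ => ‖w - 0‖ ^ 2) (c := m) (R := s)
        rw [mp_sq] at this
        simpa using this
      rw [h2, h3]
    have h4 : Real.circleAverage G m s ≤ G m := by
      apply Real.circleAverage_mono_on_of_le_circle
      · exact (hGc.mono hsK).circleIntegrable hs.le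
      · intro w hw
        rw [abs_of_pos hs] at hw
        exact hmax' w (hsK hw)
    rw [h1] at h4
    simp only [hG] at h4
    have h5 : 0 < ε * s ^ 2 := by positivity
    nlinarith

end Pool.Agent.Helper65.NC
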