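import Mathlib
import Pool.Agent.Helper65.NC.Stm
import Pool.Agent.Helper65.NC.MP

/-!
The Poisson inequality for continuous functions with the sub-mean value property.
-/

set_option autoImplicit false

open Filter Topology Metric Set InnerProductSpace

namespace Pool.Agent.Helper65.NC.POI

open Pool.Agent.Helper65.NC

theorem ker_eq (c w ζ : ℂ) : (‖ζ - c‖ ^ 2 - ‖w - c‖ ^ 2) / ‖ζ - w‖ ^ 2 = poissonKernel c w ζ := by
  rw [poissonKernel_def, sub_sub_sub_cancel_right]

theorem PI_eq (f : ℂ → ℝ) (c : ℂ) (t : ℝ) (w : ℂ) :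
    PI f c t w = Real.circleAverage (poissonKernel c w • f) c t := by
  unfold PI
  congr 1
  ext ζ
  rw [ker_eq]
  rfl

theorem PI_zero (f : ℂ → ℝ) (c : ℂ) (t : ℝ) (w : ℂ) :
    PI f c t w = PI (fun z => f (z + c)) 0 t (w - c) := by
  unfold PI
  rw [← Real.circleAverage_map_add_const]
  congr 1
  ext ζ
  have h : ζ + c - w = ζ - (w - c) := by ring
  rw [h]
  simp

theorem PI_re (g : ℂ → ℝ) (t : ℝ) (hg : CircleIntegrable g 0 t) (w : ℂ) (hw : w ∈ ball (0 : ℂ) t) :
    PI g 0 t w = (Real.circleAverage (fun ζ ↦ herglotzRieszKernel 0 w ζ • (g ζ : ℂ)) 0 t).re := by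
  rw [re_circleAverage_herglotzRieszKernel_smul hg hw, PI_eq, poissonKernel_eq_re_herglotzRieszKernel]

theorem harm (f : ℂ → ℝ) (c : ℂ) (t : ℝ) (ht : 0 < t) (hf : ContinuousOn f (sphere c t)) :
    HarmonicOnNhd (PI f c t) (ball c t) := by
  set g : ℂ → ℝ := fun z => f (z + c) with hg
  have hgc : ContinuousOn g (sphere (0 : ℂ) t) := by
    apply hf.comp (by fun_prop)
    intro z hz
    simpa using hz
  have hgi : CircleIntegrable g 0 t := hgc.circleIntegrable ht.le
  have hgi' : CircleIntegrable (fun z => (g z : ℂ)) 0 t := by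
    apply ContinuousOn.circleIntegrable ht.le
    exact Complex.continuous_ofReal.comp_continuousOn hgc
  have han := analyticOnNhd_circleAverage_herglotzRieszKernel_smul hgi'
  intro w hw
  have hw' : w - c ∈ ball (0 : ℂ) t := by
    simpa [dist_eq_norm] using hw
  have h1 : AnalyticAt ℂ (fun w => Real.circleAverage (fun ζ ↦ herglotzRieszKernel 0 (w - c) ζ • (g ζ : ℂ)) 0 t) w := by
    have h2 := han (w - c) hw'
    have h5 : AnalyticAt ℂ (fun w : ℂ => w - c) w := by fun_prop
    exact AnalyticAt.fun_comp_of_eq (g := fun w : ℂ => Real.circleAverage (fun ζ ↦ herglotzRieszKernel 0 w ζ • (g ζ : ℂ)) 0 t)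
      h2 h5 rfl
  have h3 := h1.harmonicAt_re
  refine (harmonicAt_congr_nhds ?_).2 h3
  have h4 : ball c t ∈ 𝓝 w := isOpen_ball.mem_nhds hw
  filter_upwards [h4] with v hv
  have hv' : v - c ∈ ball (0 : ℂ) t := by
    simpa [dist_eq_norm] using hv
  rw [PI_zero, PI_re g t hgi _ hv']

theorem cons (f : ℂ → ℝ) (c : ℂ) (s t : ℝ) (hs : 0 < s) (hst : s < t) (hf : ContinuousOn f (sphere c t))
    (w : ℂ) (hw : w ∈ ball c s) : PI (PI f c t) c s w = PI f c t w := by
  have h1 := (harm f c t (hs.trans hst) hf).mono (closedBall_subset_ball hst)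
  rw [PI_eq (PI f c t)]
  exact h1.circleAverage_poissonKernel_smul hw

theorem ker_bd {c w ζ : ℂ} {t κ : ℝ} (ht : 0 < t) (hκ : 0 ≤ κ) (hκ1 : κ ≤ 1 / 2) (hζ : ‖ζ - c‖ = t)
    (hw : ‖w - c‖ ≤ κ * t) :
    |(‖ζ - c‖ ^ 2 - ‖w - c‖ ^ 2) / ‖ζ - w‖ ^ 2 - 1| ≤ 4 * κ ∧
      1 / 3 ≤ (‖ζ - c‖ ^ 2 - ‖w - c‖ ^ 2) / ‖ζ - w‖ ^ 2 := by
  set r := ‖w - c‖ with hr
  have hr0 : 0 ≤ r := norm_nonneg _
  set d := ‖ζ - w‖ with hd
  have h1 : t - r ≤ d := by
    have : ‖ζ - c‖ ≤ ‖ζ - w‖ + ‖w - c‖ := by
      have : ζ - c = (ζ - w) + (w - c) := by ring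
      rw [this]
      exact norm_add_le _ _
    rw [hζ] at this
    linarith
  have h2 : d ≤ t + r := by
    have : ‖ζ - w‖ ≤ ‖ζ - c‖ + ‖w - c‖ := by
      have : ζ - w = (ζ - c) - (w - c) := by ring
      rw [this]
      exact norm_sub_le _ _
    rw [hζ] at this
    linarith
  have hrt : r ≤ t / 2 := by nlinarith
  have hd0 : 0 < d := by linarith
  have hd2 : 0 < d ^ 2 := by positivity
  rw [hζ]
  have h3 : (t - r) ^ 2 ≤ d ^ 2 := pow_le_pow_left₀ (by linarith) h1 2
  have h4 : d ^ 2 ≤ (t + r) ^ 2 := pow_le_pow_left₀ hd0.le h2 2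
  constructor
  · rw [abs_le]
    constructor
    · rw [le_sub_iff_add_le, le_div_iff₀ hd2]
      have h5 : (-(4 * κ) + 1) * d ^ 2 ≤ t ^ 2 - r ^ 2 := by
        by_cases h6 : 4 * κ ≤ 1
        · have h7 : (-(4 * κ) + 1) * d ^ 2 ≤ (-(4 * κ) + 1) * (t + r) ^ 2 :=
            mul_le_mul_of_nonneg_left h4 (by linarith)
          have h8 : (-(4 * κ) + 1) * (t + r) ≤ t - r := by nlinarith
          have h9 : (-(4 * κ) + 1) * (t + r) * (t + r) ≤ (t - r) * (t + r) :=
            mul_le_mul_of_nonneg_right h8 (by linarith)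
          nlinarith
        · have : (-(4 * κ) + 1) * d ^ 2 ≤ 0 := mul_nonpos_of_nonpos_of_nonneg (by linarith) hd2.le
          nlinarith
      exact h5
    · rw [sub_le_iff_le_add, div_le_iff₀ hd2]
      have h7 : (4 * κ + 1) * (t - r) ^ 2 ≤ (4 * κ + 1) * d ^ 2 :=
        mul_le_mul_of_nonneg_left h3 (by linarith)
      have h8 : t + r ≤ (4 * κ + 1) * (t - r) := by nlinarith
      have h9 : (t + r) * (t - r) ≤ (4 * κ + 1) * (t - r) * (t - r) :=
        mul_le_mul_of_nonneg_right h8 (by linarith)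
      nlinarith
  · rw [le_div_iff₀ hd2]
    have h8 : 1 / 3 * (t + r) ≤ t - r := by linarith
    have h9 : 1 / 3 * (t + r) * (t + r) ≤ (t - r) * (t + r) := mul_le_mul_of_nonneg_right h8 (by linarith)
    nlinarith

theorem ker_cont {c w : ℂ} {t : ℝ} (hw : w ∈ ball c t) :
    ContinuousOn (fun ζ : ℂ => (‖ζ - c‖ ^ 2 - ‖w - c‖ ^ 2) / ‖ζ - w‖ ^ 2) (sphere c t) := by
  apply ContinuousOn.div (by fun_prop) (by fun_prop)
  intro ζ hζ h0
  have h1 : ζ = w := by
    have : ‖ζ - w‖ = 0 := by
      exact pow_eq_zero_iff (two_ne_zero) |>.1 h0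
    exact sub_eq_zero.1 (norm_eq_zero.1 this)
  rw [h1] at hζ
  simp only [mem_sphere, mem_ball] at hζ hw
  linarith

theorem part3 (f : ℂ → ℝ) (c : ℂ) (t κ : ℝ) (ht : 0 < t) (hκ : 0 ≤ κ) (hκ1 : κ ≤ 1 / 2)
    (hf : ContinuousOn f (sphere c t)) (hf0 : ∀ ζ ∈ sphere c t, 0 ≤ f ζ) (w : ℂ) (hw : ‖w - c‖ ≤ κ * t) :
    |PI f c t w - Real.circleAverage f c t| ≤ 4 * κ * Real.circleAverage f c t ∧
      1 / 3 * Real.circleAverage f c t ≤ PI f c t w := by
  have hwb : w ∈ ball c t := by
    rw [mem_ball, dist_eq_norm]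
    nlinarith
  have hfi : CircleIntegrable f c t := hf.circleIntegrable ht.le
  have hki : CircleIntegrable (fun ζ => (‖ζ - c‖ ^ 2 - ‖w - c‖ ^ 2) / ‖ζ - w‖ ^ 2 * f ζ) c t :=
    ((ker_cont hwb).mul hf).circleIntegrable ht.le
  have hsm : ∀ a : ℝ, Real.circleAverage (fun ζ => a * f ζ) c t = a * Real.circleAverage f c t := by
    intro a
    have := Real.circleAverage_fun_smul (a := a) (f := f) (c := c) (R := t)
    simpa using this
  have hsi : ∀ a : ℝ, CircleIntegrable (fun ζ => a * f ζ) c t := by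
    intro a
    exact (continuousOn_const.mul hf).circleIntegrable ht.le
  have hmem : ∀ x ∈ sphere c |t|, x ∈ sphere c t := by
    intro x hx
    rwa [abs_of_pos ht] at hx
  refine ⟨?_, ?_⟩
  · rw [abs_le]
    constructor
    · have h1 : Real.circleAverage (fun ζ => (1 - 4 * κ) * f ζ) c t ≤ PI f c t w := by
        apply Real.circleAverage_mono (hsi _) hki
        intro x hx
        have hx' := hmem x hx
        have hb := (ker_bd ht hκ hκ1 (by simpa [dist_eq_norm] using hx') hw).1
        rw [abs_le] at hb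
        exact mul_le_mul_of_nonneg_right (by linarith [hb.1]) (hf0 x hx')
      rw [hsm] at h1
      linarith
    · have h1 : PI f c t w ≤ Real.circleAverage (fun ζ => (1 + 4 * κ) * f ζ) c t := by
        apply Real.circleAverage_mono hki (hsi _)
        intro x hx
        have hx' := hmem x hx
        have hb := (ker_bd ht hκ hκ1 (by simpa [dist_eq_norm] using hx') hw).1
        rw [abs_le] at hb
        exact mul_le_mul_of_nonneg_right (by linarith [hb.2]) (hf0 x hx')
      rw [hsm] at h1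
      linarith
  · rw [← hsm]
    apply Real.circleAverage_mono (hsi _) hki
    intro x hx
    have hx' := hmem x hx
    have hb := (ker_bd ht hκ hκ1 (by simpa [dist_eq_norm] using hx') hw).2
    exact mul_le_mul_of_nonneg_right hb (hf0 x hx')

/-- the mean of the kernel is one -/
theorem ker_mean {c w : ℂ} {t : ℝ} (hw : w ∈ ball c t) :
    Real.circleAverage (fun ζ : ℂ => (‖ζ - c‖ ^ 2 - ‖w - c‖ ^ 2) / ‖ζ - w‖ ^ 2) c t = 1 := by
  have h1 : HarmonicOnNhd (fun _ : ℂ => (1 : ℝ)) (closedBall c t) := by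
    intro z _
    exact harmonicAt_const 1
  have h2 := h1.circleAverage_poissonKernel_smul hw
  rw [← h2]
  congr 1
  ext ζ
  rw [ker_eq]
  simp

/-- the boundary estimate -/
theorem bdry {u : ℂ → ℝ} {c : ℂ} {t η ε M : ℝ} (ht : 0 < t) (hη : 0 < η) (hε : 0 ≤ ε)
    (hu : ContinuousOn u (sphere c t)) (hM : ∀ ζ ∈ sphere c t, ∀ ξ ∈ sphere c t, |u ζ - u ξ| ≤ M)
    {w a : ℂ} (hw : w ∈ ball c t) (ha : a ∈ sphere c t) (hwa : ‖w - a‖ ≤ η / 2)
    (hun : ∀ ζ ∈ sphere c t, ‖ζ - a‖ < η → |u ζ - u a| ≤ ε) :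
    u a - ε - 4 * M / η ^ 2 * (t ^ 2 - ‖w - c‖ ^ 2) ≤ PI u c t w := by
  have hM0 : 0 ≤ M := (abs_nonneg _).trans (hM a ha a ha)
  have hwt : ‖w - c‖ < t := by simpa [dist_eq_norm] using hw
  have hsq : 0 < t ^ 2 - ‖w - c‖ ^ 2 := by
    have := norm_nonneg (w - c)
    nlinarith
  set k : ℂ → ℝ := fun ζ => (‖ζ - c‖ ^ 2 - ‖w - c‖ ^ 2) / ‖ζ - w‖ ^ 2 with hk
  have hkc : ContinuousOn k (sphere c t) := ker_cont hw
  set C : ℝ := 4 * M / η ^ 2 * (t ^ 2 - ‖w - c‖ ^ 2) with hC
  have hC0 : 0 ≤ C := by positivity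
  -- pointwise bound
  have hpt : ∀ ζ ∈ sphere c t, (u a - ε) * k ζ - C ≤ k ζ * u ζ := by
    intro ζ hζ
    have hζt : ‖ζ - c‖ = t := by simpa [dist_eq_norm] using hζ
    have hk0 : 0 ≤ k ζ := by
      simp only [hk]
      rw [hζt]
      positivity
    by_cases h1 : ‖ζ - a‖ < η
    · have h2 := hun ζ hζ h1
      rw [abs_le] at h2
      have h3 : (u a - ε) * k ζ ≤ u ζ * k ζ := mul_le_mul_of_nonneg_right (by linarith [h2.1]) hk0
      linarith
    · push Not at h1
      have h2 : η / 2 ≤ ‖ζ - w‖ := by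
        have : ‖ζ - a‖ ≤ ‖ζ - w‖ + ‖w - a‖ := by
          have : ζ - a = (ζ - w) + (w - a) := by ring
          rw [this]
          exact norm_add_le _ _
        linarith
      have h3 : k ζ ≤ 4 / η ^ 2 * (t ^ 2 - ‖w - c‖ ^ 2) := by
        simp only [hk]
        rw [hζt]
        have h4 : (η / 2) ^ 2 ≤ ‖ζ - w‖ ^ 2 := pow_le_pow_left₀ (by positivity) h2 2
        calc (t ^ 2 - ‖w - c‖ ^ 2) / ‖ζ - w‖ ^ 2 ≤ (t ^ 2 - ‖w - c‖ ^ 2) / (η / 2) ^ 2 :=
              div_le_div_of_nonneg_left hsq.le (by positivity) h4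
          _ = 4 / η ^ 2 * (t ^ 2 - ‖w - c‖ ^ 2) := by
              field_simp
              norm_num
      have h5 := hM ζ hζ a ha
      rw [abs_le] at h5
      have h6 : M * k ζ ≤ C := by
        calc M * k ζ ≤ M * (4 / η ^ 2 * (t ^ 2 - ‖w - c‖ ^ 2)) := mul_le_mul_of_nonneg_left h3 hM0
          _ = C := by rw [hC]; ring
      have h7 : (u a - M) * k ζ ≤ u ζ * k ζ := mul_le_mul_of_nonneg_right (by linarith [h5.1]) hk0
      nlinarith [mul_nonneg hε hk0]
  have hki : CircleIntegrable (fun ζ => k ζ * u ζ) c t := (hkc.mul hu).circleIntegrable ht.le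
  have hli : CircleIntegrable (fun ζ => (u a - ε) * k ζ - C) c t :=
    ((continuousOn_const.mul hkc).sub continuousOn_const).circleIntegrable ht.le
  have h8 : Real.circleAverage (fun ζ => (u a - ε) * k ζ - C) c t ≤ PI u c t w := by
    apply Real.circleAverage_mono hli hki
    intro x hx
    rw [abs_of_pos ht] at hx
    exact hpt x hx
  have h9 : Real.circleAverage (fun ζ => (u a - ε) * k ζ - C) c t = (u a - ε) - C := by
    rw [Real.circleAverage_fun_sub, Real.circleAverage_const]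
    · have := Real.circleAverage_fun_smul (a := u a - ε) (f := k) (c := c) (R := t)
      have h10 : Real.circleAverage (fun ζ => (u a - ε) * k ζ) c t = (u a - ε) * Real.circleAverage k c t := by
        simpa using this
      rw [h10, ker_mean hw]
      ring
    · exact (continuousOn_const.mul hkc).circleIntegrable ht.le
    · exact continuousOn_const.circleIntegrable ht.le
  rw [h9] at h8
  exact h8

theorem avg_sub {f g : ℂ → ℝ} {z : ℂ} {s : ℝ} (hs : 0 < s) (hf : ContinuousOn f (sphere z s))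
    (hg : ContinuousOn g (sphere z s)) :
    Real.circleAverage (fun x => f x - g x) z s = Real.circleAverage f z s - Real.circleAverage g z s :=
  Real.circleAverage_fun_sub (hf.circleIntegrable hs.le) (hg.circleIntegrable hs.le)

theorem part1 (u : ℂ → ℝ) (c : ℂ) (t R : ℝ) (ht : 0 < t) (htR : t < R) (hu : SubM u (ball c R))
    (w : ℂ) (hw : w ∈ ball c t) : u w ≤ PI u c t w := by
  have hsub : closedBall c t ⊆ ball c R := closedBall_subset_ball htR
  have huc : ContinuousOn u (closedBall c t) := hu.cont.mono hsub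
  have hus : ContinuousOn u (sphere c t) := huc.mono sphere_subset_closedBall
  have hwt : ‖w - c‖ < t := by simpa [dist_eq_norm] using hw
  have hw0 : 0 ≤ ‖w - c‖ := norm_nonneg _
  have hharm := harm u c t ht hus
  -- bound
  obtain ⟨M0, hM0⟩ := (isCompact_closedBall c t).exists_bound_of_continuousOn huc
  have hM00 : 0 ≤ M0 := (norm_nonneg _).trans (hM0 c (mem_closedBall_self ht.le))
  have hM : ∀ ζ ∈ sphere c t, ∀ ξ ∈ sphere c t, |u ζ - u ξ| ≤ 2 * M0 := by
    intro ζ hζ ξ hξ
    have h1 := hM0 ζ (sphere_subset_closedBall hζ)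
    have h2 := hM0 ξ (sphere_subset_closedBall hξ)
    rw [Real.norm_eq_abs] at h1 h2
    rw [abs_le] at h1 h2 ⊢
    constructor <;> linarith [h1.1, h1.2, h2.1, h2.2]
  have huni := (isCompact_closedBall c t).uniformContinuousOn_of_continuous huc
  rw [Metric.uniformContinuousOn_iff_le] at huni
  apply le_of_forall_pos_le_add
  intro ε' hε'
  set ε := ε' / 3 with hεd
  have hε : 0 < ε := by positivity
  obtain ⟨η, hη, hun⟩ := huni ε hε
  set δ : ℝ := min ((t - ‖w - c‖) / 2) (min (η / 4) (ε * η ^ 2 / (16 * (M0 + 1) * t))) with hδ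
  have hδ0 : 0 < δ := by
    rw [hδ]
    apply lt_min
    · linarith
    · apply lt_min
      · linarith
      · positivity
  have hδ1 : δ ≤ (t - ‖w - c‖) / 2 := min_le_left _ _
  have hδ2 : δ ≤ η / 4 := (min_le_right _ _).trans (min_le_left _ _)
  have hδ3 : δ ≤ ε * η ^ 2 / (16 * (M0 + 1) * t) := (min_le_right _ _).trans (min_le_right _ _)
  set t' := t - δ with ht'
  have ht'0 : 0 < t' := by linarith
  have ht't : t' < t := by linarith
  have hwt' : ‖w - c‖ ≤ t' := by linarith
  have hC : 4 * (2 * M0) / η ^ 2 * (t ^ 2 - t' ^ 2) ≤ ε := by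
    have h1 : t ^ 2 - t' ^ 2 ≤ 2 * t * δ := by
      rw [ht']
      nlinarith
    have h2 : 0 ≤ 4 * (2 * M0) / η ^ 2 := by positivity
    have h3 : 16 * (M0 + 1) * t * δ ≤ ε * η ^ 2 := by
      rw [le_div_iff₀ (by positivity)] at hδ3
      linarith
    calc 4 * (2 * M0) / η ^ 2 * (t ^ 2 - t' ^ 2) ≤ 4 * (2 * M0) / η ^ 2 * (2 * t * δ) :=
          mul_le_mul_of_nonneg_left h1 h2
      _ = (16 * M0 * t * δ) / η ^ 2 := by ring
      _ ≤ (ε * η ^ 2) / η ^ 2 := by
          apply div_le_div_of_nonneg_right _ (by positivity)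
          have : 0 ≤ 16 * t * δ := by positivity
          nlinarith
      _ = ε := by field_simp
  have hgc : ContinuousOn (fun z => u z - PI u c t z) (closedBall c t') := by
    apply ContinuousOn.sub
    · exact huc.mono (closedBall_subset_closedBall ht't.le)
    · exact hharm.continuousOn.mono (closedBall_subset_ball ht't)
  have key := mp (F := sphere c t') (isCompact_closedBall c t') hgc (B := 3 * ε) ?_ ?_ w
    (by rw [mem_closedBall, dist_eq_norm]; exact hwt')
  · have : 3 * ε = ε' := by rw [hεd]; ring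
    linarith
  · intro z _ hz
    have hzt : ‖z - c‖ = t' := by simpa [dist_eq_norm] using hz
    set a : ℂ := c + ((t / t' : ℝ) : ℂ) * (z - c) with ha
    have hac : ‖a - c‖ = t := by
      rw [ha, add_sub_cancel_left, norm_mul, Complex.norm_real, Real.norm_eq_abs, abs_of_pos (by positivity), hzt]
      field_simp
    have has : a ∈ sphere c t := by simpa [dist_eq_norm] using hac
    have hza : ‖z - a‖ = δ := by
      have h1 : z - a = ((1 - t / t' : ℝ) : ℂ) * (z - c) := by
        rw [ha]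
        push_cast
        ring
      have h2 : 1 - t / t' ≤ 0 := by
        rw [sub_nonpos, one_le_div ht'0]
        exact ht't.le
      rw [h1, norm_mul, Complex.norm_real, Real.norm_eq_abs, abs_of_nonpos h2, hzt, ht']
      have h3 : t - δ ≠ 0 := by linarith
      field_simp
      ring
    have hzb : z ∈ ball c t := by
      rw [mem_ball, dist_eq_norm, hzt]
      exact ht't
    have h1 := bdry (u := u) (c := c) (t := t) (η := η) (ε := ε) (M := 2 * M0) ht hη hε.le hus hM hzb has
      (by rw [hza]; linarith) (by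
        intro ζ hζ hζa
        have := hun ζ (sphere_subset_closedBall hζ) a (sphere_subset_closedBall has)
          (by rw [dist_eq_norm]; exact hζa.le)
        rwa [Real.dist_eq] at this)
    rw [hzt] at h1
    have h2 : |u z - u a| ≤ ε := by
      have := hun z (ball_subset_closedBall hzb) a (sphere_subset_closedBall has)
        (by rw [dist_eq_norm, hza]; linarith)
      rwa [Real.dist_eq] at this
    rw [abs_le] at h2
    show u z - PI u c t z ≤ 3 * ε
    linarith [h2.2]
  · intro z hz hzF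
    have hzt : ‖z - c‖ < t' := by
      have h1 : ‖z - c‖ ≤ t' := by simpa [dist_eq_norm] using hz
      have h2 : ‖z - c‖ ≠ t' := by
        intro h
        exact hzF (by simpa [dist_eq_norm] using h)
      exact lt_of_le_of_ne h1 h2
    have hs0 : 0 < t' - ‖z - c‖ := by linarith
    have hcb : closedBall z (t' - ‖z - c‖) ⊆ closedBall c t' := by
      apply closedBall_subset_closedBall'
      rw [dist_eq_norm]
      linarith
    have hcb' : closedBall z (t' - ‖z - c‖) ⊆ ball c t := hcb.trans (closedBall_subset_ball ht't)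
    refine ⟨t' - ‖z - c‖, hs0, sphere_subset_closedBall.trans hcb, ?_⟩
    have h1 : u z ≤ Real.circleAverage u z (t' - ‖z - c‖) :=
      hu.sub z _ hs0 (hcb'.trans (ball_subset_closedBall.trans hsub))
    have h2 : Real.circleAverage (PI u c t) z (t' - ‖z - c‖) = PI u c t z := by
      apply InnerProductSpace.HarmonicOnNhd.circleAverage_eq
      rw [abs_of_pos hs0]
      exact hharm.mono hcb'
    rw [avg_sub hs0]
    · rw [h2]
      linarith
    · exact huc.mono (sphere_subset_closedBall.trans (hcb.trans (closedBall_subset_closedBall ht't.le)))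
    · exact hharm.continuousOn.mono (sphere_subset_closedBall.trans hcb')

theorem main : S_POI := by
  refine ⟨?_, ?_, ?_⟩
  · intro u c t R ht htR hu w hw
    exact part1 u c t R ht htR hu w hw
  · intro f c s t hs hst hf
    exact ⟨(harm f c t (hs.trans hst) hf).continuousOn, fun w hw => cons f c s t hs hst hf w hw⟩
  · intro f c t κ ht hκ hκ1 hf hf0 w hw
    exact part3 f c t κ ht hκ hκ1 hf hf0 w hw

end Pool.Agent.Helper65.NC.POI
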