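import Mathlib
import Pool.Agent.Helper65.NC.Stm
import Pool.Agent.Helper65.NC.MP
import Pool.Agent.Helper65.NC.POI

/-!
Circle means of continuous functions with the sub-mean value property: they increase with the radius and are
convex functions of the logarithm of the radius.
-/

set_option autoImplicit false

open Filter Topology Metric Set InnerProductSpace

namespace Pool.Agent.Helper65.NC.MONO

open Pool.Agent.Helper65.NC

theorem PI_centre (f : ℂ → ℝ) (c : ℂ) (t : ℝ) (ht : 0 < t) : PI f c t c = Real.circleAverage f c t := by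
  unfold PI
  apply Real.circleAverage_congr_sphere
  intro ζ hζ
  rw [abs_of_pos ht] at hζ
  have h1 : ‖ζ - c‖ = t := by simpa [dist_eq_norm] using hζ
  simp only [h1, sub_self, norm_zero]
  field_simp
  ring

theorem main : S_MONO := by
  intro u z s t R hs hst htR hu
  rcases hst.eq_or_lt with h | hst
  · rw [h]
  have ht : 0 < t := hs.trans hst
  have hus : ContinuousOn u (sphere z t) :=
    hu.cont.mono (sphere_subset_closedBall.trans (closedBall_subset_ball htR))
  have hharm := POI.harm u z t ht hus
  have hss : sphere z s ⊆ ball z t := sphere_subset_closedBall.trans (closedBall_subset_ball hst)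
  have h1 : Real.circleAverage u z s ≤ Real.circleAverage (PI u z t) z s := by
    apply Real.circleAverage_mono
    · exact (hu.cont.mono (hss.trans (ball_subset_ball htR.le))).circleIntegrable hs.le
    · exact (hharm.continuousOn.mono hss).circleIntegrable hs.le
    · intro x hx
      rw [abs_of_pos hs] at hx
      exact POI.part1 u z t R ht htR hu x (hss hx)
  have h2 : Real.circleAverage (PI u z t) z s = PI u z t z := by
    apply InnerProductSpace.HarmonicOnNhd.circleAverage_eq
    rw [abs_of_pos hs]
    exact hharm.mono (closedBall_subset_ball hst)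
  rw [h2, PI_centre u z t ht] at h1
  exact h1

/-- rotation average -/
theorem rot (u : ℂ → ℝ) (z v : ℂ) :
    Real.circleAverage u z ‖v‖ =
      (2 * Real.pi)⁻¹ * ∫ θ in (0 : ℝ)..2 * Real.pi, u (z + v * Complex.exp (θ * Complex.I)) := by
  rw [Real.circleAverage_eq_integral_add v.arg, smul_eq_mul]
  congr 1
  apply intervalIntegral.integral_congr
  intro θ _
  simp only
  congr 1
  unfold circleMap
  congr 1
  conv_rhs => rw [← Complex.norm_mul_exp_arg_mul_I v]
  rw [mul_assoc, ← Complex.exp_add]
  congr 2
  push_cast
  ring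

/-- Fubini for the rotation average: `v ≠ centre` is allowed to be anything -/
theorem rot_fubini {u : ℂ → ℝ} {z v : ℂ} {r : ℝ} {S : Set ℂ} (hr : 0 ≤ r) (hu : ContinuousOn u S)
    (hS : ∀ a ∈ closedBall v r, ∀ θ : ℝ, z + a * Complex.exp (θ * Complex.I) ∈ S) :
    Real.circleAverage (fun w => Real.circleAverage u z ‖w - z‖) (z + v) r =
      (2 * Real.pi)⁻¹ * ∫ θ in (0 : ℝ)..2 * Real.pi,
        Real.circleAverage u (z + v * Complex.exp (θ * Complex.I)) r := by
  have hmem : ∀ φ : ℝ, v + r * Complex.exp (φ * Complex.I) ∈ closedBall v r := by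
    intro φ
    rw [mem_closedBall, dist_eq_norm, add_sub_cancel_left, norm_mul, Complex.norm_exp_ofReal_mul_I, mul_one,
      Complex.norm_real, Real.norm_eq_abs, abs_of_nonneg hr]
  have hc2 : Continuous (fun p : ℝ × ℝ =>
      u (z + (v + r * Complex.exp (p.1 * Complex.I)) * Complex.exp (p.2 * Complex.I))) := by
    have e1 : Continuous (fun p : ℝ × ℝ =>
      z + (v + r * Complex.exp (p.1 * Complex.I)) * Complex.exp (p.2 * Complex.I)) := by fun_prop
    exact hu.comp_continuous e1 (fun p => hS _ (hmem p.1) p.2)
  have h1 : ∀ θ : ℝ, Real.circleAverage u (z + v * Complex.exp (θ * Complex.I)) r =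
      (2 * Real.pi)⁻¹ * ∫ φ in (0 : ℝ)..2 * Real.pi,
        u (z + (v + r * Complex.exp (φ * Complex.I)) * Complex.exp (θ * Complex.I)) := by
    intro θ
    rw [Real.circleAverage_eq_integral_add θ, smul_eq_mul]
    congr 1
    apply intervalIntegral.integral_congr
    intro φ _
    simp only
    congr 1
    unfold circleMap
    rw [add_mul, mul_assoc (r : ℂ), ← Complex.exp_add]
    push_cast
    rw [add_mul (φ : ℂ)]
    ring
  have h2 : ∀ φ : ℝ, Real.circleAverage u z ‖circleMap (z + v) r φ - z‖ =
      (2 * Real.pi)⁻¹ * ∫ θ in (0 : ℝ)..2 * Real.pi,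
        u (z + (v + r * Complex.exp (φ * Complex.I)) * Complex.exp (θ * Complex.I)) := by
    intro φ
    have : circleMap (z + v) r φ - z = v + r * Complex.exp (φ * Complex.I) := by
      unfold circleMap
      ring
    rw [this, rot]
  rw [Real.circleAverage_def, smul_eq_mul]
  congr 1
  simp_rw [h1, h2]
  rw [intervalIntegral.integral_const_mul, intervalIntegral.integral_const_mul]
  congr 1
  have e2 : MeasureTheory.IntegrableOn (fun p : ℝ × ℝ =>
      u (z + (v + r * Complex.exp (p.1 * Complex.I)) * Complex.exp (p.2 * Complex.I)))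
      (uIcc 0 (2 * Real.pi) ×ˢ uIcc 0 (2 * Real.pi)) :=
    hc2.continuousOn.integrableOn_compact (isCompact_uIcc.prod isCompact_uIcc)
  have e3 := e2.mono_set (prod_mono (uIoc_subset_uIcc (a := 0) (b := 2 * Real.pi))
    (uIoc_subset_uIcc (a := 0) (b := 2 * Real.pi)))
  exact MeasureTheory.intervalIntegral_intervalIntegral_swap (F := fun (φ θ : ℝ) =>
      u (z + (v + r * Complex.exp (φ * Complex.I)) * Complex.exp (θ * Complex.I))) e3

/-- continuity of the rotation average -/
theorem rot_cont {u : ℂ → ℝ} {z : ℂ} {R : ℝ} (hu : ContinuousOn u (ball z R)) :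
    ContinuousOn (fun w => Real.circleAverage u z ‖w - z‖) (ball z R) := by
  have h1 : ContinuousOn (Real.circleAverage u z) (Ico 0 R) := by
    apply Real.ContinuousOn.circleAverage
    · apply hu.mono
      intro a ha
      simp only [mem_ofPred_eq, mem_Ico] at ha
      rw [mem_ball, dist_eq_norm]
      exact ha.2
    · intro r hr
      exact hr.1
  apply h1.comp (by fun_prop)
  intro w hw
  rw [mem_ball, dist_eq_norm] at hw
  exact ⟨norm_nonneg _, hw⟩

theorem avg_log {z w : ℂ} {r : ℝ} (hr : 0 < r) (h : r < ‖w - z‖) (a b : ℝ) :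
    Real.circleAverage (fun x => a + b * Real.log ‖x - z‖) w r = a + b * Real.log ‖w - z‖ := by
  have h1 : HarmonicOnNhd (fun x : ℂ => Real.log ‖x - z‖) (closedBall w |r|) := by
    intro x hx
    rw [abs_of_pos hr, mem_closedBall, dist_eq_norm] at hx
    apply AnalyticAt.harmonicAt_log_norm (f := fun x : ℂ => x - z) (by fun_prop)
    intro h0
    have : x = z := sub_eq_zero.1 h0
    rw [this, norm_sub_rev] at hx
    linarith
  have h2 := InnerProductSpace.HarmonicOnNhd.circleAverage_eq h1
  have h3 : CircleIntegrable (fun x : ℂ => Real.log ‖x - z‖) w r :=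
    (h1.continuousOn.mono sphere_subset_closedBall).circleIntegrable'
  have h4 : CircleIntegrable (fun x : ℂ => b * Real.log ‖x - z‖) w r :=
    (continuousOn_const.mul (h1.continuousOn.mono sphere_subset_closedBall)).circleIntegrable'
  rw [Real.circleAverage_fun_add (continuousOn_const.circleIntegrable hr.le) h4, Real.circleAverage_const]
  have h5 := Real.circleAverage_fun_smul (a := b) (f := fun x : ℂ => Real.log ‖x - z‖) (c := w) (R := r)
  have h6 : Real.circleAverage (fun x : ℂ => b * Real.log ‖x - z‖) w r =
      b * Real.circleAverage (fun x : ℂ => Real.log ‖x - z‖) w r := by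
    simpa using h5
  rw [h6, h2]

/-- circle means over circles around the centre, for radii in the domain, are sub-mean as functions of the plane -/
theorem rot_sub {u : ℂ → ℝ} {z : ℂ} {R : ℝ} (hu : SubM u (ball z R)) {w : ℂ} {r : ℝ} (hr : 0 < r)
    (hw : ‖w - z‖ + r < R) :
    Real.circleAverage u z ‖w - z‖ ≤ Real.circleAverage (fun x => Real.circleAverage u z ‖x - z‖) w r := by
  set v := w - z with hv
  have hwz : w = z + v := by rw [hv]; ring
  have hS : ∀ a ∈ closedBall v r, ∀ θ : ℝ, z + a * Complex.exp (θ * Complex.I) ∈ ball z R := by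
    intro a ha θ
    rw [mem_ball, dist_eq_norm, add_sub_cancel_left, norm_mul, Complex.norm_exp_ofReal_mul_I, mul_one]
    rw [mem_closedBall, dist_eq_norm] at ha
    have : ‖a‖ ≤ ‖a - v‖ + ‖v‖ := by
      have : a = (a - v) + v := by ring
      conv_lhs => rw [this]
      exact norm_add_le _ _
    linarith
  have hcb : ∀ θ : ℝ, closedBall (z + v * Complex.exp (θ * Complex.I)) r ⊆ ball z R := by
    intro θ x hx
    rw [mem_closedBall, dist_eq_norm] at hx
    rw [mem_ball, dist_eq_norm]
    have h1 : x - z = (x - (z + v * Complex.exp (θ * Complex.I))) + v * Complex.exp (θ * Complex.I) := by ring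
    have h2 : ‖x - z‖ ≤ ‖x - (z + v * Complex.exp (θ * Complex.I))‖ + ‖v * Complex.exp (θ * Complex.I)‖ := by
      conv_lhs => rw [h1]
      exact norm_add_le _ _
    rw [norm_mul, Complex.norm_exp_ofReal_mul_I, mul_one] at h2
    linarith
  rw [rot, hwz, rot_fubini hr.le hu.cont hS]
  apply mul_le_mul_of_nonneg_left _ (by positivity)
  apply intervalIntegral.integral_mono_on (by positivity)
  · apply Continuous.intervalIntegrable
    apply hu.cont.comp_continuous (by fun_prop)
    intro θ
    exact hS v (mem_closedBall_self hr.le) θ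
  · apply Continuous.intervalIntegrable
    -- continuity of the average in the centre
    have hmem : ∀ φ : ℝ, ∀ θ : ℝ, z + v * Complex.exp (θ * Complex.I) + r * Complex.exp (φ * Complex.I) ∈ ball z R := by
      intro φ θ
      apply hcb θ
      rw [mem_closedBall, dist_eq_norm, add_sub_cancel_left, norm_mul, Complex.norm_exp_ofReal_mul_I, mul_one,
        Complex.norm_real, Real.norm_eq_abs, abs_of_pos hr]
    have hcont : Continuous (Function.uncurry fun (θ φ : ℝ) =>
        u (z + v * Complex.exp (θ * Complex.I) + r * Complex.exp (φ * Complex.I))) := by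
      apply hu.cont.comp_continuous (by fun_prop)
      intro p
      exact hmem p.2 p.1
    have := intervalIntegral.continuous_parametric_intervalIntegral_of_continuous' (μ := MeasureTheory.volume)
      hcont 0 (2 * Real.pi)
    exact this.const_smul (2 * Real.pi)⁻¹
  · intro θ _
    exact hu.sub _ r hr (hcb θ)

theorem conv : S_CONV := by
  intro u z s R hs hsR hu
  set M : ℝ → ℝ := fun r => Real.circleAverage u z r with hM
  set b : ℝ := (M (4 * s) - M s) / Real.log 4 with hb
  have hlog4 : 0 < Real.log 4 := Real.log_pos (by norm_num)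
  have hlog42 : Real.log 4 = 2 * Real.log 2 := by
    rw [show (4 : ℝ) = 2 ^ 2 by norm_num, Real.log_pow]
    push_cast
    ring
  set a : ℝ := M s - b * Real.log s with ha
  set K : Set ℂ := {w : ℂ | s ≤ ‖w - z‖ ∧ ‖w - z‖ ≤ 4 * s} with hK
  have hKc : IsCompact K := by
    apply (isCompact_closedBall z (4 * s)).of_isClosed_subset
    · have e1 : IsClosed {w : ℂ | s ≤ ‖w - z‖} := isClosed_le continuous_const (by fun_prop)
      have e2 : IsClosed {w : ℂ | ‖w - z‖ ≤ 4 * s} := isClosed_le (by fun_prop) continuous_const
      exact e1.inter e2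
    · intro w hw
      rw [mem_closedBall, dist_eq_norm]
      exact hw.2
  have hKb : K ⊆ ball z R := by
    intro w hw
    rw [mem_ball, dist_eq_norm]
    exact hw.2.trans_lt hsR
  have hgc : ContinuousOn (fun w => M ‖w - z‖ - (a + b * Real.log ‖w - z‖)) K := by
    apply ContinuousOn.sub ((rot_cont hu.cont).mono hKb)
    apply continuousOn_const.add
    apply continuousOn_const.mul
    apply ContinuousOn.log (by fun_prop)
    intro w hw
    have := hw.1
    linarith
  have hb4 : b * Real.log 4 = M (4 * s) - M s := by
    rw [hb]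
    field_simp
  have key := mp (F := {w : ℂ | ‖w - z‖ = s ∨ ‖w - z‖ = 4 * s}) hKc hgc (B := 0) ?_ ?_
    (z + (2 * s : ℝ)) ?_
  · have h2 : ‖z + ((2 * s : ℝ) : ℂ) - z‖ = 2 * s := by
      rw [add_sub_cancel_left, Complex.norm_real, Real.norm_eq_abs, abs_of_pos (by linarith)]
    rw [h2, Real.log_mul (by norm_num) hs.ne', ha] at key
    have h3 : 2 * (b * Real.log 2) = M (4 * s) - M s := by
      rw [← hb4, hlog42]
      ring
    have : M (2 * s) - M s ≤ M (4 * s) - M (2 * s) := by linarith
    exact this
  · intro w _ hw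
    rcases hw with hw | hw
    · simp only [hw]
      rw [ha]
      linarith
    · simp only [hw]
      rw [Real.log_mul (by norm_num) hs.ne', ha]
      linarith
  · intro w hw hwF
    have hw1 : s < ‖w - z‖ := lt_of_le_of_ne hw.1 (fun h => hwF (Or.inl h.symm))
    have hw2 : ‖w - z‖ < 4 * s := lt_of_le_of_ne hw.2 (fun h => hwF (Or.inr h))
    set r := min (‖w - z‖ - s) (4 * s - ‖w - z‖) with hr
    have hr0 : 0 < r := lt_min (by linarith) (by linarith)
    have hr1 : r ≤ ‖w - z‖ - s := min_le_left _ _
    have hr2 : r ≤ 4 * s - ‖w - z‖ := min_le_right _ _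
    have hsK : sphere w r ⊆ K := by
      intro x hx
      have hx' : ‖x - w‖ = r := by simpa [dist_eq_norm] using hx
      constructor
      · have : ‖w - z‖ ≤ ‖x - z‖ + ‖x - w‖ := by
          have : w - z = (x - z) - (x - w) := by ring
          rw [this]
          exact norm_sub_le _ _
        linarith
      · have : ‖x - z‖ ≤ ‖x - w‖ + ‖w - z‖ := by
          have : x - z = (x - w) + (w - z) := by ring
          rw [this]
          exact norm_add_le _ _
        linarith
    refine ⟨r, hr0, hsK, ?_⟩
    have hlogc : ContinuousOn (fun w : ℂ => a + b * Real.log ‖w - z‖) K := by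
      apply continuousOn_const.add
      apply continuousOn_const.mul
      apply ContinuousOn.log (by fun_prop)
      intro w hw
      have := hw.1
      linarith
    rw [POI.avg_sub hr0 (((rot_cont hu.cont).mono hKb).mono hsK) (hlogc.mono hsK), avg_log hr0 (by linarith)]
    have := rot_sub hu (w := w) hr0 (by linarith)
    linarith
  · have h2 : ‖z + ((2 * s : ℝ) : ℂ) - z‖ = 2 * s := by
      rw [add_sub_cancel_left, Complex.norm_real, Real.norm_eq_abs, abs_of_pos (by linarith)]
    exact ⟨by rw [h2]; linarith, by rw [h2]; linarith⟩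

end Pool.Agent.Helper65.NC.MONO
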