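import Pool.Agent.Helper65.NC.Stm

set_option autoImplicit false

open Filter Topology Metric Set

namespace Pool.Agent.Helper65.NC.NEARH

open Pool.Agent.Helper65.NC

/-- radial retraction onto the closed ball -/
noncomputable def ret (T : ℝ) (z : ℂ) : ℂ := ((T / max T ‖z‖ : ℝ) : ℂ) * z

lemma ret_cont {T : ℝ} (hT : 0 < T) : Continuous (ret T) := by
  unfold ret
  refine Continuous.mul (Complex.continuous_ofReal.comp ?_) continuous_id
  refine Continuous.div continuous_const (continuous_const.max continuous_norm) ?_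
  intro z
  exact (lt_of_lt_of_le hT (le_max_left _ _)).ne'

lemma ret_eq {T : ℝ} (hT : 0 < T) {z : ℂ} (hz : ‖z‖ ≤ T) : ret T z = z := by
  unfold ret
  rw [max_eq_left hz, div_self hT.ne']
  simp

lemma ret_mem {T : ℝ} (hT : 0 < T) (z : ℂ) : ret T z ∈ closedBall (0 : ℂ) T := by
  rw [mem_closedBall, dist_zero_right]
  unfold ret
  have h0 : 0 < max T ‖z‖ := lt_of_lt_of_le hT (le_max_left _ _)
  rw [norm_mul, Complex.norm_real, Real.norm_eq_abs, abs_of_nonneg (by positivity), div_mul_eq_mul_div,
    div_le_iff₀ h0]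
  exact mul_le_mul_of_nonneg_left (le_max_right _ _) hT.le

/-- rotation integral -/
noncomputable def A (v : ℂ → ℝ) (z : ℂ) : ℝ :=
  ∫ θ in (0 : ℝ)..(2 * Real.pi), v (Complex.exp (θ * Complex.I) * z)

lemma A_cont {v : ℂ → ℝ} (hv : Continuous v) : Continuous (A v) := by
  unfold A
  apply intervalIntegral.continuous_parametric_intervalIntegral_of_continuous'
  fun_prop

lemma shift {g : ℝ → ℝ} (hg : Function.Periodic g (2 * Real.pi)) (a : ℝ) :
    ∫ θ in (0 : ℝ)..(2 * Real.pi), g (θ + a) = ∫ θ in (0 : ℝ)..(2 * Real.pi), g θ := by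
  rw [intervalIntegral.integral_comp_add_right (fun θ => g θ) a]
  have := hg.intervalIntegral_add_eq a 0
  simp only [zero_add] at this ⊢
  rw [add_comm (2 * Real.pi) a]
  exact this

lemma A_eq (v : ℂ → ℝ) (z : ℂ) :
    A v z = 2 * Real.pi * Real.circleAverage v 0 ‖z‖ := by
  unfold A Real.circleAverage
  rw [smul_eq_mul, ← mul_assoc, mul_inv_cancel₀ (by positivity), one_mul]
  have h1 : ∀ θ : ℝ, v (Complex.exp (θ * Complex.I) * z) = v (circleMap 0 ‖z‖ (θ + Complex.arg z)) := by
    intro θ
    congr 1
    rw [circleMap]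
    push_cast
    rw [zero_add, add_mul, Complex.exp_add]
    conv_lhs => rw [← Complex.norm_mul_exp_arg_mul_I z]
    ring
  simp_rw [h1]
  refine shift (g := fun θ => v (circleMap 0 ‖z‖ θ)) ?_ _
  intro θ
  simp only [periodic_circleMap 0 ‖z‖ θ]

lemma avg_A {v : ℂ → ℝ} (hv : Continuous v) (z : ℂ) (c : ℝ) :
    Real.circleAverage (A v) z c =
      ∫ θ in (0 : ℝ)..(2 * Real.pi), Real.circleAverage v (Complex.exp (θ * Complex.I) * z) c := by
  unfold Real.circleAverage A
  simp only [smul_eq_mul]
  rw [intervalIntegral.integral_const_mul]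
  congr 1
  rw [MeasureTheory.intervalIntegral_intervalIntegral_swap]
  · apply intervalIntegral.integral_congr
    intro θ _
    simp only
    have h1 : ∀ ψ : ℝ, v (Complex.exp (θ * Complex.I) * circleMap z c ψ) =
        v (circleMap (Complex.exp (θ * Complex.I) * z) c (ψ + θ)) := by
      intro ψ
      congr 1
      simp only [circleMap]
      push_cast
      rw [add_mul, Complex.exp_add]
      ring
    simp_rw [h1]
    refine shift (g := fun ψ => v (circleMap (Complex.exp (θ * Complex.I) * z) c ψ)) ?_ _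
    intro ψ
    simp only [periodic_circleMap _ _ ψ]
  · have hc : Continuous (Function.uncurry fun x y : ℝ =>
        v (Complex.exp (y * Complex.I) * circleMap z c x)) := by
      simp only [circleMap]
      fun_prop
    have hk : IsCompact (uIcc (0 : ℝ) (2 * Real.pi) ×ˢ uIcc (0 : ℝ) (2 * Real.pi)) :=
      isCompact_uIcc.prod isCompact_uIcc
    have hi := ContinuousOn.integrableOn_compact (μ := MeasureTheory.volume) hk hc.continuousOn
    exact hi.mono_set (prod_mono uIoc_subset_uIcc uIoc_subset_uIcc)

lemma circ_cont {v : ℂ → ℝ} (hv : Continuous v) (z : ℂ) (c : ℝ) :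
    Continuous fun θ : ℝ => Real.circleAverage v (Complex.exp (θ * Complex.I) * z) c := by
  unfold Real.circleAverage
  simp only [smul_eq_mul]
  refine continuous_const.mul ?_
  apply intervalIntegral.continuous_parametric_intervalIntegral_of_continuous'
  simp only [circleMap]
  fun_prop

lemma avg_mul (a : ℝ) (f : ℂ → ℝ) (z : ℂ) (c : ℝ) :
    Real.circleAverage (fun w => a * f w) z c = a * Real.circleAverage f z c := by
  unfold Real.circleAverage
  rw [intervalIntegral.integral_const_mul, smul_eq_mul, smul_eq_mul]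
  ring

lemma sq_avg (w : ℂ) (c : ℝ) :
    Real.circleAverage (fun z => ‖z‖ ^ 2) w c = ‖w‖ ^ 2 + c ^ 2 := by
  unfold Real.circleAverage
  have h1 : ∀ θ : ℝ, ‖circleMap w c θ‖ ^ 2 =
      (‖w‖ ^ 2 + c ^ 2) + (2 * c * w.re * Real.cos θ + 2 * c * w.im * Real.sin θ) := by
    intro θ
    have hre : (circleMap w c θ).re = w.re + c * Real.cos θ := by
      simp [circleMap, Complex.exp_ofReal_mul_I_re, Complex.exp_ofReal_mul_I_im]
    have him : (circleMap w c θ).im = w.im + c * Real.sin θ := by
      simp [circleMap, Complex.exp_ofReal_mul_I_re, Complex.exp_ofReal_mul_I_im]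
    rw [← Complex.normSq_eq_norm_sq, ← Complex.normSq_eq_norm_sq, Complex.normSq_apply,
      Complex.normSq_apply, hre, him]
    have := Real.sin_sq_add_cos_sq θ
    linear_combination (c ^ 2) * this
  simp_rw [h1]
  generalize ‖w‖ ^ 2 + c ^ 2 = K
  rw [intervalIntegral.integral_add, intervalIntegral.integral_add,
    intervalIntegral.integral_const_mul, intervalIntegral.integral_const_mul, integral_cos,
    integral_sin]
  · simp
    field_simp
  all_goals
    apply Continuous.intervalIntegrable
    fun_prop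

theorem main : S_MONO → S_NEARH := by
  intro hM u R c ε hR hc hε hu hz
  set T : ℝ := R + c with hT
  have hT0 : 0 < T := by positivity
  have hTs : closedBall (0 : ℂ) T ⊆ ball 0 (R + 2 * c) :=
    closedBall_subset_ball (by linarith)
  set v : ℂ → ℝ := fun z => u (ret T z) with hvdef
  have hv : Continuous v := by
    rw [← continuousOn_univ]
    exact hu.cont.comp (ret_cont hT0).continuousOn (fun z _ => hTs (ret_mem hT0 z))
  have hvu : ∀ z : ℂ, ‖z‖ ≤ T → v z = u z := fun z hz => by
    simp only [hvdef, ret_eq hT0 hz]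
  have hpi : 0 < 2 * Real.pi := by positivity
  set k : ℝ := ε / c ^ 2 with hk
  have hkc : k * c ^ 2 = ε := by rw [hk]; field_simp
  have hk0 : 0 ≤ k := by positivity
  set W : ℂ → ℝ := fun z => (2 * Real.pi)⁻¹ * A v z - k * ‖z‖ ^ 2 with hW
  have hWc : Continuous W := by
    have := A_cont hv
    simp only [hW]
    fun_prop
  have hWv : ∀ z, W z = Real.circleAverage v 0 ‖z‖ - k * ‖z‖ ^ 2 := by
    intro z
    simp only [hW, A_eq]
    field_simp
  have hWr : ∀ z, W z = W ((‖z‖ : ℝ) : ℂ) := by
    intro z
    rw [hWv, hWv]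
    simp
  -- super mean value property
  have hsup : ∀ z : ℂ, ‖z‖ ≤ R → Real.circleAverage W z c ≤ W z := by
    intro z hzR
    have e1 : Real.circleAverage W z c =
        (2 * Real.pi)⁻¹ * Real.circleAverage (A v) z c - k * (‖z‖ ^ 2 + c ^ 2) := by
      rw [← sq_avg z c]
      have i1 : CircleIntegrable (fun z => (2 * Real.pi)⁻¹ * A v z) z c :=
        (continuous_const.mul (A_cont hv)).continuousOn.circleIntegrable'
      have i2 : CircleIntegrable (fun z : ℂ => k * ‖z‖ ^ 2) z c :=
        (continuous_const.mul (continuous_norm.pow 2)).continuousOn.circleIntegrable'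
      simp only [hW]
      rw [Real.circleAverage_fun_sub i1 i2]
      congr 1
      · exact avg_mul _ _ _ _
      · exact avg_mul _ _ _ _
    have e2 : Real.circleAverage (A v) z c ≤ A v z + 2 * Real.pi * ε := by
      rw [avg_A hv]
      have e3 : A v z + 2 * Real.pi * ε =
          ∫ θ in (0 : ℝ)..(2 * Real.pi), (v (Complex.exp (θ * Complex.I) * z) + ε) := by
        rw [intervalIntegral.integral_add]
        · simp [A]
        · apply Continuous.intervalIntegrable
          fun_prop
        · exact intervalIntegrable_const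
      rw [e3]
      apply intervalIntegral.integral_mono_on hpi.le
      · exact (circ_cont hv z c).intervalIntegrable _ _
      · apply Continuous.intervalIntegrable
        fun_prop
      · intro θ _
        have hn : ‖Complex.exp (θ * Complex.I) * z‖ = ‖z‖ := by
          rw [norm_mul, Complex.norm_exp_ofReal_mul_I, one_mul]
        set w := Complex.exp (θ * Complex.I) * z with hw
        have e4 : Real.circleAverage v w c = Real.circleAverage u w c := by
          apply Real.circleAverage_congr_sphere
          intro y hy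
          apply hvu
          rw [abs_of_pos hc, mem_sphere, dist_eq_norm] at hy
          calc ‖y‖ = ‖w + (y - w)‖ := by ring_nf
            _ ≤ ‖w‖ + ‖y - w‖ := norm_add_le _ _
            _ ≤ R + c := by rw [hn, hy]; linarith
        rw [e4, hvu w (by rw [hn]; linarith)]
        exact hz w (by rw [mem_closedBall, dist_zero_right, hn]; exact hzR)
    rw [e1]
    have e5 : (2 * Real.pi)⁻¹ * Real.circleAverage (A v) z c ≤ (2 * Real.pi)⁻¹ * A v z + ε := by
      calc (2 * Real.pi)⁻¹ * Real.circleAverage (A v) z c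
          ≤ (2 * Real.pi)⁻¹ * (A v z + 2 * Real.pi * ε) :=
            mul_le_mul_of_nonneg_left e2 (by positivity)
        _ = (2 * Real.pi)⁻¹ * A v z + ε := by field_simp
    simp only [hW]
    nlinarith [hkc]
  -- the largest minimiser
  have hwc : Continuous fun r : ℝ => W (r : ℂ) := hWc.comp Complex.continuous_ofReal
  obtain ⟨r1, hr1, hmin⟩ := (isCompact_Icc (a := (0 : ℝ)) (b := T)).exists_isMinOn
    ⟨0, ⟨le_refl _, hT0.le⟩⟩ hwc.continuousOn
  have hScl : IsCompact (Icc (0 : ℝ) T ∩ {r : ℝ | W (r : ℂ) ≤ W (r1 : ℂ)}) :=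
    isCompact_Icc.inter_right (isClosed_le hwc continuous_const)
  obtain ⟨r, ⟨⟨hr0, hrT⟩, hrW⟩, hrmax⟩ := hScl.exists_isGreatest
    ⟨r1, hr1, (le_refl (W (r1 : ℂ)) :)⟩
  have hmin' : ∀ z : ℂ, ‖z‖ ≤ T → W (r : ℂ) ≤ W z := by
    intro z hzT
    rw [hWr z]
    exact le_trans hrW (hmin ⟨norm_nonneg _, hzT⟩)
  have hrR : R < r := by
    by_contra hcon
    push Not at hcon
    have h1 := hsup (r : ℂ) (by rw [Complex.norm_real, Real.norm_eq_abs, abs_of_nonneg hr0]; exact hcon)
    have hin : ∀ θ : ℝ, ‖circleMap (r : ℂ) c θ‖ ≤ T := by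
      intro θ
      calc ‖circleMap (r : ℂ) c θ‖ ≤ ‖(r : ℂ)‖ + ‖(c : ℂ) * Complex.exp (θ * Complex.I)‖ :=
            norm_add_le _ _
        _ = r + c := by
            rw [norm_mul, Complex.norm_exp_ofReal_mul_I, Complex.norm_real, Complex.norm_real,
              Real.norm_eq_abs, Real.norm_eq_abs, abs_of_nonneg hr0, abs_of_pos hc, mul_one]
        _ ≤ T := by linarith
    have h0 : circleMap (r : ℂ) c 0 = ((r + c : ℝ) : ℂ) := by
      simp [circleMap]
    have h2 : W (r : ℂ) < W (circleMap (r : ℂ) c 0) := by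
      by_contra hcon2
      push Not at hcon2
      have h3 : r + c ≤ r := by
        apply hrmax
        refine ⟨⟨by positivity, by linarith⟩, ?_⟩
        rw [h0] at hcon2
        exact le_trans hcon2 hrW
      linarith
    have h4 : ∫ θ in (0 : ℝ)..(2 * Real.pi), W (r : ℂ) <
        ∫ θ in (0 : ℝ)..(2 * Real.pi), W (circleMap (r : ℂ) c θ) := by
      apply intervalIntegral.integral_lt_integral_of_continuousOn_of_le_of_exists_lt hpi
      · exact continuousOn_const
      · exact (hWc.comp (continuous_circleMap _ _)).continuousOn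
      · intro θ _
        exact hmin' _ (hin θ)
      · exact ⟨0, ⟨le_refl _, hpi.le⟩, h2⟩
    have h5 : W (r : ℂ) < Real.circleAverage W (r : ℂ) c := by
      unfold Real.circleAverage
      rw [smul_eq_mul]
      rw [intervalIntegral.integral_const, smul_eq_mul, sub_zero] at h4
      calc W (r : ℂ) = (2 * Real.pi)⁻¹ * (2 * Real.pi * W (r : ℂ)) := by field_simp
        _ < _ := mul_lt_mul_of_pos_left h4 (by positivity)
    linarith
  -- conclusion
  have h0 : W 0 = u 0 := by
    rw [hWv]
    simp [hvu 0 (by simpa using hT0.le)]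
  have h1 : W (r : ℂ) = Real.circleAverage u 0 r - k * r ^ 2 := by
    rw [hWv, Complex.norm_real, Real.norm_eq_abs, abs_of_nonneg hr0]
    congr 1
    apply Real.circleAverage_congr_sphere
    intro y hy
    apply hvu
    rw [abs_of_nonneg hr0, mem_sphere, dist_zero_right] at hy
    linarith
  have h2 := hmin' 0 (by simpa using hT0.le)
  have h3 := hM u 0 R r (R + 2 * c) hR hrR.le (by linarith) hu
  have h4 : k * r ^ 2 ≤ ε * ((R + c) ^ 2 / c ^ 2) := by
    have : ε * ((R + c) ^ 2 / c ^ 2) = k * T ^ 2 := by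
      rw [hk, hT]; ring
    rw [this]
    have : r ^ 2 ≤ T ^ 2 := by nlinarith
    exact mul_le_mul_of_nonneg_left this hk0
  linarith

end Pool.Agent.Helper65.NC.NEARH
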