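import Pool.Agent.Helper65.NC.Stm2

set_option autoImplicit false

open Filter Topology Metric MvPolynomial Set

namespace Pool.Agent.Helper65.NC.NH

open Pool.Agent.W602.GT Pool.Agent.N155.BB Pool.Agent.Y190.OP Pool.Agent.N155
  Pool.Agent.N155.GD Pool.Agent.Helper65.BF Pool.Agent.Helper65.GG Pool.Agent.Helper65.NC

theorem main : S_NEARH → S_NHL → S_NH := by
  intro hN hL n T Z ρ κ' η hρ hT hTP hND hR
  obtain ⟨c, hc, hc1, hL'⟩ := hL n T Z ρ κ' η hρ hT hTP hND hR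
  obtain ⟨R3, hR3, hL3⟩ := hL' (c ^ 2 / 40) (by positivity)
  refine ⟨max R3 8, lt_max_of_lt_left hR3, ?_⟩
  intro φ R hR4 hφ hb
  have h3 : R3 ≤ R := (le_max_left _ _).trans hR4
  have h8 : 8 ≤ R := (le_max_right _ _).trans hR4
  have hR0 : 0 < R := by linarith
  have h1 := hL3 φ R h3 hφ hb
  have hsub : SubM (lg 2 (ρ φ)) (ball 0 (R / 8 + 2 * c)) :=
    hρ.sub φ _ isOpen_ball (hφ.mono (ball_subset_ball (by linarith))) 2
  have h2 := hN (lg 2 (ρ φ)) (R / 8) c (c ^ 2 / 40 / R ^ 2) (by positivity) hc (by positivity) hsub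
    (fun z hz => h1 z (by rw [mem_closedBall, dist_zero_right] at hz; linarith))
  refine h2.trans ?_
  have h4 : (R / 8 + c) ^ 2 ≤ R ^ 2 := by
    have : R / 8 + c ≤ R := by linarith
    exact pow_le_pow_left₀ (by positivity) this 2
  have h5 : c ^ 2 / 40 / R ^ 2 * ((R / 8 + c) ^ 2 / c ^ 2) ≤ 1 / 40 := by
    calc c ^ 2 / 40 / R ^ 2 * ((R / 8 + c) ^ 2 / c ^ 2)
        ≤ c ^ 2 / 40 / R ^ 2 * (R ^ 2 / c ^ 2) := by gcongr
      _ = 1 / 40 := by field_simp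
  linarith

end Pool.Agent.Helper65.NC.NH
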