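import Pool.Agent.Helper65.NC.Stm2

/-!
The logarithm of the length of a curve of bounded distortion is nearly harmonic (module NHL).
-/

set_option autoImplicit false

open Filter Topology Metric MvPolynomial Set

namespace Pool.Agent.Helper65.NC.NHL

open Pool.Agent.W602.GT Pool.Agent.N155.BB Pool.Agent.Y190.OP Pool.Agent.N155
  Pool.Agent.N155.GD Pool.Agent.Helper65.BF Pool.Agent.Helper65.GG Pool.Agent.Helper65.NC

variable {n : ℕ} {T : Set (Mat (n + 1))} {ρ : (ℂ → Mat (n + 1)) → ℂ → ℝ}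

/-- the length in an affine parameter -/
theorem rho_aff (hJ : JR T ρ) {φ : ℂ → Mat (n + 1)} {U : Set ℂ} (hU : IsOpen U)
    (hφ : CvOn T U φ) {a : ℂ} {s : ℝ} (hs : 0 ≤ s) {z : ℂ} (hz : aff a s z ∈ U) :
    ρ (fun w => φ (aff a s w)) z = s * ρ φ (aff a s z) := by
  have h := hJ.comp φ U hU hφ (aff a s ⁻¹' U) (aff a s) (hU.preimage (aff_diff a s).continuous)
    (aff_diff a s).differentiableOn (fun w hw => hw) z hz
  rw [h, deriv_aff, Complex.norm_real, Real.norm_of_nonneg hs]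

theorem fderiv_comp_le {Q : ℂ → Mat (n + 1)} {k : ℂ → ℂ} {w : ℂ}
    (hQ : DifferentiableAt ℝ Q (k w)) (hk : DifferentiableAt ℂ k w) :
    ‖fderiv ℝ (fun w => Q (k w)) w‖ ≤ ‖fderiv ℝ Q (k w)‖ * ‖deriv k w‖ := by
  have h1 : HasFDerivAt k ((fderiv ℂ k w).restrictScalars ℝ) w :=
    hk.hasFDerivAt.restrictScalars ℝ
  have h2 := (hQ.hasFDerivAt.comp w h1).fderiv
  have h3 : fderiv ℝ (fun w => Q (k w)) w =
      (fderiv ℝ Q (k w)).comp ((fderiv ℂ k w).restrictScalars ℝ) := h2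
  rw [h3, norm_deriv_eq_norm_fderiv, ← ContinuousLinearMap.norm_restrictScalars (𝕜' := ℝ)]
  exact ContinuousLinearMap.opNorm_comp_le _ _

/-- the Hölder estimate on a disc of radius `d` -/
theorem hold_scaled (hJ : JR T ρ) : ∃ C α : ℝ, 0 ≤ C ∧ 0 < α ∧
    ∀ (φ ψ : ℂ → Mat (n + 1)) (z : ℂ) (d ε : ℝ), 0 < d → CvOn T (ball z d) φ →
      CvOn T (ball z d) ψ → (∀ w ∈ ball z d, d * ‖fderiv ℝ φ w‖ ≤ 2) →
      (∀ w ∈ ball z d, d * ‖fderiv ℝ ψ w‖ ≤ 2) → (∀ w ∈ ball z d, ‖φ w - ψ w‖ ≤ ε) →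
        d * |ρ φ z - ρ ψ z| ≤ C * ε ^ α := by
  obtain ⟨C, α, hC, hα, h⟩ := hJ.hold
  refine ⟨C, α, hC, hα, ?_⟩
  intro φ ψ z d ε hd hφ hψ h1 h2 h3
  have hmap : MapsTo (aff z d) (ball 0 1) (ball z d) := by
    intro w hw
    rw [mem_ball_zero_iff] at hw
    rw [mem_ball, dist_eq_norm]
    unfold aff
    rw [add_sub_cancel_left, norm_mul, Complex.norm_real, Real.norm_of_nonneg hd.le]
    nlinarith
  have h0 : aff z d 0 = z := by simp [aff]
  have key := h (fun w => φ (aff z d w)) (fun w => ψ (aff z d w)) 0 ε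
    (hφ.comp isOpen_ball (aff_diff z d).differentiableOn hmap)
    (hψ.comp isOpen_ball (aff_diff z d).differentiableOn hmap)
    (fun w hw => by
      rw [norm_fderiv_aff hd.le (hφ.1.differentiableAt (hmap hw))]
      exact h1 _ (hmap hw))
    (fun w hw => by
      rw [norm_fderiv_aff hd.le (hψ.1.differentiableAt (hmap hw))]
      exact h2 _ (hmap hw))
    (fun w hw => h3 _ (hmap hw))
  have hz : aff z d 0 ∈ ball z d := by
    rw [h0]
    exact mem_ball_self hd
  rw [rho_aff hJ isOpen_ball hφ hd.le hz, rho_aff hJ isOpen_ball hψ hd.le hz, h0, ← mul_sub,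
    abs_mul, abs_of_pos hd] at key
  exact key

/-- the derivative of a bounded function -/
theorem deriv_bd {k : ℂ → ℂ} {z0 b : ℂ} {c : ℝ} (hc : 0 < c)
    (hk : DifferentiableOn ℂ k (ball z0 c)) (hb : ∀ z ∈ ball z0 c, ‖k z - b‖ ≤ 1) {w : ℂ}
    (hw : ‖w - z0‖ < 3 / 4 * c) : ‖deriv k w‖ ≤ 4 / c := by
  have hsub : closedBall w (c / 4) ⊆ ball z0 c := by
    intro x hx
    rw [mem_closedBall, dist_eq_norm] at hx
    rw [mem_ball, dist_eq_norm]
    have := norm_add_le (x - w) (w - z0)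
    rw [sub_add_sub_cancel] at this
    linarith
  have h1 : DiffContOnCl ℂ (fun x => k x - b) (ball w (c / 4)) :=
    DifferentiableOn.diffContOnCl_ball (hk.sub_const b) hsub
  have h2 := Complex.norm_deriv_le_of_forall_mem_sphere_norm_le (by positivity) h1
    (fun z hz => hb z (hsub (sphere_subset_closedBall hz)))
  rw [deriv_sub_const] at h2
  refine h2.trans (le_of_eq ?_)
  field_simp

theorem log_close {a b m τ : ℝ} (hm : 0 < m) (hb : m ≤ b) (ha : 0 < a) (h : a - b ≤ τ)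
    (hτ : 0 ≤ τ) : Real.log a ≤ Real.log b + τ / m := by
  have hb0 : 0 < b := by linarith
  have h1 := Real.log_le_sub_one_of_pos (div_pos ha hb0)
  rw [Real.log_div ha.ne' hb0.ne'] at h1
  have h2 : a / b - 1 = (a - b) / b := by
    field_simp
  have h3 : (a - b) / b ≤ τ / m := by
    calc (a - b) / b ≤ τ / b := by gcongr
      _ ≤ τ / m := by gcongr
  linarith

/-- functions which are close to the modulus of a holomorphic function without zeros -/
theorem near_harm {f : ℂ → ℝ} {g : ℂ → ℂ} {z0 : ℂ} {r m q τ : ℝ} (hr : 0 < r) (hm : 0 < m)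
    (hf : ContinuousOn f (closedBall z0 r)) (hg : AnalyticOnNhd ℂ g (closedBall z0 r))
    (hq : 0 ≤ q) (hτ : 0 ≤ τ) (hτm : τ ≤ m) (hfm : ∀ z ∈ closedBall z0 r, 2 * m ≤ f z)
    (hfg : ∀ z ∈ closedBall z0 r, |f z - ‖g z‖ * q| ≤ τ) :
    Real.circleAverage (fun z => Real.log (f z)) z0 r ≤ Real.log (f z0) + 2 * τ / m := by
  have hz0 : z0 ∈ closedBall z0 r := mem_closedBall_self hr.le
  have hgq : ∀ z ∈ closedBall z0 r, m ≤ ‖g z‖ * q := by
    intro z hz
    have h1 := hfm z hz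
    have h2 := (abs_le.mp (hfg z hz)).2
    linarith
  have hq0 : 0 < q := by
    rcases hq.lt_or_eq with h | h
    · exact h
    · have := hgq z0 hz0
      rw [← h, mul_zero] at this
      linarith
  have hgne : ∀ z ∈ closedBall z0 r, g z ≠ 0 := by
    intro z hz h0
    have := hgq z hz
    rw [h0, norm_zero, zero_mul] at this
    linarith
  have hgpos : ∀ z ∈ closedBall z0 r, 0 < ‖g z‖ := fun z hz => norm_pos_iff.mpr (hgne z hz)
  have habs : |r| = r := abs_of_pos hr
  have hharm : Real.circleAverage (fun z => Real.log ‖g z‖) z0 r = Real.log ‖g z0‖ :=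
    AnalyticOnNhd.circleAverage_log_norm_of_ne_zero (by rw [habs]; exact hg)
      (by rw [habs]; exact hgne)
  have hci : CircleIntegrable (fun z => Real.log ‖g z‖) z0 r := by
    apply ContinuousOn.circleIntegrable hr.le
    intro z hz
    have hz' := sphere_subset_closedBall hz
    exact ((hg z hz').continuousAt.norm.log (hgpos z hz').ne').continuousWithinAt
  have hcf : CircleIntegrable (fun z => Real.log (f z)) z0 r := by
    apply ContinuousOn.circleIntegrable hr.le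
    have h1 : ContinuousOn f (sphere z0 r) := hf.mono sphere_subset_closedBall
    exact h1.log fun z hz => by
      have := hfm z (sphere_subset_closedBall hz)
      linarith
  have hcc : CircleIntegrable (fun z => Real.log ‖g z‖ + (Real.log q + τ / m)) z0 r :=
    hci.add (circleIntegrable_const _ _ _)
  have h1 : Real.circleAverage (fun z => Real.log (f z)) z0 r ≤
      Real.circleAverage (fun z => Real.log ‖g z‖ + (Real.log q + τ / m)) z0 r := by
    apply Real.circleAverage_mono hcf hcc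
    intro z hz
    rw [habs] at hz
    have hz' := sphere_subset_closedBall hz
    have h2 := log_close hm (hgq z hz') (a := f z) (by
      have := hfm z hz'
      linarith) (abs_le.mp (hfg z hz')).2 hτ
    rw [Real.log_mul (hgpos z hz').ne' hq0.ne'] at h2
    linarith
  have h2 : Real.circleAverage (fun z => Real.log ‖g z‖ + (Real.log q + τ / m)) z0 r =
      Real.log ‖g z0‖ + (Real.log q + τ / m) := by
    rw [Real.circleAverage_fun_add hci (circleIntegrable_const _ _ _), hharm,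
      Real.circleAverage_const]
  have h3 := log_close hm (b := f z0) (a := ‖g z0‖ * q) (τ := τ) (by
    have := hfm z0 hz0
    linarith) (by
    have := hgq z0 hz0
    linarith) (by
    have := (abs_le.mp (hfg z0 hz0)).1
    linarith) hτ
  rw [Real.log_mul (hgpos z0 hz0).ne' hq0.ne'] at h3
  have h4 : 2 * τ / m = τ / m + τ / m := by ring
  rw [h4]
  linarith

/-- a Gaussian is eventually small -/
theorem gauss {a K η : ℝ} (ha : 0 < a) (hK : 0 ≤ K) (hη : 0 < η) : ∃ R3 : ℝ, 4 ≤ R3 ∧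
    ∀ R : ℝ, R3 ≤ R → K * Real.exp (-(a * (R - 2) ^ 2)) ≤ η / R ^ 2 := by
  refine ⟨4 + 32 * K / (a ^ 2 * η), by
    have : 0 ≤ 32 * K / (a ^ 2 * η) := by positivity
    linarith, ?_⟩
  intro R hR
  have hX : 0 ≤ 32 * K / (a ^ 2 * η) := by positivity
  have hR4 : 4 ≤ R := by linarith
  have hR0 : 0 < R := by linarith
  have h1 : R ^ 2 / 4 ≤ (R - 2) ^ 2 := by nlinarith
  set y := a * (R ^ 2 / 4) with hy
  have hy0 : 0 < y := by positivity
  have h2 : Real.exp (-(a * (R - 2) ^ 2)) ≤ Real.exp (-y) := by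
    apply Real.exp_le_exp.mpr
    rw [hy]
    have := mul_le_mul_of_nonneg_left h1 ha.le
    linarith
  have h3 : Real.exp (-y) ≤ 2 / y ^ 2 := by
    rw [Real.exp_neg, inv_eq_one_div, div_le_div_iff₀ (Real.exp_pos _) (by positivity)]
    have := Real.quadratic_le_exp_of_nonneg hy0.le
    nlinarith
  have h4 : 32 * K / (a ^ 2 * η) ≤ R ^ 2 := by nlinarith
  rw [div_le_iff₀ (by positivity)] at h4
  calc K * Real.exp (-(a * (R - 2) ^ 2)) ≤ K * (2 / y ^ 2) := by
        gcongr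
        exact h2.trans h3
    _ = (32 * K) / (a ^ 2 * R ^ 4) := by
        rw [hy]
        field_simp
        ring
    _ ≤ (R ^ 2 * (a ^ 2 * η)) / (a ^ 2 * R ^ 4) := by gcongr
    _ = η / R ^ 2 := by
        field_simp

/-- circle means in an affine parameter -/
theorem avg_aff (g : ℂ → ℝ) (s : ℝ) (z0 : ℂ) (r : ℝ) :
    Real.circleAverage (fun w => g (aff 0 s w)) z0 r =
      Real.circleAverage g (aff 0 s z0) (s * r) := by
  rw [Real.circleAverage_def, Real.circleAverage_def]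
  congr 1
  apply intervalIntegral.integral_congr
  intro θ _
  show g (aff 0 s (circleMap z0 r θ)) = g (circleMap (aff 0 s z0) (s * r) θ)
  congr 1
  unfold aff circleMap
  push_cast
  ring

/-- near a point the length is close to the modulus of a holomorphic function -/
theorem loc (hJ : JR T ρ) (hCST : S_CST) {c0 C c3 : ℝ} (hC : 0 < C) (hc3 : 0 < c3)
    (hc31 : c3 ≤ 1) : ∃ K α : ℝ, 0 ≤ K ∧ 0 < α ∧
    ∀ (P Q : ℂ → Mat (n + 1)) (k : ℂ → ℂ) (z0 b : ℂ) (e : ℝ), CvOn T (ball z0 1) P →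
      (∀ w ∈ ball z0 1, ‖fderiv ℝ P w‖ ≤ 2) → BCw T c0 Q → 0 < e →
      DifferentiableOn ℂ k (ball z0 c3) →
      (∀ z ∈ ball z0 c3, ‖P z - Q (k z)‖ ≤ C * e ∧ ‖k z - b‖ ≤ 1) →
      ∃ q : ℝ, 0 ≤ q ∧ ∀ z, ‖z - z0‖ ≤ c3 / 2 → |ρ P z - ‖deriv k z‖ * q| ≤ K * e ^ α := by
  obtain ⟨C', α, hC', hα, hold⟩ := hold_scaled hJ
  refine ⟨C' * C ^ α / (c3 / 4), α, by positivity, hα, ?_⟩
  intro P Q k z0 b e hP hPd hQ he hk hPQ
  refine ⟨ρ Q 0, hJ.nonneg _ _, ?_⟩
  intro z hz
  have hd : 0 < c3 / 4 := by positivity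
  have hin : ∀ w ∈ ball z (c3 / 4), ‖w - z0‖ < 3 / 4 * c3 := by
    intro w hw
    rw [mem_ball, dist_eq_norm] at hw
    have := norm_add_le (w - z) (z - z0)
    rw [sub_add_sub_cancel] at this
    linarith
  have hsub : ball z (c3 / 4) ⊆ ball z0 c3 := by
    intro w hw
    rw [mem_ball, dist_eq_norm]
    have := hin w hw
    linarith
  have hsub1 : ball z (c3 / 4) ⊆ ball z0 1 := hsub.trans (ball_subset_ball hc31)
  have hQc : CvOn T univ Q := ⟨hQ.hol, fun w _ => hQ.mem w⟩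
  have hQk : CvOn T (ball z0 c3) (fun w => Q (k w)) :=
    hQc.comp isOpen_ball hk (mapsTo_univ _ _)
  have hzin : z ∈ ball z0 c3 := hsub (mem_ball_self hd)
  have h1 := hold P (fun w => Q (k w)) z (c3 / 4) (C * e) hd (hP.mono hsub1) (hQk.mono hsub)
    (fun w hw => by
      have h := hPd w (hsub1 hw)
      have h0 := norm_nonneg (fderiv ℝ P w)
      nlinarith)
    (fun w hw => by
      have hkd : DifferentiableAt ℂ k w := (hk w (hsub hw)).differentiableAt
        (isOpen_ball.mem_nhds (hsub hw))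
      have h := fderiv_comp_le (hQ.hol.differentiableAt (mem_univ (k w))) hkd
      have hb := deriv_bd hc3 hk (fun z hz => (hPQ z hz).2) (hin w hw)
      have h2 := hQ.bd (k w)
      calc c3 / 4 * ‖fderiv ℝ (fun w => Q (k w)) w‖ ≤
          c3 / 4 * (‖fderiv ℝ Q (k w)‖ * ‖deriv k w‖) := by gcongr
        _ ≤ c3 / 4 * (2 * (4 / c3)) := by gcongr
        _ = 2 := by field_simp)
    (fun w hw => (hPQ w (hsub hw)).1)
  have h2 : ρ (fun w => Q (k w)) z = ‖deriv k z‖ * ρ Q 0 := by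
    rw [hJ.comp Q univ isOpen_univ hQc (ball z0 c3) k isOpen_ball hk (mapsTo_univ _ _) z hzin,
      hCST n T ρ hJ Q ⟨hQ.hol, hQ.mem, hQ.bd⟩ (k z) 0]
  rw [h2, Real.mul_rpow hC.le he.le] at h1
  rw [div_mul_eq_mul_div, le_div_iff₀ hd]
  calc |ρ P z - ‖deriv k z‖ * ρ Q 0| * (c3 / 4) = c3 / 4 * |ρ P z - ‖deriv k z‖ * ρ Q 0| := by
        ring
    _ ≤ C' * (C ^ α * e ^ α) := h1
    _ = _ := by ring

set_option maxHeartbeats 1000000 in
theorem main : S_CST → S_TWO → S_TRK → S_LIFT → S_NHL := by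
  intro hCST hTWO hTRK hLIFT n T Z ρ κ' η hJ hT hTP hND hR
  obtain ⟨c1, C1, hc1, hC1, htwo⟩ := hTWO n T ρ hJ hT hTP hND
  set s : ℝ := 2 / C1 with hs
  have hs0 : 0 < s := by positivity
  set c0 : ℝ := s * c1 with hc0
  have hc0p : 0 < c0 := by positivity
  obtain ⟨R0, κ, L, δ, hR0, hκ, hL, hδ, htrk⟩ := hTRK (n + 1) T Z c0 (BCw T c0) (Dw T c0) κ' η
    hR.1 (hR.2 c0 hc0p) (dcl_of hT hTP hc0p)
  obtain ⟨C, c3, e0, hC, hc3, hc31, he0, hlift⟩ := hLIFT n T c0 L δ hT hTP hc0p hL hδ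
  obtain ⟨K, α, hK, hα, hloc⟩ := loc hJ hCST (c0 := c0) hC hc3 hc31
  -- the constants
  set r : ℝ := min (c3 / 2) (1 / s) with hr
  have hr0 : 0 < r := by
    rw [hr]
    exact lt_min (by positivity) (by positivity)
  have hrc : r ≤ c3 / 2 := min_le_left _ _
  have hrs : s * r ≤ 1 := by
    have h1 : r ≤ 1 / s := min_le_right _ _
    calc s * r ≤ s * (1 / s) := by gcongr
      _ = 1 := by field_simp
  refine ⟨s * r, by positivity, hrs, ?_⟩
  intro e he
  set m : ℝ := s / 8 with hm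
  have hm0 : 0 < m := by positivity
  set ε : ℝ := min e 1 with hε
  have hε0 : 0 < ε := lt_min he one_pos
  have hεe : ε ≤ e := min_le_left _ _
  have hε1 : ε ≤ 1 := min_le_right _ _
  obtain ⟨Ra, hRa4, hRa⟩ := gauss (a := κ / s ^ 2) (K := 1) (η := e0) (by positivity) zero_le_one
    he0
  obtain ⟨Rb, hRb4, hRb⟩ := gauss (a := κ / s ^ 2 * α) (K := K) (η := ε * m / 2) (by positivity)
    hK (by positivity)
  refine ⟨max (max Ra Rb) (max (s * R0 + 2) (4 + 2 * s)), by
    have : Ra ≤ max (max Ra Rb) (max (s * R0 + 2) (4 + 2 * s)) :=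
      (le_max_left _ _).trans (le_max_left _ _)
    linarith, ?_⟩
  intro φ R hR3 hφ hφρ z hz
  have g1 : Ra ≤ R := ((le_max_left _ _).trans (le_max_left _ _)).trans hR3
  have g2 : Rb ≤ R := ((le_max_right _ _).trans (le_max_left _ _)).trans hR3
  have g3 : s * R0 + 2 ≤ R := ((le_max_left _ _).trans (le_max_right _ _)).trans hR3
  have g4 : 4 + 2 * s ≤ R := ((le_max_right _ _).trans (le_max_right _ _)).trans hR3
  have hR4 : 4 ≤ R := by linarith
  -- the rescaled curve
  set R' : ℝ := (R - 2) / s with hR'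
  have hsR' : s * R' = R - 2 := by
    rw [hR']
    field_simp
  have hR'0 : R0 ≤ R' := by
    rw [hR', le_div_iff₀ hs0]
    linarith
  set P : ℂ → Mat (n + 1) := fun w => φ (aff 0 s w) with hP
  have haffn : ∀ w : ℂ, ‖aff 0 s w‖ = s * ‖w‖ := by
    intro w
    unfold aff
    rw [zero_add, norm_mul, Complex.norm_real, Real.norm_of_nonneg hs0.le]
  have hmaps : ∀ w ∈ ball (0 : ℂ) R', ball (aff 0 s w) 2 ⊆ ball (0 : ℂ) R := by
    intro w hw x hx
    rw [mem_ball_zero_iff] at hw ⊢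
    rw [mem_ball, dist_eq_norm] at hx
    have h1 := norm_add_le (x - aff 0 s w) (aff 0 s w)
    rw [sub_add_cancel, haffn] at h1
    have h2 : s * ‖w‖ < s * R' := by gcongr
    rw [hsR'] at h2
    linarith
  have hmem : ∀ w ∈ ball (0 : ℂ) R', aff 0 s w ∈ ball (0 : ℂ) R := fun w hw =>
    hmaps w hw (mem_ball_self two_pos)
  have hPc : CvOn T (ball 0 R') P :=
    hφ.comp isOpen_ball (aff_diff 0 s).differentiableOn hmem
  have hPn : ∀ w ∈ ball (0 : ℂ) R', ‖fderiv ℝ P w‖ = s * ‖fderiv ℝ φ (aff 0 s w)‖ := fun w hw =>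
    norm_fderiv_aff (Ψ := φ) hs0.le (hφ.1.differentiableAt (hmem w hw))
  have hPtwo : ∀ w ∈ ball (0 : ℂ) R', c0 ≤ ‖fderiv ℝ P w‖ ∧ ‖fderiv ℝ P w‖ ≤ 2 := by
    intro w hw
    obtain ⟨h1, h2⟩ := htwo φ (aff 0 s w) (hφ.mono (hmaps w hw))
      (fun x hx => hφρ x (hmaps w hw hx))
    rw [hPn w hw]
    refine ⟨mul_le_mul_of_nonneg_left h1 hs0.le, ?_⟩
    rw [hs, div_mul_eq_mul_div, div_le_iff₀ hC1]
    linarith
  have hD : Dw T c0 R' P := ⟨hPc.1, hPc.2, fun w hw => (hPtwo w hw).2, fun w hw => (hPtwo w hw).1⟩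
  obtain ⟨Q, h, hQ, hPQ, hh⟩ := htrk R' P hR'0 hD
  -- the centre
  set z0 : ℂ := z / s with hz0
  have hsc : (s : ℂ) ≠ 0 := by exact_mod_cast hs0.ne'
  have haz : aff 0 s z0 = z := by
    unfold aff
    rw [hz0, zero_add, mul_div_cancel₀ _ hsc]
  have hz0n : s * ‖z0‖ ≤ R / 4 := by
    rw [← haffn, haz]
    exact hz
  have hball : ∀ w ∈ ball z0 1, ‖w‖ ≤ R' / 2 + 1 ∧ ‖w‖ < R' := by
    intro w hw
    rw [mem_ball, dist_eq_norm] at hw
    have h1 := norm_add_le (w - z0) z0
    rw [sub_add_cancel] at h1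
    have h2 : ‖z0‖ ≤ R' / 2 := by
      have : s * ‖z0‖ ≤ s * (R' / 2) := by
        have : s * (R' / 2) = (R - 2) / 2 := by
          rw [← hsR']
          ring
        rw [this]
        linarith
      exact le_of_mul_le_mul_left this hs0
    have h3 : ‖z0‖ + 1 ≤ R' := by
      have : s * (‖z0‖ + 1) ≤ s * R' := by
        rw [hsR']
        linarith
      exact le_of_mul_le_mul_left this hs0
    exact ⟨by linarith, by linarith⟩
  have hballR : ball z0 1 ⊆ ball 0 R' := fun w hw => mem_ball_zero_iff.2 (hball w hw).2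
  set E : ℝ := Real.exp (-κ * R' ^ 2) with hE
  have hE0 : 0 < E := Real.exp_pos _
  have hEe : E = Real.exp (-(κ / s ^ 2 * (R - 2) ^ 2)) := by
    rw [hE, hR']
    congr 1
    field_simp
  have hRpos : 0 < R := by linarith
  have hR1 : 1 ≤ R ^ 2 := by nlinarith
  have hEe0 : E ≤ e0 := by
    have h1 := hRa R g1
    rw [one_mul, ← hEe] at h1
    refine h1.trans ?_
    exact div_le_self he0.le hR1
  obtain ⟨k, hk, hPk⟩ := hlift P Q h z0 E (hPc.mono hballR) (fun w hw => (hPtwo w (hballR hw)).2)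
    hQ hE0 hEe0 (fun w hw => hPQ w (hball w hw).1)
    (fun w hw hwd => hh w z0 (hball w hw).1 (hball z0 (mem_ball_self one_pos)).1 hwd)
  obtain ⟨q, hq, hqz⟩ := hloc P Q k z0 (h z0) E (hPc.mono hballR)
    (fun w hw => (hPtwo w (hballR hw)).2) hQ hE0 hk hPk
  -- the error
  set τ : ℝ := K * E ^ α with hτ
  have hτ0 : 0 ≤ τ := by positivity
  have hτb : τ ≤ ε * m / 2 / R ^ 2 := by
    have h1 := hRb R g2
    have h2 : E ^ α = Real.exp (-(κ / s ^ 2 * α * (R - 2) ^ 2)) := by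
      rw [hEe, ← Real.exp_mul]
      congr 1
      ring
    rw [hτ, h2]
    exact h1
  have hτm : τ ≤ m := by
    refine hτb.trans ?_
    calc ε * m / 2 / R ^ 2 ≤ ε * m / 2 := div_le_self (by positivity) hR1
      _ ≤ 1 * m / 2 := by gcongr
      _ ≤ m := by linarith
  have hrin : closedBall z0 r ⊆ ball z0 c3 := closedBall_subset_ball (by linarith)
  have hrin1 : closedBall z0 r ⊆ ball z0 1 := hrin.trans (ball_subset_ball hc31)
  have hρP : ∀ w ∈ ball (0 : ℂ) R', ρ P w = s * ρ φ (aff 0 s w) := fun w hw =>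
    rho_aff hJ isOpen_ball hφ hs0.le (hmem w hw)
  have hlg : ∀ w ∈ closedBall z0 r, lg 2 (ρ φ) (aff 0 s w) = Real.log (ρ P w) - Real.log s := by
    intro w hw
    have hw' := hballR (hrin1 hw)
    have h1 := (hφρ _ (hmem w hw')).1
    have h2 : Real.exp (-2) ≤ 1 / 4 := by
      rw [Real.exp_neg, inv_eq_one_div]
      apply one_div_le_one_div_of_le (by norm_num)
      have := Real.quadratic_le_exp_of_nonneg (x := 2) (by norm_num)
      linarith
    unfold lg
    rw [max_eq_left (h2.trans h1), hρP w hw', Real.log_mul hs0.ne' (by linarith)]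
    ring
  have hz0r : z0 ∈ closedBall z0 r := mem_closedBall_self hr0.le
  have hcontP : ContinuousOn (ρ P) (closedBall z0 r) :=
    (hJ.cont P (ball 0 R') isOpen_ball hPc).mono (hrin1.trans hballR)
  have hderivA : AnalyticOnNhd ℂ (deriv k) (closedBall z0 r) := by
    have h1 : AnalyticOnNhd ℂ k (ball z0 c3) := hk.analyticOnNhd isOpen_ball
    exact h1.deriv.mono hrin
  have hfm : ∀ w ∈ closedBall z0 r, 2 * m ≤ ρ P w := by
    intro w hw
    have hw' := hballR (hrin1 hw)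
    rw [hρP w hw', hm]
    have h1 := (hφρ _ (hmem w hw')).1
    nlinarith
  have key := near_harm hr0 hm0 hcontP hderivA hq hτ0 hτm hfm (fun w hw => hqz w (by
    rw [mem_closedBall, dist_eq_norm] at hw
    linarith))
  -- conclusion
  have hcong : Real.circleAverage (lg 2 (ρ φ)) z (s * r) =
      Real.circleAverage (fun w => Real.log (ρ P w)) z0 r - Real.log s := by
    have h1 := avg_aff (lg 2 (ρ φ)) s z0 r
    rw [haz] at h1
    rw [← h1]
    have h2 : Real.circleAverage (fun w => lg 2 (ρ φ) (aff 0 s w)) z0 r =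
        Real.circleAverage (fun w => Real.log (ρ P w) - Real.log s) z0 r := by
      apply Real.circleAverage_congr_sphere
      intro w hw
      rw [abs_of_pos hr0] at hw
      exact hlg w (sphere_subset_closedBall hw)
    rw [h2, Real.circleAverage_fun_sub _ (circleIntegrable_const _ _ _),
      Real.circleAverage_const]
    apply ContinuousOn.circleIntegrable hr0.le
    exact (hcontP.mono sphere_subset_closedBall).log fun w hw => by
      have := hfm w (sphere_subset_closedBall hw)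
      linarith
  have hval : lg 2 (ρ φ) z = Real.log (ρ P z0) - Real.log s := by
    rw [← haz]
    exact hlg z0 hz0r
  rw [hcong, hval]
  have hfin : 2 * τ / m ≤ e / R ^ 2 := by
    calc 2 * τ / m ≤ 2 * (ε * m / 2 / R ^ 2) / m := by gcongr
      _ = ε / R ^ 2 := by field_simp
      _ ≤ e / R ^ 2 := by gcongr
  linarith

end Pool.Agent.Helper65.NC.NHL
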