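import Pool.Agent.Helper65.NC.Stm2

/-!
The flat region of an entire curve.
-/

set_option autoImplicit false

open Filter Topology Metric MvPolynomial Set

namespace Pool.Agent.Helper65.NC.REG

open Pool.Agent.Helper65.NC
open Pool.Agent.W602.GT Pool.Agent.N155.BB Pool.Agent.Y190.OP Pool.Agent.N155
  Pool.Agent.N155.GD Pool.Agent.Helper65.BF Pool.Agent.Helper65.GG

theorem circ_int {f : ℂ → ℝ} {c : ℂ} {s : ℝ} (hs : 0 ≤ s) {U : Set ℂ} (hf : ContinuousOn f U)
    (hU : closedBall c s ⊆ U) : CircleIntegrable f c s :=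
  (hf.mono (sphere_subset_closedBall.trans hU)).circleIntegrable hs

/-- the circle average of the real part -/
theorem avg_re (c : ℂ) (s b x : ℝ) :
    Real.circleAverage (fun z : ℂ => b + x * z.re) c s = b + x * c.re := by
  set L : ℂ →L[ℝ] ℝ := x • Complex.reCLM with hL
  have h2 : CircleIntegrable (fun z : ℂ => z) c s := (continuous_id.continuousOn).circleIntegrable'
  have h3 : Real.circleAverage (fun z : ℂ => z) c s = c :=
    DiffContOnCl.circleAverage (differentiable_id.diffContOnCl)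
  have h4 := L.circleAverage_comp_comm h2
  rw [h3] at h4
  have h5 : CircleIntegrable (fun z : ℂ => x * z.re) c s :=
    (Continuous.continuousOn (by fun_prop)).circleIntegrable'
  rw [Real.circleAverage_fun_add (circleIntegrable_const _ _ _) h5, Real.circleAverage_const]
  congr 1

/-- a sub-mean function minus an affine function of the real part -/
theorem SubM.sub_re {u : ℂ → ℝ} {U : Set ℂ} (hu : SubM u U) (b x : ℝ) :
    SubM (fun z => u z - (b + x * z.re)) U := by
  refine ⟨hu.cont.sub (by fun_prop), fun z s hs hU => ?_⟩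
  rw [Real.circleAverage_fun_sub (circ_int hs.le hu.cont hU)
    (circ_int (U := univ) hs.le (by fun_prop) (subset_univ _)), avg_re]
  linarith [hu.sub z s hs hU]

theorem SubM.mono {u : ℂ → ℝ} {U V : Set ℂ} (hu : SubM u U) (h : V ⊆ U) : SubM u V :=
  ⟨hu.cont.mono h, fun z s hs hV => hu.sub z s hs (hV.trans h)⟩

/-- the deficit of a sub-mean function near the centre -/
theorem deficit (hP : S_POI) {V : ℂ → ℝ} {c : ℂ} {S R ε : ℝ} (hS : 0 < S) (hSR : S < R)
    (hV : SubM V (ball c R)) (hVε : ∀ z ∈ sphere c S, V z ≤ ε) {w : ℂ} (hw : ‖w - c‖ ≤ 1 / 2 * S) :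
    V w ≤ ε - (ε - Real.circleAverage V c S) / 3 := by
  obtain ⟨h1, -, h3⟩ := hP
  have hcb : closedBall c S ⊆ ball c R := closedBall_subset_ball hSR
  have hVi : CircleIntegrable V c S := circ_int hS.le hV.cont hcb
  have hsub : SubM (fun z => V z - ε) (ball c R) := by
    have := SubM.sub_re hV ε 0
    simpa using this
  have hwb : w ∈ ball c S := by
    rw [mem_ball, dist_eq_norm]
    linarith
  have h4 := h1 _ c S R hS hSR hsub w hwb
  have h5 : PI (fun z => V z - ε) c S w = -PI (fun z => ε - V z) c S w := by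
    unfold PI
    rw [Real.circleAverage_def, Real.circleAverage_def, ← smul_neg, ← intervalIntegral.integral_neg]
    congr 2
    ext θ
    ring
  have h6 := (h3 (fun z => ε - V z) c S (1 / 2) hS (by norm_num) le_rfl
    (continuousOn_const.sub (hV.cont.mono (sphere_subset_closedBall.trans hcb)))
    (fun z hz => by
      have := hVε z hz
      linarith) w hw).2
  have h7 : Real.circleAverage (fun z => ε - V z) c S = ε - Real.circleAverage V c S := by
    rw [Real.circleAverage_fun_sub (circleIntegrable_const _ _ _) hVi, Real.circleAverage_const]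
  rw [h7] at h6
  rw [h5] at h4
  linarith

/-- the logarithm -/
theorem log_bd {A b : ℝ} (hA : 0 < A) {ζ : ℂ} (hre : 0 < ζ.re) (h1 : A * Real.exp (-b) ≤ ‖ζ‖)
    (h2 : ‖ζ‖ ≤ A * Real.exp b) :
    ‖Complex.log (ζ / A)‖ ≤ b + 2 ∧ |(Complex.log (ζ / A)).im| ≤ Real.pi / 2 := by
  have hnA : ‖ζ / A‖ = ‖ζ‖ / A := by
    rw [norm_div, Complex.norm_real, Real.norm_of_nonneg hA.le]
  have hn : 0 < ‖ζ‖ := by
    have := Complex.abs_re_le_norm ζ
    have := le_abs_self ζ.re
    linarith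
  have hp : 0 < ‖ζ‖ / A := by positivity
  have him : |(Complex.log (ζ / A)).im| ≤ Real.pi / 2 := by
    rw [Complex.log_im, Complex.abs_arg_le_pi_div_two_iff, Complex.div_ofReal_re]
    positivity
  refine ⟨?_, him⟩
  refine (Complex.norm_le_abs_re_add_abs_im _).trans ?_
  have h4 := Real.pi_lt_four
  rw [Complex.log_re, hnA]
  have h5 : |Real.log (‖ζ‖ / A)| ≤ b := by
    rw [abs_le]
    constructor
    · rw [Real.le_log_iff_exp_le hp, le_div_iff₀ hA]
      linarith
    · rw [Real.log_le_iff_le_exp hp, div_le_iff₀ hA]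
      linarith
  linarith

/-- the choice of `m` -/
theorem exists_m {K : ℝ} (hK : 1 ≤ K) :
    ∃ m : ℕ, (m : ℝ) ≤ 2 * K + 16 ∧ 4096 * (K + 6) * Real.exp K ≤ 2 ^ m := by
  have h1 : (⌊2 * K⌋₊ : ℝ) ≤ 2 * K := Nat.floor_le (by linarith)
  have h2 : 2 * K < (⌊2 * K⌋₊ : ℝ) + 1 := Nat.lt_floor_add_one _
  refine ⟨⌊2 * K⌋₊ + 16, by push_cast; linarith, ?_⟩
  have h3 : (2 : ℝ) ^ (⌊2 * K⌋₊ + 16) = 2 ^ 15 * 2 ^ (⌊2 * K⌋₊ + 1) := by
    rw [← pow_add]
    congr 1
    ring
  have h4 : Real.exp (2 * K * Real.log 2) ≤ 2 ^ (⌊2 * K⌋₊ + 1) := by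
    have h5 : (2 : ℝ) ^ (⌊2 * K⌋₊ + 1) = Real.exp (((⌊2 * K⌋₊ : ℝ) + 1) * Real.log 2) := by
      have h6 := Real.exp_nat_mul (Real.log 2) (⌊2 * K⌋₊ + 1)
      rw [Real.exp_log (by norm_num)] at h6
      rw [← h6]
      push_cast
      rfl
    rw [h5]
    apply Real.exp_le_exp.2
    exact mul_le_mul_of_nonneg_right h2.le (Real.log_nonneg (by norm_num))
  have h5 : Real.exp (2 * K * Real.log 2) ≥ Real.exp K * (1 + 0.38 * K) := by
    have h6 : 2 * K * Real.log 2 ≥ K + 0.38 * K := by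
      have := Real.log_two_gt_d9
      nlinarith
    have h7 := Real.exp_le_exp.2 h6
    rw [Real.exp_add] at h7
    have h8 := Real.add_one_le_exp (0.38 * K)
    have h9 := mul_le_mul_of_nonneg_left h8 (Real.exp_pos K).le
    linarith
  rw [h3]
  have h6 := Real.exp_pos K
  nlinarith

variable {n : ℕ} {T : Set (Mat (n + 1))} {ρ : (ℂ → Mat (n + 1)) → ℂ → ℝ}

theorem fc_one (a : ℂ) (ν A : ℝ) (ζ : ℂ) :
    fc 1 a ν A ζ = a * Complex.exp ((((ν ^ 3 + 1)⁻¹ : ℝ) : ℂ) * Complex.log (ζ / A)) := by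
  unfold fc
  rw [Nat.cast_one, one_div]

theorem isOpen_H : IsOpen {ζ : ℂ | 0 < ζ.re} := isOpen_lt continuous_const Complex.continuous_re

/-- the logarithmic coordinate -/
theorem tf_deriv {x A : ℝ} (hA : 0 < A) {ζ : ℂ} (hζ : 0 < ζ.re) :
    HasDerivAt (fun ζ : ℂ => ((x⁻¹ : ℝ) : ℂ) * Complex.log (ζ / A)) (((x⁻¹ : ℝ) : ℂ) * ζ⁻¹) ζ := by
  have hA' : (A : ℂ) ≠ 0 := by exact_mod_cast hA.ne'
  have hζ0 : ζ ≠ 0 := by
    rintro rfl
    simp at hζ
  have hsl : ζ / A ∈ Complex.slitPlane := by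
    left
    rw [Complex.div_ofReal_re]
    positivity
  have h1 : HasDerivAt (fun ζ : ℂ => ζ / A) (1 / A) ζ := (hasDerivAt_id ζ).div_const _
  have h2 := (Complex.hasDerivAt_log hsl).comp ζ h1
  have h3 := h2.const_mul ((x⁻¹ : ℝ) : ℂ)
  refine h3.congr_deriv ?_
  field_simp

/-- the length in the coordinate `ζ` -/
theorem rho_F (hJ : JR T ρ) {χ : ℂ → Mat (n + 1)} (hχ : CvOn T univ χ) {x A : ℝ} (hx : 0 < x)
    (hA : 0 < A) {ζ : ℂ} (hζ : 0 < ζ.re) :
    ρ (fun ζ => χ (((x⁻¹ : ℝ) : ℂ) * Complex.log (ζ / A))) ζ =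
      (x * ‖ζ‖)⁻¹ * ρ χ (((x⁻¹ : ℝ) : ℂ) * Complex.log (ζ / A)) := by
  have h1 := hJ.comp χ univ isOpen_univ hχ {ζ : ℂ | 0 < ζ.re}
    (fun ζ => ((x⁻¹ : ℝ) : ℂ) * Complex.log (ζ / A)) isOpen_H
    (fun z hz => (tf_deriv hA hz).differentiableAt.differentiableWithinAt)
    (fun _ _ => mem_univ _) ζ hζ
  rw [h1, (tf_deriv hA hζ).deriv, norm_mul, Complex.norm_real, Real.norm_of_nonneg (by positivity),
    norm_inv, mul_inv]

/-- the length in the coordinate `τ` -/
theorem rho_chi (hJ : JR T ρ) {φ : ℂ → Mat (n + 1)} (hφ : CvOn T univ φ) (a τ : ℂ) :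
    ρ (fun τ => φ (a * Complex.exp τ)) τ = ‖a‖ * Real.exp τ.re * ρ φ (a * Complex.exp τ) := by
  have hd : ∀ z, HasDerivAt (fun τ : ℂ => a * Complex.exp τ) (a * Complex.exp z) z := fun z =>
    (Complex.hasDerivAt_exp z).const_mul a
  have h1 := hJ.comp φ univ isOpen_univ hφ univ (fun τ => a * Complex.exp τ) isOpen_univ
    (fun z _ => (hd z).differentiableAt.differentiableWithinAt) (fun _ _ => mem_univ _) τ
    (mem_univ _)
  rw [h1, (hd τ).deriv, norm_mul, Complex.norm_exp]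

theorem chi_cv {φ : ℂ → Mat (n + 1)} (hφ : CvOn T univ φ) (a : ℂ) :
    CvOn T univ (fun τ => φ (a * Complex.exp τ)) :=
  hφ.comp isOpen_univ ((Complex.differentiable_exp.const_mul a).differentiableOn)
    fun _ _ => mem_univ _

theorem F_cv {φ : ℂ → Mat (n + 1)} (hφ : CvOn T univ φ) (a : ℂ) (ν : ℝ) {A : ℝ} (hA : 0 < A) :
    CvOn T {ζ : ℂ | 0 < ζ.re} (fun ζ => φ (fc 1 a ν A ζ)) :=
  hφ.comp isOpen_H (fun _ hz => (fc_deriv 1 a hA hz).differentiableAt.differentiableWithinAt)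
    fun _ _ => mem_univ _

set_option maxHeartbeats 2000000 in
theorem main (hP : S_POI) (hT : S_TAU) : S_REG := by
  intro n T ρ hJ ε0 R hε0 hε01 hR hRig φ a ν q K A B hφ ha hν hq hK hB hρa hAe hRA hνq hbig hgr
  have hFcv : CvOn T {ζ : ℂ | 0 < ζ.re} (fun ζ => φ (fc 1 a ν A ζ)) := by
    apply F_cv hφ a ν
    rw [hAe]
    have := norm_pos_iff.2 ha
    positivity
  have hFe : (fun ζ => φ (fc 1 a ν A ζ)) = fun ζ => (fun τ => φ (a * Complex.exp τ))
      ((((ν ^ 3 + 1)⁻¹ : ℝ) : ℂ) * Complex.log (ζ / A)) := by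
    funext ζ
    rw [fc_one]
  set x : ℝ := ν ^ 3 + 1 with hx
  have hx1 : 1 ≤ x := by
    have : 0 ≤ ν ^ 3 := by positivity
    linarith
  have hx0 : 0 < x := by linarith
  have han : 0 < ‖a‖ := norm_pos_iff.2 ha
  have hA : 0 < A := by
    rw [hAe]
    positivity
  have hxA : x * A = ‖a‖ * B := by
    rw [hAe]
    field_simp
  have hxA0 : 0 < x * A := by positivity
  set χ : ℂ → Mat (n + 1) := fun τ => φ (a * Complex.exp τ) with hχ
  have hχcv : CvOn T univ χ := chi_cv hφ a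
  set F : ℂ → Mat (n + 1) := fun ζ => φ (fc 1 a ν A ζ) with hF
  set tf : ℂ → ℂ := fun ζ => ((x⁻¹ : ℝ) : ℂ) * Complex.log (ζ / A) with htf
  have hρF : ∀ ζ : ℂ, 0 < ζ.re → ρ F ζ = (x * ‖ζ‖)⁻¹ * ρ χ (tf ζ) := by
    intro ζ hζ
    rw [hFe]
    exact rho_F hJ hχcv hx0 hA hζ
  set Δ : ℝ := 16 * (K + 6) / x with hΔ
  set ε : ℝ := 4 * ν ^ 4 * Δ ^ 2 / q with hε
  have hΔ0 : 0 < Δ := by positivity
  have hε0' : 0 ≤ ε := by positivity
  have hΔx : Δ * x = 16 * (K + 6) := by
    rw [hΔ]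
    field_simp
  have hΔν : Δ * ν ≤ q := by
    have h1 : Δ * ν * x ≤ q * x := by
      calc Δ * ν * x = 16 * (K + 6) * ν := by linear_combination ν * hΔx
        _ ≤ _ := hνq
    exact le_of_mul_le_mul_right h1 hx0
  have hεK : 976 * (ε * (K + 11)) ≤ ε0 := by
    have h1 : ε * (q * x ^ 2) = 1024 * (K + 6) ^ 2 * ν ^ 4 := by
      rw [hε, hΔ]
      field_simp
      ring
    have hν4 : 0 ≤ ν ^ 4 := by positivity
    have h2 : (K + 6) ^ 2 * ν ^ 4 * (K + 11) ≤ (K + 11) ^ 3 * ν ^ 4 := by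
      have h3 : (K + 6) ^ 2 ≤ (K + 11) ^ 2 := by nlinarith
      have h4 := mul_le_mul_of_nonneg_right h3 (mul_nonneg hν4 (by linarith : 0 ≤ K + 11))
      linarith
    have h5 : 0 ≤ (K + 11) ^ 3 * ν ^ 4 := by positivity
    have h3 : 976 * (ε * (K + 11)) * (q * x ^ 2) ≤ ε0 * (q * x ^ 2) := by
      calc _ = 976 * 1024 * ((K + 6) ^ 2 * ν ^ 4 * (K + 11)) := by
            linear_combination (976 * (K + 11)) * h1
        _ ≤ 976 * 1024 * ((K + 11) ^ 3 * ν ^ 4) := by linarith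
        _ ≤ ε0 * (q * x ^ 2) := by linarith
    exact le_of_mul_le_mul_right h3 (by positivity)
  have hεs : 976 * ε ≤ ε0 := by
    have h1 : 0 ≤ ε * (K + 10) := by positivity
    linarith
  have hup : ∀ τ : ℂ, ‖τ‖ ≤ Δ → ρ χ τ ≤ x * A * Real.exp (x * τ.re + ε) := by
    intro τ hτ
    rw [hχ, rho_chi hJ hφ, hxA]
    have ht : |τ.re| ≤ Δ := (Complex.abs_re_le_norm τ).trans hτ
    have h1 : |τ.re| * ν ≤ q := (mul_le_mul_of_nonneg_right ht hν).trans hΔν
    have h2 := hgr (a * Complex.exp τ) τ.re (by rw [norm_mul, Complex.norm_exp]) h1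
    have h3 : 4 * ν ^ 4 * τ.re ^ 2 / q ≤ ε := by
      rw [hε]
      have h4 : τ.re ^ 2 ≤ Δ ^ 2 := by
        rw [← sq_abs τ.re]
        exact pow_le_pow_left₀ (abs_nonneg _) ht 2
      gcongr
    rw [hρa] at h2
    calc ‖a‖ * Real.exp τ.re * ρ φ (a * Complex.exp τ) ≤
        ‖a‖ * Real.exp τ.re * (B * Real.exp (ν ^ 3 * τ.re + 4 * ν ^ 4 * τ.re ^ 2 / q)) :=
          mul_le_mul_of_nonneg_left h2 (by positivity)
      _ ≤ ‖a‖ * Real.exp τ.re * (B * Real.exp (ν ^ 3 * τ.re + ε)) := by gcongr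
      _ = ‖a‖ * B * Real.exp (x * τ.re + ε) := by
          rw [hx, show (ν ^ 3 + 1) * τ.re + ε = τ.re + (ν ^ 3 * τ.re + ε) by ring,
            Real.exp_add τ.re]
          ring
  have he3 : (8 : ℝ) ≤ Real.exp 3 := by
    have h1 := Real.add_one_le_exp (1 : ℝ)
    have h2 : Real.exp 3 = Real.exp 1 ^ 3 := by
      rw [← Real.exp_nat_mul]
      norm_num
    rw [h2]
    calc (8 : ℝ) = 2 ^ 3 := by norm_num
      _ ≤ _ := pow_le_pow_left₀ (by norm_num) (by linarith) 3
  have hnre : ∀ ζ : ℂ, 0 < ζ.re → ζ.re ≤ ‖ζ‖ := fun ζ _ =>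
    (le_abs_self _).trans (Complex.abs_re_le_norm ζ)
  have hreg : ∀ ζ : ℂ, A / 8 < ζ.re → ‖ζ‖ < 3 * (A * Real.exp K) → ‖tf ζ‖ ≤ Δ / 16 ∧
      |(Complex.log (ζ / A)).im| ≤ Real.pi / 2 := by
    intro ζ h1 h2
    have h0 : 0 < ζ.re := by linarith
    have h3 := hnre ζ h0
    have hK3 := Real.exp_pos K
    obtain ⟨h4, h5⟩ := log_bd (b := K + 3) hA h0 (by
      have h6 : Real.exp (-(K + 3)) ≤ 1 / 8 := by
        rw [Real.exp_neg, inv_le_comm₀ (Real.exp_pos _) (by norm_num)]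
        have h7 := Real.exp_le_exp.2 (by linarith : (3 : ℝ) ≤ K + 3)
        linarith
      have h8 := mul_le_mul_of_nonneg_left h6 hA.le
      linarith) (by
      rw [Real.exp_add, ← mul_assoc]
      have h6 : 0 < A * Real.exp K := by positivity
      have h7 := mul_le_mul_of_nonneg_left he3 h6.le
      linarith)
    refine ⟨?_, h5⟩
    have h6 : Δ / 16 = x⁻¹ * (K + 6) := by
      rw [hΔ]
      field_simp
    rw [htf]
    simp only
    rw [norm_mul, Complex.norm_real, Real.norm_of_nonneg (by positivity), h6]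
    exact mul_le_mul_of_nonneg_left (by linarith) (by positivity)
  have hzA : ∀ ζ : ℂ, 0 < ζ.re → A * Real.exp (x * (tf ζ).re) = ‖ζ‖ := by
    intro ζ hζ
    have h0 := hnre ζ hζ
    have hn : 0 < ‖ζ‖ := by linarith
    have h1 : x * (tf ζ).re = Real.log (‖ζ‖ / A) := by
      rw [htf]
      simp only
      rw [Complex.re_ofReal_mul, Complex.log_re, norm_div, Complex.norm_real,
        Real.norm_of_nonneg hA.le]
      field_simp
    rw [h1, Real.exp_log (by positivity)]
    field_simp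
  have hVup : ∀ ζ : ℂ, A / 8 < ζ.re → ‖ζ‖ < 3 * (A * Real.exp K) → ρ F ζ ≤ Real.exp ε := by
    intro ζ h1 h2
    have h0 : 0 < ζ.re := by linarith
    have hn : 0 < ‖ζ‖ := by linarith [hnre ζ h0]
    have h3 := hup (tf ζ) (by
      have := (hreg ζ h1 h2).1
      linarith)
    rw [hρF ζ h0]
    have h4 := hzA ζ h0
    calc (x * ‖ζ‖)⁻¹ * ρ χ (tf ζ) ≤ (x * ‖ζ‖)⁻¹ * (x * A * Real.exp (x * (tf ζ).re + ε)) :=
          mul_le_mul_of_nonneg_left h3 (by positivity)
      _ = (x * ‖ζ‖)⁻¹ * (x * (A * Real.exp (x * (tf ζ).re))) * Real.exp ε := by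
          rw [Real.exp_add]
          ring
      _ = Real.exp ε := by
          rw [h4]
          field_simp
  set α : ℝ := A * Real.exp K with hα
  have hα0 : 0 < α := by positivity
  have hre : ∀ ζ ∈ ball (α : ℂ) (α - A / 4), A / 4 < ζ.re ∧ ‖ζ‖ < 2 * α := by
    intro ζ hζ
    rw [mem_ball, dist_eq_norm] at hζ
    have h1 := Complex.abs_re_le_norm (ζ - α)
    rw [Complex.sub_re, Complex.ofReal_re] at h1
    obtain ⟨h2, h3⟩ := abs_le.1 h1
    refine ⟨by linarith, ?_⟩
    have h4 := norm_add_le (ζ - α) α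
    rw [sub_add_cancel, Complex.norm_real, Real.norm_of_nonneg hα0.le] at h4
    linarith
  refine ⟨hFcv.mono fun ζ hζ => ?_, fun ζ0 hζ0 => ?_⟩
  · have := (hre ζ hζ).1
    show 0 < ζ.re
    linarith
  obtain ⟨hz1, hz2⟩ := hre ζ0 hζ0
  have hz0 : 0 < ζ0.re := by linarith
  have hzn : 0 < ‖ζ0‖ := by linarith [hnre ζ0 hz0]
  have hzle := hnre ζ0 hz0
  have hdisc : ∀ ζ ∈ ball ζ0 (ζ0.re / 2), ζ0.re / 2 < ζ.re ∧ A / 8 < ζ.re ∧ ‖ζ‖ < 3 * α := by
    intro ζ hζ
    rw [mem_ball, dist_eq_norm] at hζ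
    have h1 := Complex.abs_re_le_norm (ζ - ζ0)
    rw [Complex.sub_re] at h1
    obtain ⟨h2, h3⟩ := abs_le.1 h1
    refine ⟨by linarith, by linarith, ?_⟩
    have h4 := norm_add_le (ζ - ζ0) ζ0
    rw [sub_add_cancel] at h4
    linarith
  obtain ⟨m, hm1, hm2⟩ := exists_m hK
  have hupper : ρ F ζ0 ≤ 4 := by
    refine (hVup ζ0 (by linarith) (by linarith)).trans ?_
    have h1 := Real.exp_le_exp.2 (by linarith : ε ≤ 1)
    have h2 := Real.exp_one_lt_d9
    linarith
  refine ⟨?_, hupper⟩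
  set d : ℝ := 9 * (m + 1) * ε with hd
  have hd0 : 0 ≤ d := by positivity
  have hd1 : 54 * d ≤ ε0 := by
    have h1 : (m : ℝ) + 1 ≤ 2 * (K + 11) := by linarith
    have h2 := mul_le_mul_of_nonneg_right h1 hε0'
    have h3 : 0 ≤ ε * (K + 11) := by positivity
    rw [hd]
    linarith
  have hE : Real.exp d ≤ 2 := by
    have h1 := Real.add_one_le_exp (-d)
    rw [Real.exp_neg] at h1
    have h2 := Real.exp_pos d
    have h3 := mul_le_mul_of_nonneg_right h1 h2.le
    rw [inv_mul_cancel₀ h2.ne'] at h3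
    have h4 := mul_le_mul_of_nonneg_right (by linarith : 1 / 2 ≤ -d + 1) h2.le
    linarith
  have hE1 : 1 / 2 ≤ Real.exp (-d) := by
    have h1 := Real.add_one_le_exp (-d)
    linarith
  set r : ℝ := ζ0.re / 2 * Real.exp (-d) with hr
  have hr0 : 0 < r := by positivity
  have hEr : Real.exp d * r = ζ0.re / 2 := by
    rw [hr, mul_left_comm, ← Real.exp_add, add_neg_cancel, Real.exp_zero, mul_one]
  have hRr : R ≤ r := by
    have h1 := mul_le_mul_of_nonneg_left hE1 (by linarith : 0 ≤ ζ0.re / 2)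
    linarith
  set S : ℝ := ζ0.re / 64 with hS
  have hS0 : 0 < S := by positivity
  set N' : ℝ := max (Real.log r + 20) 0 with hN'
  set N1 : ℝ := N' + d with hN1
  have hN10 : 0 ≤ N1 := add_nonneg (le_max_right _ _) hd0
  set N : ℝ := max (N1 - Real.log (x * A / 8)) (16 * (K + 6) - Real.log (x * A)) with hN
  -- the function in the coordinate `τ`
  set U : ℂ → ℝ := fun τ => lg N (ρ χ) τ - (Real.log (x * A) + x * τ.re) with hU
  have hUs : SubM U (ball 0 Δ) :=
    SubM.sub_re (SubM.mono (hJ.sub χ univ isOpen_univ hχcv N) (subset_univ _)) _ _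
  have hUle : ∀ z ∈ ball (0 : ℂ) Δ, U z ≤ ε := by
    intro z hz
    rw [mem_ball_zero_iff] at hz
    have h1 := hup z hz.le
    have h2 : |z.re| ≤ Δ := (Complex.abs_re_le_norm z).trans hz.le
    have h3 : -(16 * (K + 6)) ≤ x * z.re := by
      have h4 := mul_le_mul_of_nonneg_left (abs_le.1 h2).1 hx0.le
      linarith
    have h4 : lg N (ρ χ) z ≤ Real.log (x * A) + x * z.re + ε := by
      unfold lg
      rw [Real.log_le_iff_le_exp (lt_max_of_lt_right (Real.exp_pos _))]
      apply max_le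
      · rw [show Real.log (x * A) + x * z.re + ε = Real.log (x * A) + (x * z.re + ε) by ring,
          Real.exp_add, Real.exp_log hxA0]
        exact h1
      · apply Real.exp_le_exp.2
        have := le_max_right (N1 - Real.log (x * A / 8)) (16 * (K + 6) - Real.log (x * A))
        linarith
    simp only [hU]
    linarith
  have hU0 : 0 ≤ U 0 := by
    have h1 : ρ χ 0 = x * A := by
      rw [hχ, rho_chi hJ hφ, Complex.zero_re, Complex.exp_zero, Real.exp_zero, mul_one, mul_one,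
        hρa, hxA]
    have h2 : Real.log (x * A) ≤ Real.log (max (x * A) (Real.exp (-N))) :=
      Real.log_le_log hxA0 (le_max_left _ _)
    simp only [hU, lg, h1, Complex.zero_re, mul_zero, add_zero]
    linarith
  -- the function in the coordinate `ζ`
  set V : ℂ → ℝ := lg N1 (ρ F) with hV
  have hVs : SubM V (ball ζ0 (ζ0.re / 2)) :=
    SubM.mono (hJ.sub F _ isOpen_H hFcv N1) fun ζ hζ => by
      have := (hdisc ζ hζ).1
      show 0 < ζ.re
      linarith
  have hSb : closedBall ζ0 S ⊆ ball ζ0 (ζ0.re / 2) := closedBall_subset_ball (by linarith)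
  have hVle : ∀ z ∈ sphere ζ0 S, V z ≤ ε := by
    intro z hz
    obtain ⟨-, h1, h2⟩ := hdisc z (hSb (sphere_subset_closedBall hz))
    rw [hV]
    unfold lg
    rw [Real.log_le_iff_le_exp (lt_max_of_lt_right (Real.exp_pos _))]
    exact max_le (hVup z h1 h2) (Real.exp_le_exp.2 (by linarith))
  set s : ℝ := ζ0.re / (256 * ‖ζ0‖ * x) with hs
  have hs0 : 0 < s := by positivity
  have hxs : x * s * ‖ζ0‖ = ζ0.re / 256 := by
    rw [hs]
    field_simp
  have hxs1 : x * s ≤ 1 / 256 := by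
    have h1 : x * s * ‖ζ0‖ ≤ 1 / 256 * ‖ζ0‖ := by
      rw [hxs]
      linarith
    exact le_of_mul_le_mul_right h1 hzn
  have hsΔ : s ≤ Δ / 4 := by
    have h1 : s * x ≤ Δ / 4 * x := by
      rw [mul_comm s x, div_mul_eq_mul_div, hΔx]
      linarith
    exact le_of_mul_le_mul_right h1 hx0
  have hms : Δ / 8 ≤ 2 ^ m * s := by
    have h1 : Δ / 8 * (x * ‖ζ0‖) ≤ 2 ^ m * s * (x * ‖ζ0‖) := by
      calc Δ / 8 * (x * ‖ζ0‖) = 2 * (K + 6) * ‖ζ0‖ := by linear_combination (‖ζ0‖ / 8) * hΔx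
        _ ≤ 2 * (K + 6) * (2 * α) := by
            apply mul_le_mul_of_nonneg_left hz2.le
            positivity
        _ = 4096 * (K + 6) * Real.exp K * (A / 1024) := by
            rw [hα]
            ring
        _ ≤ 2 ^ m * (A / 1024) := mul_le_mul_of_nonneg_right hm2 (by positivity)
        _ ≤ 2 ^ m * (ζ0.re / 256) := by
            apply mul_le_mul_of_nonneg_left _ (by positivity)
            linarith
        _ = _ := by rw [← hxs]; ring
    exact le_of_mul_le_mul_right h1 (by positivity)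
  obtain ⟨htf1, htf2⟩ := hreg ζ0 (by linarith) (by linarith)
  have hTAU := hT U Δ ε hΔ0 hε0' hUs hUle hU0 (tf ζ0) (mem_closedBall_zero_iff.2 htf1) m s hs0
    hsΔ hms
  have hA' : (A : ℂ) ≠ 0 := by exact_mod_cast hA.ne'
  have hx' : (x : ℂ) ≠ 0 := by exact_mod_cast hx0.ne'
  have hζ0' : ζ0 ≠ 0 := norm_pos_iff.1 hzn
  have hxtf : ∀ ζ : ℂ, (x : ℂ) * tf ζ = Complex.log (ζ / A) := by
    intro ζ
    rw [htf]
    simp only
    rw [← mul_assoc, ← Complex.ofReal_mul, mul_inv_cancel₀ hx0.ne', Complex.ofReal_one, one_mul]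
  have hpt : ∀ τ ∈ sphere (tf ζ0) |s|, U τ ≤ ε - (ε - Real.circleAverage V ζ0 S) / 3 := by
    intro τ hτ
    rw [abs_of_pos hs0, mem_sphere_iff_norm] at hτ
    set ζ : ℂ := A * Complex.exp (x * τ) with hζ
    have e1 : (A : ℂ) * Complex.exp (x * tf ζ0) = ζ0 := by
      rw [hxtf, Complex.exp_log (div_ne_zero hζ0' hA')]
      field_simp
    have e3 : ‖(x : ℂ) * (τ - tf ζ0)‖ = x * s := by
      rw [norm_mul, hτ, Complex.norm_real, Real.norm_of_nonneg hx0.le]
    have e2 : ζ - ζ0 = ζ0 * (Complex.exp (x * (τ - tf ζ0)) - 1) := by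
      have h1 : Complex.exp (x * τ) = Complex.exp (x * tf ζ0) * Complex.exp (x * (τ - tf ζ0)) := by
        rw [← Complex.exp_add]
        congr 1
        ring
      rw [hζ, h1, ← mul_assoc, e1]
      ring
    have e4 : ‖ζ - ζ0‖ ≤ 1 / 2 * S := by
      rw [e2, norm_mul]
      have h1 := Complex.norm_exp_sub_one_le (x := (x : ℂ) * (τ - tf ζ0)) (by
        rw [e3]
        linarith)
      rw [e3] at h1
      have h2 := mul_le_mul_of_nonneg_left h1 hzn.le
      linarith
    have hζm : ζ ∈ ball ζ0 (ζ0.re / 2) := by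
      rw [mem_ball, dist_eq_norm]
      linarith
    obtain ⟨hζ1, hζ2, hζ3⟩ := hdisc ζ hζm
    have hζre : 0 < ζ.re := by linarith
    have hζn := hnre ζ hζre
    have e5 : tf ζ = τ := by
      have h1 : Complex.log (ζ / A) = x * τ := by
        rw [hζ, mul_div_cancel_left₀ _ hA']
        have h2 : |(x * τ : ℂ).im| < Real.pi := by
          have h3 : (x * τ : ℂ) = Complex.log (ζ0 / A) + x * (τ - tf ζ0) := by
            rw [← hxtf]
            ring
          rw [h3, Complex.add_im]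
          have h4 := Complex.abs_im_le_norm ((x : ℂ) * (τ - tf ζ0))
          rw [e3] at h4
          have h5 := abs_add_le (Complex.log (ζ0 / A)).im ((x : ℂ) * (τ - tf ζ0)).im
          have h6 := Real.pi_gt_three
          linarith
        obtain ⟨h3, h4⟩ := abs_lt.1 h2
        exact Complex.log_exp h3 h4.le
      have h2 := hxtf ζ
      rw [h1] at h2
      exact mul_left_cancel₀ hx' h2
    have e6 := hρF ζ hζre
    rw [e5] at e6
    have e7 := deficit hP hS0 (by linarith : S < ζ0.re / 2) hVs hVle e4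
    have e9 := hzA ζ hζre
    rw [e5] at e9
    have hxz : 0 < x * ‖ζ‖ := by
      have : 0 < ‖ζ‖ := by linarith
      positivity
    have e8 : U τ ≤ V ζ := by
      have h1 : Real.log (x * A) + x * τ.re = Real.log (x * ‖ζ‖) := by
        rw [← e9, ← mul_assoc, Real.log_mul hxA0.ne' (Real.exp_pos _).ne', Real.log_exp]
      have h2 : max (ρ χ τ) (Real.exp (-N)) ≤ x * ‖ζ‖ * max (ρ F ζ) (Real.exp (-N1)) := by
        apply max_le
        · calc ρ χ τ = x * ‖ζ‖ * ρ F ζ := by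
                rw [e6, ← mul_assoc, mul_inv_cancel₀ hxz.ne', one_mul]
            _ ≤ _ := mul_le_mul_of_nonneg_left (le_max_left _ _) hxz.le
        · have h3 : Real.exp (-N) ≤ x * A / 8 * Real.exp (-N1) := by
            have h4 : 0 < x * A / 8 := by positivity
            rw [← Real.exp_log h4, ← Real.exp_add, Real.exp_le_exp]
            have := le_max_left (N1 - Real.log (x * A / 8)) (16 * (K + 6) - Real.log (x * A))
            linarith
          have h5 : x * A / 8 ≤ x * ‖ζ‖ := by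
            have := mul_le_mul_of_nonneg_left (by linarith : A / 8 ≤ ‖ζ‖) hx0.le
            linarith
          calc Real.exp (-N) ≤ x * A / 8 * Real.exp (-N1) := h3
            _ ≤ x * ‖ζ‖ * Real.exp (-N1) := mul_le_mul_of_nonneg_right h5 (Real.exp_pos _).le
            _ ≤ _ := mul_le_mul_of_nonneg_left (le_max_right _ _) hxz.le
      have h3 : 0 < max (ρ F ζ) (Real.exp (-N1)) := lt_max_of_lt_right (Real.exp_pos _)
      have h4 := Real.log_le_log (lt_max_of_lt_right (Real.exp_pos _)) h2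
      rw [Real.log_mul hxz.ne' h3.ne'] at h4
      simp only [hU, hV, lg]
      rw [h1]
      linarith
    linarith
  have hmean : -d ≤ Real.circleAverage V ζ0 S := by
    have hsub : closedBall (tf ζ0) s ⊆ ball 0 Δ := by
      intro z hz
      rw [mem_closedBall, dist_eq_norm] at hz
      rw [mem_ball_zero_iff]
      have h1 := norm_add_le (z - tf ζ0) (tf ζ0)
      rw [sub_add_cancel] at h1
      linarith
    have h1 : Real.circleAverage U (tf ζ0) s ≤ ε - (ε - Real.circleAverage V ζ0 S) / 3 :=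
      Real.circleAverage_mono_on_of_le_circle (circ_int hs0.le hUs.cont hsub) hpt
    rw [hd]
    linarith
  -- the rescaled curve
  have hmap : ∀ w ∈ ball (0 : ℂ) r, ζ0 + (Real.exp d : ℂ) * w ∈ ball ζ0 (ζ0.re / 2) := by
    intro w hw
    rw [mem_ball_zero_iff] at hw
    rw [mem_ball, dist_eq_norm, add_sub_cancel_left, norm_mul, Complex.norm_real,
      Real.norm_of_nonneg (Real.exp_pos _).le]
    rw [← hEr]
    exact mul_lt_mul_of_pos_left hw (Real.exp_pos _)
  have hdψ : ∀ w, HasDerivAt (fun w : ℂ => ζ0 + (Real.exp d : ℂ) * w) (Real.exp d : ℂ) w := by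
    intro w
    have h1 := ((hasDerivAt_id w).const_mul (Real.exp d : ℂ)).const_add ζ0
    simpa using h1
  have hψd : DifferentiableOn ℂ (fun w : ℂ => ζ0 + (Real.exp d : ℂ) * w) (ball 0 r) := fun w _ =>
    (hdψ w).differentiableAt.differentiableWithinAt
  have hψm : MapsTo (fun w : ℂ => ζ0 + (Real.exp d : ℂ) * w) (ball 0 r) {ζ : ℂ | 0 < ζ.re} := by
    intro w hw
    have := (hdisc _ (hmap w hw)).1
    show 0 < (ζ0 + (Real.exp d : ℂ) * w).re
    linarith
  have hρ1 : ∀ w ∈ ball (0 : ℂ) r, ρ (fun w => F (ζ0 + (Real.exp d : ℂ) * w)) w =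
      Real.exp d * ρ F (ζ0 + (Real.exp d : ℂ) * w) := by
    intro w hw
    rw [hJ.comp F _ isOpen_H hFcv (ball 0 r) (fun w => ζ0 + (Real.exp d : ℂ) * w) isOpen_ball hψd
      hψm w hw, (hdψ w).deriv, Complex.norm_real, Real.norm_of_nonneg (Real.exp_pos _).le]
  have hup1 : ∀ w ∈ ball (0 : ℂ) r, ρ (fun w => F (ζ0 + (Real.exp d : ℂ) * w)) w ≤
      Real.exp ε0 := by
    intro w hw
    obtain ⟨-, h1, h2⟩ := hdisc _ (hmap w hw)
    rw [hρ1 w hw]
    calc Real.exp d * ρ F (ζ0 + (Real.exp d : ℂ) * w) ≤ Real.exp d * Real.exp ε :=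
          mul_le_mul_of_nonneg_left (hVup _ h1 h2) (Real.exp_pos _).le
      _ = Real.exp (d + ε) := (Real.exp_add _ _).symm
      _ ≤ _ := Real.exp_le_exp.2 (by linarith)
  have havg : 0 ≤ Real.circleAverage (lg N' (ρ (fun w => F (ζ0 + (Real.exp d : ℂ) * w)))) 0
      (r / 32) := by
    have h1 : Real.circleAverage (lg N' (ρ (fun w => F (ζ0 + (Real.exp d : ℂ) * w)))) 0 (r / 32) =
        Real.circleAverage (fun z => d + V z) ζ0 S := by
      rw [Real.circleAverage_def, Real.circleAverage_def]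
      congr 2
      funext θ
      have h2 : circleMap 0 (r / 32) θ ∈ ball (0 : ℂ) r := by
        have h3 := circleMap_mem_sphere (0 : ℂ) (by positivity : 0 ≤ r / 32) θ
        rw [mem_sphere_zero_iff_norm] at h3
        rw [mem_ball_zero_iff, h3]
        linarith
      have h3 : ζ0 + (Real.exp d : ℂ) * circleMap 0 (r / 32) θ = circleMap ζ0 S θ := by
        have h4 : Real.exp d * (r / 32) = S := by
          rw [hS]
          linarith
        rw [← h4]
        simp only [circleMap, zero_add, Complex.ofReal_mul, Complex.ofReal_div]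
        push_cast
        ring
      have h4 : lg N' (ρ (fun w => F (ζ0 + (Real.exp d : ℂ) * w))) (circleMap 0 (r / 32) θ) =
          Real.log (max (ρ (fun w => F (ζ0 + (Real.exp d : ℂ) * w)) (circleMap 0 (r / 32) θ))
            (Real.exp (-N'))) := rfl
      have h5 : max (Real.exp d * ρ F (circleMap ζ0 S θ)) (Real.exp (-N')) =
          Real.exp d * max (ρ F (circleMap ζ0 S θ)) (Real.exp (-N1)) := by
        rw [mul_max_of_nonneg _ _ (Real.exp_pos _).le, ← Real.exp_add]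
        congr 2
        rw [hN1]
        ring
      rw [h4, hρ1 _ h2, h3, h5, Real.log_mul (Real.exp_pos _).ne'
        (lt_max_of_lt_right (Real.exp_pos _)).ne', Real.log_exp]
      rfl
    rw [h1, Real.circleAverage_fun_add (circleIntegrable_const _ _ _)
      (circ_int hS0.le hVs.cont hSb), Real.circleAverage_const]
    linarith
  have hfin := hRig (fun w => F (ζ0 + (Real.exp d : ℂ) * w)) r N' hRr (le_max_left _ _)
    (hFcv.comp isOpen_ball hψd hψm) hup1 havg
  rw [hρ1 0 (mem_ball_self hr0), mul_zero, add_zero] at hfin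
  have h0 := mul_le_mul_of_nonneg_right hE (hJ.nonneg F ζ0)
  linarith

end Pool.Agent.Helper65.NC.REG
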