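import Pool.Agent.Helper65.NC.Stm

/-!
Propagation of two-sided bounds from a small scale to a large scale: the part about functions with
the sub-mean value property.
-/

set_option autoImplicit false

open Filter Topology Metric Set

namespace Pool.Agent.Helper65.NC.RIG

/-- circle average -/
noncomputable abbrev Mn (u : ℂ → ℝ) (w : ℂ) (s : ℝ) : ℝ := Real.circleAverage u w s

theorem mem_ball_of {r t : ℝ} {w x : ℂ} (hwt : ‖w‖ + t < r) (hx : ‖x - w‖ ≤ t) :
    x ∈ ball (0 : ℂ) r := by
  rw [mem_ball_zero_iff]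
  have h1 : ‖x‖ ≤ ‖x - w‖ + ‖w‖ := by
    have := norm_add_le (x - w) w
    rwa [sub_add_cancel] at this
  linarith

theorem integ {u : ℂ → ℝ} {r : ℝ} (hc : ContinuousOn u (ball 0 r)) {w : ℂ} {t : ℝ} (ht : 0 ≤ t)
    (hwt : ‖w‖ + t < r) : CircleIntegrable u w t := by
  refine ContinuousOn.circleIntegrable ht (hc.mono ?_)
  intro x hx
  rw [mem_sphere, dist_eq_norm] at hx
  exact mem_ball_of hwt hx.le

theorem avg_le {u : ℂ → ℝ} {r : ℝ} (hc : ContinuousOn u (ball 0 r)) {w : ℂ} {t B : ℝ} (ht : 0 ≤ t)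
    (hwt : ‖w‖ + t < r) (hB : ∀ x, ‖x - w‖ = t → u x ≤ B) : Mn u w t ≤ B := by
  refine Real.circleAverage_mono_on_of_le_circle (integ hc ht hwt) ?_
  intro x hx
  rw [mem_sphere, dist_eq_norm, abs_of_nonneg ht] at hx
  exact hB x hx

theorem subM_ball {u : ℂ → ℝ} {r : ℝ} (hu : SubM u (ball 0 r)) (w : ℂ) :
    SubM u (ball w (r - ‖w‖)) := by
  have h : ball w (r - ‖w‖) ⊆ ball (0 : ℂ) r := by
    refine ball_subset_ball' ?_
    rw [dist_zero_right]
    linarith
  exact ⟨hu.cont.mono h, fun z s hs hz => hu.sub z s hs (hz.trans h)⟩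

theorem mono (hM : S_MONO) {u : ℂ → ℝ} {r : ℝ} (hu : SubM u (ball 0 r)) {w : ℂ} {s t : ℝ}
    (hs : 0 < s) (hst : s ≤ t) (hwt : ‖w‖ + t < r) : Mn u w s ≤ Mn u w t :=
  hM u w s t (r - ‖w‖) hs hst (by linarith) (subM_ball hu w)

/-- existence of scales -/
theorem exists_scale {u : ℂ → ℝ} {r : ℝ} (hc : ContinuousOn u (ball 0 r))
    (hle : ∀ z ∈ ball (0 : ℂ) r, u z ≤ 1) {w : ℂ} {t V : ℝ} (ht : 0 < t) (hwt : ‖w‖ + t < r)
    (hV : 0 < V) (h : V ≤ t * Real.exp (Mn u w t)) :
    ∃ s, 0 < s ∧ s ≤ t ∧ s * Real.exp (Mn u w s) = V := by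
  have hb : ∀ s, 0 ≤ s → s ≤ t → Mn u w s ≤ 1 := by
    intro s hs hst
    refine avg_le hc hs (by linarith) ?_
    intro x hx
    exact hle x (mem_ball_of hwt (by linarith))
  have ha : 0 < V / Real.exp 1 := by positivity
  have hat : V / Real.exp 1 ≤ t := by
    rw [div_le_iff₀ (Real.exp_pos 1)]
    refine h.trans ?_
    exact mul_le_mul_of_nonneg_left (Real.exp_le_exp.2 (hb t ht.le le_rfl)) ht.le
  have hcont : ContinuousOn (fun s => s * Real.exp (Mn u w s)) (Icc (V / Real.exp 1) t) := by
    refine continuousOn_id.mul (Real.continuous_exp.comp_continuousOn ?_)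
    refine Real.ContinuousOn.circleAverage (hc.mono ?_) ?_
    · intro x hx
      exact mem_ball_of hwt hx.2
    · intro s hs
      exact ha.le.trans hs.1
  have hFa : V / Real.exp 1 * Real.exp (Mn u w (V / Real.exp 1)) ≤ V := by
    calc V / Real.exp 1 * Real.exp (Mn u w (V / Real.exp 1)) ≤ V / Real.exp 1 * Real.exp 1 :=
          mul_le_mul_of_nonneg_left (Real.exp_le_exp.2 (hb _ ha.le hat)) ha.le
      _ = V := div_mul_cancel₀ _ (Real.exp_pos 1).ne'
  obtain ⟨s, hs, hsV⟩ := intermediate_value_Icc hat hcont ⟨hFa, h⟩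
  exact ⟨s, ha.trans_le hs.1, hs.2, hsV⟩

/-- monotonicity of `s ↦ s * exp (M s)`, in the form needed -/
theorem log_eq {s V m : ℝ} (hs : 0 < s) (h : s * Real.exp m = V) : Real.log s + m = Real.log V := by
  rw [← h, Real.log_mul hs.ne' (Real.exp_pos m).ne', Real.log_exp]

/-- numbers -/
theorem log2_lt : Real.log 2 < 0.7 := by
  have := Real.log_two_lt_d9
  linarith

/-- the engine -/
theorem engine (hM : S_MONO) (hR : S_RM) (u : ℂ → ℝ) (r ε R1 : ℝ) (hr : 0 < r) (hε0 : 0 ≤ ε)
    (hε : ε ≤ 1 / 10000) (hR1 : 1 ≤ R1) (hu : SubM u (ball 0 r))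
    (hle : ∀ z ∈ ball (0 : ℂ) r, u z ≤ ε) (h0 : 0 ≤ Mn u 0 (r / 32))
    (ini : ∀ y s, ‖y‖ ≤ r / 64 → 0 < s → s ≤ r / 8 → s * Real.exp (Mn u y s) = R1 →
      Mn u y s ≤ u y + 1 / 40)
    (nh : ∀ y s R, R1 ≤ R → ‖y‖ + s < r → 0 < s → s * Real.exp (Mn u y s) = R →
      (∀ w, ‖w - y‖ ≤ s → Mn u y s - 1 / 5 ≤ u w ∧ u w ≤ Mn u y s + 1 / 5) →
      Mn u y (s / 8) ≤ u y + 1 / 40) (hr2 : 2048 * R1 ≤ r) : -(1 / 5) ≤ u 0 := by
  have hc := hu.cont
  have hle1 : ∀ z ∈ ball (0 : ℂ) r, u z ≤ 1 := fun z hz => (hle z hz).trans (by linarith)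
  have hRM := hR u 0 r ε hr hε0 hu hle h0
  -- consequences of RM
  have dbl : ∀ z s, ‖z‖ ≤ r / 64 → 0 < s → s ≤ r / 4 → Mn u z (2 * s) ≤ Mn u z s + 3 * ε := by
    intro z s hz hs hs4
    exact ((hRM z (by rwa [mem_closedBall_zero_iff])).1 s hs hs4).1
  have upp : ∀ z s, ‖z‖ ≤ r / 64 → 0 < s → s ≤ r / 4 → ∀ w, ‖w - z‖ ≤ s / 2 →
      u w ≤ Mn u z s + 100 * ε := by
    intro z s hz hs hs4 w hw
    exact ((hRM z (by rwa [mem_closedBall_zero_iff])).1 s hs hs4).2 w
      (by rwa [mem_closedBall, dist_eq_norm])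
  have low : -(2 * ε) ≤ Mn u 0 (r / 8) :=
    (hRM 0 (by rw [mem_closedBall_zero_iff, norm_zero]; positivity)).2 (r / 8) le_rfl (by linarith)
  have ind : ∀ j : ℕ, ∀ y s, 0 < s → ‖y‖ + 16 * s ≤ r / 64 →
      s * Real.exp (Mn u y s) = 2 ^ j * R1 → Mn u y s ≤ u y + 1 / 10 := by
    intro j
    induction j with
    | zero =>
      intro y s hs hys h
      rw [pow_zero, one_mul] at h
      have hy := norm_nonneg y
      have := ini y s (by linarith) hs (by linarith) h
      linarith
    | succ j ih =>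
      intro y s1 hs1 hys h
      have hy := norm_nonneg y
      set R : ℝ := 2 ^ j * R1 with hRdef
      have hRpos : 0 < R := by positivity
      have hRR1 : R1 ≤ R := by
        rw [hRdef]
        have : (1 : ℝ) ≤ 2 ^ j := one_le_pow₀ (by norm_num)
        nlinarith
      have h' : s1 * Real.exp (Mn u y s1) = 2 * R := by
        rw [h, hRdef, pow_succ]
        ring
      obtain ⟨s, hs, hss1, hsR⟩ := exists_scale hc hle1 hs1 (by linarith) hRpos
        (by rw [h']; linarith)
      have hl1 := log_eq hs1 h'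
      have hl := log_eq hs hsR
      rw [Real.log_mul (by norm_num) hRpos.ne'] at hl1
      -- `s1 / 2 ≤ s ≤ s1 / 1.9`
      have hm1 : Mn u y s ≤ Mn u y s1 := mono hM hu hs hss1 (by linarith)
      have hs2 : s1 ≤ 2 * s := by
        have h1 : Real.log s1 ≤ Real.log (2 * s) := by
          rw [Real.log_mul (by norm_num) hs.ne']
          linarith
        exact (Real.log_le_log_iff hs1 (by positivity)).1 h1
      have hm2 : Mn u y s1 ≤ Mn u y (2 * s) := mono hM hu hs1 hs2 (by linarith)
      have hd1 := dbl y s (by linarith) hs (by linarith)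
      have hs3 : 1.9 * s ≤ s1 := by
        have h1 : Real.log (1.9 * s) ≤ Real.log s1 := by
          rw [Real.log_mul (by norm_num) hs.ne']
          have h2 : Real.log 1.9 + 3 * ε ≤ Real.log 2 := by
            have h3 : Real.log 1.9 = Real.log 2 + Real.log 0.95 := by
              rw [← Real.log_mul (by norm_num) (by norm_num)]
              norm_num
            have h4 : Real.log 0.95 ≤ 0.95 - 1 := Real.log_le_sub_one_of_pos (by norm_num)
            linarith
          linarith
        exact (Real.log_le_log_iff (by positivity) hs1).1 h1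
      -- upper bound
      have hup : ∀ w, ‖w - y‖ ≤ s → u w ≤ Mn u y s + 1 / 5 := by
        intro w hw
        have h1 := upp y (2 * s) (by linarith) (by positivity) (by linarith) w (by linarith)
        linarith
      -- lower bound
      have hlo : ∀ w, ‖w - y‖ ≤ s → Mn u y s - 1 / 5 ≤ u w := by
        intro w hw
        have hw1 : ‖w‖ ≤ ‖y‖ + s := by
          have h1 := norm_add_le (w - y) y
          rw [sub_add_cancel] at h1
          linarith
        have e1 : Mn u y s ≤ Mn u w (4 * s) + 100 * ε := by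
          refine avg_le hc hs.le (by linarith) ?_
          intro x hx
          refine upp w (4 * s) (by linarith) (by positivity) (by linarith) x ?_
          have h1 := norm_sub_le (x - y) (w - y)
          have h2 : x - y - (w - y) = x - w := by ring
          rw [h2] at h1
          linarith
        have e2 := dbl w (2 * s) (by linarith) (by positivity) (by linarith)
        have e3 := dbl w s (by linarith) hs (by linarith)
        have e4 : Mn u w (4 * s) = Mn u w (2 * (2 * s)) := by
          congr 1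
          ring
        have e5 : Mn u y s ≤ Mn u w s + 106 * ε := by linarith
        have e6 : Mn u w s ≤ Mn u w (1.5 * s) := mono hM hu hs (by linarith) (by linarith)
        have e7 : R ≤ 1.5 * s * Real.exp (Mn u w (1.5 * s)) := by
          have h1 : Real.log R ≤ Real.log (1.5 * s * Real.exp (Mn u w (1.5 * s))) := by
            rw [Real.log_mul (by positivity) (Real.exp_pos _).ne', Real.log_exp,
              Real.log_mul (by norm_num) hs.ne']
            have h2 : (106 : ℝ) * ε ≤ Real.log 1.5 := by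
              have h3 : Real.log (1 / 1.5) ≤ 1 / 1.5 - 1 := Real.log_le_sub_one_of_pos (by norm_num)
              have h4 : Real.log (1 / 1.5) = - Real.log 1.5 := by
                rw [one_div, Real.log_inv]
              rw [h4] at h3
              norm_num at h3 ⊢
              linarith
            linarith
          exact (Real.log_le_log_iff hRpos (by positivity)).1 h1
        obtain ⟨sw, hsw, hsw1, hswR⟩ := exists_scale hc hle1 (w := w) (t := 1.5 * s)
          (by positivity) (by linarith) hRpos e7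
        have e8 := ih w sw hsw (by linarith) hswR
        have e9 : Mn u y s - 106 * ε ≤ Mn u w sw := by
          rcases le_total sw s with h1 | h1
          · have h2 := log_eq hsw hswR
            have h3 : Real.log sw ≤ Real.log s := Real.log_le_log hsw h1
            linarith
          · have h2 := mono hM hu (w := w) hs h1 (by linarith)
            linarith
        linarith
      have hnh := nh y s R hRR1 (by linarith) hs hsR fun w hw => ⟨hlo w hw, hup w hw⟩
      have d1 := dbl y (s / 8) (by linarith) (by positivity) (by linarith)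
      have d2 := dbl y (s / 4) (by linarith) (by positivity) (by linarith)
      have d3 := dbl y (s / 2) (by linarith) (by positivity) (by linarith)
      have f1 : Mn u y (2 * (s / 8)) = Mn u y (s / 4) := by congr 1; ring
      have f2 : Mn u y (2 * (s / 4)) = Mn u y (s / 2) := by congr 1; ring
      have f3 : Mn u y (2 * (s / 2)) = Mn u y s := by congr 1; ring
      linarith
  -- the end
  have n0 : ‖(0 : ℂ)‖ = 0 := norm_zero
  have g1 := dbl 0 (r / 16) (by rw [n0]; positivity) (by positivity) (by linarith)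
  have g2 := dbl 0 (r / 32) (by rw [n0]; positivity) (by positivity) (by linarith)
  have g3 := dbl 0 (r / 64) (by rw [n0]; positivity) (by positivity) (by linarith)
  have g4 := dbl 0 (r / 128) (by rw [n0]; positivity) (by positivity) (by linarith)
  have g5 := dbl 0 (r / 256) (by rw [n0]; positivity) (by positivity) (by linarith)
  have g6 := dbl 0 (r / 512) (by rw [n0]; positivity) (by positivity) (by linarith)
  have g7 := dbl 0 (r / 1024) (by rw [n0]; positivity) (by positivity) (by linarith)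
  have k1 : Mn u 0 (2 * (r / 16)) = Mn u 0 (r / 8) := by congr 1; ring
  have k2 : Mn u 0 (2 * (r / 32)) = Mn u 0 (r / 16) := by congr 1; ring
  have k3 : Mn u 0 (2 * (r / 64)) = Mn u 0 (r / 32) := by congr 1; ring
  have k4 : Mn u 0 (2 * (r / 128)) = Mn u 0 (r / 64) := by congr 1; ring
  have k5 : Mn u 0 (2 * (r / 256)) = Mn u 0 (r / 128) := by congr 1; ring
  have k6 : Mn u 0 (2 * (r / 512)) = Mn u 0 (r / 256) := by congr 1; ring
  have k7 : Mn u 0 (2 * (r / 1024)) = Mn u 0 (r / 512) := by congr 1; ring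
  have hmr : -(23 * ε) ≤ Mn u 0 (r / 1024) := by linarith
  set t : ℝ := r / 1024 with ht
  have htpos : 0 < t := by positivity
  set V : ℝ := t * Real.exp (Mn u 0 t) with hV
  have hVpos : 0 < V := by positivity
  have hRV : R1 ≤ V := by
    have h1 : (1 : ℝ) / 2 ≤ Real.exp (Mn u 0 t) := by
      have h2 := Real.add_one_le_exp (Mn u 0 t)
      linarith
    have h3 : t * (1 / 2) ≤ V := mul_le_mul_of_nonneg_left h1 htpos.le
    have h4 : 2 * R1 ≤ t := by
      rw [ht]
      linarith
    linarith
  obtain ⟨j, hj1, hj2⟩ : ∃ j : ℕ, 2 ^ j * R1 ≤ V ∧ V < 2 ^ (j + 1) * R1 := by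
    obtain ⟨j, hj1, hj2⟩ := exists_nat_pow_near (x := V / R1) (y := (2 : ℝ))
      (by rw [le_div_iff₀ (by linarith)]; linarith) (by norm_num)
    refine ⟨j, ?_, ?_⟩
    · rwa [le_div_iff₀ (by linarith)] at hj1
    · rwa [div_lt_iff₀ (by linarith)] at hj2
  have hjpos : (0 : ℝ) < 2 ^ j * R1 := by positivity
  obtain ⟨s, hs, hst, hsV⟩ := exists_scale hc hle1 (w := 0) htpos (by rw [n0]; linarith) hjpos hj1
  have hfin := ind j 0 s hs (by rw [n0]; linarith) hsV
  have hm : Mn u 0 s ≤ Mn u 0 t := mono hM hu hs hst (by rw [n0]; linarith)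
  have h2s : t ≤ 2 * s := by
    have h1 : V < 2 * (s * Real.exp (Mn u 0 s)) := by
      rw [hsV]
      calc V < 2 ^ (j + 1) * R1 := hj2
        _ = 2 * (2 ^ j * R1) := by rw [pow_succ]; ring
    have h2 : s * Real.exp (Mn u 0 s) ≤ s * Real.exp (Mn u 0 t) :=
      mul_le_mul_of_nonneg_left (Real.exp_le_exp.2 hm) hs.le
    have h3 : t * Real.exp (Mn u 0 t) < (2 * s) * Real.exp (Mn u 0 t) := by
      rw [hV] at h1
      linarith
    exact (lt_of_mul_lt_mul_right h3 (Real.exp_pos _).le).le
  have h3 := mono hM hu (w := 0) htpos h2s (by rw [n0]; linarith)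
  have h4 := dbl 0 s (by rw [n0]; positivity) hs (by linarith)
  linarith

end Pool.Agent.Helper65.NC.RIG
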