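import Pool.Agent.Helper65.NC.Stm2
import Pool.Agent.Helper65.NC.RIGA

/-!
Rigidity: two-sided bounds propagate from a small scale to a large scale.
-/

set_option autoImplicit false

open Filter Topology Metric Set

namespace Pool.Agent.Helper65.NC.RIG

open Pool.Agent.W602.GT Pool.Agent.N155.BB Pool.Agent.Y190.OP Pool.Agent.N155
  Pool.Agent.N155.GD Pool.Agent.Helper65.BF Pool.Agent.Helper65.GG

theorem exp_lg (N : ℝ) (f : ℂ → ℝ) (z : ℂ) :
    Real.exp (lg N f z) = max (f z) (Real.exp (-N)) :=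
  Real.exp_log (lt_max_of_lt_right (Real.exp_pos _))

/-- the value from the cut-off logarithm -/
theorem val_of_lg {N : ℝ} {f : ℂ → ℝ} {z : ℂ} (h : -N < lg N f z) :
    f z = Real.exp (lg N f z) := by
  rw [exp_lg]
  have h1 : Real.exp (-N) < max (f z) (Real.exp (-N)) := by
    rw [← exp_lg]
    exact Real.exp_lt_exp.2 h
  rcases max_choice (f z) (Real.exp (-N)) with h2 | h2
  · exact h2.symm
  · rw [h2] at h1
    exact absurd h1 (lt_irrefl _)

/-- change of variable -/
theorem avg_affine (g : ℂ → ℝ) (y : ℂ) (c t : ℝ) :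
    Real.circleAverage (fun ζ => g (y + c * ζ)) 0 t = Real.circleAverage g y (c * t) := by
  rw [Real.circleAverage_def, Real.circleAverage_def]
  congr 1
  refine intervalIntegral.integral_congr fun θ _ => ?_
  show g (y + c * circleMap 0 t θ) = g (circleMap y (c * t) θ)
  congr 1
  simp only [circleMap, zero_add]
  push_cast
  ring

/-- **RIG** -/
theorem main : S_MONO → S_RM → S_INI → S_NH → S_RIG := by
  intro hM hR hI hN n T Z ρ κ' η hJ hTc hT hND hRg
  obtain ⟨R4, hR4, hN⟩ := hN n T Z ρ κ' η hJ hTc hT hND hRg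
  obtain ⟨ε1, R5, hε1, hR5, hI⟩ := hI n T ρ hJ hTc hT hND (max 1 R4) (le_max_left _ _)
  set R1 : ℝ := max 1 R4 with hR1def
  have hR1 : 1 ≤ R1 := le_max_left _ _
  have hR14 : R4 ≤ R1 := le_max_right _ _
  set ε : ℝ := min ε1 (1 / 10000) with hεdef
  have hεpos : 0 < ε := lt_min hε1 (by norm_num)
  have hε' : ε ≤ 1 / 10000 := min_le_right _ _
  refine ⟨ε, max R5 (2048 * R1), hεpos, lt_max_of_lt_left hR5, ?_⟩
  intro φ r N hr hNr hφ hle h0
  have hr5 : R5 ≤ r := (le_max_left _ _).trans hr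
  have hr2 : 2048 * R1 ≤ r := (le_max_right _ _).trans hr
  have hr1 : 1 ≤ r := by linarith
  have hrpos : 0 < r := by linarith
  have hlogr : 0 ≤ Real.log r := Real.log_nonneg hr1
  have hSub := hJ.sub φ (ball 0 r) isOpen_ball hφ N
  have hle' : ∀ z ∈ ball (0 : ℂ) r, lg N (ρ φ) z ≤ ε := by
    intro z hz
    rw [← Real.exp_le_exp, exp_lg]
    exact max_le (hle z hz) (Real.exp_le_exp.2 (by linarith))
  have key := engine hM hR (lg N (ρ φ)) r ε R1 hrpos hεpos.le hε' hR1 hSub hle' h0 ?_ ?_ hr2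
  · -- the conclusion
    have h1 : ρ φ 0 = Real.exp (lg N (ρ φ) 0) := val_of_lg (by linarith)
    rw [h1]
    have h2 := Real.add_one_le_exp (lg N (ρ φ) 0)
    linarith
  · intro y s hy hs hs8 hsR
    exact hI φ r N ε y s hr5 hNr hεpos.le (min_le_left _ _) hφ hle h0 hy hs hs8 hsR
  · intro y s R hR1R hys hs hsR hb
    set m : ℝ := Mn (lg N (ρ φ)) y s with hm
    have hRpos : 0 < R := by linarith
    have hcpos : 0 < s / R := by positivity
    have hcm : s / R = Real.exp (-m) := by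
      rw [← hsR, Real.exp_neg, div_mul_eq_div_div, div_self hs.ne', one_div]
    have hy := norm_nonneg y
    have hmlow : -Real.log r ≤ m := by
      have h1 := log_eq hs hsR
      have h2 : 0 ≤ Real.log R := Real.log_nonneg (by linarith)
      have h3 : Real.log s ≤ Real.log r := Real.log_le_log hs (by linarith)
      linarith
    have hnorm : ∀ ζ : ℂ, ‖ζ‖ ≤ R → ‖(y + (s / R : ℝ) * ζ) - y‖ ≤ s := by
      intro ζ hζ
      rw [add_sub_cancel_left, norm_mul, Complex.norm_real, Real.norm_eq_abs,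
        abs_of_pos hcpos]
      calc s / R * ‖ζ‖ ≤ s / R * R := mul_le_mul_of_nonneg_left hζ hcpos.le
        _ = s := div_mul_cancel₀ _ hRpos.ne'
    have hval : ∀ ζ : ℂ, ‖ζ‖ ≤ R → ρ φ (y + (s / R : ℝ) * ζ) =
        Real.exp (lg N (ρ φ) (y + (s / R : ℝ) * ζ)) := by
      intro ζ hζ
      have h1 := (hb _ (hnorm ζ hζ)).1
      exact val_of_lg (by linarith)
    have hmaps : MapsTo (fun ζ : ℂ => y + (s / R : ℝ) * ζ) (ball 0 R) (ball 0 r) := by
      intro ζ hζ
      rw [mem_ball_zero_iff] at hζ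
      exact mem_ball_of hys (hnorm ζ hζ.le)
    have hdiff : Differentiable ℂ (fun ζ : ℂ => y + (s / R : ℝ) * ζ) := by fun_prop
    have hψ : CvOn T (ball 0 R) (fun ζ => φ (y + (s / R : ℝ) * ζ)) :=
      hφ.comp isOpen_ball hdiff.differentiableOn hmaps
    have hρ : ∀ ζ ∈ ball (0 : ℂ) R, ρ (fun ζ => φ (y + (s / R : ℝ) * ζ)) ζ =
        Real.exp (lg N (ρ φ) (y + (s / R : ℝ) * ζ) - m) := by
      intro ζ hζ
      rw [hJ.comp φ (ball 0 r) isOpen_ball hφ (ball 0 R) (fun ζ => y + (s / R : ℝ) * ζ) isOpen_ball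
        hdiff.differentiableOn hmaps ζ hζ]
      rw [mem_ball_zero_iff] at hζ
      have h1 : deriv (fun ζ : ℂ => y + (s / R : ℝ) * ζ) ζ = ((s / R : ℝ) : ℂ) := by
        have h2 : HasDerivAt (fun ζ : ℂ => y + (s / R : ℝ) * ζ) ((s / R : ℝ) : ℂ) ζ := by
          simpa using ((hasDerivAt_id ζ).const_mul ((s / R : ℝ) : ℂ)).const_add y
        exact h2.deriv
      rw [h1, Complex.norm_real, Real.norm_eq_abs, abs_of_pos hcpos, hval ζ hζ.le, hcm,
        ← Real.exp_add]
      congr 1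
      ring
    have hbd : ∀ ζ ∈ ball (0 : ℂ) R, 1 / 4 ≤ ρ (fun ζ => φ (y + (s / R : ℝ) * ζ)) ζ ∧
        ρ (fun ζ => φ (y + (s / R : ℝ) * ζ)) ζ ≤ 4 := by
      intro ζ hζ
      have h1 := hb _ (hnorm ζ (by rw [mem_ball_zero_iff] at hζ; exact hζ.le))
      rw [hρ ζ hζ]
      constructor
      · have h2 := Real.add_one_le_exp (lg N (ρ φ) (y + (s / R : ℝ) * ζ) - m)
        linarith [h1.1]
      · have h2 : Real.exp (lg N (ρ φ) (y + (s / R : ℝ) * ζ) - m) ≤ Real.exp 1 :=
          Real.exp_le_exp.2 (by linarith [h1.2])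
        have h3 := Real.exp_one_lt_d9
        linarith
    have hlg : ∀ ζ ∈ ball (0 : ℂ) R, lg 2 (ρ (fun ζ => φ (y + (s / R : ℝ) * ζ))) ζ =
        lg N (ρ φ) (y + (s / R : ℝ) * ζ) - m := by
      intro ζ hζ
      have h1 := hb _ (hnorm ζ (by rw [mem_ball_zero_iff] at hζ; exact hζ.le))
      have h2 : lg 2 (ρ (fun ζ => φ (y + (s / R : ℝ) * ζ))) ζ =
        Real.log (max (ρ (fun ζ => φ (y + (s / R : ℝ) * ζ)) ζ) (Real.exp (-2))) := rfl
      rw [h2, hρ ζ hζ, max_eq_left (Real.exp_le_exp.2 (by linarith [h1.1])), Real.log_exp]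
    have hN' := hN (fun ζ => φ (y + (s / R : ℝ) * ζ)) R (hR14.trans hR1R) hψ hbd
    have e1 : Real.circleAverage (lg 2 (ρ (fun ζ => φ (y + (s / R : ℝ) * ζ)))) 0 (R / 8) =
        Mn (lg N (ρ φ)) y (s / 8) - m := by
      have e2 : Real.circleAverage (lg 2 (ρ (fun ζ => φ (y + (s / R : ℝ) * ζ)))) 0 (R / 8) =
          Real.circleAverage (fun ζ => (fun w => lg N (ρ φ) w - m) (y + (s / R : ℝ) * ζ)) 0
            (R / 8) := by
        refine Real.circleAverage_congr_sphere ?_
        intro ζ hζ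
        rw [mem_sphere_zero_iff_norm, abs_of_pos (by positivity)] at hζ
        exact hlg ζ (by rw [mem_ball_zero_iff, hζ]; linarith)
      rw [e2, avg_affine (fun w => lg N (ρ φ) w - m) y (s / R) (R / 8)]
      have e3 : s / R * (R / 8) = s / 8 := by
        field_simp
      rw [e3]
      have e4 : CircleIntegrable (lg N (ρ φ)) y (s / 8) :=
        integ hSub.cont (by positivity) (by linarith)
      have e5 := Real.circleAverage_sub e4 (circleIntegrable_const m y (s / 8))
      rw [Real.circleAverage_const] at e5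
      exact e5
    have e0 : lg 2 (ρ (fun ζ => φ (y + (s / R : ℝ) * ζ))) 0 = lg N (ρ φ) y - m := by
      rw [hlg 0 (by rw [mem_ball_zero_iff, norm_zero]; exact hRpos)]
      simp
    rw [e1, e0] at hN'
    linarith

end Pool.Agent.Helper65.NC.RIG
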