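import Pool.Agent.Helper65.NC.TAU

set_option autoImplicit false

open Filter Topology Metric Set Real

namespace Pool.Agent.Helper65.NC.RM

open Pool.Agent.Helper65.NC Pool.Agent.Helper65.NC.TAU

lemma osc {u : ℂ → ℝ} {z : ℂ} {R T ε : ℝ} (hP : S_POI) (hC : S_CONV) (hT : 0 < T)
    (hR : 4 * T < R) (hu : SubM u (ball z R)) (hε : ∀ w ∈ ball z R, u w ≤ ε) (hε0 : 0 ≤ ε)
    (hlow : ∀ S, T ≤ S → S ≤ 2 * T → -(2 * ε) ≤ circleAverage u z S) :
    ∀ (m : ℕ) (s : ℝ), 0 < s → s ≤ 2 * T → T ≤ 2 ^ m * s → ∀ κ : ℝ, 0 ≤ κ → κ ≤ 1 / 2 →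
      ∀ w, ‖w - z‖ ≤ κ * s → PI u z s w ≤ circleAverage u z s + 24 * κ * ε := by
  have base : ∀ s, T ≤ s → s ≤ 2 * T → ∀ κ : ℝ, 0 ≤ κ → κ ≤ 1 / 2 →
      ∀ w, ‖w - z‖ ≤ κ * s → PI u z s w ≤ circleAverage u z s + 24 * κ * ε := by
    intro s h1 h2 κ hκ0 hκ w hw
    have h3 := (key hP (by linarith) (by linarith) hu hε hκ0 hκ hw).2.2
    have h4 := hlow s h1 h2
    have h5 : κ * (ε - circleAverage u z s) ≤ κ * (3 * ε) :=
      mul_le_mul_of_nonneg_left (by linarith) hκ0
    have h6 : 0 ≤ κ * ε := by positivity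
    linarith
  intro m
  induction m with
  | zero =>
    intro s hs hs2 hs3
    rw [pow_zero, one_mul] at hs3
    exact base s hs3 hs2
  | succ m ih =>
    intro s hs hs2 hs3 κ hκ0 hκ w hw
    by_cases hsT : T ≤ s
    · exact base s hsT hs2 κ hκ0 hκ w hw
    · push Not at hsT
      have h1 := ih (2 * s) (by linarith) (by linarith) (by rw [pow_succ] at hs3; linarith)
        (κ / 2) (by linarith) (by linarith) w (by linarith)
      have hi := inc hC hT hR hu hε hlow (m + 1) s hs hs2 hs3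
      have hc2 : ContinuousOn u (sphere z (2 * s)) := hu.cont.mono (sph (by linarith))
      have hc1 : ContinuousOn u (sphere z s) := hu.cont.mono (sph (by linarith))
      obtain ⟨hPc, hPi⟩ := hP.2.1 u z s (2 * s) hs (by linarith) hc2
      have hwb : w ∈ ball z s := by
        rw [mem_ball, dist_eq_norm]
        nlinarith
      have hPs : ContinuousOn (PI u z (2 * s)) (sphere z s) := hPc.mono (sph (by linarith))
      -- g = P_{2s} - u
      have hg0 : ∀ ζ ∈ sphere z s, 0 ≤ PI u z (2 * s) ζ - u ζ := by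
        intro ζ hζ
        have := hP.1 u z (2 * s) R (by linarith) (by linarith) hu ζ (sph (by linarith) hζ)
        linarith
      have h2 := (hP.2.2 (fun ζ => PI u z (2 * s) ζ - u ζ) z s κ hs hκ0 hκ (hPs.sub hc1) hg0 w
        hw).1
      rw [PI_sub hs hPs hc1 hwb, mean_sub hs hPs hc1, hPi w hwb] at h2
      have h3 : circleAverage (PI u z (2 * s)) z s = circleAverage u z (2 * s) := by
        rw [← PI_center hs, hPi z (mem_ball_self hs), PI_center (by linarith)]
      rw [h3] at h2
      have h4 := (abs_le.1 h2).1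
      have h5 : κ * (circleAverage u z (2 * s) - circleAverage u z s) ≤ κ * (3 * ε) :=
        mul_le_mul_of_nonneg_left hi hκ0
      linarith

theorem main : S_POI → S_MONO → S_CONV → S_RM := by
  intro hP _ hC u c r ε hr hε0 hu hε h0 z hz
  have hz' : ‖z - c‖ ≤ r / 64 := by simpa [dist_eq_norm] using hz
  have hsub : ball z (r - ‖z - c‖) ⊆ ball c r := by
    intro x hx
    rw [mem_ball, dist_eq_norm] at hx ⊢
    have := norm_add_le (x - z) (z - c)
    rw [sub_add_sub_cancel] at this
    linarith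
  have hu' := SubM.mono' hu hsub
  have hε' : ∀ w ∈ ball z (r - ‖z - c‖), u w ≤ ε := fun w hw => hε w (hsub hw)
  have hlow : ∀ S, r / 8 ≤ S → S ≤ 2 * (r / 8) → -(2 * ε) ≤ circleAverage u z S := by
    intro S h1 h2
    have h3 : circleAverage u c (r / 32) ≤ ε - 1 / 3 * (ε - circleAverage u z S) := by
      apply circleAverage_mono_on_of_le_circle
      · apply ci (by linarith)
        exact hu.cont.mono (sph (by linarith))
      · intro w hw
        rw [abs_of_pos (by linarith), mem_sphere_iff_norm] at hw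
        have h4 := norm_add_le (w - c) (c - z)
        rw [sub_add_sub_cancel, norm_sub_rev c z] at h4
        have h5 := key hP (κ := 1 / 2) (w := w) (S := S) (by linarith) (by linarith) hu' hε'
          (by norm_num) le_rfl (by linarith)
        linarith [h5.1, h5.2.1]
    linarith
  have hT : 0 < r / 8 := by linarith
  have hR : 4 * (r / 8) < r - ‖z - c‖ := by linarith
  refine ⟨fun s hs hs4 => ?_, fun s h1 h2 => hlow s h1 (by linarith)⟩
  obtain ⟨m, hm⟩ : ∃ m : ℕ, r / 8 ≤ 2 ^ m * s := by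
    obtain ⟨m, hm⟩ := pow_unbounded_of_one_lt (r / 8 / s) (one_lt_two)
    refine ⟨m, ?_⟩
    rw [div_lt_iff₀ hs] at hm
    exact hm.le
  refine ⟨?_, fun w hw => ?_⟩
  · have := inc hC hT hR hu' hε' hlow m s hs (by linarith) hm
    linarith
  · have hw' : ‖w - z‖ ≤ 1 / 2 * s := by
      have : ‖w - z‖ ≤ s / 2 := by simpa [dist_eq_norm] using hw
      linarith
    have h1 := osc hP hC hT hR hu' hε' hε0 hlow m s hs (by linarith) hm (1 / 2) (by norm_num)
      le_rfl w hw'
    have h2 := (key hP hs (by linarith) hu' hε' (by norm_num) le_rfl hw').2.1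
    linarith

end Pool.Agent.Helper65.NC.RM
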