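import Pool.Agent.Helper65.NC.Stm2

/-!
Module SCH (helper37 for helper65): a Schwarz lemma for the length function
(adaptation of the Schwarz lemma of `Pool.Agent.Helper65.GG.Base`).
-/

set_option autoImplicit false

open Filter Topology Metric MvPolynomial Set

namespace Pool.Agent.Helper65.NC.SCH

open Pool.Agent.W602.GT Pool.Agent.N155.BB Pool.Agent.Y190.OP Pool.Agent.N155
  Pool.Agent.N155.GD Pool.Agent.Helper65.BF Pool.Agent.Helper65.GG Pool.Agent.Helper65.NC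

variable {n : ℕ} {T : Set (Mat (n + 1))} {ρ : (ℂ → Mat (n + 1)) → ℂ → ℝ}

/-- **A Schwarz lemma** on the unit disc. -/
theorem schwarz_one (hL : S_LIM) (hJ : JR T ρ) (hT : IsCompact T) (hTP : T ⊆ PM)
    (hnd : NDr T ρ) : ∃ C0 : ℝ, 1 ≤ C0 ∧ ∀ φ : ℂ → Mat (n + 1), CvOn T (ball 0 1) φ →
      (∀ w ∈ ball (0 : ℂ) 1, ρ φ w ≤ 1) → ‖fderiv ℝ φ 0‖ ≤ C0 := by
  by_contra hcon
  push Not at hcon
  have h1 : ∀ m : ℕ, ∃ φ : ℂ → Mat (n + 1), CvOn T (ball 0 1) φ ∧
      (∀ w ∈ ball (0 : ℂ) 1, ρ φ w ≤ 1) ∧ 2 * (2 * ((m : ℝ) + 1)) < ‖fderiv ℝ φ 0‖ := by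
    intro m
    obtain ⟨φ, h1, h2, h3⟩ := hcon (2 * (2 * ((m : ℝ) + 1))) (by
      have : (0 : ℝ) ≤ m := Nat.cast_nonneg m
      linarith)
    exact ⟨φ, h1, h2, h3⟩
  choose φ hφ hφG hφd using h1
  have h2 := fun m : ℕ => rescale' (M := 2 * ((m : ℝ) + 1)) (by positivity) (hφ m) (hφd m)
  choose a s hs hsM hmaps hd2 hd0 using h2
  have hsub1 : ∀ m : ℕ, ball (0 : ℂ) ((m : ℝ) + 1) ⊆ ball (0 : ℂ) (2 * ((m : ℝ) + 1)) := fun m =>
    ball_subset_ball (by
      have : (0 : ℝ) ≤ m := Nat.cast_nonneg m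
      linarith)
  set h : ℕ → ℂ → Mat (n + 1) := fun m z => φ m (aff (a m) (s m) z) with hh
  have hH : ∀ m : ℕ, CvOn T (ball 0 (m + 1 : ℝ)) (h m) := fun m =>
    (hφ m).comp isOpen_ball (aff_diff _ _).differentiableOn ((hmaps m).mono_left (hsub1 m))
  have hHd : ∀ m : ℕ, ∀ z ∈ ball (0 : ℂ) (m + 1 : ℝ), ‖fderiv ℝ (h m) z‖ ≤ 2 := fun m z hz =>
    hd2 m z (ball_subset_ball (by linarith) hz)
  obtain ⟨H, hHB, hCC, hcof, htd⟩ := limit_growing hT hTP hH (fun m z hz =>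
    hHd m z (ball_subset_ball (by
      have : (0 : ℝ) ≤ m := Nat.cast_nonneg m
      linarith) hz))
  have hG0 : ∀ z, ρ H z = 0 := by
    intro z
    set R : ℝ := ‖z‖ + 1 with hR
    have hRp : 0 < R := by positivity
    have hzR : z ∈ ball (0 : ℂ) R := mem_ball_zero_iff.2 (by linarith)
    have h3 := hL n T ρ hJ hTP (hyperfilter ℕ) h H R hRp (by
      filter_upwards [hcof R] with m hm
      have hb : ball (0 : ℂ) R ⊆ ball (0 : ℂ) (m + 1 : ℝ) := ball_subset_ball (by linarith)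
      exact ⟨(hH m).mono hb, fun w hw => hHd m w (hb hw)⟩) (hCC R hRp)
      ⟨hHB.hol.mono (subset_univ _), fun w _ => hHB.mem w⟩ z hzR
    have h4 : Tendsto (fun m => ρ (h m) z) ((hyperfilter ℕ : Ultrafilter ℕ) : Filter ℕ) (𝓝 0) := by
      have h5 : ∀ᶠ m : ℕ in ((hyperfilter ℕ : Ultrafilter ℕ) : Filter ℕ),
          ρ (h m) z ≤ 1 / ((m : ℝ) + 1) := by
        filter_upwards [hcof R] with m hm
        have hzm : z ∈ ball (0 : ℂ) ((m : ℝ) + 1) := ball_subset_ball (by linarith) hzR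
        have h6 := hJ.comp (φ m) (ball 0 1) isOpen_ball (hφ m) (ball 0 ((m : ℝ) + 1)) (aff (a m) (s m))
          isOpen_ball (aff_diff _ _).differentiableOn ((hmaps m).mono_left (hsub1 m)) z hzm
        have h7 : ρ (h m) z = ‖deriv (aff (a m) (s m)) z‖ * ρ (φ m) (aff (a m) (s m) z) := h6
        rw [h7, deriv_aff, Complex.norm_real, Real.norm_of_nonneg (hs m).le]
        have h8 : s m ≤ 1 / ((m : ℝ) + 1) := by
          refine (hsM m).trans (one_div_le_one_div_of_le (by positivity) ?_)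
          have : (0 : ℝ) ≤ m := Nat.cast_nonneg m
          linarith
        calc s m * ρ (φ m) (aff (a m) (s m) z) ≤ s m * 1 :=
              mul_le_mul_of_nonneg_left (hφG m _ (hmaps m (hsub1 m hzm))) (hs m).le
          _ ≤ _ := by rw [mul_one]; exact h8
      have hle : ((hyperfilter ℕ : Ultrafilter ℕ) : Filter ℕ) ≤ atTop := by
        rw [← Nat.cofinite_eq_atTop]
        exact hyperfilter_le_cofinite
      have h6 : Tendsto (fun m : ℕ => 1 / ((m : ℝ) + 1))
          ((hyperfilter ℕ : Ultrafilter ℕ) : Filter ℕ) (𝓝 0) :=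
        tendsto_one_div_add_atTop_nhds_zero_nat.mono_left hle
      exact squeeze_zero' (Eventually.of_forall fun m => hJ.nonneg _ _) h5 h6
    exact tendsto_nhds_unique h3 h4
  have h5 := hnd H hHB hG0 0
  have h6 := (htd 0).norm
  rw [h5, norm_zero] at h6
  have h7 : (fun m => ‖fderiv ℝ (h m) 0‖) = fun _ => (1 : ℝ) := funext fun m => hd0 m
  rw [h7] at h6
  exact zero_ne_one (tendsto_nhds_unique h6 tendsto_const_nhds)

/-- **A Schwarz lemma.** -/
theorem main : S_LIM → S_SCH := by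
  intro hL n T ρ hJ hT hTP hnd
  obtain ⟨C0, hC0, h⟩ := schwarz_one hL hJ hT hTP hnd
  refine ⟨C0, hC0, fun φ z s hs hφ hG => ?_⟩
  have hmaps : MapsTo (aff z s) (ball 0 1) (ball z s) := by
    intro w hw
    rw [mem_ball_zero_iff] at hw
    rw [mem_ball, dist_eq_norm]
    unfold aff
    rw [add_sub_cancel_left, norm_mul, Complex.norm_real, Real.norm_of_nonneg hs.le]
    nlinarith
  have h1 := h (fun w => φ (aff z s w)) (hφ.comp isOpen_ball (aff_diff _ _).differentiableOn hmaps)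
    (fun w hw => by
      rw [hJ.comp φ (ball z s) isOpen_ball hφ (ball 0 1) (aff z s) isOpen_ball
        (aff_diff _ _).differentiableOn hmaps w hw, deriv_aff,
        Complex.norm_real, Real.norm_of_nonneg hs.le]
      exact hG _ (hmaps hw))
  have h0 : aff z s 0 = z := by simp [aff]
  have h2 := norm_fderiv_aff (Ψ := φ) (a := z) (ρ := s) hs.le (z := 0) (by
    rw [h0]
    exact hφ.1.differentiableAt (mem_ball_self hs))
  rw [h0] at h2
  rw [h2] at h1
  rw [le_div_iff₀ hs]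
  linarith

end Pool.Agent.Helper65.NC.SCH
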