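import Pool.Agent.Helper65.NC.Stm

set_option autoImplicit false

open Filter Topology Metric Set Real

namespace Pool.Agent.Helper65.NC.TAU

open Pool.Agent.Helper65.NC

lemma ci {f : ℂ → ℝ} {c : ℂ} {t : ℝ} (ht : 0 < t) (hf : ContinuousOn f (sphere c t)) :
    CircleIntegrable f c t := hf.circleIntegrable ht.le

lemma mean_sub {f g : ℂ → ℝ} {c : ℂ} {t : ℝ} (ht : 0 < t) (hf : ContinuousOn f (sphere c t))
    (hg : ContinuousOn g (sphere c t)) :
    circleAverage (fun z => f z - g z) c t = circleAverage f c t - circleAverage g c t :=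
  circleAverage_fun_sub (ci ht hf) (ci ht hg)

lemma kerc {c w : ℂ} {t : ℝ} (hw : w ∈ ball c t) :
    ContinuousOn (fun ζ : ℂ => (‖ζ - c‖ ^ 2 - ‖w - c‖ ^ 2) / ‖ζ - w‖ ^ 2) (sphere c t) := by
  apply ContinuousOn.div (by fun_prop) (by fun_prop)
  intro ζ hζ
  have h1 : ζ ≠ w := by
    rintro rfl
    rw [mem_sphere] at hζ
    rw [mem_ball] at hw
    linarith
  have : 0 < ‖ζ - w‖ := norm_pos_iff.2 (sub_ne_zero.2 h1)
  positivity

lemma PI_sub {f g : ℂ → ℝ} {c w : ℂ} {t : ℝ} (ht : 0 < t) (hf : ContinuousOn f (sphere c t))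
    (hg : ContinuousOn g (sphere c t)) (hw : w ∈ ball c t) :
    PI (fun z => f z - g z) c t w = PI f c t w - PI g c t w := by
  refine Eq.trans ?_ (circleAverage_fun_sub (ci ht ((kerc hw).mul hf)) (ci ht ((kerc hw).mul hg)))
  unfold PI
  congr 1
  funext ζ
  ring

lemma PI_zero {c w : ℂ} {t : ℝ} : PI (fun _ => 0) c t w = 0 := by
  unfold PI
  simp only [mul_zero]
  exact circleAverage_const 0 c t

lemma PI_const (h : S_POI) {c w : ℂ} {t a : ℝ} (ht : 0 < t) (hw : w ∈ ball c t) :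
    PI (fun _ => a) c t w = a := by
  have hS : ∀ b : ℝ, SubM (fun _ => b) (ball c (t + 1)) := fun b =>
    ⟨continuousOn_const, fun z s _ _ => (circleAverage_const b z s).ge⟩
  have h1 := h.1 (fun _ => a) c t (t + 1) ht (by linarith) (hS a) w hw
  have h2 := h.1 (fun _ => 0 - a) c t (t + 1) ht (by linarith) (hS (0 - a)) w hw
  have h3 : PI (fun _ => 0 - a) c t w = PI (fun _ => 0) c t w - PI (fun _ => a) c t w :=
    PI_sub ht continuousOn_const continuousOn_const hw
  rw [h3, PI_zero] at h2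
  linarith

lemma PI_center {f : ℂ → ℝ} {c : ℂ} {t : ℝ} (ht : 0 < t) :
    PI f c t c = circleAverage f c t := by
  unfold PI
  apply circleAverage_congr_sphere
  intro ζ hζ
  rw [abs_of_pos ht, mem_sphere_iff_norm] at hζ
  simp only [sub_self, norm_zero]
  rw [hζ]
  have : t ≠ 0 := ht.ne'
  field_simp
  ring

lemma SubM.mono' {u : ℂ → ℝ} {U V : Set ℂ} (h : SubM u U) (hV : V ⊆ U) : SubM u V :=
  ⟨h.cont.mono hV, fun z s hs hc => h.sub z s hs (hc.trans hV)⟩

lemma sph {z : ℂ} {s R : ℝ} (h : s < R) : sphere z s ⊆ ball z R := by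
  intro x hx
  rw [mem_sphere] at hx
  rw [mem_ball]
  linarith

lemma mean_le {u : ℂ → ℝ} {z : ℂ} {R s ε : ℝ} (hs : 0 < s) (hsR : s < R)
    (hu : SubM u (ball z R)) (hε : ∀ w ∈ ball z R, u w ≤ ε) : circleAverage u z s ≤ ε := by
  apply circleAverage_mono_on_of_le_circle (ci hs (hu.cont.mono (sph hsR)))
  intro x hx
  rw [abs_of_pos hs] at hx
  exact hε x (sph hsR hx)

lemma key (h : S_POI) {u : ℂ → ℝ} {z w : ℂ} {R S ε κ : ℝ} (hS : 0 < S) (hSR : S < R)
    (hu : SubM u (ball z R)) (hε : ∀ w ∈ ball z R, u w ≤ ε) (hκ0 : 0 ≤ κ) (hκ : κ ≤ 1 / 2)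
    (hw : ‖w - z‖ ≤ κ * S) :
    1 / 3 * (ε - circleAverage u z S) ≤ ε - PI u z S w ∧ u w ≤ PI u z S w ∧
      PI u z S w ≤ circleAverage u z S + 4 * κ * (ε - circleAverage u z S) := by
  have hwb : w ∈ ball z S := by
    rw [mem_ball, dist_eq_norm]
    nlinarith
  have hc : ContinuousOn u (sphere z S) := hu.cont.mono (sph hSR)
  have h1 := h.1 u z S R hS hSR hu w hwb
  have hc2 : ContinuousOn (fun x => ε - u x) (sphere z S) := continuousOn_const.sub hc
  have h2 := h.2.2 (fun x => ε - u x) z S κ hS hκ0 hκ hc2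
    (fun ζ hζ => by
      have := hε ζ (sph hSR hζ)
      change 0 ≤ ε - u ζ
      linarith) w hw
  have h3 : PI (fun x => ε - u x) z S w = PI (fun _ => ε) z S w - PI u z S w :=
    PI_sub (f := fun _ => ε) hS continuousOn_const hc hwb
  have h4 : circleAverage (fun x => ε - u x) z S = ε - circleAverage u z S := by
    rw [mean_sub (f := fun _ => ε) hS continuousOn_const hc, circleAverage_const]
  rw [h3, h4, PI_const h hS hwb] at h2
  have h5 := abs_le.1 h2.1
  refine ⟨h2.2, h1, ?_⟩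
  linarith [h5.1]

lemma inc {u : ℂ → ℝ} {z : ℂ} {R T ε : ℝ} (hC : S_CONV) (hT : 0 < T) (hR : 4 * T < R)
    (hu : SubM u (ball z R)) (hε : ∀ w ∈ ball z R, u w ≤ ε)
    (hlow : ∀ S, T ≤ S → S ≤ 2 * T → -(2 * ε) ≤ circleAverage u z S) :
    ∀ (m : ℕ) (s : ℝ), 0 < s → s ≤ 2 * T → T ≤ 2 ^ m * s →
      circleAverage u z (2 * s) - circleAverage u z s ≤ 3 * ε := by
  have base : ∀ s, T ≤ s → s ≤ 2 * T →
      circleAverage u z (2 * s) - circleAverage u z s ≤ 3 * ε := by
    intro s h1 h2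
    have h3 := mean_le (s := 2 * s) (by linarith) (by linarith) hu hε
    have h4 := hlow s h1 h2
    linarith
  intro m
  induction m with
  | zero =>
    intro s hs hs2 hs3
    rw [pow_zero, one_mul] at hs3
    exact base s hs3 hs2
  | succ m ih =>
    intro s hs hs2 hs3
    by_cases hsT : T ≤ s
    · exact base s hsT hs2
    · push Not at hsT
      have h1 := ih (2 * s) (by linarith) (by linarith) (by rw [pow_succ] at hs3; linarith)
      have h2 := hC u z s R hs (by linarith) hu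
      rw [show 2 * (2 * s) = 4 * s by ring] at h1
      linarith

lemma low {u : ℂ → ℝ} {z : ℂ} {R T ε : ℝ} (hC : S_CONV) (hT : 0 < T) (hR : 4 * T < R)
    (hε0 : 0 ≤ ε)
    (hu : SubM u (ball z R)) (hε : ∀ w ∈ ball z R, u w ≤ ε)
    (hlow : ∀ S, T ≤ S → S ≤ 2 * T → -(2 * ε) ≤ circleAverage u z S) :
    ∀ (m : ℕ) (s : ℝ), 0 < s → s ≤ 2 * T → T ≤ 2 ^ m * s →
      -((3 * m + 2) * ε) ≤ circleAverage u z s := by
  intro m
  induction m with
  | zero =>
    intro s hs hs2 hs3
    rw [pow_zero, one_mul] at hs3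
    have := hlow s hs3 hs2
    push_cast
    linarith
  | succ m ih =>
    intro s hs hs2 hs3
    by_cases hsT : T ≤ s
    · have h1 := hlow s hsT hs2
      have h2 : 0 ≤ (m : ℝ) * ε := by positivity
      push_cast
      linarith
    · push Not at hsT
      have h1 := ih (2 * s) (by linarith) (by linarith) (by rw [pow_succ] at hs3; linarith)
      have h2 := inc hC hT hR hu hε hlow (m + 1) s hs hs2 hs3
      push_cast
      linarith

theorem main : S_POI → S_MONO → S_CONV → S_TAU := by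
  intro hP _ hC u Δ ε hΔ hε0 hu hε h0 z hz m s hs hs4 hm
  have hz' : ‖z‖ ≤ Δ / 16 := by simpa [dist_eq_norm] using hz
  have hsub : ball z (Δ - ‖z‖) ⊆ ball (0 : ℂ) Δ := by
    intro x hx
    rw [mem_ball, dist_eq_norm] at hx ⊢
    have := norm_add_le (x - z) z
    rw [sub_add_cancel] at this
    rw [sub_zero]
    linarith
  have hu' := SubM.mono' hu hsub
  have hε' : ∀ w ∈ ball z (Δ - ‖z‖), u w ≤ ε := fun w hw => hε w (hsub hw)
  refine low (T := Δ / 8) (R := Δ - ‖z‖) hC (by linarith) (by linarith) hε0 hu' hε' ?_ m s hs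
    (by linarith) hm
  intro S h1 h2
  have h3 := key hP (κ := 1 / 2) (w := 0) (by linarith) (by linarith) hu' hε' (by norm_num)
    le_rfl (by rw [zero_sub, norm_neg]; linarith)
  linarith [h3.1, h3.2.1]

end Pool.Agent.Helper65.NC.TAU
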