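import Pool.Agent.Helper65.NC.Stm2
import Pool.Graph.R_pool_sql_team_seeded_63374d34.N155.G.Gss

set_option autoImplicit false

open Filter Topology Metric MvPolynomial Set

namespace Pool.Agent.Helper65.NC.TRK

open Pool.Agent.W602.GT Pool.Agent.N155.BB Pool.Agent.Y190.OP Pool.Agent.N155
  Pool.Agent.N155.GD Pool.Agent.Helper65.BF Pool.Agent.Helper65.GG Pool.Agent.Helper65.NC

theorem main : S_TRK := by
  intro N T Z c0 𝒞 𝒟 κ' ω hG hZ hd
  have h : Cls T c0 𝒞 := hd.cls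
  have hc0 := h.pos
  obtain ⟨r0, c1, hr0, hc1, hinj0⟩ := h.inj
  set r : ℝ := min r0 (c0 / 4) with hrdef
  have hr : 0 < r := by positivity
  have hi : Inj r c1 𝒞 := by
    intro φ hφ z t ht
    exact hinj0 φ hφ z t (ht.trans (by linarith [min_le_left r0 (c0 / 4)]))
  obtain ⟨η0, hη0, hule⟩ := h.ule hr
  set η : ℝ := min (min (η0 / 2) 1) (min (r / 8) (min (c0 * (r / 16)) (c1 * (r / 32)))) with hηdef
  have hη : 0 < η := by positivity
  have e1 : η ≤ η0 / 2 := (min_le_left _ _).trans (min_le_left _ _)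
  have e2 : η ≤ 1 := (min_le_left _ _).trans (min_le_right _ _)
  have e3 : η ≤ r / 8 := (min_le_right _ _).trans (min_le_left _ _)
  have e4 : η ≤ c0 * (r / 16) := (min_le_right _ _).trans ((min_le_right _ _).trans
    (min_le_left _ _))
  have e5 : η ≤ c1 * (r / 32) := (min_le_right _ _).trans ((min_le_right _ _).trans
    (min_le_right _ _))
  have hηc : 2 / c0 * η ≤ r / 8 := by
    rw [div_mul_eq_mul_div, div_le_iff₀ hc0]
    linarith
  have hηη : η < η0 := by linarith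
  obtain ⟨ρ, δ, θ, hρ, hδ, hθ0, hθ, hCT⟩ := contr_d hG hZ hd hi hr hc1 hη (by linarith) hηη hule
  obtain ⟨κ, hκ, hκθ⟩ := exists_kappa hρ hθ0 hθ
  set δ' : ℝ := min (min δ 1) (c1 * (r / 32)) with hδ'
  have hδ'0 : 0 < δ' := by positivity
  have hδ'1 : δ' ≤ δ := (min_le_left _ _).trans (min_le_left _ _)
  have hδ'3 : δ' ≤ 1 := (min_le_left _ _).trans (min_le_right _ _)
  have hδ'2 : δ' ≤ c1 * (r / 32) := min_le_right _ _
  have hsm' : 2 * δ' + 2 * η ≤ c1 * (r / 8) := by linarith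
  obtain ⟨R1, hR1, htr⟩ := exists_track hd hi hr hc1 hη e2 e3 hηc hsm' hηη hule hCT hρ hδ'0 hδ'1
    hκ hκθ hθ0.le
  refine ⟨100 * (R1 + ρ + 1), κ / 2, 2 / c1, η, by positivity, by positivity, by positivity, hη,
    fun R P hR hP => ?_⟩
  obtain ⟨Q, g, hQ, ht⟩ := htr R P (by linarith) hP
  have hLip : LipB (R - R1) P := hd.lipB hP (by linarith)
  have hbar : ∀ z : ℂ, ‖z‖ ≤ R / 2 + 1 → EN r P Q z (g z) ≤ Real.exp (-(κ / 2) * R ^ 2) := by
    intro z hz
    have hz' : z ∈ closedBall (0 : ℂ) (R - R1) := by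
      rw [mem_closedBall_zero_iff]
      linarith
    refine (barrierd hd hi hr hc1 hη hsm' hCT hP hQ hρ hδ'0.le hδ'1 hκ.le hκθ hθ0.le
      (by linarith) (by linarith) ht z hz').trans ?_
    refine (mul_le_of_le_one_left (Real.exp_pos _).le hδ'3).trans ?_
    apply Real.exp_le_exp.2
    have h0 := norm_nonneg z
    have h1 : ‖z‖ ^ 2 ≤ (51 / 100 * R) ^ 2 := pow_le_pow_left₀ h0 (by linarith) 2
    have h2 : (99 / 100 * R) ^ 2 ≤ (R - R1 - ρ) ^ 2 :=
      pow_le_pow_left₀ (by linarith) (by linarith) 2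
    nlinarith [sq_nonneg R]
  have hnear : ∀ z : ℂ, ∃ w : ℂ, ‖z‖ ≤ R / 2 + 1 →
      ‖w - g z‖ ≤ r / 8 ∧ ‖P z - Q w‖ ≤ Real.exp (-(κ / 2) * R ^ 2) := by
    intro z
    by_cases hz : ‖z‖ ≤ R / 2 + 1
    · have hz' : z ∈ closedBall (0 : ℂ) (R - R1) := by
        rw [mem_closedBall_zero_iff]
        linarith
      obtain ⟨w, hw1, hw2⟩ := neard h hi hr hc1 hη hsm' hQ ht hz'
      refine ⟨w, fun _ => ⟨hw1, ?_⟩⟩
      rw [← hw2]
      exact hbar z hz
    · exact ⟨0, fun hz' => absurd hz' hz⟩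
  choose f hf using hnear
  refine ⟨Q, f, hQ, fun z hz => (hf z hz).2, fun z z' hz hz' hzz => ?_⟩
  have hm : z ∈ closedBall (0 : ℂ) (R - R1) := by
    rw [mem_closedBall_zero_iff]
    linarith
  have hm' : z' ∈ closedBall (0 : ℂ) (R - R1) := by
    rw [mem_closedBall_zero_iff]
    linarith
  have h1 := stepd hi hr hc1 hsm' hLip hQ ht hm hm' hzz
  have h2 : ‖f z - f z'‖ ≤ 2 * r := by
    have e1 : f z - f z' = (f z - g z) + (g z - g z') - (f z' - g z') := by ring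
    rw [e1]
    have k1 := norm_sub_le ((f z - g z) + (g z - g z')) (f z' - g z')
    have k2 := norm_add_le (f z - g z) (g z - g z')
    have k3 := (hf z hz).1
    have k4 := (hf z' hz').1
    linarith
  have h3 := impd hi hQ (hLip z hm z' hm') (hf z hz).2 (hf z' hz').2 h2
  rw [div_mul_eq_mul_div, le_div_iff₀ hc1]
  linarith

end Pool.Agent.Helper65.NC.TRK
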