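import Pool.Agent.Helper65.NC.Stm2

/-!
Two-sided bounds for the derivative.
-/

set_option autoImplicit false

open Filter Topology Metric MvPolynomial Set

namespace Pool.Agent.Helper65.NC.TWO

open Pool.Agent.W602.GT Pool.Agent.N155.BB Pool.Agent.Y190.OP Pool.Agent.N155
  Pool.Agent.N155.GD Pool.Agent.Helper65.BF Pool.Agent.Helper65.GG Pool.Agent.Helper65.NC

theorem main : S_SCH → S_TWO := by
  intro hSCH n T ρ hJ hT hTP hnd
  obtain ⟨C0, hC0, h⟩ := hSCH n T ρ hJ hT hTP hnd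
  obtain ⟨C, α, hC, hα, hbd⟩ := hJ.small
  have hC0p : 0 < C0 := by linarith
  set r : ℝ := 1 / (2 * C0) with hr
  have hrp : 0 < r := by positivity
  have hr1 : r ≤ 1 := by
    rw [hr, div_le_one (by positivity)]
    linarith
  refine ⟨(r / (4 * (C + 1))) ^ (1 / α), 4 * C0, by positivity, by positivity,
    fun φ z hφ hG => ?_⟩
  have hup : ∀ w ∈ ball z 1, ‖fderiv ℝ φ w‖ ≤ 4 * C0 := by
    intro w hw
    have hsub : ball w (1 / 4) ⊆ ball z 2 := by
      intro v hv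
      rw [mem_ball] at hw hv ⊢
      have := dist_triangle v w z
      linarith
    have h1 := h φ w (1 / 4) (by norm_num) (hφ.mono hsub) (fun v hv => by
      have h2 := (hG v (hsub hv)).2
      linarith)
    have e : C0 / (1 / 4) = 4 * C0 := by ring
    rw [e] at h1
    exact h1
  refine ⟨?_, hup z (mem_ball_self one_pos)⟩
  have hmaps : MapsTo (aff z r) (ball 0 1) (ball z 1) := by
    intro w hw
    rw [mem_ball_zero_iff] at hw
    rw [mem_ball, dist_eq_norm]
    unfold aff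
    rw [add_sub_cancel_left, norm_mul, Complex.norm_real, Real.norm_of_nonneg hrp.le]
    have := norm_nonneg w
    nlinarith
  have hz2 : ball z 1 ⊆ ball z 2 := ball_subset_ball (by norm_num)
  have hφ1 := (hφ.mono hz2).comp isOpen_ball (aff_diff z r).differentiableOn hmaps
  have hnorm : ∀ w ∈ ball (0 : ℂ) 1, ‖fderiv ℝ (fun w => φ (aff z r w)) w‖ =
      r * ‖fderiv ℝ φ (aff z r w)‖ := fun w hw =>
    norm_fderiv_aff (Ψ := φ) hrp.le (hφ.1.differentiableAt (hz2 (hmaps hw)))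
  have h1 := hbd (fun w => φ (aff z r w)) 0 hφ1 (fun w hw => by
    rw [hnorm w hw]
    have h2 := hup _ (hmaps hw)
    calc r * ‖fderiv ℝ φ (aff z r w)‖ ≤ r * (4 * C0) := mul_le_mul_of_nonneg_left h2 hrp.le
      _ = 2 := by rw [hr]; field_simp; norm_num)
  have h0 : aff z r 0 = z := by simp [aff]
  rw [hnorm 0 (mem_ball_self one_pos), hJ.comp φ (ball z 1) isOpen_ball (hφ.mono hz2) (ball 0 1)
    (aff z r) isOpen_ball (aff_diff _ _).differentiableOn hmaps 0 (mem_ball_self one_pos),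
    deriv_aff, Complex.norm_real, Real.norm_of_nonneg hrp.le, h0] at h1
  have h2 := (hG z (mem_ball_self two_pos)).1
  have h3 : r * (1 / 4) ≤ C * (r * ‖fderiv ℝ φ z‖) ^ α :=
    (mul_le_mul_of_nonneg_left h2 hrp.le).trans h1
  have h4 := norm_nonneg (fderiv ℝ φ z)
  have h5 : (r * ‖fderiv ℝ φ z‖) ^ α ≤ ‖fderiv ℝ φ z‖ ^ α :=
    Real.rpow_le_rpow (by positivity) (by nlinarith) hα.le
  have h6 : 0 ≤ ‖fderiv ℝ φ z‖ ^ α := by positivity
  have h7 : r / (4 * (C + 1)) ≤ ‖fderiv ℝ φ z‖ ^ α := by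
    rw [div_le_iff₀ (by positivity)]
    have h8 : C * (r * ‖fderiv ℝ φ z‖) ^ α ≤ C * ‖fderiv ℝ φ z‖ ^ α :=
      mul_le_mul_of_nonneg_left h5 hC
    nlinarith
  calc (r / (4 * (C + 1))) ^ (1 / α) ≤ (‖fderiv ℝ φ z‖ ^ α) ^ (1 / α) :=
        Real.rpow_le_rpow (by positivity) h7 (by positivity)
    _ = ‖fderiv ℝ φ z‖ := by
        rw [← Real.rpow_mul h4, mul_one_div_cancel hα.ne', Real.rpow_one]

end Pool.Agent.Helper65.NC.TWO
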