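import Pool.Agent.Helper65.NC.FIN
import Pool.Agent.Helper65.NC.LIOU
import Pool.Agent.Helper65.NC.GROW
import Pool.Agent.Helper65.NC.LIM
import Pool.Agent.Helper65.NC.SCH
import Pool.Agent.Helper65.NC.TWO
import Pool.Agent.Helper65.NC.CST
import Pool.Agent.Helper65.NC.TRK
import Pool.Agent.Helper65.NC.INV
import Pool.Agent.Helper65.NC.LIFT
import Pool.Agent.Helper65.NC.NHL
import Pool.Agent.Helper65.NC.NEARH
import Pool.Agent.Helper65.NC.NH
import Pool.Agent.Helper65.NC.POI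
import Pool.Agent.Helper65.NC.MONO
import Pool.Agent.Helper65.NC.RM
import Pool.Agent.Helper65.NC.TAU
import Pool.Agent.Helper65.NC.INI
import Pool.Agent.Helper65.NC.RIG
import Pool.Agent.Helper65.NC.REG
import Pool.Agent.Helper65.NC.LOC
import Pool.Agent.Helper65.NC.META
import Pool.Agent.Helper65.NC.METB

/-!
Entire curves in projective manifolds with a pseudometric of nonpositive curvature or with invariant
jet differentials: the modules put together.

The modules were written by helpers 31 (TWO), 32 (CST, NEARH, NH, META), 35 (LIOU, RM, TAU, TRK),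
37 (LIM, SCH), 57 (LIFT), 59 (GROW), 63 (NHL), 65 (the rest), 66 (INV), 89 (REG), 92 (RIG),
95 (POI, MONO, METB), 97 (LOC) and 99 (INI).
-/

set_option autoImplicit false

open Filter Topology MvPolynomial LinearAlgebra.Projectivization Pool.Agent.W602.GT
  Pool.Agent.N155 Pool.Agent.N155.BB Pool.Agent.Helper65.GG

namespace Pool.Agent.Helper65.NC

theorem entire_null {n d : ℕ} {ι ι' κ : Type} {F : ι → MvPolynomial (Fin (n + 1)) ℂ}
    {Z : ι' → MvPolynomial (Fin (n + 1)) ℂ}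
    {η : κ → (Fin (n + 1) → ℂ) → (Fin (n + 1) → ℂ) → (Fin (n + 1) → ℂ) → ℂ}
    {null : (ℂ → ℙ ℂ (Fin (n + 1) → ℂ)) → Prop} {V : Set (Fin (n + 1) → ℂ)}
    (hX : ProjManifold F d) (hZ : ∀ i, IsForm (Z i))
    (hη : PositiveTwoForms (Cone F) (Cone Z) d η) (hN : NullCurves (Cone F) null)
    (hV : ClosedCone V) (hVX : V ⊆ Cone F)
    (hnd : ∀ f, CurveIn V f → ∀ C : ℝ, DerBetween 0 C f →
      (null f ∨ CurveIn (Cone Z) f) → ∀ z w, f z = f w) :
    ∃ S : Finset (ℂ → ℙ ℂ (Fin (n + 1) → ℂ)),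
      (∀ g ∈ S, CurveIn V g ∧ DoublyPeriodic g ∧ ¬ ∀ z w, g z = g w) ∧
      (∀ f, CurveIn V f → (¬ ∀ z w, f z = f w) →
        ∃ g ∈ S, ∃ h : ℂ → ℂ, Differentiable ℂ h ∧ ∀ z, f z = g (h z)) ∧
      (2 ≤ d → ∀ x ∈ Cone F, ∃ P : MvPolynomial (Fin (n + 1)) ℂ, IsForm P ∧
        (∃ᶠ y in 𝓝 x, y ∈ Cone F ∧ eval y P ≠ 0) ∧ ∀ g ∈ S, ∀ z, eval (g z).rep P = 0) := by
  have hS : S_SCH := SCH.main LIM.main
  have hT : S_TWO := TWO.main hS
  have hC : S_CST := CST.main LIOU.main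
  have hRM : S_RM := RM.main POI.main MONO.main MONO.conv
  rcases hN with ⟨r, ρ, hr, hρ, hn⟩ | ⟨N, r, k, σ, hσ, hr, hk, hn⟩
  · exact entire_metric hS LIOU.main GROW.main
      (REG.main POI.main (TAU.main POI.main MONO.main MONO.conv))
      (RIG.main MONO.main hRM (INI.main MONO.main hRM LIM.main hC hS)
        (NH.main (NEARH.main MONO.main)
          (NHL.main hC hT TRK.main (LIFT.main INV.main))))
      hT (META.main (LOC.main POI.main)) METB.main hX hZ hη hρ hr hV hVX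
      fun f h1 C h2 h3 => hnd f h1 C h2 (h3.imp (hn f) id)
  · exact entire_closed hX hZ hη hσ hr hk hV hVX
      fun f h1 C h2 h3 => hnd f h1 C h2 (h3.imp (hn f) id)

end Pool.Agent.Helper65.NC
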