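import Pool.Agent.Helper65.NC.ENG
import Pool.Agent.Helper65.GG.Main
import Pool.Agent.Helper65.GG.Multi

/-!
The forms which vanish along the doubly periodic curves vanish along all entire curves, for
pseudometrics of nonpositive curvature.
-/

set_option autoImplicit false

open Filter Topology Metric MvPolynomial Set

namespace Pool.Agent.Helper65.NC

open Pool.Agent.W602.GT Pool.Agent.N155.BB Pool.Agent.Y190.OP Pool.Agent.N155
  Pool.Agent.N155.GD Pool.Agent.Helper65.BF Pool.Agent.Helper65.GG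

variable {n D : ℕ} {κ' : Type}
  {η : κ' → (Fin (n + 1) → ℂ) → (Fin (n + 1) → ℂ) → (Fin (n + 1) → ℂ) → ℂ}
  {ρ : (ℂ → Mat (n + 1)) → ℂ → ℝ} {T Z : Set (Mat (n + 1))}
  {P : MvPolynomial (Fin (n + 1)) ℂ} {φ : ℂ → Mat (n + 1)}

/-- the choice of the parameters -/
theorem exists_parR {q' ε0 : ℝ} (hq' : 3 ≤ q') (hε : 0 < ε0) : ∃ q : ℝ, 40 ≤ q ∧
    ∀ ν : ℝ, 0 ≤ ν → 1 ≤ Real.log (q' * (ν ^ 3 + 1) ^ 3) ∧
      16 * (Real.log (q' * (ν ^ 3 + 1) ^ 3) + 6) * ν ≤ q * (ν ^ 3 + 1) ∧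
      10 ^ 6 * ((Real.log (q' * (ν ^ 3 + 1) ^ 3) + 11) ^ 3 * ν ^ 4) ≤
        ε0 * (q * (ν ^ 3 + 1) ^ 2) := by
  have hlq : 1 ≤ Real.log q' := by
    rw [Real.le_log_iff_exp_le (by linarith)]
    have := Real.exp_one_lt_d9
    linarith
  set L : ℝ := Real.log q' + 11 with hL
  have hL12 : 12 ≤ L := by linarith
  set q : ℝ := max (64 * (L + 9)) (10 ^ 6 * 16 * (4 * L ^ 3 + 17496) / ε0) with hq
  have hq1 : 64 * (L + 9) ≤ q := le_max_left _ _
  have hq2 : 10 ^ 6 * 16 * (4 * L ^ 3 + 17496) ≤ ε0 * q := by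
    have h1 : 10 ^ 6 * 16 * (4 * L ^ 3 + 17496) / ε0 ≤ q := le_max_right _ _
    rw [div_le_iff₀ hε] at h1
    linarith
  refine ⟨q, by linarith, fun ν hν => ?_⟩
  set y : ℝ := 1 + ν with hy
  have hy1 : 1 ≤ y := by linarith
  set x : ℝ := ν ^ 3 + 1 with hx
  have hν3 : 0 ≤ ν ^ 3 := by positivity
  have hx1 : 1 ≤ x := by linarith
  have hxy : x ≤ y ^ 3 := by
    rw [hx, hy]
    nlinarith [sq_nonneg ν]
  have hyx : y ^ 3 ≤ 4 * x := by
    rw [hx, hy]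
    nlinarith [sq_nonneg (ν - 1), mul_nonneg hν (sq_nonneg (ν - 1))]
  have hly : 0 ≤ Real.log y := Real.log_nonneg hy1
  have hlx : Real.log x ≤ 3 * Real.log y := by
    have h1 := Real.log_le_log (by linarith) hxy
    rw [Real.log_pow] at h1
    push_cast at h1
    exact h1
  have hlx0 : 0 ≤ Real.log x := Real.log_nonneg hx1
  have hK : Real.log (q' * x ^ 3) = Real.log q' + 3 * Real.log x := by
    rw [Real.log_mul (by positivity) (by positivity), Real.log_pow]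
    push_cast
    ring
  rw [hK]
  have hlyy : Real.log y ≤ y := (Real.log_le_sub_one_of_pos (by linarith)).trans (by linarith)
  refine ⟨by linarith, ?_, ?_⟩
  · have h1 : Real.log q' + 3 * Real.log x + 6 ≤ L + 9 * y := by linarith
    have h2 : L + 9 * y ≤ (L + 9) * y := by nlinarith
    have h3 : (Real.log q' + 3 * Real.log x + 6) * ν ≤ (L + 9) * y * y :=
      mul_le_mul (h1.trans h2) (by linarith) hν (by positivity)
    have h4 : y * y ≤ y ^ 3 := by nlinarith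
    have h5 : (L + 9) * y * y ≤ (L + 9) * (4 * x) := by
      have h6 : (L + 9) * y * y = (L + 9) * (y * y) := by ring
      rw [h6]
      exact mul_le_mul_of_nonneg_left (h4.trans hyx) (by linarith)
    calc 16 * (Real.log q' + 3 * Real.log x + 6) * ν =
        16 * ((Real.log q' + 3 * Real.log x + 6) * ν) := by ring
      _ ≤ 16 * ((L + 9) * (4 * x)) := by linarith
      _ = 64 * (L + 9) * x := by ring
      _ ≤ q * x := mul_le_mul_of_nonneg_right hq1 (by linarith)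
  · have h1 : Real.log q' + 3 * Real.log x + 11 ≤ L + 9 * Real.log y := by linarith
    have h10 : 0 ≤ Real.log q' + 3 * Real.log x + 11 := by linarith
    have h2 : (Real.log q' + 3 * Real.log x + 11) ^ 3 ≤ (L + 9 * Real.log y) ^ 3 :=
      pow_le_pow_left₀ h10 h1 3
    have h3 : (L + 9 * Real.log y) ^ 3 ≤ 4 * (L ^ 3 + (9 * Real.log y) ^ 3) := by
      have a0 : 0 ≤ L := by linarith
      have b0 : 0 ≤ 9 * Real.log y := by positivity
      nlinarith [mul_nonneg (add_nonneg a0 b0) (sq_nonneg (L - 9 * Real.log y))]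
    have h4 : Real.log y ^ 3 ≤ 6 * y := by
      have h5 := Real.pow_div_factorial_le_exp (Real.log y) hly 3
      rw [Real.exp_log (by linarith)] at h5
      have h6 : ((Nat.factorial 3 : ℕ) : ℝ) = 6 := by norm_num [Nat.factorial]
      rw [h6, div_le_iff₀ (by norm_num)] at h5
      linarith
    have h5 : (Real.log q' + 3 * Real.log x + 11) ^ 3 ≤ (4 * L ^ 3 + 17496) * y ^ 2 := by
      have h6 : 4 * (L ^ 3 + (9 * Real.log y) ^ 3) ≤ 4 * L ^ 3 + 17496 * y := by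
        have : (9 * Real.log y) ^ 3 = 729 * Real.log y ^ 3 := by ring
        rw [this]
        linarith
      have h7 : y ≤ y ^ 2 := by nlinarith
      have h8 : 1 ≤ y ^ 2 := by nlinarith
      have h9 : 0 ≤ L ^ 3 := by positivity
      nlinarith
    have h6 : ν ^ 4 ≤ y ^ 4 := pow_le_pow_left₀ hν (by linarith) 4
    have h7 : (Real.log q' + 3 * Real.log x + 11) ^ 3 * ν ^ 4 ≤
        (4 * L ^ 3 + 17496) * y ^ 2 * y ^ 4 :=
      mul_le_mul h5 h6 (by positivity) (by positivity)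
    have h8 : y ^ 2 * y ^ 4 ≤ 16 * x ^ 2 := by
      have h9 := pow_le_pow_left₀ (by positivity) hyx 2
      calc y ^ 2 * y ^ 4 = (y ^ 3) ^ 2 := by ring
        _ ≤ (4 * x) ^ 2 := h9
        _ = 16 * x ^ 2 := by ring
    have h9 : (4 * L ^ 3 + 17496) * y ^ 2 * y ^ 4 ≤ (4 * L ^ 3 + 17496) * (16 * x ^ 2) := by
      rw [mul_assoc]
      exact mul_le_mul_of_nonneg_left h8 (by positivity)
    calc 10 ^ 6 * ((Real.log q' + 3 * Real.log x + 11) ^ 3 * ν ^ 4) ≤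
        10 ^ 6 * ((4 * L ^ 3 + 17496) * (16 * x ^ 2)) := by linarith
      _ = 10 ^ 6 * 16 * (4 * L ^ 3 + 17496) * x ^ 2 := by ring
      _ ≤ ε0 * q * x ^ 2 := mul_le_mul_of_nonneg_right hq2 (by positivity)
      _ = _ := by ring

/-- the points near `a` -/
theorem pointR {a : ℂ} {ν A : ℝ} (hA : 0 < A) (hν : 0 ≤ ν) (ha0 : a ≠ 0) {z : ℂ}
    (hz : ‖z - a‖ ≤ ‖a‖ / (8 * (ν ^ 3 + 1))) :
    ∃ ζ : ℂ, ‖ζ - A‖ ≤ A / 4 ∧ fc 1 a ν A ζ = z := by
  have hM1 : 1 ≤ ν ^ 3 + 1 := by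
    have h1 : 0 ≤ ν ^ 3 := by positivity
    linarith
  have hM : 0 < ν ^ 3 + 1 := by linarith
  have ha := norm_pos_iff.2 ha0
  have hA' : (A : ℂ) ≠ 0 := by exact_mod_cast hA.ne'
  set v : ℂ := (z - a) / a with hv
  have hvn : ‖v‖ ≤ 1 / (8 * (ν ^ 3 + 1)) := by
    rw [hv, norm_div, div_le_iff₀ ha]
    refine hz.trans (le_of_eq ?_)
    ring
  have hv8 : ‖v‖ ≤ 1 / 2 := by
    refine hvn.trans ?_
    rw [div_le_div_iff₀ (by positivity) (by norm_num)]
    linarith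
  have hav : a * (1 + v) = z := by
    rw [hv]
    field_simp
    ring
  have h1v : (1 : ℂ) + v ≠ 0 := by
    intro h0
    have h1 : v = -1 := by linear_combination h0
    rw [h1, norm_neg, norm_one] at hv8
    norm_num at hv8
  set u : ℂ := ((ν ^ 3 + 1 : ℝ) : ℂ) * Complex.log (1 + v) with hu
  have hun : ‖u‖ ≤ 3 / 16 := by
    rw [hu, norm_mul, Complex.norm_real, Real.norm_of_nonneg (by positivity)]
    have h1 := Complex.norm_log_one_add_half_le_self hv8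
    calc (ν ^ 3 + 1) * ‖Complex.log (1 + v)‖ ≤
        (ν ^ 3 + 1) * (3 / 2 * (1 / (8 * (ν ^ 3 + 1)))) := by
          apply mul_le_mul_of_nonneg_left _ (by positivity)
          linarith
      _ = 3 / 16 := by
          field_simp
          norm_num
  refine ⟨A * Complex.exp u, ?_, ?_⟩
  · have h1 : (A : ℂ) * Complex.exp u - A = A * (Complex.exp u - 1) := by ring
    rw [h1, norm_mul, Complex.norm_real, Real.norm_of_nonneg hA.le]
    have h2 : ‖Complex.exp u - 1‖ ≤ 1 / 4 := by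
      have h3 := Complex.norm_exp_sub_one_sub_id_le (x := u) (by linarith)
      have h4 := norm_add_le (Complex.exp u - 1 - u) u
      rw [sub_add_cancel] at h4
      have h5 : ‖u‖ ^ 2 ≤ (3 / 16) ^ 2 := pow_le_pow_left₀ (norm_nonneg _) hun 2
      norm_num at h5
      linarith
    calc A * ‖Complex.exp u - 1‖ ≤ A * (1 / 4) := mul_le_mul_of_nonneg_left h2 hA.le
      _ = A / 4 := by ring
  · unfold fc
    have h1 : (A : ℂ) * Complex.exp u / A = Complex.exp u := by field_simp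
    have him := (Complex.abs_im_le_norm u).trans hun
    obtain ⟨h2, h3⟩ := abs_le.1 him
    have hpi := Real.pi_gt_three
    rw [h1, Complex.log_exp (by linarith) (by linarith), hu]
    have h4 : (((1 : ℕ) / (ν ^ 3 + (1 : ℕ)) : ℝ) : ℂ) * (((ν ^ 3 + 1 : ℝ) : ℂ) *
        Complex.log (1 + v)) = Complex.log (1 + v) := by
      rw [← mul_assoc, ← Complex.ofReal_mul]
      have h5 : ((1 : ℕ) : ℝ) / (ν ^ 3 + (1 : ℕ)) * (ν ^ 3 + 1) = 1 := by
        push_cast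
        field_simp
      rw [h5, Complex.ofReal_one, one_mul]
    rw [h4, Complex.exp_log h1v, hav]

/-- curves of length zero are constant -/
theorem const_of_zeroR (hs : S_SCH) (hJ : JR T ρ) (hT : IsCompact T) (hTP : T ⊆ PM)
    (hnd : NDr T ρ) (hφ : CvOn T univ φ) (h0 : ∀ z, ρ φ z = 0) (z : ℂ) : fderiv ℝ φ z = 0 := by
  obtain ⟨C0, hC0, hsch⟩ := hs n T ρ hJ hT hTP hnd
  have h1 : ∀ s : ℝ, 0 < s → ‖fderiv ℝ φ z‖ ≤ C0 / s := fun s hs =>
    hsch φ z s hs (hφ.mono (subset_univ _)) fun w _ => by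
      rw [h0 w, mul_zero]
      exact zero_le_one
  by_contra hcon
  have h2 := norm_pos_iff.2 hcon
  have h3 := h1 (2 * C0 / ‖fderiv ℝ φ z‖) (by positivity)
  have h4 : C0 / (2 * C0 / ‖fderiv ℝ φ z‖) = ‖fderiv ℝ φ z‖ / 2 := by
    field_simp
  rw [h4] at h3
  linarith

/-- Liouville -/
theorem liouR (hL : S_LIOU) (hJ : JR T ρ) (hφ : CvOn T univ φ) (hb : ∃ B, ∀ z, ρ φ z ≤ B)
    (z w : ℂ) : ρ φ z = ρ φ w := by
  obtain ⟨B, hB⟩ := hb
  have h1 : ∀ N : ℝ, ∀ z w, lg N (ρ φ) z = lg N (ρ φ) w := fun N =>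
    hL _ (hJ.sub φ univ isOpen_univ hφ N) ⟨Real.log (max B (Real.exp (-N))), fun z =>
      Real.log_le_log (lt_max_of_lt_right (Real.exp_pos _)) (max_le_max (hB z) le_rfl)⟩
  have h2 : ∀ N : ℝ, ∀ z w, max (ρ φ z) (Real.exp (-N)) = max (ρ φ w) (Real.exp (-N)) := by
    intro N z w
    exact Real.log_injOn_pos (lt_max_of_lt_right (Real.exp_pos _))
      (lt_max_of_lt_right (Real.exp_pos _)) (h1 N z w)
  have key : ∀ z w, ρ φ z ≤ ρ φ w := by
    intro z w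
    by_contra hcon
    push Not at hcon
    have hz : 0 < ρ φ z := (hJ.nonneg φ w).trans_lt hcon
    have h3 := h2 (-Real.log (ρ φ z) + 1) z w
    have e1 : Real.exp (-(-Real.log (ρ φ z) + 1)) < ρ φ z := by
      have : -(-Real.log (ρ φ z) + 1) < Real.log (ρ φ z) := by linarith
      calc Real.exp (-(-Real.log (ρ φ z) + 1)) < Real.exp (Real.log (ρ φ z)) :=
            Real.exp_lt_exp.2 this
        _ = ρ φ z := Real.exp_log hz
    rw [max_eq_left e1.le] at h3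
    have h4 := max_lt hcon e1
    linarith
  exact le_antisymm (key z w) (key w z)

/-- **Vanishing at one point.** -/
theorem core_zeroR (hs : S_SCH) (hL : S_LIOU) (hG : S_GROW) (hR : S_REG) (hT : IsCompact T)
    (hTP : T ⊆ PM) (hJ : JR T ρ) (hnd : NDr T ρ) {S : Finset (ℂ → Mat (n + 1))}
    {R κ ε0 R6 : ℝ} (hκ : 0 < κ) (hε0 : 0 < ε0) (hε1 : ε0 ≤ 1) (hR6 : 0 < R6)
    (hrig : RigP T ρ ε0 R6)
    (hS : ∀ (a : ℂ) (r : ℝ) (φ : ℂ → Mat (n + 1)), CvOn T (ball a r) φ →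
        (∀ w ∈ ball a r, 1 / 4 ≤ ρ φ w ∧ ρ φ w ≤ 4) → ∀ z : ℂ, ‖z - a‖ ≤ r - R →
        ∃ g ∈ S, ∃ w : ℂ, ‖φ z - g w‖ ≤ Real.exp (-κ * ((r - 2) ^ 2 - ‖z - a‖ ^ 2)))
    (hφ : CvOn T univ φ) (hne : ∃ z, ρ φ z ≠ 0) (hP : P.IsHomogeneous D)
    (hPS : ∀ g ∈ S, ∀ w, g w ∈ (PM : Set (Mat (n + 1))) ∧ np P D (g w) = 0) :
    np P D (φ 0) = 0 := by
  by_contra hcon
  have hnp : 0 < np P D (φ 0) := lt_of_le_of_ne (nq_nonneg _ _ _) (Ne.symm hcon)
  set N0 := np P D (φ 0) with hN0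
  obtain ⟨C0, hC0, hsch⟩ := hs n T ρ hJ hT hTP hnd
  obtain ⟨A1, hA1, hmx⟩ := no_max n
  obtain ⟨CP, hCP, hCPb⟩ := np_close hP
  obtain ⟨c, hc, hgrow⟩ := hG (ρ φ)
    (continuousOn_univ.1 (hJ.cont φ univ isOpen_univ hφ)) (hJ.nonneg φ)
    (fun hb => liouR hL hJ hφ hb) hne
  -- constants
  set C2 : ℝ := 1 / c with hC2
  have hC20 : 0 < C2 := by positivity
  set C4 : ℝ := D * A1 * (C0 * (2 * C2 + 3)) ^ 2 + 1 with hC4
  have hC40 : 0 < C4 := by positivity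
  set q' : ℝ := max 3 (32 * (C4 + 1) / κ) with hq'
  have hq'3 : 3 ≤ q' := le_max_left _ _
  have hq'C : 32 * (C4 + 1) ≤ κ * q' := by
    have h1 : 32 * (C4 + 1) / κ ≤ q' := le_max_right _ _
    rw [div_le_iff₀ hκ] at h1
    linarith
  obtain ⟨q, hq40, hpar⟩ := exists_parR hq'3 hε0
  set R1 : ℝ := max (C2 * (8 + 16 * R6)) (max (C2 * (2 * R)) (CP / (N0 * c ^ 2) + 1)) with hR1
  obtain ⟨a, ν, haR, ha1, hν, hga, hin, hgr⟩ := hgrow q (by linarith) R1
  obtain ⟨hK1, hKν, hKq⟩ := hpar ν hν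
  have hap : 0 < ‖a‖ := by linarith
  have ha0 : a ≠ 0 := norm_pos_iff.1 hap
  have hν3 : 0 ≤ ν ^ 3 := by positivity
  have hM : 0 < ν ^ 3 + 1 := by linarith
  have hM1 : 1 ≤ ν ^ 3 + 1 := by linarith
  set K : ℝ := Real.log (q' * (ν ^ 3 + 1) ^ 3) with hK
  have heK : Real.exp K = q' * (ν ^ 3 + 1) ^ 3 := Real.exp_log (by positivity)
  have hgap : 0 < ρ φ a := lt_of_lt_of_le (by positivity) hga
  set B : ℝ := ρ φ a with hB
  have hB0 : 0 < B := hgap
  have hcB : c * Real.exp (ν ^ 2) ≤ B := by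
    refine le_trans ?_ hga
    refine mul_le_mul_of_nonneg_left (Real.exp_le_exp.2 ?_) hc.le
    have := sq_nonneg ν
    nlinarith
  have hMB : ν ^ 3 + 1 ≤ C2 * B := by
    have h1 := cube_le_exp ν
    have h4 : Real.exp (ν ^ 2) = C2 * (c * Real.exp (ν ^ 2)) := by
      rw [hC2]
      field_simp
    rw [h4] at h1
    exact h1.trans (mul_le_mul_of_nonneg_left hcB hC20.le)
  have hc'B : c ≤ B := by
    have h2 : 1 ≤ Real.exp (ν ^ 2) := Real.one_le_exp (sq_nonneg ν)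
    nlinarith
  set A : ℝ := ‖a‖ * B / (ν ^ 3 + 1) with hA
  have hA0 : 0 < A := by positivity
  have hAa : ‖a‖ ≤ C2 * A := by
    rw [hA, mul_div_assoc', le_div_iff₀ hM]
    have h1 : ‖a‖ * (ν ^ 3 + 1) ≤ ‖a‖ * (C2 * B) := mul_le_mul_of_nonneg_left hMB hap.le
    linarith
  have hA16 : 8 + 16 * R6 ≤ A := by
    have h1 : C2 * (8 + 16 * R6) ≤ C2 * A := ((le_max_left _ _).trans haR).trans hAa
    exact le_of_mul_le_mul_left h1 hC20
  have hA8 : 8 ≤ A := by linarith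
  have hA2R : 2 * R ≤ A := by
    have h1 : C2 * (2 * R) ≤ C2 * A :=
      ((le_max_left _ _).trans ((le_max_right _ _).trans haR)).trans hAa
    exact le_of_mul_le_mul_left h1 hC20
  obtain ⟨hreg1, hreg2⟩ := hR n T ρ hJ ε0 R6 hε0 hε1 hR6 hrig φ a ν q K A B hφ ha0 hν
    (by linarith) hK1 hB0 rfl hA (by linarith) hKν hKq hgr
  -- the derivative
  have hder : ∀ z, ‖z‖ ≤ ‖a‖ → ‖fderiv ℝ φ z‖ ≤ C0 * (2 * C2 + 3) * B := fun z hz =>
    deriv_bound (k := 1) (G := fun φ z => ((ρ φ z : ℝ) : ℂ)) one_pos hC0 (fun φ z s hs' h1 h2 =>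
      hsch φ z s hs' h1 fun w hw => by
        have h3 := h2 w hw
        rwa [pow_one, Complex.norm_real, Real.norm_of_nonneg (hJ.nonneg _ _)] at h3) hφ ha1 hν
      hq40 hB0 (by rw [Complex.norm_real, Real.norm_of_nonneg (hJ.nonneg _ _), pow_one])
      (by push_cast; exact hMB) (fun w hw => by
        rw [Complex.norm_real, Complex.norm_real, Real.norm_of_nonneg (hJ.nonneg _ _),
          Real.norm_of_nonneg (hJ.nonneg _ _)]
        exact hin w hw) (fun w t hw ht => by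
        rw [Complex.norm_real, Complex.norm_real, Real.norm_of_nonneg (hJ.nonneg _ _),
          Real.norm_of_nonneg (hJ.nonneg _ _)]
        exact hgr w t hw ht) hz
  set r0 : ℝ := ‖a‖ / (8 * (ν ^ 3 + 1)) with hr0
  have hr0p : 0 < r0 := by positivity
  have hr0a : r0 < ‖a‖ := by
    rw [hr0, div_lt_iff₀ (by positivity)]
    nlinarith
  set H : ℝ := κ * A ^ 2 * Real.exp K / 4 with hH
  have hH0 : 0 ≤ H := by positivity
  have hPM : ∀ z, φ z ∈ (PM : Set (Mat (n + 1))) := fun z => hTP (hφ.2 z (mem_univ z))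
  -- closeness near `a`
  have hclose : ∀ z, ‖z - a‖ ≤ r0 → ∃ g ∈ S, ∃ w : ℂ, ‖φ z - g w‖ ≤ Real.exp (-H) := by
    intro z hz
    obtain ⟨ζ, hζ, hζz⟩ := pointR hA0 hν ha0 hz
    set α : ℝ := A * Real.exp K with hα
    have hα2 : 2 * A ≤ α := by
      have h3 := Real.add_one_le_exp K
      rw [hα]
      nlinarith
    have hd : ‖ζ - α‖ ≤ α - 3 * A / 4 := by
      have h3 : ζ - (α : ℂ) = (ζ - A) - ((α - A : ℝ) : ℂ) := by push_cast; ring
      rw [h3]
      refine (norm_sub_le _ _).trans ?_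
      rw [Complex.norm_real, Real.norm_of_nonneg (by linarith)]
      linarith
    obtain ⟨g, hg, w, hw⟩ := hS _ _ _ hreg1 hreg2 ζ (by linarith)
    refine ⟨g, hg, w, ?_⟩
    rw [hζz] at hw
    refine hw.trans (Real.exp_le_exp.2 ?_)
    have h3 : ‖ζ - α‖ ^ 2 ≤ (α - 3 * A / 4) ^ 2 := pow_le_pow_left₀ (norm_nonneg _) hd 2
    have h4 : A * α / 4 ≤ (α - A / 4 - 2) ^ 2 - ‖ζ - α‖ ^ 2 := by
      have h5 : (α - A / 4 - 2) ^ 2 - (α - 3 * A / 4) ^ 2 = (A / 2 - 2) * (2 * α - A - 2) := by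
        ring
      have h6 : A / 4 * α ≤ (A / 2 - 2) * (2 * α - A - 2) :=
        mul_le_mul (by linarith) (by linarith) (by linarith) (by linarith)
      linarith
    have h5 := mul_le_mul_of_nonneg_left h4 hκ.le
    have h6 : H = κ * (A * α / 4) := by rw [hH, hα]; ring
    rw [h6]
    linarith
  have hfin := max_global (φ := φ) (P := P) (D := D) (A1 := A1) (a := a) (r0 := r0) (H := H)
    (CP := CP) (C := C4 * B ^ 2) hφ.1 hP
    (fun p h C hh hC hm => hmx D P hP φ univ p h C (mem_univ p) hφ.1 hh hC hm)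
    hr0p hr0a hH0 hCP (by positivity) (fun z hz => by
      have h1 := hder z hz
      have h2 := pow_le_pow_left₀ (norm_nonneg _) h1 2
      have h3 : (D : ℝ) * (A1 * ‖fderiv ℝ φ z‖ ^ 2) ≤
          D * (A1 * (C0 * (2 * C2 + 3) * B) ^ 2) :=
        mul_le_mul_of_nonneg_left (mul_le_mul_of_nonneg_left h2 hA1.le) (Nat.cast_nonneg D)
      have h4 : 0 < B ^ 2 := by positivity
      rw [hC4]
      nlinarith) (fun z => (hCPb _ (hPM z)).1) (fun z hz => by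
      obtain ⟨g, hg, w, hw⟩ := hclose z hz
      refine ((hCPb _ (hPM z)).2 _ (hPS g hg w).1 (hPS g hg w).2).trans ?_
      refine mul_le_mul_of_nonneg_left ?_ hCP
      have h1 := pow_le_pow_left₀ (norm_nonneg _) hw 2
      refine h1.trans (le_of_eq ?_)
      rw [← Real.exp_nat_mul]
      congr 1
      push_cast
      ring)
  -- the contradiction
  have hHr : H * r0 / ‖a‖ = κ * q' / 32 * (‖a‖ ^ 2 * B ^ 2) := by
    rw [hH, heK, hr0, hA]
    field_simp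
    ring
  have hexp : Real.exp (C4 * B ^ 2 * ‖a‖ ^ 2) * Real.exp (‖a‖ ^ 2 * B ^ 2) ≤
      Real.exp (H * r0 / ‖a‖) := by
    rw [← Real.exp_add]
    apply Real.exp_le_exp.2
    rw [hHr]
    have h1 : C4 + 1 ≤ κ * q' / 32 := by linarith
    have h2 : 0 ≤ ‖a‖ ^ 2 * B ^ 2 := by positivity
    have h3 := mul_le_mul_of_nonneg_right h1 h2
    linarith
  have h1 : N0 * (Real.exp (C4 * B ^ 2 * ‖a‖ ^ 2) * Real.exp (‖a‖ ^ 2 * B ^ 2)) ≤
      CP * Real.exp (C4 * B ^ 2 * ‖a‖ ^ 2) :=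
    (mul_le_mul_of_nonneg_left hexp hnp.le).trans hfin
  have h2 : N0 * Real.exp (‖a‖ ^ 2 * B ^ 2) ≤ CP := by
    have h3 := Real.exp_pos (C4 * B ^ 2 * ‖a‖ ^ 2)
    have h4 : N0 * Real.exp (‖a‖ ^ 2 * B ^ 2) * Real.exp (C4 * B ^ 2 * ‖a‖ ^ 2) ≤
        CP * Real.exp (C4 * B ^ 2 * ‖a‖ ^ 2) := by linarith
    exact le_of_mul_le_mul_right h4 h3
  have h3 : CP / (N0 * c ^ 2) + 1 ≤ ‖a‖ :=
    (le_max_right _ _).trans ((le_max_right _ _).trans haR)
  have h4 : CP < N0 * (‖a‖ ^ 2 * B ^ 2) := by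
    have h5 : CP / (N0 * c ^ 2) < ‖a‖ ^ 2 := by nlinarith
    rw [div_lt_iff₀ (by positivity)] at h5
    have h6 : c ^ 2 ≤ B ^ 2 := pow_le_pow_left₀ hc.le hc'B 2
    have h7 : ‖a‖ ^ 2 * (N0 * c ^ 2) ≤ N0 * (‖a‖ ^ 2 * B ^ 2) := by
      have h8 : 0 ≤ ‖a‖ ^ 2 * N0 := by positivity
      nlinarith
    linarith
  have h5 := Real.add_one_le_exp (‖a‖ ^ 2 * B ^ 2)
  nlinarith

/-- **The forms which vanish along the doubly periodic curves vanish along all entire curves.** -/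
theorem main_zeroR (hs : S_SCH) (hL : S_LIOU) (hG : S_GROW) (hR : S_REG) (hT : IsCompact T)
    (hTP : T ⊆ PM) (hJ : JR T ρ) (hnd : NDr T ρ) {S : Finset (ℂ → Mat (n + 1))}
    {R κ ε0 R6 : ℝ} (hκ : 0 < κ) (hε0 : 0 < ε0) (hε1 : ε0 ≤ 1) (hR6 : 0 < R6)
    (hrig : RigP T ρ ε0 R6)
    (hS : ∀ (a : ℂ) (r : ℝ) (φ : ℂ → Mat (n + 1)), CvOn T (ball a r) φ →
        (∀ w ∈ ball a r, 1 / 4 ≤ ρ φ w ∧ ρ φ w ≤ 4) → ∀ z : ℂ, ‖z - a‖ ≤ r - R →
        ∃ g ∈ S, ∃ w : ℂ, ‖φ z - g w‖ ≤ Real.exp (-κ * ((r - 2) ^ 2 - ‖z - a‖ ^ 2)))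
    (hφ : CvOn T univ φ) (hne : ∃ z, fderiv ℝ φ z ≠ 0) (hP : P.IsHomogeneous D)
    (hPS : ∀ g ∈ S, ∀ w, g w ∈ (PM : Set (Mat (n + 1))) ∧ np P D (g w) = 0) (z : ℂ) :
    np P D (φ z) = 0 := by
  have hG' : ∃ z, ρ φ z ≠ 0 := by
    by_contra hcon
    push Not at hcon
    obtain ⟨z, hz⟩ := hne
    exact hz (const_of_zeroR hs hJ hT hTP hnd hφ hcon z)
  have hmaps : MapsTo (fun w : ℂ => w + z) univ univ := fun _ _ => mem_univ _
  have hd : DifferentiableOn ℂ (fun w : ℂ => w + z) univ :=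
    (differentiable_id.add_const z).differentiableOn
  have h1 := core_zeroR hs hL hG hR hT hTP hJ hnd hκ hε0 hε1 hR6 hrig hS
    (hφ.comp isOpen_univ hd hmaps) (by
    obtain ⟨w, hw⟩ := hG'
    refine ⟨w - z, ?_⟩
    rw [hJ.comp φ univ isOpen_univ hφ univ _ isOpen_univ hd hmaps (w - z) (mem_univ _)]
    have h2 : deriv (fun w : ℂ => w + z) (w - z) = 1 := by
      rw [deriv_add_const]
      exact deriv_id _
    rw [h2, norm_one, one_mul, sub_add_cancel]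
    exact hw) hP hPS
  simpa using h1

/-- **All entire curves factor through finitely many doubly periodic curves.** -/
theorem core_allR (hs : S_SCH) (hL : S_LIOU) (hG : S_GROW) (hR : S_REG) (hRG : S_RIG)
    (h2 : S_TWO) (hT : IsCompact T) (hTP : T ⊆ PM) (hJ : JR T ρ) (hnd : NDr T ρ)
    (hgw : Rgd T Z η) :
    ∃ (S : Finset (ℂ → Mat (n + 1))) (c0 : ℝ), 0 < c0 ∧
      (∀ g ∈ S, BCw T c0 g ∧ ∃ p q : ℂ, LinearIndependent ℝ ![p, q] ∧
        (∀ z, g (z + p) = g z) ∧ ∀ z, g (z + q) = g z) ∧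
      ∀ φ : ℂ → Mat (n + 1), CvOn T univ φ → (∃ z, fderiv ℝ φ z ≠ 0) →
        ∃ g ∈ S, ∃ h : ℂ → ℂ, Differentiable ℂ h ∧ ∀ z, φ z = g (h z) := by
  classical
  obtain ⟨ε1, R6, hε1, hR6, hrig1⟩ := hRG n T Z ρ κ' η hJ hT hTP hnd hgw
  set ε0 : ℝ := min ε1 1 with hε0
  have hε0p : 0 < ε0 := by positivity
  have hrig : RigP T ρ ε0 R6 := fun φ r N h1 h2 h3 h4 h5 => hrig1 φ r N h1 h2 h3
    (fun z hz => (h4 z hz).trans (Real.exp_le_exp.2 (min_le_left _ _))) h5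
  obtain ⟨S, R, κ, c0, hR0, hκ, hc0, hS, hdisc, -⟩ := eng h2 hT hTP hgw hJ hnd
  refine ⟨S, c0, hc0, hS, fun φ hφ hne => ?_⟩
  have hhol : ∀ g ∈ S, HolP univ g := fun g hg => (hS g hg).1.hol
  refine factor (fun g hg => ⟨(hS g hg).1.hol, fun w h0 => ?_, (hS g hg).2⟩) hφ.1 fun z => ?_
  · have h1 := (hS g hg).1.low w
    rw [h0, norm_zero] at h1
    linarith
  · by_contra hcon
    push Not at hcon
    obtain ⟨F, -, hF⟩ := exists_local hφ.1 z
    have hy := hF.self_of_nhds.1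
    have hchow : ∀ g ∈ S, ∃ (D : ℕ) (P : MvPolynomial (Fin (n + 1)) ℂ), P.IsHomogeneous D ∧
        (∀ z x, OnL (g z) x → eval x P = 0) ∧ eval (F z) P ≠ 0 := by
      intro g hg
      obtain ⟨p, q, hind, hp, hq⟩ := (hS g hg).2
      refine chow (hhol g hg) (hS g hg).1.bd hind hp hq hy.1 fun w hw => ?_
      exact hcon g hg w (by rw [hw]; exact hy.2)
    choose! D P hPh hPg hPy using hchow
    have hPS : (∏ g ∈ S, P g).IsHomogeneous (∑ g ∈ S, D g) := IsHomogeneous.prod _ _ _ hPh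
    have h1 := main_zeroR hs hL hG hR hT hTP hJ hnd hκ hε0p (min_le_right _ _) hR6 hrig hdisc hφ
      hne hPS (fun g hg w => by
      refine ⟨(hhol g hg).mem_PM (mem_univ w), ?_⟩
      obtain ⟨F', -, hF'⟩ := exists_local (hhol g hg) w
      have hx := hF'.self_of_nhds.1
      rw [hx.2, np_Phi hPS hx.1]
      unfold nq
      rw [map_prod, Finset.prod_eq_zero hg (hPg g hg w _ hx), norm_zero,
        zero_pow two_ne_zero, zero_div]) z
    rw [hy.2, np_Phi hPS hy.1] at h1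
    unfold nq at h1
    rw [div_eq_zero_iff] at h1
    rcases h1 with h1 | h1
    · rw [pow_eq_zero_iff two_ne_zero, norm_eq_zero, map_prod, Finset.prod_eq_zero_iff] at h1
      obtain ⟨g, hg, h2⟩ := h1
      exact hPy g hg h2
    · exact (pow_ne_zero _ (BB.sum_pos hy.1).ne') h1

end Pool.Agent.Helper65.NC
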