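import Pool.Agent.Helper65.NC.Stm2

/-!
Curves on discs along which the pseudometric is near 1 are exponentially close to finitely many
doubly periodic curves.
-/

set_option autoImplicit false

open Filter Topology Metric MvPolynomial Set

namespace Pool.Agent.Helper65.NC

open Pool.Agent.W602.GT Pool.Agent.N155.BB Pool.Agent.Y190.OP Pool.Agent.N155
  Pool.Agent.N155.GD Pool.Agent.Helper65.BF Pool.Agent.Helper65.GG

variable {n : ℕ} {κ' : Type}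
  {η : κ' → (Fin (n + 1) → ℂ) → (Fin (n + 1) → ℂ) → (Fin (n + 1) → ℂ) → ℂ}
  {ρ : (ℂ → Mat (n + 1)) → ℂ → ℝ}

/-- **Rigidity.** -/
theorem eng (h2 : S_TWO) {T Z : Set (Mat (n + 1))} (hT : IsCompact T) (hTP : T ⊆ PM)
    (hgw : Rgd T Z η) (hJ : JR T ρ) (hnd : NDr T ρ) :
    ∃ (S : Finset (ℂ → Mat (n + 1))) (R κ c0 : ℝ), 0 < R ∧ 0 < κ ∧ 0 < c0 ∧
      (∀ g ∈ S, BCw T c0 g ∧ ∃ p q : ℂ, LinearIndependent ℝ ![p, q] ∧
        (∀ z, g (z + p) = g z) ∧ ∀ z, g (z + q) = g z) ∧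
      (∀ (a : ℂ) (r : ℝ) (φ : ℂ → Mat (n + 1)), CvOn T (ball a r) φ →
        (∀ w ∈ ball a r, 1 / 4 ≤ ρ φ w ∧ ρ φ w ≤ 4) → ∀ z : ℂ, ‖z - a‖ ≤ r - R →
        ∃ g ∈ S, ∃ w : ℂ, ‖φ z - g w‖ ≤ Real.exp (-κ * ((r - 2) ^ 2 - ‖z - a‖ ^ 2))) ∧
      ∀ φ : ℂ → Mat (n + 1), CvOn T univ φ → (∀ w, 1 / 4 ≤ ρ φ w ∧ ρ φ w ≤ 4) →
        ∃ g ∈ S, ∃ α β : ℂ, α ≠ 0 ∧ ∀ z, φ z = g (α * z + β) := by
  classical
  obtain ⟨c1, C1, hc1, hC1, htwo⟩ := h2 n T ρ hJ hT hTP hnd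
  obtain ⟨hgw, hout0⟩ := hgw
  set ρ1 : ℝ := 2 / C1 with hρ
  have hρ0 : 0 < ρ1 := by positivity
  have hρc : (ρ1 : ℂ) ≠ 0 := by exact_mod_cast hρ0.ne'
  set c0 : ℝ := ρ1 * c1 with hc0
  have hc0p : 0 < c0 := by positivity
  have hcls := BCw.cls hT hTP hc0p
  have hdcl := dcl_of hT hTP hc0p
  have hout : ∀ φ, BCw T c0 φ → ∃ z, φ z ∉ Z := hout0 c0 hc0p
  obtain ⟨S, hS1, hS2⟩ := finite_class hgw hout hcls
  obtain ⟨R0, κ0, hR0, hκ0, hdisc⟩ := disc_close hgw hout hdcl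
  -- the rescaled curves
  have hresc : ∀ (a : ℂ) (U : Set ℂ) (φ : ℂ → Mat (n + 1)),
      CvOn T U φ → (∀ w ∈ U, 1 / 4 ≤ ρ φ w ∧ ρ φ w ≤ 4) →
      ∀ z : ℂ, ball (aff a ρ1 z) 2 ⊆ U →
      φ (aff a ρ1 z) ∈ T ∧ ‖fderiv ℝ (fun z => φ (aff a ρ1 z)) z‖ ≤ 2 ∧
        c0 ≤ ‖fderiv ℝ (fun z => φ (aff a ρ1 z)) z‖ := by
    intro a U φ hφ hG z hz
    have hzU : aff a ρ1 z ∈ U := hz (mem_ball_self two_pos)
    have hnorm : ‖fderiv ℝ (fun z => φ (aff a ρ1 z)) z‖ = ρ1 * ‖fderiv ℝ φ (aff a ρ1 z)‖ :=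
      norm_fderiv_aff (Ψ := φ) hρ0.le (hφ.1.differentiableAt hzU)
    obtain ⟨h1, h2⟩ := htwo φ (aff a ρ1 z) (hφ.mono hz) (fun w hw => hG w (hz hw))
    refine ⟨hφ.2 _ hzU, ?_, ?_⟩
    · rw [hnorm, hρ, div_mul_eq_mul_div, div_le_iff₀ hC1]
      linarith
    · rw [hnorm]
      exact mul_le_mul_of_nonneg_left h1 hρ0.le
  refine ⟨S, ρ1 * R0 + 2, κ0 / ρ1 ^ 2, c0, by positivity, by positivity, hc0p,
    fun g hg => ⟨hS1 g hg, two_periods hgw hout hcls (hS1 g hg)⟩, ?_, ?_⟩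
  · intro a r φ hφ hG z hz
    have hr : ρ1 * R0 ≤ r - 2 := by
      have := norm_nonneg (z - a)
      linarith
    have hmaps : ∀ z ∈ ball (0 : ℂ) ((r - 2) / ρ1), ball (aff a ρ1 z) 2 ⊆ ball a r := by
      intro z hz w hw
      rw [mem_ball_zero_iff, lt_div_iff₀ hρ0] at hz
      rw [mem_ball] at hw ⊢
      have h1 : dist (aff a ρ1 z) a = ρ1 * ‖z‖ := by
        unfold aff
        rw [dist_eq_norm, add_sub_cancel_left, norm_mul, Complex.norm_real,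
          Real.norm_of_nonneg hρ0.le]
      have h2 := dist_triangle w (aff a ρ1 z) a
      rw [h1] at h2
      nlinarith
    have hmem : ∀ z ∈ ball (0 : ℂ) ((r - 2) / ρ1), aff a ρ1 z ∈ ball a r := fun z hz =>
      hmaps z hz (mem_ball_self two_pos)
    have hD : Dw T c0 ((r - 2) / ρ1) (fun z => φ (aff a ρ1 z)) :=
      ⟨(hφ.1.aff a ρ1).mono hmem, fun z hz => (hresc a _ φ hφ hG z (hmaps z hz)).1,
        fun z hz => (hresc a _ φ hφ hG z (hmaps z hz)).2.1,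
        fun z hz => (hresc a _ φ hφ hG z (hmaps z hz)).2.2⟩
    obtain ⟨Q, hQ, hQ2⟩ := hdisc ((r - 2) / ρ1) _ (by
      rw [le_div_iff₀ hρ0]
      linarith) hD
    obtain ⟨g, hg, α, β, hαβ⟩ := hS2 Q hQ
    have hzz : aff a ρ1 ((z - a) / ρ1) = z := by
      unfold aff
      field_simp
      ring
    have hnz : ‖(z - a) / (ρ1 : ℂ)‖ = ‖z - a‖ / ρ1 := by
      rw [norm_div, Complex.norm_real, Real.norm_of_nonneg hρ0.le]
    obtain ⟨w, hw2⟩ := hQ2 ((z - a) / ρ1) (by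
      rw [hnz, div_le_iff₀ hρ0, sub_mul, div_mul_cancel₀ _ hρ0.ne']
      linarith)
    refine ⟨g, hg, α * w + β, ?_⟩
    rw [hzz, hαβ] at hw2
    refine hw2.trans (le_of_eq ?_)
    rw [hnz]
    congr 1
    field_simp
  · intro φ hφ hG
    have hmem : BCw T c0 (fun z => φ (aff 0 ρ1 z)) :=
      ⟨(hφ.1.aff 0 ρ1).mono fun z _ => mem_univ _,
        fun z => (hresc 0 _ φ hφ (fun w _ => hG w) z (subset_univ _)).1,
        fun z => (hresc 0 _ φ hφ (fun w _ => hG w) z (subset_univ _)).2.1,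
        fun z => (hresc 0 _ φ hφ (fun w _ => hG w) z (subset_univ _)).2.2⟩
    obtain ⟨g, hg, α, β, hαβ⟩ := hS2 _ hmem
    obtain ⟨hα, -⟩ := hcls.alpha hmem (hS1 g hg) hαβ
    have hα0 : α ≠ 0 := by
      intro h0
      rw [h0, norm_zero] at hα
      linarith
    refine ⟨g, hg, α / ρ1, β, div_ne_zero hα0 hρc, fun z => ?_⟩
    have h1 := hαβ (z / ρ1)
    have h3 : aff 0 ρ1 (z / ρ1) = z := by
      unfold aff
      rw [zero_add, mul_div_cancel₀ _ hρc]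
    rw [h3] at h1
    have h2 : α / ρ1 * z + β = α * (z / ρ1) + β := by ring
    rw [h2, ← h1]

end Pool.Agent.Helper65.NC
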