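import Pool.Agent.Helper65.NC.MDefs

/-!
Curves without length.
-/

set_option autoImplicit false

open Filter Topology LinearAlgebra.Projectivization Pool.Agent.W602.GT Pool.Agent.N155
  Pool.Agent.Helper65.GG

namespace Pool.Agent.Helper65.NC

variable {n : ℕ}

/-- The curve `f` has length zero for the pseudometric `ρ`: `ρ` is zero at the jets of the local
homogeneous coordinates of `f`. -/
def LengthZero {r : ℕ} (ρ : (Fin (r + 1) → Fin (n + 1) → ℂ) → ℝ)
    (f : ℂ → ℙ ℂ (Fin (n + 1) → ℂ)) : Prop :=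
  ∀ (V : Set ℂ) (g : ℂ → Fin (n + 1) → ℂ), IsOpen V → DifferentiableOn ℂ g V →
    (∀ w ∈ V, ∃ h : g w ≠ 0, f w = Projectivization.mk ℂ (g w) h) → ∀ z ∈ V, ρ (jet r g z) = 0

/-- `null` is the set of the curves of length zero for a pseudometric of nonpositive curvature on
the jets of some positive order of the curves in the projective set with the cone `X`; or the set
of the curves annihilated by finitely many invariant jet differentials of positive orders and
weights on `X`. -/
def NullCurves (X : Set (Fin (n + 1) → ℂ)) (null : (ℂ → ℙ ℂ (Fin (n + 1) → ℂ)) → Prop) : Prop :=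
  (∃ (r : ℕ) (ρ : (Fin (r + 1) → Fin (n + 1) → ℂ) → ℝ), 0 < r ∧ JetMetric X r ρ ∧
    ∀ f, LengthZero ρ f → null f) ∨
  (∃ (N : ℕ) (r k : Fin N → ℕ) (σ : (i : Fin N) → (Fin (r i + 1) → Fin (n + 1) → ℂ) → ℂ),
    (∀ i, JetDiff X (r i) (k i) (σ i)) ∧ (∀ i, 0 < r i) ∧ (∀ i, 0 < k i) ∧
      ∀ f, (∀ i, Annihilates (σ i) f) → null f)

end Pool.Agent.Helper65.NC
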