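import Pool.Agent.Helper65.NC.END
import Pool.Agent.Helper65.NC.Stm3
import Pool.Agent.Helper65.NC.FDefs
import Pool.Agent.Helper65.GG.Thm

/-!
Entire curves in closed subsets of projective manifolds with a jet pseudometric of nonpositive
curvature.
-/

set_option autoImplicit false

open Filter Topology Metric MvPolynomial Set LinearAlgebra.Projectivization

namespace Pool.Agent.Helper65.NC

open Pool.Agent.W602.GT Pool.Agent.N155.BB Pool.Agent.Y190.OP Pool.Agent.N155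
  Pool.Agent.N155.GD Pool.Agent.Helper65.BF Pool.Agent.Helper65.GG

variable {n d r : ℕ} {ι ι' κ' : Type} {F : ι → MvPolynomial (Fin (n + 1)) ℂ}
  {Z : ι' → MvPolynomial (Fin (n + 1)) ℂ}
  {η : κ' → (Fin (n + 1) → ℂ) → (Fin (n + 1) → ℂ) → (Fin (n + 1) → ℂ) → ℂ}
  {ρ : (Fin (r + 1) → Fin (n + 1) → ℂ) → ℝ} {V : Set (Fin (n + 1) → ℂ)}

theorem JR.subset {T T' : Set (Mat (n + 1))} {G : (ℂ → Mat (n + 1)) → ℂ → ℝ} (h : JR T G)
    (hs : T' ⊆ T) : JR T' G where
  nonneg := h.nonneg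
  cont := fun φ U hU hφ => h.cont φ U hU ⟨hφ.1, fun w hw => hs (hφ.2 w hw)⟩
  comp := fun φ U hU hφ => h.comp φ U hU ⟨hφ.1, fun w hw => hs (hφ.2 w hw)⟩
  sub := fun φ U hU hφ => h.sub φ U hU ⟨hφ.1, fun w hw => hs (hφ.2 w hw)⟩
  small := by
    obtain ⟨C, α, hC, hα, hb⟩ := h.small
    exact ⟨C, α, hC, hα, fun φ z hφ => hb φ z ⟨hφ.1, fun w hw => hs (hφ.2 w hw)⟩⟩
  hold := by
    obtain ⟨C, α, hC, hα, hb⟩ := h.hold
    exact ⟨C, α, hC, hα, fun φ ψ z ε hφ hψ => hb φ ψ z ε ⟨hφ.1, fun w hw => hs (hφ.2 w hw)⟩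
      ⟨hψ.1, fun w hw => hs (hψ.2 w hw)⟩⟩

/-- the pseudometric on the curves of matrices -/
theorem jr_of (hA : S_META) (hB : S_METB) (hX : ProjManifold F d) (hρ : JetMetric (Cone F) r ρ)
    (hr : 0 < r) : JR (TF F) (GR ρ) := by
  obtain ⟨-, h2, h3, h4⟩ := hA n d r ι F ρ hX hρ
  obtain ⟨h5, h6⟩ := hB n d r ι F ρ hX hρ hr
  exact ⟨fun φ z => hρ.nonneg _, h2, h3, h4, h5, h6⟩

/-- curves of length zero -/
theorem len_of (hA : S_META) (hX : ProjManifold F d) (hρ : JetMetric (Cone F) r ρ)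
    (hVX : V ⊆ Cone F) {φ : ℂ → Mat (n + 1)} (hφ : BD (Phi '' V) φ) (h0 : ∀ z, GR ρ φ z = 0) :
    LengthZero ρ fun z => toProj (φ z) := by
  intro W g hW hg hfg z hz
  have hga : AnalyticAt ℂ g z := (hg.analyticOnNhd hW) z hz
  rw [← (hA n d r ι F ρ hX hρ).1 φ univ isOpen_univ
    ⟨hφ.hol, fun w _ => V_sub hVX (hφ.mem w)⟩ z (mem_univ z) g hga (by
    filter_upwards [hW.mem_nhds hz] with w hw
    obtain ⟨h1, h2⟩ := hfg w hw
    refine ⟨h1, ?_⟩
    have h3 := Phi_rep_toProj (TF_PM (V_sub hVX (hφ.mem w)))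
    have h4 : toProj (φ w) = Projectivization.mk ℂ (g w) h1 := h2
    rw [h4, Phi_rep_mk] at h3
    exact h3.symm)]
  exact h0 z

/-- the forms vanishing along the curves -/
theorem forms_of (hX : ProjManifold F d) (hVX : V ⊆ Cone F) {S : Finset (ℂ → Mat (n + 1))} {c0 : ℝ}
    (hS : ∀ g ∈ S, BCw (Phi '' V) c0 g ∧ ∃ p q : ℂ, LinearIndependent ℝ ![p, q] ∧
        (∀ z, g (z + p) = g z) ∧ ∀ z, g (z + q) = g z) (hd : 2 ≤ d) {x : Fin (n + 1) → ℂ}
    (hx : x ∈ Cone F) : ∃ P : MvPolynomial (Fin (n + 1)) ℂ, IsForm P ∧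
        (∃ᶠ y in 𝓝 x, y ∈ Cone F ∧ eval y P ≠ 0) ∧
        ∀ g ∈ S, ∀ z, eval (toProj (g z)).rep P = 0 := by
  classical
  have _ := hVX
  obtain ⟨i, J, U, Ψ, hxi, hU, hxU, hΨ, hΨX, hev⟩ := hX.smooth x hx
  set j0 : Fin d := ⟨0, by omega⟩ with hj0
  set j1 : Fin d := ⟨1, by omega⟩ with hj1
  have hj01 : j0 ≠ j1 := by
    intro h
    have := congrArg Fin.val h
    simp [hj0, hj1] at this
  set t : Fin 3 → Fin (n + 1) := ![i, J j0, J j1] with ht
  have hform : ∀ g ∈ S, ∃ (D : ℕ) (Q : MvPolynomial (Fin 3) ℂ), Q ≠ 0 ∧ Q.IsHomogeneous D ∧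
      ∀ z, np (rename t Q) D (g z) = 0 := by
    intro g hg
    obtain ⟨h1, p, q, hind, hp, hq⟩ := hS g hg
    exact exists_form t h1.hol h1.bd hind hp hq
  choose! D Q hQ0 hQh hQz using hform
  set Q0 : MvPolynomial (Fin 3) ℂ := ∏ g ∈ S, Q g with hQ0def
  have hQ0ne : Q0 ≠ 0 := Finset.prod_ne_zero_iff.2 hQ0
  have hQ0h : Q0.IsHomogeneous (∑ g ∈ S, D g) := IsHomogeneous.prod _ _ _ hQh
  refine ⟨rename t Q0, ⟨_, hQ0h.rename_isHomogeneous⟩, ?_, fun g hg z => ?_⟩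
  · intro hcon
    -- the form vanishes near a point
    have hcon' : ∀ᶠ y in 𝓝 x, y ∈ Cone F → eval y (rename t Q0) = 0 := by
      filter_upwards [hcon] with y hy hyF
      by_contra h1
      exact hy ⟨hyF, h1⟩
    apply hQ0ne
    set y0 : Fin 3 → ℂ := fun a => x (t a) with hy0
    have hy00 : y0 0 = x i := rfl
    set u : (Fin 3 → ℂ) → Fin d → ℂ := fun y k => if k = j0 then y 1 / y 0 else
      if k = j1 then y 2 / y 0 else x (J k) / x i with hu
    have hu0 : u y0 = fun k => x (J k) / x i := by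
      funext k
      rw [hu]
      simp only
      split_ifs with h1 h2
      · rw [h1]
        rfl
      · rw [h2]
        rfl
      · rfl
    have huc : ContinuousAt u y0 := by
      rw [continuousAt_pi]
      intro k
      rw [hu]
      simp only
      have hc0 : ContinuousAt (fun y : Fin 3 → ℂ => y 0) y0 := (continuous_apply 0).continuousAt
      split_ifs with h1 h2
      · exact ContinuousAt.div (continuous_apply 1).continuousAt hc0 hxi
      · exact ContinuousAt.div (continuous_apply 2).continuousAt hc0 hxi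
      · exact continuousAt_const
    have hself := hev.self_of_nhds hx
    have hXc : ContinuousAt (fun y : Fin 3 → ℂ => y 0 • Ψ (u y)) y0 := by
      refine ContinuousAt.smul (continuous_apply 0).continuousAt ?_
      have h1 : ContinuousAt Ψ (u y0) := by
        rw [hu0]
        exact (hΨ _ hxU).continuousAt
      exact ContinuousAt.comp (f := u) h1 huc
    have hX0 : y0 0 • Ψ (u y0) = x := by
      rw [hu0, hy00]
      exact hself.symm
    have h1 : ∀ᶠ y in 𝓝 y0, eval y Q0 = 0 := by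
      have e1 : ∀ᶠ y in 𝓝 y0, (y 0 • Ψ (u y) ∈ Cone F → eval (y 0 • Ψ (u y)) (rename t Q0) = 0) := by
        have h2 : Tendsto (fun y : Fin 3 → ℂ => y 0 • Ψ (u y)) (𝓝 y0) (𝓝 x) := by
          have := hXc.tendsto
          rwa [hX0] at this
        exact h2.eventually hcon'
      have e2 : ∀ᶠ y in 𝓝 y0, u y ∈ U := huc.eventually_mem (hU.mem_nhds (by rwa [hu0]))
      have e3 : ∀ᶠ y in 𝓝 y0, y 0 ≠ 0 :=
        (continuous_apply (0 : Fin 3)).continuousAt.eventually_ne hxi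
      filter_upwards [e1, e2, e3] with y hy1 hy2 hy3
      obtain ⟨h3, h4, h5⟩ := hΨX _ hy2
      have h6 := hy1 (cone_smul hX.form h3 hy3)
      rw [eval_rename] at h6
      rw [← h6]
      congr 1
      have h7 : (y 0 • Ψ (u y)) ∘ t = y := by
        funext a
        simp only [Function.comp, Pi.smul_apply, smul_eq_mul]
        fin_cases a
        · change y 0 * Ψ (u y) i = y 0
          rw [h4, mul_one]
        · change y 0 * Ψ (u y) (J j0) = y 1
          rw [h5 j0, hu]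
          simp only [if_true]
          field_simp
        · change y 0 * Ψ (u y) (J j1) = y 2
          rw [h5 j1, hu]
          simp only [if_neg hj01.symm, if_true]
          field_simp
      rw [h7]
    have h2 : (fun y : Fin 3 → ℂ => eval y Q0) = fun _ => 0 :=
      (AnalyticOnNhd.eval_mvPolynomial Q0).eq_of_eventuallyEq analyticOnNhd_const h1
    exact MvPolynomial.funext fun y => by
      rw [map_zero]
      exact congrFun h2 y
  · have h1 := hQz g hg z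
    have h2 : eval (toProj (g z)).rep (rename t (Q g)) = 0 := np_eq_zero.1 h1
    rw [hQ0def, map_prod, map_prod]
    exact Finset.prod_eq_zero hg h2

/-- **Entire curves in closed sets.** -/
theorem entire_metric (hs : S_SCH) (hL : S_LIOU) (hG : S_GROW) (hR : S_REG) (hRG : S_RIG)
    (h2 : S_TWO) (hA : S_META) (hB : S_METB) (hX : ProjManifold F d)
    (hZf : ∀ i, IsForm (Z i)) (hη : PositiveTwoForms (Cone F) (Cone Z) d η)
    (hρ : JetMetric (Cone F) r ρ) (hr : 0 < r) (hV : ClosedCone V) (hVX : V ⊆ Cone F)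
    (hnd : ∀ f, CurveIn V f → ∀ C : ℝ, DerBetween 0 C f →
      (LengthZero ρ f ∨ CurveIn (Cone Z) f) → ∀ z w, f z = f w) :
    ∃ S : Finset (ℂ → ℙ ℂ (Fin (n + 1) → ℂ)),
      (∀ g ∈ S, CurveIn V g ∧ DoublyPeriodic g ∧ ¬ ∀ z w, g z = g w) ∧
      (∀ f, CurveIn V f → (¬ ∀ z w, f z = f w) →
        ∃ g ∈ S, ∃ h : ℂ → ℂ, Differentiable ℂ h ∧ ∀ z, f z = g (h z)) ∧
      (2 ≤ d → ∀ x ∈ Cone F, ∃ P : MvPolynomial (Fin (n + 1)) ℂ, IsForm P ∧
        (∃ᶠ y in 𝓝 x, y ∈ Cone F ∧ eval y P ≠ 0) ∧ ∀ g ∈ S, ∀ z, eval (g z).rep P = 0) := by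
  classical
  have hsub : Phi '' V ⊆ TF F := V_sub hVX
  have hTP : Phi '' V ⊆ PM := hsub.trans TF_PM
  have hT := compact_V hV hVX
  have hJ : JR (Phi '' V) (GR ρ) := (jr_of hA hB hX hρ hr).subset hsub
  have hND : NDr (Phi '' V) (GR ρ) := by
    intro φ hφ h0 z
    obtain ⟨h1, ⟨C, h2⟩, h3⟩ := curve_of hV hVX hφ
    exact const_of_toProj hVX hφ.mem (hnd _ h1 C h2 (Or.inl (len_of hA hX hρ hVX hφ h0))) z
  have hgw := gw_mono (gw_of hX hZf hη) hsub
  have hout : ∀ c : ℝ, 0 < c → ∀ φ, BCw (Phi '' V) c φ → ∃ z, φ z ∉ TF Z := by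
    intro c hc φ hφ
    by_contra hcon
    push Not at hcon
    obtain ⟨h1, ⟨C, h2⟩, h3⟩ := curve_of hV hVX ⟨hφ.hol, hφ.mem, hφ.bd⟩
    have h4 := const_of_toProj hVX hφ.mem (hnd _ h1 C h2 (Or.inr ⟨h1.1, fun z =>
      rep_toProj hZf (hcon z)⟩)) 0
    have h5 := hφ.low 0
    rw [h4, norm_zero] at h5
    linarith
  obtain ⟨S, c0, hc0, hS, hfac⟩ := core_allR hs hL hG hR hRG h2 hT hTP hJ hND ⟨hgw, hout⟩
  refine ⟨S.image fun φ z => toProj (φ z), fun g hg => ?_, fun f hf hne => ?_, fun hd x hx => ?_⟩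
  · obtain ⟨φ, hφ, rfl⟩ := Finset.mem_image.1 hg
    obtain ⟨h1, p, q, hind, hp, hq⟩ := hS φ hφ
    obtain ⟨h2, -, -⟩ := curve_of hV hVX ⟨h1.hol, h1.mem, h1.bd⟩
    refine ⟨h2, ?_, fun hcon => ?_⟩
    · obtain ⟨L, hL⟩ := pair_periods hind hp hq
      exact ⟨L, fun l hl z => by
        change toProj (φ (z + l)) = toProj (φ z)
        rw [hL l hl z]⟩
    · have h3 := h1.low 0
      rw [const_of_toProj hVX h1.mem hcon, norm_zero] at h3
      linarith
  · obtain ⟨g, hg, h, hh, hfg⟩ := hfac (fun z => Phi (f z).rep)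
      ⟨holP_of_map hf.1, fun z _ => ⟨_, hf.2 z, rfl⟩⟩ (nonconst_of hf.1 hne)
    refine ⟨_, Finset.mem_image_of_mem _ hg, h, hh, fun z => ?_⟩
    rw [← hfg z, toProj_Phi_rep]
  · obtain ⟨P, hP1, hP2, hP3⟩ := forms_of hX hVX hS hd hx
    refine ⟨P, hP1, hP2, fun g hg z => ?_⟩
    obtain ⟨φ, hφ, rfl⟩ := Finset.mem_image.1 hg
    exact hP3 φ hφ z

end Pool.Agent.Helper65.NC
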